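import Pool.Agent.Run7.h574.PairG

/-!
# Two invariant subgroups, one-sided version
-/

set_option autoImplicit false
set_option linter.unusedSectionVars false
set_option linter.dupNamespace false

namespace Run7.h574

section

variable {G : Type} [Group G] (χ : G →* Multiplicative ℤ)

/-- **Two invariant subgroups**, one-sided abstract version. -/
theorem pair_group_one {α : Type} [Finite α] (e : χ.ker ≃* FreeGroup α) (hG : LERF G)
    {A C : Subgroup G} (hAk : A ≤ χ.ker) (hCk : C ≤ χ.ker) (hA : A.FG) (hC : C.FG) {u : G}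
    (hu : χ u ≠ 1) (hAu : ∀ x, x ∈ A ↔ u * x * u⁻¹ ∈ A) (hCu : ∀ x, x ∈ C ↔ u * x * u⁻¹ ∈ C)
    (hcyc : IsCyclic (A ⊓ C : Subgroup G)) (hidxC : (A ⊓ C).relIndex C = 0)
    (hTA : IsCyclic A ∨ HSep (A ⊔ Subgroup.zpowers u : Subgroup G) ∨ Nonempty (A ≃* F2)) :
    ∃ (J : ℤ) (z : G), J ≠ 0 ∧ z ∈ A ⊓ C ∧ ∀ y ∈ A, Commute (z * u ^ J) y := by
  obtain ⟨ψ, E, d, hd, hE, hχE⟩ := exists_mt χ e ⟨u, hu⟩
  let f : FreeGroup α →* G := E.toMonoidHom.comp SemidirectProduct.inl
  have hf : ∀ x, f x = (e.symm x : G) := hE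
  have hfinj : Function.Injective f := E.injective.comp SemidirectProduct.inl_injective
  have hfr : ∀ B : Subgroup G, B ≤ χ.ker → (B.comap f).map f = B := by
    intro B hB
    rw [Subgroup.map_comap_eq]
    apply inf_eq_right.mpr
    intro x hx
    exact ⟨e ⟨x, hB hx⟩, by rw [hf, MulEquiv.symm_apply_apply]⟩
  have hfe : ∀ B : Subgroup G, B ≤ χ.ker → ∀ x ∈ B, ∃ y ∈ B.comap f, f y = x := by
    intro B hB x hx
    rw [← hfr B hB] at hx
    exact hx
  have hfg : ∀ B : Subgroup G, B ≤ χ.ker → B.FG → (B.comap f).FG := by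
    intro B hB hBfg
    apply fg_of_map f hfinj
    rw [hfr B hB]
    exact hBfg
  have hiso : ∀ B : Subgroup G, B ≤ χ.ker → Nonempty ((B.comap f) ≃* B) := by
    intro B hB
    refine ⟨MulEquiv.ofBijective
      ({ toFun := fun x => ⟨f x, x.2⟩
         map_one' := Subtype.ext (map_one f)
         map_mul' := fun a b => Subtype.ext (map_mul f _ _) } : B.comap f →* B) ⟨?_, ?_⟩⟩
    · intro a b hab
      exact Subtype.ext (hfinj (congrArg Subtype.val hab))
    · rintro ⟨x, hx⟩
      obtain ⟨y, hy, hyx⟩ := hfe B hB x hx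
      exact ⟨⟨y, hy⟩, Subtype.ext hyx⟩
  set u' : MT ψ := E.symm u with hu'
  have hEu : E u' = u := MulEquiv.apply_symm_apply E u
  have hchi : chi ψ u' ≠ 0 := by
    intro h3
    have h1 := hχE u'
    rw [h3, mul_zero, hEu] at h1
    exact hu (Multiplicative.toAdd.injective h1)
  have hfcj : ∀ x, f (cj ψ u' x) = u * f x * u⁻¹ := by
    intro x
    show E (SemidirectProduct.inl (cj ψ u' x)) = u * E (SemidirectProduct.inl x) * u⁻¹
    rw [← cj_spec, map_mul, map_mul, map_inv, hEu]
  have hinv : ∀ B : Subgroup G, (∀ x, x ∈ B ↔ u * x * u⁻¹ ∈ B) →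
      ∀ x, cj ψ u' x ∈ B.comap f ↔ x ∈ B.comap f := by
    intro B hB x
    rw [Subgroup.mem_comap, Subgroup.mem_comap, hfcj, ← hB]
  have hrel : ∀ B : Subgroup G, B ≤ χ.ker → (A ⊓ C).relIndex B = 0 →
      (A.comap f ⊓ C.comap f).relIndex (B.comap f) = 0 := by
    intro B hB h
    rw [← Subgroup.comap_inf, Subgroup.relIndex_comap, hfr B hB]
    exact h
  have hcyc' : IsCyclic (A.comap f ⊓ C.comap f : Subgroup (FreeGroup α)) := by
    let κ : (A.comap f ⊓ C.comap f : Subgroup (FreeGroup α)) →* (A ⊓ C : Subgroup G) :=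
      { toFun := fun x => ⟨f x, x.2⟩
        map_one' := Subtype.ext (map_one f)
        map_mul' := fun a b => Subtype.ext (map_mul f _ _) }
    refine isCyclic_of_injective κ ?_
    intro a b hab
    exact Subtype.ext (hfinj (congrArg Subtype.val hab))
  have htame : ∀ B : Subgroup G, B ≤ χ.ker →
      (IsCyclic B ∨ HSep (B ⊔ Subgroup.zpowers u : Subgroup G) ∨ Nonempty (B ≃* F2)) →
      TamePair ψ (B.comap f) u' := by
    intro B hB h
    obtain ⟨i⟩ := hiso B hB
    rcases h with h | h | h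
    · exact Or.inl (isCyclic_of_injective i.toMonoidHom i.injective)
    · right; left
      have hm : ∀ g ∈ Subgroup.closure (insert u' (SemidirectProduct.inl ''
          ((B.comap f : Subgroup (FreeGroup α)) : Set (FreeGroup α))) : Set (MT ψ)),
          E g ∈ B ⊔ Subgroup.zpowers u := by
        intro g hg
        have h1 : Subgroup.closure (insert u' (SemidirectProduct.inl ''
          ((B.comap f : Subgroup (FreeGroup α)) : Set (FreeGroup α))) : Set (MT ψ)) ≤
          (B ⊔ Subgroup.zpowers u).comap E.toMonoidHom := by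
          rw [Subgroup.closure_le]
          rintro g (rfl | ⟨x, hx, rfl⟩)
          · show E u' ∈ B ⊔ Subgroup.zpowers u
            rw [hEu]
            exact Subgroup.mem_sup_right (Subgroup.mem_zpowers u)
          · exact Subgroup.mem_sup_left hx
        exact h1 hg
      let κ : Subgroup.closure (insert u' (SemidirectProduct.inl ''
          ((B.comap f : Subgroup (FreeGroup α)) : Set (FreeGroup α))) : Set (MT ψ)) →*
          (B ⊔ Subgroup.zpowers u : Subgroup G) :=
        { toFun := fun g => ⟨E g, hm g g.2⟩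
          map_one' := Subtype.ext (map_one E)
          map_mul' := fun a b => Subtype.ext (map_mul E _ _) }
      apply hsep_inj h κ
      intro a b hab
      exact Subtype.ext (E.injective (congrArg Subtype.val hab))
    · exact Or.inr (Or.inr (h.map fun j => i.trans j))
  obtain ⟨J, z, hJ, hz, h1⟩ := pair_one (lerf_equiv hG E) (hfg A hAk hA) (hfg C hCk hC) hchi
    (hinv A hAu) (hinv C hCu) hcyc' (hrel C hCk hidxC) (htame A hAk hTA)
  have hEz : E (SemidirectProduct.inl z * u' ^ J) = f z * u ^ J := by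
    rw [map_mul, map_zpow, hEu]
    rfl
  refine ⟨J, f z, hJ, hz, ?_⟩
  intro y hy
  obtain ⟨x, hx, rfl⟩ := hfe A hAk y hy
  have h3 := (h1 x hx).map E.toMonoidHom
  rw [← hEz]
  exact h3

end

end Run7.h574
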