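import Pool.Agent.Run7.h574.RankTwoD

/-!
# An automorphism of a free group of rank two which is trivial on the abelianization is inner
-/

set_option autoImplicit false
set_option linter.unusedSectionVars false
set_option linter.dupNamespace false

namespace Run7.h574

open FreeGroup (of)

lemma aut_ext {ψ ψ' : MulAut F2} (h0 : ψ (of 0) = ψ' (of 0)) (h1 : ψ (of 1) = ψ' (of 1)) :
    ψ = ψ' := by
  have h : ψ.toMonoidHom = ψ'.toMonoidHom := by
    apply FreeGroup.ext_hom
    intro j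
    fin_cases j
    · exact h0
    · exact h1
  ext x
  exact DFunLike.congr_fun h x

/-- swap -/
def sg : MulAut F2 :=
  MonoidHom.toMulEquiv (FreeGroup.lift ![of 1, of 0]) (FreeGroup.lift ![of 1, of 0])
    (by ext j; fin_cases j <;> simp) (by ext j; fin_cases j <;> simp)

/-- sign -/
def ep : MulAut F2 :=
  MonoidHom.toMulEquiv (FreeGroup.lift ![(of 0)⁻¹, of 1]) (FreeGroup.lift ![(of 0)⁻¹, of 1])
    (by ext j; fin_cases j <;> simp) (by ext j; fin_cases j <;> simp)

/-- transvection -/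
def mu : MulAut F2 :=
  MonoidHom.toMulEquiv (FreeGroup.lift ![of 0 * of 1, of 1])
    (FreeGroup.lift ![of 0 * (of 1)⁻¹, of 1])
    (by ext j; fin_cases j <;> simp) (by ext j; fin_cases j <;> simp)

lemma sg0 : sg (of 0) = of 1 := by
  show FreeGroup.lift (![of 1, of 0] : Fin 2 → F2) (of (0 : Fin 2)) = _
  simp

lemma sg1 : sg (of 1) = of 0 := by
  show FreeGroup.lift (![of 1, of 0] : Fin 2 → F2) (of (1 : Fin 2)) = _
  simp

lemma ep0 : ep (of 0) = (of 0)⁻¹ := by
  show FreeGroup.lift (![(of 0)⁻¹, of 1] : Fin 2 → F2) (of (0 : Fin 2)) = _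
  simp

lemma ep1 : ep (of 1) = of 1 := by
  show FreeGroup.lift (![(of 0)⁻¹, of 1] : Fin 2 → F2) (of (1 : Fin 2)) = _
  simp

lemma mu0 : mu (of 0) = of 0 * of 1 := by
  show FreeGroup.lift (![of 0 * of 1, of 1] : Fin 2 → F2) (of (0 : Fin 2)) = _
  simp

lemma mu1 : mu (of 1) = of 1 := by
  show FreeGroup.lift (![of 0 * of 1, of 1] : Fin 2 → F2) (of (1 : Fin 2)) = _
  simp

lemma mui0 : mu⁻¹ (of 0) = of 0 * (of 1)⁻¹ := by
  show FreeGroup.lift (![of 0 * (of 1)⁻¹, of 1] : Fin 2 → F2) (of (0 : Fin 2)) = _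
  simp

lemma mui1 : mu⁻¹ (of 1) = of 1 := by
  show FreeGroup.lift (![of 0 * (of 1)⁻¹, of 1] : Fin 2 → F2) (of (1 : Fin 2)) = _
  simp

/-- the other transvection -/
def la : MulAut F2 := sg * mu * sg

lemma la0 : la (of 0) = of 0 := by
  show sg (mu (sg (of 0))) = _
  rw [sg0, mu1, sg1]

lemma la1 : la (of 1) = of 1 * of 0 := by
  show sg (mu (sg (of 1))) = _
  rw [sg1, mu0, map_mul, sg0, sg1]

lemma sg_sq : sg * sg = 1 := by
  apply aut_ext
  · show sg (sg (of 0)) = of 0
    rw [sg0, sg1]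
  · show sg (sg (of 1)) = of 1
    rw [sg1, sg0]

lemma ep_sq : ep * ep = 1 := by
  apply aut_ext
  · show ep (ep (of 0)) = of 0
    rw [ep0, map_inv, ep0, inv_inv]
  · show ep (ep (of 1)) = of 1
    rw [ep1, ep1]

lemma sg_mu : mu * sg = sg * la := by
  unfold la
  rw [← mul_assoc, ← mul_assoc, sg_sq, one_mul]

lemma sg_la : la * sg = sg * mu := by
  unfold la
  rw [mul_assoc, sg_sq, mul_one]

lemma ep_la : ep * la * ep = la⁻¹ := by
  rw [eq_inv_iff_mul_eq_one]
  apply aut_ext
  · show ep (la (ep (la (of 0)))) = of 0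
    rw [la0, ep0, map_inv, la0, map_inv, ep0, inv_inv]
  · show ep (la (ep (la (of 1)))) = of 1
    rw [la1, map_mul, ep1, ep0, map_mul, la1, map_inv, la0, map_mul, map_mul, ep1, ep0, map_inv,
      ep0]
    group

lemma conj_mul_aut (ψ : MulAut F2) (g : F2) : ψ * MulAut.conj g = MulAut.conj (ψ g) * ψ := by
  ext x
  show ψ (g * x * g⁻¹) = ψ g * ψ x * (ψ g)⁻¹
  rw [map_mul, map_mul, map_inv]

lemma ep_mu : ep * mu * ep = MulAut.conj (of 1)⁻¹ * mu⁻¹ := by
  apply aut_ext
  · show ep (mu (ep (of 0))) = (of 1)⁻¹ * mu⁻¹ (of 0) * ((of 1)⁻¹)⁻¹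
    rw [ep0, map_inv, mu0, map_inv, map_mul, ep0, ep1, mui0]
    group
  · show ep (mu (ep (of 1))) = (of 1)⁻¹ * mu⁻¹ (of 1) * ((of 1)⁻¹)⁻¹
    rw [ep1, mu1, ep1, mui1]
    group

lemma la_mui : la * mu⁻¹ * la = MulAut.conj (of 1) * (sg * ep) := by
  apply aut_ext
  · show la (mu⁻¹ (la (of 0))) = of 1 * (sg (ep (of 0))) * (of 1)⁻¹
    rw [la0, mui0, map_mul, map_inv, la0, la1, ep0, map_inv, sg0]
    group
  · show la (mu⁻¹ (la (of 1))) = of 1 * (sg (ep (of 1))) * (of 1)⁻¹
    rw [la1, map_mul, mui1, mui0, map_mul, map_mul, map_inv, la0, la1, ep1, sg1]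
    group

/-- signed permutations -/
def Dg : Subgroup (MulAut F2) := Subgroup.closure {sg, ep}

lemma sg_mem : sg ∈ Dg := Subgroup.subset_closure (Or.inl rfl)
lemma ep_mem : ep ∈ Dg := Subgroup.subset_closure (Or.inr rfl)

/-- positive automorphisms -/
def Pg : Submonoid (MulAut F2) := Submonoid.closure {mu, la}

lemma mu_mem : mu ∈ Pg := Submonoid.subset_closure (Or.inl rfl)
lemma la_mem : la ∈ Pg := Submonoid.subset_closure (Or.inr rfl)

lemma swap_pos {p : MulAut F2} (hp : p ∈ Pg) : sg * p * sg ∈ Pg := by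
  unfold Pg at hp
  induction hp using Submonoid.closure_induction with
  | mem x hx =>
    rcases hx with rfl | rfl
    · exact la_mem
    · have : sg * la * sg = mu := by rw [mul_assoc, sg_la, ← mul_assoc, sg_sq, one_mul]
      rw [this]
      exact mu_mem
  | one => rw [mul_one, sg_sq]; exact Pg.one_mem
  | mul x y _ _ hx hy =>
    have : sg * (x * y) * sg = (sg * x * sg) * (sg * y * sg) := by
      have h : sg * (x * y) * sg = sg * x * (sg * sg) * y * sg := by rw [sg_sq]; group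
      rw [h]; group
    rw [this]
    exact Pg.mul_mem hx hy

/-- the set of products of an inner automorphism, signed permutations and a positive one -/
def XX : Set (MulAut F2) :=
  {ψ | ∃ g : F2, ∃ d ∈ Dg, ∃ p ∈ Pg, ∃ d' ∈ Dg, ψ = MulAut.conj g * d * p * d'}

lemma xx_inner {ψ : MulAut F2} (h : ψ ∈ XX) (g : F2) : MulAut.conj g * ψ ∈ XX := by
  obtain ⟨g', d, hd, p, hp, d', hd', rfl⟩ := h
  refine ⟨g * g', d, hd, p, hp, d', hd', ?_⟩
  rw [map_mul]
  group

lemma xx_left {ψ : MulAut F2} (h : ψ ∈ XX) {e : MulAut F2} (he : e ∈ Dg) : e * ψ ∈ XX := by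
  obtain ⟨g', d, hd, p, hp, d', hd', rfl⟩ := h
  refine ⟨e g', e * d, Dg.mul_mem he hd, p, hp, d', hd', ?_⟩
  have := conj_mul_aut e g'
  calc e * (MulAut.conj g' * d * p * d') = (e * MulAut.conj g') * d * p * d' := by group
    _ = _ := by rw [this]; group

lemma xx_right {ψ : MulAut F2} (h : ψ ∈ XX) {e : MulAut F2} (he : e ∈ Dg) : ψ * e ∈ XX := by
  obtain ⟨g', d, hd, p, hp, d', hd', rfl⟩ := h
  exact ⟨g', d, hd, p, hp, d' * e, Dg.mul_mem hd' he, by group⟩

lemma xx_pos {p : MulAut F2} (hp : p ∈ Pg) : p ∈ XX :=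
  ⟨1, 1, Dg.one_mem, p, hp, 1, Dg.one_mem, by simp⟩

lemma xx_mui {p : MulAut F2} (hp : p ∈ Pg) : p * mu⁻¹ ∈ XX := by
  unfold Pg at hp
  induction hp using Submonoid.closure_induction_right with
  | one =>
    rw [one_mul]
    have h1 : mu⁻¹ = MulAut.conj (of 1) * (ep * mu * ep) := by
      rw [ep_mu, ← mul_assoc, ← map_mul, mul_inv_cancel, map_one, one_mul]
    rw [h1]
    exact xx_inner (xx_right (xx_left (xx_pos mu_mem) ep_mem) ep_mem) _
  | mul_right x hx y hy ih =>
    have hx' : x ∈ Pg := hx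
    rcases hy with rfl | rfl
    · rw [mul_inv_cancel_right]
      exact xx_pos hx'
    · have h1 : la * mu⁻¹ = MulAut.conj (of 1) * (sg * ep) * la⁻¹ := by
        rw [← la_mui]; group
      have h2 : x * la * mu⁻¹ = MulAut.conj (x (of 1)) * (sg * ((sg * x * sg) * la) * ep) := by
        calc x * la * mu⁻¹ = (x * MulAut.conj (of 1)) * sg * ep * la⁻¹ := by
              rw [mul_assoc, h1]; group
          _ = MulAut.conj (x (of 1)) * x * sg * ep * (ep * la * ep) := by
              rw [conj_mul_aut, ep_la]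
          _ = MulAut.conj (x (of 1)) * x * sg * (ep * ep) * la * ep := by group
          _ = MulAut.conj (x (of 1)) * (sg * sg) * x * sg * la * ep := by
              rw [ep_sq, sg_sq, mul_one, mul_one]
          _ = _ := by group
      rw [h2]
      exact xx_inner (xx_right (xx_left (xx_pos (Pg.mul_mem (swap_pos hx') la_mem)) sg_mem)
        ep_mem) _

lemma xx_lai {p : MulAut F2} (hp : p ∈ Pg) : p * la⁻¹ ∈ XX := by
  have h1 : p * la⁻¹ = sg * ((sg * p * sg) * mu⁻¹) * sg := by
    have h2 : la⁻¹ = sg * mu⁻¹ * sg := by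
      have h3 : sg⁻¹ = sg := by rw [inv_eq_iff_mul_eq_one, sg_sq]
      unfold la
      rw [mul_inv_rev, mul_inv_rev, h3]
      group
    rw [h2]
    calc p * (sg * mu⁻¹ * sg) = (sg * sg) * p * sg * mu⁻¹ * sg := by rw [sg_sq]; group
      _ = _ := by group
  rw [h1]
  exact xx_right (xx_left (xx_mui (swap_pos hp)) sg_mem) sg_mem

/-- the transvections and their inverses -/
def EE : Set (MulAut F2) := {mu, mu⁻¹, la, la⁻¹}

lemma xx_ee {p m : MulAut F2} (hp : p ∈ Pg) (hm : m ∈ EE) : p * m ∈ XX := by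
  rcases hm with rfl | rfl | rfl | rfl
  · exact xx_pos (Pg.mul_mem hp mu_mem)
  · exact xx_mui hp
  · exact xx_pos (Pg.mul_mem hp la_mem)
  · exact xx_lai hp

lemma dg_ee {d : MulAut F2} (hd : d ∈ Dg) : ∀ m ∈ EE, ∃ m' ∈ EE, ∃ g : F2,
    d * m = MulAut.conj g * m' * d := by
  have hmui : mu⁻¹ ∈ EE := Or.inr (Or.inl rfl)
  have hla : la ∈ EE := Or.inr (Or.inr (Or.inl rfl))
  have hlai : la⁻¹ ∈ EE := Or.inr (Or.inr (Or.inr rfl))
  have hmu : mu ∈ EE := Or.inl rfl
  have hsg : ∀ m ∈ EE, ∃ m' ∈ EE, ∃ g : F2, sg * m = MulAut.conj g * m' * sg := by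
    intro m hm
    rcases hm with rfl | rfl | rfl | rfl
    · exact ⟨la, hla, 1, by rw [map_one, one_mul, sg_la]⟩
    · refine ⟨la⁻¹, hlai, 1, ?_⟩
      rw [map_one, one_mul, eq_comm, inv_mul_eq_iff_eq_mul, ← mul_assoc, sg_la, mul_inv_cancel_right]
    · exact ⟨mu, hmu, 1, by rw [map_one, one_mul, sg_mu]⟩
    · refine ⟨mu⁻¹, hmui, 1, ?_⟩
      rw [map_one, one_mul, eq_comm, inv_mul_eq_iff_eq_mul, ← mul_assoc, sg_mu, mul_inv_cancel_right]
  have hepi : ep⁻¹ = ep := by rw [inv_eq_iff_mul_eq_one, ep_sq]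
  have hep : ∀ m ∈ EE, ∃ m' ∈ EE, ∃ g : F2, ep * m = MulAut.conj g * m' * ep := by
    intro m hm
    have e1 : ep * mu = MulAut.conj (of 1)⁻¹ * mu⁻¹ * ep := by
      rw [← ep_mu, mul_assoc (ep * mu), ep_sq, mul_one]
    have e2 : ep * la = la⁻¹ * ep := by
      rw [← ep_la, mul_assoc (ep * la), ep_sq, mul_one]
    rcases hm with rfl | rfl | rfl | rfl
    · exact ⟨mu⁻¹, hmui, (of 1)⁻¹, e1⟩
    · refine ⟨mu, hmu, ep (of 1), ?_⟩
      have h1 : ep * mu * ep = MulAut.conj (of 1)⁻¹ * mu⁻¹ := ep_mu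
      have h2 : mu⁻¹ = MulAut.conj (of 1) * (ep * mu * ep) := by
        rw [ep_mu, ← mul_assoc, ← map_mul, mul_inv_cancel, map_one, one_mul]
      rw [h2, ← mul_assoc, conj_mul_aut]
      calc MulAut.conj (ep (of 1)) * ep * (ep * mu * ep) =
          MulAut.conj (ep (of 1)) * (ep * ep) * mu * ep := by group
        _ = _ := by rw [ep_sq, mul_one]
    · exact ⟨la⁻¹, hlai, 1, by rw [map_one, one_mul, e2]⟩
    · refine ⟨la, hla, 1, ?_⟩
      rw [map_one, one_mul, ← ep_la]
      calc ep * (ep * la * ep) = (ep * ep) * la * ep := by group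
        _ = _ := by rw [ep_sq, one_mul]
  unfold Dg at hd
  induction hd using Subgroup.closure_induction with
  | mem x hx =>
    rcases hx with rfl | rfl
    · exact hsg
    · exact hep
  | one => exact fun m hm => ⟨m, hm, 1, by simp⟩
  | mul x y _ _ hx hy =>
    intro m hm
    obtain ⟨m', hm', g, e⟩ := hy m hm
    obtain ⟨m'', hm'', g', e'⟩ := hx m' hm'
    refine ⟨m'', hm'', x g * g', ?_⟩
    calc x * y * m = (x * MulAut.conj g) * m' * y := by rw [mul_assoc, e]; group
      _ = MulAut.conj (x g) * (x * m') * y := by rw [conj_mul_aut]; group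
      _ = _ := by rw [e', map_mul]; group
  | inv x hx' hx =>
    -- the action of x on the finite set is injective, hence surjective; argue by iteration
    intro m hm
    have h1 : ∀ y ∈ Submonoid.closure ({sg, ep} : Set (MulAut F2)), ∀ m ∈ EE, ∃ m' ∈ EE, ∃ g : F2,
        y * m = MulAut.conj g * m' * y := by
      intro y hy
      induction hy using Submonoid.closure_induction with
      | mem x hx =>
        rcases hx with rfl | rfl
        · exact hsg
        · exact hep
      | one => exact fun m hm => ⟨m, hm, 1, by simp⟩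
      | mul x y _ _ hx hy =>
        intro m hm
        obtain ⟨m', hm', g, e⟩ := hy m hm
        obtain ⟨m'', hm'', g', e'⟩ := hx m' hm'
        refine ⟨m'', hm'', x g * g', ?_⟩
        calc x * y * m = (x * MulAut.conj g) * m' * y := by rw [mul_assoc, e]; group
          _ = MulAut.conj (x g) * (x * m') * y := by rw [conj_mul_aut]; group
          _ = _ := by rw [e', map_mul]; group
    have h2 : x⁻¹ ∈ Subgroup.closure ({sg, ep} : Set (MulAut F2)) := Subgroup.inv_mem _ hx'
    have h3 : x⁻¹ ∈ Submonoid.closure ({sg, ep} : Set (MulAut F2)) := by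
      rw [← Subgroup.mem_toSubmonoid, Subgroup.closure_toSubmonoid] at h2
      have h4 : ({sg, ep} : Set (MulAut F2)) ∪ ({sg, ep} : Set (MulAut F2))⁻¹ = {sg, ep} := by
        have h5 : sg⁻¹ = sg := by rw [inv_eq_iff_mul_eq_one, sg_sq]
        rw [Set.union_eq_left]
        intro y hy
        rw [Set.mem_inv] at hy
        rcases hy with h | h
        · left
          rw [← inv_inv y, h, h5]
        · right
          show y = ep
          have : y⁻¹ = ep := h
          rw [← inv_inv y, this, hepi]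
      rwa [h4] at h2
    exact h1 _ h3 m hm

lemma xx_ee' {ψ m : MulAut F2} (hψ : ψ ∈ XX) (hm : m ∈ EE) : ψ * m ∈ XX := by
  obtain ⟨g, d, hd, p, hp, d', hd', rfl⟩ := hψ
  obtain ⟨m', hm', h, e⟩ := dg_ee hd' m hm
  have e2 : MulAut.conj g * d * p * d' * m =
      MulAut.conj (g * (d * p) h) * (d * (p * m') * d') := by
    calc MulAut.conj g * d * p * d' * m = MulAut.conj g * ((d * p) * MulAut.conj h) * m' * d' := by
          rw [mul_assoc _ d' m, e]; group
      _ = _ := by rw [conj_mul_aut, map_mul]; group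
  rw [e2]
  exact xx_inner (xx_right (xx_left (xx_ee hp hm') hd) hd') _

theorem xx_all (ψ : MulAut F2) : ψ ∈ XX := by
  let N : Subgroup (MulAut F2) :=
    { carrier := {n | (∀ ψ ∈ XX, ψ * n ∈ XX) ∧ ∀ ψ ∈ XX, ψ * n⁻¹ ∈ XX}
      mul_mem' := by
        rintro a b ⟨ha, ha'⟩ ⟨hb, hb'⟩
        refine ⟨fun ψ hψ => ?_, fun ψ hψ => ?_⟩
        · rw [← mul_assoc]; exact hb _ (ha _ hψ)
        · rw [mul_inv_rev, ← mul_assoc]; exact ha' _ (hb' _ hψ)
      one_mem' := ⟨fun ψ hψ => by rwa [mul_one], fun ψ hψ => by rwa [inv_one, mul_one]⟩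
      inv_mem' := by
        rintro a ⟨ha, ha'⟩
        exact ⟨ha', fun ψ hψ => by rw [inv_inv]; exact ha _ hψ⟩ }
  have hN : N = ⊤ := by
    apply Pool.Agent.H528.Nielsen.nielsen N (σ := sg) (ε := ep) (μ := mu)
    · exact ⟨fun ψ hψ => xx_right hψ sg_mem, fun ψ hψ => xx_right hψ (Dg.inv_mem sg_mem)⟩
    · exact ⟨fun ψ hψ => xx_right hψ ep_mem, fun ψ hψ => xx_right hψ (Dg.inv_mem ep_mem)⟩
    · exact ⟨fun ψ hψ => xx_ee' hψ (Or.inl rfl), fun ψ hψ => xx_ee' hψ (Or.inr (Or.inl rfl))⟩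
    · intro g
      refine ⟨fun ψ hψ => ?_, fun ψ hψ => ?_⟩
      · rw [conj_mul_aut]; exact xx_inner hψ _
      · rw [← map_inv, conj_mul_aut]; exact xx_inner hψ _
    · exact sg0
    · exact sg1
    · exact ep0
    · exact ep1
    · exact mu0
    · exact mu1
  have h : ψ ∈ N := by rw [hN]; trivial
  have h1 := h.1 1 (xx_pos Pg.one_mem)
  rwa [one_mul] at h1

/-! ### positive words -/

lemma pos_word {x : F2} (hx : x ∈ Submonoid.closure (Set.range (of : Fin 2 → F2))) :
    (∀ i, 0 ≤ av x i) ∧ (av x 0 + av x 1 = 0 → x = 1) ∧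
      (av x 0 + av x 1 = 1 → ∃ i, x = of i) := by
  induction hx using Submonoid.closure_induction_left with
  | one =>
    refine ⟨fun i => by rw [av_one]; exact le_refl _, fun _ => rfl, fun h => ?_⟩
    rw [av_one] at h
    simp at h
  | mul_left y hy z hz ih =>
    obtain ⟨i, rfl⟩ := hy
    obtain ⟨h1, h2, h3⟩ := ih
    have hsum : av (of i * z) 0 + av (of i * z) 1 = 1 + (av z 0 + av z 1) := by
      rw [av_mul, av_of]
      fin_cases i <;> simp <;> ring
    refine ⟨?_, ?_, ?_⟩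
    · intro j
      rw [av_mul, av_of]
      show 0 ≤ (Pi.single i (1 : ℤ) : Fin 2 → ℤ) j + av z j
      have : 0 ≤ (Pi.single i (1 : ℤ) : Fin 2 → ℤ) j := by
        rw [Pi.single_apply]; split_ifs <;> norm_num
      have := h1 j
      omega
    · intro h
      rw [hsum] at h
      have := h1 0
      have := h1 1
      omega
    · intro h
      rw [hsum] at h
      rw [h2 (by omega), mul_one]
      exact ⟨i, rfl⟩

lemma pos_map {p : MulAut F2} (hp : p ∈ Pg) {x : F2}
    (hx : x ∈ Submonoid.closure (Set.range (of : Fin 2 → F2))) :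
    p x ∈ Submonoid.closure (Set.range (of : Fin 2 → F2)) := by
  have hof : ∀ i : Fin 2, (of i : F2) ∈ Submonoid.closure (Set.range (of : Fin 2 → F2)) :=
    fun i => Submonoid.subset_closure ⟨i, rfl⟩
  revert x
  unfold Pg at hp
  induction hp using Submonoid.closure_induction with
  | mem y hy =>
    intro x hx
    induction hx using Submonoid.closure_induction with
    | mem z hz =>
      obtain ⟨i, rfl⟩ := hz
      rcases hy with rfl | rfl
      · fin_cases i
        · show mu (of 0) ∈ _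
          rw [mu0]; exact Submonoid.mul_mem _ (hof 0) (hof 1)
        · show mu (of 1) ∈ _
          rw [mu1]; exact hof 1
      · fin_cases i
        · show la (of 0) ∈ _
          rw [la0]; exact hof 0
        · show la (of 1) ∈ _
          rw [la1]; exact Submonoid.mul_mem _ (hof 1) (hof 0)
    | one => rw [map_one]; exact Submonoid.one_mem _
    | mul a b _ _ ha hb => rw [map_mul]; exact Submonoid.mul_mem _ ha hb
  | one => exact fun hx => hx
  | mul a b _ _ ha hb => exact fun hx => ha (hb hx)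

lemma dg_of {d : MulAut F2} (hd : d ∈ Dg) : ∀ j : Fin 2, ∃ i : Fin 2,
    d (of j) = of i ∨ d (of j) = (of i)⁻¹ := by
  have key : ∀ y ∈ ({sg, ep} : Set (MulAut F2)), ∀ j : Fin 2, ∃ i : Fin 2,
      y (of j) = of i ∨ y (of j) = (of i)⁻¹ := by
    intro y hy j
    rcases hy with rfl | rfl
    · fin_cases j
      · exact ⟨1, Or.inl sg0⟩
      · exact ⟨0, Or.inl sg1⟩
    · fin_cases j
      · exact ⟨0, Or.inr ep0⟩
      · exact ⟨1, Or.inl ep1⟩
  have hcomp : ∀ x y : MulAut F2, (∀ j : Fin 2, ∃ i : Fin 2, x (of j) = of i ∨ x (of j) = (of i)⁻¹) →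
      (∀ j : Fin 2, ∃ i : Fin 2, y (of j) = of i ∨ y (of j) = (of i)⁻¹) →
      ∀ j : Fin 2, ∃ i : Fin 2, (x * y) (of j) = of i ∨ (x * y) (of j) = (of i)⁻¹ := by
    intro x y hx hy j
    obtain ⟨i, hi | hi⟩ := hy j
    · obtain ⟨k, hk | hk⟩ := hx i
      · exact ⟨k, Or.inl (by rw [MulAut.mul_apply, hi, hk])⟩
      · exact ⟨k, Or.inr (by rw [MulAut.mul_apply, hi, hk])⟩
    · obtain ⟨k, hk | hk⟩ := hx i
      · exact ⟨k, Or.inr (by rw [MulAut.mul_apply, hi, map_inv, hk])⟩
      · exact ⟨k, Or.inl (by rw [MulAut.mul_apply, hi, map_inv, hk, inv_inv])⟩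
  have hinv : ∀ y ∈ ({sg, ep} : Set (MulAut F2)), y⁻¹ = y := by
    intro y hy
    rcases hy with rfl | rfl
    · rw [inv_eq_iff_mul_eq_one, sg_sq]
    · rw [inv_eq_iff_mul_eq_one, ep_sq]
  unfold Dg at hd
  induction hd using Subgroup.closure_induction_left with
  | one => exact fun j => ⟨j, Or.inl rfl⟩
  | mul_left x hx y hy ih => exact hcomp _ _ (key x hx) ih
  | inv_mul_cancel x hx y hy ih =>
    rw [hinv x hx]
    exact hcomp _ _ (key x hx) ih

lemma mat_conj (g : F2) : mat (MulAut.conj g) = 1 := by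
  ext i j
  show av (g * of j * g⁻¹) i = _
  rw [av_mul, av_mul, av_inv, av_of, Matrix.one_apply]
  show av g i + (Pi.single j (1 : ℤ) : Fin 2 → ℤ) i + - av g i = _
  rw [Pi.single_apply]
  ring

lemma mat_inv_mul (ψ : MulAut F2) : mat ψ⁻¹ * mat ψ = 1 := by
  rw [← mat_mul, inv_mul_cancel, mat_one]

/-- **Nielsen.** The kernel of the action on the abelianization consists of the inner
automorphisms. -/
theorem inner_of_mat {ψ : MulAut F2} (h : mat ψ = 1) : ∃ g : F2, ψ = MulAut.conj g := by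
  obtain ⟨g, d, hd, p, hp, d', hd', rfl⟩ := xx_all ψ
  rw [mat_mul, mat_mul, mat_mul, mat_conj, one_mul] at h
  -- the positive part is a signed permutation
  set δ : MulAut F2 := d⁻¹ * d'⁻¹ with hδ
  have hδD : δ ∈ Dg := Dg.mul_mem (Dg.inv_mem hd) (Dg.inv_mem hd')
  have hmp : mat p = mat δ := by
    have h1 : mat d⁻¹ * (mat d * mat p * mat d') * mat d'⁻¹ = mat d⁻¹ * mat d'⁻¹ := by
      rw [h, mul_one]
    have h2 : mat d' * mat d'⁻¹ = 1 := by rw [← mat_mul, mul_inv_cancel, mat_one]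
    have h3 : mat d⁻¹ * (mat d * mat p * mat d') * mat d'⁻¹ =
        (mat d⁻¹ * mat d) * mat p * (mat d' * mat d'⁻¹) := by noncomm_ring
    rw [h3, mat_inv_mul, h2, one_mul, mul_one] at h1
    rw [h1, hδ, mat_mul]
  have hpos : ∀ j : Fin 2, ∃ i : Fin 2, p (of j) = of i := by
    intro j
    have h1 := pos_word (pos_map hp (Submonoid.subset_closure ⟨j, rfl⟩ :
      (of j : F2) ∈ Submonoid.closure (Set.range (of : Fin 2 → F2))))
    apply h1.2.2
    have h2 : ∀ i, av (p (of j)) i = av (δ (of j)) i := by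
      intro i
      show mat p i j = mat δ i j
      rw [hmp]
    obtain ⟨i, hi | hi⟩ := dg_of hδD j
    · rw [h2, h2, hi, av_of]
      fin_cases i <;> simp
    · exfalso
      have h3 := h1.1 i
      rw [h2, hi, av_inv, av_of] at h3
      simp at h3
  -- so it is the identity or the swap
  have hpD : p ∈ Dg := by
    obtain ⟨i, hi⟩ := hpos 0
    obtain ⟨j, hj⟩ := hpos 1
    have hij : i ≠ j := by
      rintro rfl
      have := p.injective (hi.trans hj.symm)
      exact absurd (FreeGroup.of_injective this) (by decide)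
    have hdec : ∀ i j : Fin 2, i ≠ j → (i = 0 ∧ j = 1) ∨ (i = 1 ∧ j = 0) := by decide
    have hcase := hdec i j hij
    rcases hcase with ⟨rfl, rfl⟩ | ⟨rfl, rfl⟩
    · have : p = 1 := aut_ext hi hj
      rw [this]; exact Dg.one_mem
    · have : p = sg := aut_ext (hi.trans sg0.symm) (hj.trans sg1.symm)
      rw [this]; exact sg_mem
  refine ⟨g, ?_⟩
  have hall : d * p * d' ∈ Dg := Dg.mul_mem (Dg.mul_mem hd hpD) hd'
  have hone : d * p * d' = 1 := by
    have h1 : mat (d * p * d') = 1 := by rw [mat_mul, mat_mul]; exact h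
    have h2 : ∀ j : Fin 2, (d * p * d') (of j) = of j := by
      intro j
      have h3 : ∀ i, av ((d * p * d') (of j)) i = (1 : Matrix (Fin 2) (Fin 2) ℤ) i j := by
        intro i
        show mat (d * p * d') i j = _
        rw [h1]
      obtain ⟨i, hi | hi⟩ := dg_of hall j
      · have h4 := h3 i
        rw [hi, av_of, Pi.single_eq_same, Matrix.one_apply] at h4
        by_cases hij : i = j
        · rw [hi, hij]
        · rw [if_neg hij] at h4
          exact absurd h4 one_ne_zero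
      · have h4 := h3 i
        rw [hi, av_inv, av_of, Matrix.one_apply] at h4
        have h5 : (-(Pi.single i (1 : ℤ) : Fin 2 → ℤ)) i = -1 := by
          rw [Pi.neg_apply, Pi.single_eq_same]
        rw [h5] at h4
        split_ifs at h4
    exact aut_ext (h2 0) (h2 1)
  calc MulAut.conj g * d * p * d' = MulAut.conj g * (d * p * d') := by group
    _ = _ := by rw [hone, mul_one]

end Run7.h574
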