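import Pool.Agent.Run7.h574.Classify2

/-!
# Free-by-cyclic groups without a chosen splitting
-/

set_option autoImplicit false
set_option linter.unusedSectionVars false
set_option linter.dupNamespace false

namespace Run7.h574

theorem finite_of_fg (X : Type) [h : Group.FG (FreeGroup X)] : Finite X := by
  classical
  obtain ⟨S, hS⟩ := h.out
  have h1 : Finite (FreeGroup X →* Multiplicative (ZMod 2)) := by
    refine Finite.of_injective (fun f => fun s : S => f s) ?_
    intro f g hfg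
    refine MonoidHom.eq_of_eqOn_dense hS ?_
    intro x hx
    exact congrFun hfg ⟨x, hx⟩
  have h2 : Finite (X → Multiplicative (ZMod 2)) :=
    Finite.of_equiv _ (FreeGroup.lift (α := X) (β := Multiplicative (ZMod 2))).symm
  refine Finite.of_injective (fun x : X => (fun y : X =>
    if y = x then Multiplicative.ofAdd (1 : ZMod 2) else 1)) ?_
  intro x y hxy
  by_contra hne
  have h3 := congrFun hxy x
  simp only [if_true, if_neg hne] at h3
  exact absurd h3 (by decide)

section

variable {G : Type} [Group G] (χ : G →* Multiplicative ℤ)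

/-- the presentation as a mapping torus -/
theorem exists_mt {α : Type} (e : χ.ker ≃* FreeGroup α) (hne : ∃ g, χ g ≠ 1) :
    ∃ (ψ : MulAut (FreeGroup α)) (E : MT ψ ≃* G) (d : ℤ), d ≠ 0 ∧
      (∀ x, E (SemidirectProduct.inl x) = (e.symm x : G)) ∧
      ∀ g, Multiplicative.toAdd (χ (E g)) = d * chi ψ g := by
  let M : AddSubgroup ℤ :=
    { carrier := {n | ∃ g, Multiplicative.toAdd (χ g) = n}
      add_mem' := by
        rintro _ _ ⟨g, rfl⟩ ⟨h, rfl⟩
        exact ⟨g * h, by rw [map_mul, toAdd_mul]⟩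
      zero_mem' := ⟨1, by rw [map_one, toAdd_one]⟩
      neg_mem' := by
        rintro _ ⟨g, rfl⟩
        exact ⟨g⁻¹, by rw [map_inv, toAdd_inv]⟩ }
  obtain ⟨d, hd⟩ := Int.subgroup_cyclic M
  have hdm : ∀ n, n ∈ M ↔ ∃ k : ℤ, d * k = n := by
    intro n
    rw [hd, AddSubgroup.mem_closure_singleton]
    constructor
    · rintro ⟨k, hk⟩
      exact ⟨k, by rw [← hk, smul_eq_mul, mul_comm]⟩
    · rintro ⟨k, hk⟩
      exact ⟨k, by rw [← hk, smul_eq_mul, mul_comm]⟩
  obtain ⟨t, ht⟩ : d ∈ M := (hdm d).mpr ⟨1, mul_one d⟩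
  have hd0 : d ≠ 0 := by
    rintro rfl
    obtain ⟨g, hg⟩ := hne
    obtain ⟨k, hk⟩ := (hdm _).mp ⟨g, rfl⟩
    rw [zero_mul] at hk
    exact hg (Multiplicative.toAdd.injective hk.symm)
  let ψ : MulAut (FreeGroup α) := MulAut.congr e (MulAut.conjNormal t)
  have hψ : ∀ (k : ℤ) (x : FreeGroup α), (e.symm ((ψ ^ k) x) : G) = t ^ k * (e.symm x : G) * (t ^ k)⁻¹ := by
    intro k x
    have h1 : ψ ^ k = MulAut.congr e (MulAut.conjNormal (t ^ k)) := by
      rw [map_zpow, map_zpow]
    rw [h1]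
    show ((e.symm (e (MulAut.conjNormal (t ^ k) (e.symm x))) : χ.ker) : G) = _
    rw [MulEquiv.symm_apply_apply, MulAut.conjNormal_apply]
  let Φ : MT ψ →* G := SemidirectProduct.lift (χ.ker.subtype.comp e.symm.toMonoidHom)
    (zpowersHom G t) (by
      intro n
      apply MonoidHom.ext
      intro x
      exact hψ (Multiplicative.toAdd n) x)
  have hΦ : ∀ g : MT ψ, Φ g = (e.symm g.left : G) * t ^ (chi ψ g) := by
    intro g
    show Φ g = _
    conv_lhs => rw [decomp ψ g]
    rw [map_mul, map_zpow]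
    have e1 : Φ (SemidirectProduct.inl g.left) = (e.symm g.left : G) := by
      show SemidirectProduct.lift _ _ _ (SemidirectProduct.inl g.left) = _
      rw [SemidirectProduct.lift_inl]
      rfl
    have e2 : Φ (tt ψ) = t := by
      show SemidirectProduct.lift _ _ _ (SemidirectProduct.inr (Multiplicative.ofAdd 1)) = _
      rw [SemidirectProduct.lift_inr]
      show t ^ (1 : ℤ) = t
      rw [zpow_one]
    rw [e1, e2]
  have hker : ∀ x : χ.ker, χ (x : G) = 1 := fun x => x.2
  have hχΦ : ∀ g : MT ψ, Multiplicative.toAdd (χ (Φ g)) = d * chi ψ g := by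
    intro g
    rw [hΦ, map_mul, map_zpow, hker, one_mul, toAdd_zpow, ht, smul_eq_mul, mul_comm]
  have hinj : Function.Injective Φ := by
    rw [injective_iff_map_eq_one]
    intro g hg
    have h1 := hχΦ g
    rw [hg, map_one, toAdd_one] at h1
    have h2 : chi ψ g = 0 := (mul_eq_zero.mp h1.symm).resolve_left hd0
    rw [hΦ, h2, zpow_zero, mul_one] at hg
    have h3 : e.symm g.left = 1 := Subtype.ext hg
    rw [inl_of_chi ψ h2, (MulEquiv.map_eq_one_iff e.symm).mp h3, map_one]
  have hsurj : Function.Surjective Φ := by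
    intro g
    obtain ⟨k, hk⟩ := (hdm _).mp ⟨g, rfl⟩
    have h1 : g * (t ^ k)⁻¹ ∈ χ.ker := by
      rw [MonoidHom.mem_ker]
      apply Multiplicative.toAdd.injective
      rw [map_mul, map_inv, map_zpow, toAdd_mul, toAdd_inv, toAdd_zpow, ht, ← hk, toAdd_one,
        smul_eq_mul]
      ring
    refine ⟨SemidirectProduct.inl (e ⟨_, h1⟩) * (tt ψ) ^ k, ?_⟩
    rw [hΦ]
    have e1 : chi ψ (SemidirectProduct.inl (e ⟨_, h1⟩) * (tt ψ) ^ k) = k := by
      rw [chi_mul, chi_inl, chi_zpow, chi_tt]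
      ring
    have e2 : (SemidirectProduct.inl (e ⟨_, h1⟩) * (tt ψ) ^ k : MT ψ).left = e ⟨_, h1⟩ := by
      rw [tt_zpow]
      show e ⟨_, h1⟩ * _ = _
      rw [SemidirectProduct.right_inl, map_one, MulAut.one_apply, SemidirectProduct.left_inr, mul_one]
    rw [e1, e2, MulEquiv.symm_apply_apply]
    show g * (t ^ k)⁻¹ * t ^ k = g
    group
  refine ⟨ψ, MulEquiv.ofBijective Φ ⟨hinj, hsurj⟩, d, hd0, ?_, hχΦ⟩
  intro x
  show Φ (SemidirectProduct.inl x) = _
  rw [hΦ, chi_inl, zpow_zero, mul_one]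
  rfl

lemma lerf_equiv {H : Type} [Group H] (hG : LERF G) (E : H ≃* G) : LERF H :=
  lerf_inj hG E.toMonoidHom E.injective

/-- the classification for abstract free-by-cyclic groups -/
theorem classify_group {α : Type} [Finite α] (e : χ.ker ≃* FreeGroup α) (hne : ∃ g, χ g ≠ 1)
    (hG : LERF G) {V : Type} [MulAction G V] {T : SimpleGraph V} (hT : T.IsTree)
    (hact : ∀ (g : G) (x y : V), T.Adj x y → T.Adj (g • x) (g • y))
    (hcyc : ∀ x y : V, T.Adj x y → IsCyclic (χ.ker ⊓ MulAction.stabilizer G x ⊓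
      MulAction.stabilizer G y : Subgroup G))
    (hedge : ∀ x y : V, T.Adj x y → ∃ u : G, u • x = x ∧ u • y = y ∧ χ u ≠ 1)
    (hfg : ∀ x : V, (χ.ker ⊓ MulAction.stabilizer G x).FG)
    (hnofix : ∀ x : V, ∃ g ∈ χ.ker, g • x ≠ x)
    (hv : ∀ v : V, ¬ IsCyclic (χ.ker ⊓ MulAction.stabilizer G v : Subgroup G) →
      HSep (MulAction.stabilizer G v) ∨
        Nonempty ((χ.ker ⊓ MulAction.stabilizer G v : Subgroup G) ≃* F2)) :
    ∃ g : G, χ g ≠ 1 ∧ ∀ x ∈ χ.ker, Commute g x := by
  obtain ⟨ψ, E, d, hd, hE, hχE⟩ := exists_mt χ e hne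
  let _ : MulAction (MT ψ) V := MulAction.compHom V E.toMonoidHom
  have hsm : ∀ (g : MT ψ) (v : V), g • v = E g • v := fun _ _ => rfl
  have hmem : ∀ (v : V) (x : FreeGroup α), x ∈ fst ψ v ↔ (e.symm x : G) • v = v := by
    intro v x
    rw [mem_fst, hsm, hE]
  have hmemE : ∀ (v : V) (g : G) (hg : g ∈ χ.ker), e ⟨g, hg⟩ ∈ fst ψ v ↔ g • v = v := by
    intro v g hg
    rw [hmem, MulEquiv.symm_apply_apply]
  have hchi : ∀ g : MT ψ, chi ψ g ≠ 0 ↔ χ (E g) ≠ 1 := by
    intro g
    have h1 := hχE g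
    constructor
    · intro h2 h3
      rw [h3, toAdd_one] at h1
      exact h2 ((mul_eq_zero.mp h1.symm).resolve_left hd)
    · intro h2 h3
      rw [h3, mul_zero] at h1
      exact h2 (Multiplicative.toAdd.injective h1)
  -- the fibre stabilizers
  have hstab : ∀ v : V, Nonempty (fst ψ v ≃* (χ.ker ⊓ MulAction.stabilizer G v : Subgroup G)) := by
    intro v
    refine ⟨MulEquiv.ofBijective
      ({ toFun := fun x => ⟨(e.symm (x : FreeGroup α) : G), (e.symm (x : FreeGroup α)).2,
            (hmem v x).mp x.2⟩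
         map_one' := Subtype.ext (by
          show ((e.symm ((1 : fst ψ v) : FreeGroup α) : χ.ker) : G) = 1
          rw [OneMemClass.coe_one, map_one, OneMemClass.coe_one])
         map_mul' := fun a b => Subtype.ext (by
          show ((e.symm ((a * b : fst ψ v) : FreeGroup α) : χ.ker) : G) =
            (e.symm (a : FreeGroup α) : G) * (e.symm (b : FreeGroup α) : G)
          rw [Subgroup.coe_mul, map_mul, Subgroup.coe_mul]) } :
        fst ψ v →* (χ.ker ⊓ MulAction.stabilizer G v : Subgroup G)) ⟨?_, ?_⟩⟩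
    · intro a b hab
      have h1 := congrArg Subtype.val hab
      exact Subtype.ext (e.symm.injective (Subtype.ext h1))
    · rintro ⟨g, hg1, hg2⟩
      refine ⟨⟨e ⟨g, hg1⟩, (hmemE v g hg1).mpr hg2⟩, ?_⟩
      apply Subtype.ext
      show ((e.symm (e ⟨g, hg1⟩) : χ.ker) : G) = g
      rw [MulEquiv.symm_apply_apply]
  have hCT : CT ψ T := by
    refine ⟨hT, fun g x y h => hact _ x y h, ?_, ?_, ?_, ?_⟩
    · intro x y hxy
      have := hcyc x y hxy
      let f : (fst ψ x ⊓ fst ψ y : Subgroup (FreeGroup α)) →*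
          (χ.ker ⊓ MulAction.stabilizer G x ⊓ MulAction.stabilizer G y : Subgroup G) :=
        { toFun := fun a => ⟨(e.symm (a : FreeGroup α) : G), ⟨(e.symm (a : FreeGroup α)).2,
            (hmem x a).mp a.2.1⟩, (hmem y a).mp a.2.2⟩
          map_one' := Subtype.ext (by
            show ((e.symm ((1 : (fst ψ x ⊓ fst ψ y : Subgroup (FreeGroup α))) : FreeGroup α) : χ.ker) : G) = 1
            rw [OneMemClass.coe_one, map_one, OneMemClass.coe_one])
          map_mul' := fun a b => Subtype.ext (by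
            show ((e.symm ((a * b : (fst ψ x ⊓ fst ψ y : Subgroup (FreeGroup α))) : FreeGroup α) : χ.ker) : G) =
              (e.symm (a : FreeGroup α) : G) * (e.symm (b : FreeGroup α) : G)
            rw [Subgroup.coe_mul, map_mul, Subgroup.coe_mul]) }
      refine isCyclic_of_injective f ?_
      intro a b hab
      have h1 := congrArg Subtype.val hab
      exact Subtype.ext (e.symm.injective (Subtype.ext h1))
    · intro x y hxy
      obtain ⟨u, hux, huy, hu⟩ := hedge x y hxy
      refine ⟨E.symm u, ?_, ?_, ?_⟩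
      · rw [hsm, MulEquiv.apply_symm_apply, hux]
      · rw [hsm, MulEquiv.apply_symm_apply, huy]
      · rw [hchi, MulEquiv.apply_symm_apply]
        exact hu
    · intro v
      obtain ⟨i⟩ := hstab v
      have h1 : Group.FG (χ.ker ⊓ MulAction.stabilizer G v : Subgroup G) :=
        (Group.fg_iff_subgroup_fg _).mpr (hfg v)
      have h2 : Group.FG (fst ψ v) :=
        Group.fg_of_surjective (f := i.symm.toMonoidHom) i.symm.surjective
      exact (Group.fg_iff_subgroup_fg _).mp h2
    · intro v hcon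
      obtain ⟨g, hg, hgv⟩ := hnofix v
      apply hgv
      rw [← hmemE v g hg, hcon]
      trivial
  have hgood : ∀ v : V, ¬ IsCyclic (fst ψ v) → Good2 ψ v := by
    intro v hcv
    obtain ⟨i⟩ := hstab v
    have h1 : ¬ IsCyclic (χ.ker ⊓ MulAction.stabilizer G v : Subgroup G) := fun h =>
      hcv (isCyclic_of_injective i.toMonoidHom i.injective)
    rcases hv v h1 with h2 | h2
    · apply good2_of_hsep (lerf_equiv hG E) (hCT.fg v)
      let f : MulAction.stabilizer (MT ψ) v →* MulAction.stabilizer G v :=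
        { toFun := fun g => ⟨E g, g.2⟩
          map_one' := Subtype.ext (map_one E)
          map_mul' := fun a b => Subtype.ext (map_mul E _ _) }
      apply hsep_inj h2 f
      intro a b hab
      exact Subtype.ext (E.injective (congrArg Subtype.val hab))
    · obtain ⟨j⟩ := h2
      exact good2_of_rank2 (lerf_equiv hG E) (i.trans j)
  obtain ⟨g, hg, hcom⟩ := classify (lerf_equiv hG E) hCT hgood
  refine ⟨E g, (hchi g).mp hg, ?_⟩
  intro x hx
  have h1 := hcom (e ⟨x, hx⟩)
  have h2 := h1.map E.toMonoidHom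
  have h3 : E.toMonoidHom (SemidirectProduct.inl (e ⟨x, hx⟩)) = x := by
    show E (SemidirectProduct.inl (e ⟨x, hx⟩)) = x
    rw [hE, MulEquiv.symm_apply_apply]
  rw [h3] at h2
  exact h2

/-- a virtual product of a free group and a cyclic group is homologically separable -/
theorem hsep_of_central {α : Type} (e : χ.ker ≃* FreeGroup α) {g : G} (hg : χ g ≠ 1)
    (hcom : ∀ x ∈ χ.ker, Commute g x) : HSep G := by
  obtain ⟨ψ, E, d, hd, hE, hχE⟩ := exists_mt χ e ⟨g, hg⟩
  set h := E.symm g with hh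
  have hEh : E h = g := MulEquiv.apply_symm_apply E g
  have hk : chi ψ h ≠ 0 := by
    intro h3
    have h1 := hχE h
    rw [h3, mul_zero, hEh] at h1
    exact hg (Multiplicative.toAdd.injective h1)
  have hc : ∀ x : FreeGroup α, Commute h (SemidirectProduct.inl x) := by
    intro x
    have h1 := (hcom (e.symm x : G) (e.symm x).2).map E.symm.toMonoidHom
    have h3 : E.symm.toMonoidHom (e.symm x : G) = SemidirectProduct.inl x := by
      show E.symm (e.symm x : G) = _
      rw [← hE, MulEquiv.symm_apply_apply]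
    rw [h3] at h1
    exact h1
  refine hsep_inj (hsep_mt_inner (hsep_free α) ψ hk (h.left)⁻¹ ?_) E.symm.toMonoidHom
    E.symm.injective
  intro x
  have h1 := comm_iff.mp (hc x)
  have h2 : cj ψ h x = h.left * (ψ ^ (chi ψ h)) x * (h.left)⁻¹ := rfl
  rw [h2] at h1
  conv_rhs => rw [← h1]
  group

/-- the fibre of the stabilizer -/
theorem exists_free_ker {α : Type} (e : χ.ker ≃* FreeGroup α) (S : Subgroup G)
    (hfg : (χ.ker ⊓ S).FG) :
    ∃ β : Type, Finite β ∧ Nonempty ((χ.comp S.subtype).ker ≃* FreeGroup β) ∧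
      Nonempty ((χ.comp S.subtype).ker ≃* (χ.ker ⊓ S : Subgroup G)) := by
  have hiso : Nonempty ((χ.comp S.subtype).ker ≃* (χ.ker ⊓ S : Subgroup G)) := by
    refine ⟨MulEquiv.ofBijective
      ({ toFun := fun x => ⟨((x : S) : G), x.2, (x : S).2⟩
         map_one' := rfl
         map_mul' := fun _ _ => rfl } :
        (χ.comp S.subtype).ker →* (χ.ker ⊓ S : Subgroup G)) ⟨?_, ?_⟩⟩
    · intro a b hab
      have h1 : (((a : S) : G)) = ((b : S) : G) :=
        congrArg (fun z : (χ.ker ⊓ S : Subgroup G) => (z : G)) hab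
      exact Subtype.ext (Subtype.ext h1)
    · rintro ⟨g, hg1, hg2⟩
      exact ⟨⟨⟨g, hg2⟩, hg1⟩, rfl⟩
  obtain ⟨i⟩ := hiso
  let f : (χ.ker ⊓ S : Subgroup G) →* FreeGroup α :=
    e.toMonoidHom.comp (Subgroup.inclusion (inf_le_left : χ.ker ⊓ S ≤ χ.ker))
  have hf : Function.Injective f :=
    e.injective.comp (Subgroup.inclusion_injective _)
  have hfree : IsFreeGroup f.range := inferInstance
  let k : (χ.ker ⊓ S : Subgroup G) ≃* FreeGroup (IsFreeGroup.Generators f.range) :=
    (MonoidHom.ofInjective hf).trans (IsFreeGroup.toFreeGroup f.range)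
  have h1 : Group.FG (χ.ker ⊓ S : Subgroup G) := (Group.fg_iff_subgroup_fg _).mpr hfg
  have h2 : Group.FG (FreeGroup (IsFreeGroup.Generators f.range)) :=
    Group.fg_of_surjective (f := k.toMonoidHom) k.surjective
  exact ⟨IsFreeGroup.Generators f.range, finite_of_fg _, ⟨i.trans k⟩, ⟨i⟩⟩

/-- a virtual product is not relatively hyperbolic -/
theorem no_peripherals_of_central {α : Type} (e : χ.ker ≃* FreeGroup α) {g : G} (hg : χ g ≠ 1)
    (hcom : ∀ x ∈ χ.ker, Commute g x) {x : G} (hx : x ∈ χ.ker) (hx1 : x ≠ 1) :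
    ¬ HasPeripherals G := by
  rintro ⟨Ps, hprop, hmal, hab⟩
  have hordx : ∀ y ∈ χ.ker, y ≠ 1 → ∀ n : ℤ, y ^ n = 1 → n = 0 := by
    intro y hy hy1 n hn
    by_contra hn0
    have h1 : (e ⟨y, hy⟩) ^ n = 1 ^ n := by
      rw [← map_zpow, one_zpow]
      have : (⟨y, hy⟩ : χ.ker) ^ n = 1 := Subtype.ext hn
      rw [this, map_one]
    have h2 := zpow_inj hn0 h1
    rw [MulEquiv.map_eq_one_iff] at h2
    exact hy1 (congrArg Subtype.val h2)
  have hordg : ∀ n : ℤ, χ g ^ n = 1 → n = 0 := by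
    intro n hn
    have h1 := congrArg Multiplicative.toAdd hn
    rw [toAdd_zpow, toAdd_one, smul_eq_mul] at h1
    rcases mul_eq_zero.mp h1 with h2 | h2
    · exact h2
    · exact absurd (Multiplicative.toAdd.injective h2) hg
  have hpar : ∀ y ∈ χ.ker, y ≠ 1 → ∃ P', Par Ps P' ∧ y ∈ P' ∧ g ∈ P' := by
    intro y hy hy1
    obtain ⟨P, hP, k, hk1, hk2⟩ := hab y g (hcom y hy).symm (by
      intro m n hmn
      have h1 := congrArg χ hmn
      rw [map_mul, map_zpow, map_zpow, MonoidHom.mem_ker.mp hy, one_zpow, one_mul, map_one] at h1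
      have hn := hordg n h1
      rw [hn, zpow_zero, mul_one] at hmn
      exact ⟨hordx y hy hy1 m hmn, hn⟩)
    exact ⟨P.comap (MulAut.conj k).toMonoidHom, ⟨P, hP, k, fun x => Iff.rfl⟩, hk1, hk2⟩
  obtain ⟨P', hP', hxP, hgP⟩ := hpar x hx hx1
  have hin : ∀ y ∈ χ.ker, y ∈ P' := by
    intro y hy
    by_cases hy1 : y = 1
    · rw [hy1]; exact P'.one_mem
    · obtain ⟨Q', hQ', hyQ, hgQ⟩ := hpar y hy hy1
      rw [hP'.eq hmal hQ' hgP hgQ (by
        intro n hn
        apply hordg
        rw [← map_zpow, hn, map_one])]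
      exact hyQ
  have h4 : ∀ γ : G, γ ∈ P' := by
    intro γ
    apply hP'.mem hmal hxP (hin _ _) (hordx x hx hx1)
    exact Subgroup.Normal.conj_mem inferInstance x hx γ
  obtain ⟨P, hP, k, hk⟩ := hP'
  apply hprop P hP
  rw [Subgroup.eq_top_iff']
  intro y
  have h5 := (hk (k⁻¹ * y * k)).mp (h4 _)
  have e : k * (k⁻¹ * y * k) * k⁻¹ = y := by group
  rwa [e] at h5

end

end Run7.h574
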