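import Pool.Agent.Run7.h574.RigidVF

/-!
# Mapping tori of amalgams
-/

set_option autoImplicit false
set_option linter.unusedSectionVars false
set_option linter.dupNamespace false

namespace Run7.h574

/-- the mapping torus of an automorphism -/
abbrev MT {P : Type} [Group P] (ψ : MulAut P) : Type :=
  P ⋊[zpowersHom (MulAut P) ψ] Multiplicative ℤ

section

variable {P : Type} [Group P] (ψ : MulAut P)

/-- the stable letter -/
def tt : MT ψ := SemidirectProduct.inr (Multiplicative.ofAdd 1)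

lemma tt_zpow (n : ℤ) : (tt ψ) ^ n = SemidirectProduct.inr (Multiplicative.ofAdd n) := by
  unfold tt
  rw [← map_zpow, ← ofAdd_zsmul, zsmul_eq_mul, mul_one]
  rfl

lemma tt_conj (n : ℤ) (p : P) : (tt ψ) ^ n * SemidirectProduct.inl p * ((tt ψ) ^ n)⁻¹ =
    SemidirectProduct.inl ((ψ ^ n) p) := by
  rw [tt_zpow, ← map_inv, ← SemidirectProduct.inl_aut]
  rfl

/-- exponent of the stable letter -/
def chi (g : MT ψ) : ℤ := Multiplicative.toAdd g.right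

lemma chi_hom : HomOn (⊤ : Subgroup (MT ψ)) (chi ψ) := fun _ _ _ _ => rfl

lemma chi_tt : chi ψ (tt ψ) = 1 := rfl

lemma chi_inl (p : P) : chi ψ (SemidirectProduct.inl p) = 0 := rfl

lemma inl_of_chi {g : MT ψ} (h : chi ψ g = 0) : g = SemidirectProduct.inl g.left :=
  SemidirectProduct.ext rfl (Multiplicative.toAdd.injective h)

lemma decomp (g : MT ψ) : g = SemidirectProduct.inl g.left * (tt ψ) ^ (chi ψ g) := by
  rw [tt_zpow]
  exact (SemidirectProduct.inl_left_mul_inr_right g).symm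

variable {ψ}

lemma inv_zpow_mem {A : Subgroup P} (hA : ∀ x, ψ x ∈ A ↔ x ∈ A) (n : ℤ) :
    ∀ x, (ψ ^ n) x ∈ A ↔ x ∈ A := by
  induction n using Int.induction_on with
  | zero => intro x; rw [zpow_zero]; rfl
  | succ k ih =>
    intro x
    rw [zpow_add_one, MulAut.mul_apply, ih, hA]
  | pred k ih =>
    intro x
    have h1 := ih (ψ⁻¹ x)
    rw [zpow_sub_one, MulAut.mul_apply, h1]
    have h2 := hA (ψ⁻¹ x)
    rw [← h2]
    rw [show ψ (ψ⁻¹ x) = x from MulAut.apply_inv_self _ ψ x]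

/-- the mapping torus of an invariant subgroup -/
def HH (A : Subgroup P) (hA : ∀ x, ψ x ∈ A ↔ x ∈ A) : Subgroup (MT ψ) where
  carrier := {g | g.left ∈ A}
  mul_mem' := by
    intro a b ha hb
    show a.left * (zpowersHom (MulAut P) ψ a.right) b.left ∈ A
    refine A.mul_mem ha ?_
    exact (inv_zpow_mem hA _ _).mpr hb
  one_mem' := A.one_mem
  inv_mem' := by
    intro a ha
    show (zpowersHom (MulAut P) ψ a.right⁻¹) a.left⁻¹ ∈ A
    exact (inv_zpow_mem hA _ _).mpr (A.inv_mem ha)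

lemma mem_HH {A : Subgroup P} {hA : ∀ x, ψ x ∈ A ↔ x ∈ A} {g : MT ψ} :
    g ∈ HH A hA ↔ g.left ∈ A := Iff.rfl

lemma tt_mem (A : Subgroup P) (hA : ∀ x, ψ x ∈ A ↔ x ∈ A) : tt ψ ∈ HH A hA := A.one_mem

lemma inl_mem {A : Subgroup P} {hA : ∀ x, ψ x ∈ A ↔ x ∈ A} {a : P} (ha : a ∈ A) :
    (SemidirectProduct.inl a : MT ψ) ∈ HH A hA := ha

lemma kerOn_HH (A : Subgroup P) (hA : ∀ x, ψ x ∈ A ↔ x ∈ A) (hfg : A.FG) :
    (kerOn (HH A hA) (chi ψ) ((chi_hom ψ).mono le_top)).FG := by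
  have h1 : kerOn (HH A hA) (chi ψ) ((chi_hom ψ).mono le_top) =
      A.map (SemidirectProduct.inl : P →* MT ψ) := by
    ext g
    constructor
    · rintro ⟨h1, h2⟩
      exact ⟨g.left, h1, (inl_of_chi ψ h2).symm⟩
    · rintro ⟨a, ha, rfl⟩
      exact ⟨ha, rfl⟩
  rw [h1]
  exact fg_map _ hfg

/-- the universal property of an amalgam of two subgroups, for actions on sets -/
def UP (A C : Subgroup P) : Prop :=
  ∀ (Ω : Type) (f₁ : A →* Equiv.Perm Ω) (f₂ : C →* Equiv.Perm Ω),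
    (∀ x (hA : x ∈ A) (hC : x ∈ C), f₁ ⟨x, hA⟩ = f₂ ⟨x, hC⟩) →
    ∃ f : P →* Equiv.Perm Ω, (∀ a : A, f a = f₁ a) ∧ ∀ c : C, f c = f₂ c

lemma mt_up {A C : Subgroup P} (hA : ∀ x, ψ x ∈ A ↔ x ∈ A) (hC : ∀ x, ψ x ∈ C ↔ x ∈ C)
    (htop : A ⊔ C = ⊤) (hup : UP A C) (Ω : Type) (ρ₁ : HH A hA →* Equiv.Perm Ω)
    (ρ₂ : HH C hC →* Equiv.Perm Ω)
    (h : ∀ e (h₁ : e ∈ HH A hA) (h₂ : e ∈ HH C hC), ρ₁ ⟨e, h₁⟩ = ρ₂ ⟨e, h₂⟩) :
    ∃ ρ : MT ψ →* Equiv.Perm Ω, (∀ g : HH A hA, ρ g = ρ₁ g) ∧ ∀ g : HH C hC, ρ g = ρ₂ g := by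
  let i₁ : A →* HH A hA :=
    { toFun := fun a => ⟨SemidirectProduct.inl (a : P), a.2⟩
      map_one' := rfl
      map_mul' := fun a b => Subtype.ext (map_mul (SemidirectProduct.inl : P →* MT ψ) _ _) }
  let i₂ : C →* HH C hC :=
    { toFun := fun a => ⟨SemidirectProduct.inl (a : P), a.2⟩
      map_one' := rfl
      map_mul' := fun a b => Subtype.ext (map_mul (SemidirectProduct.inl : P →* MT ψ) _ _) }
  obtain ⟨f, hf1, hf2⟩ := hup Ω (ρ₁.comp i₁) (ρ₂.comp i₂) (fun x hA' hC' => h _ hA' hC')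
  have ht1 := tt_mem A hA
  have ht2 := tt_mem C hC
  let τ : Equiv.Perm Ω := ρ₁ ⟨tt ψ, ht1⟩
  have hτ : τ = ρ₂ ⟨tt ψ, ht2⟩ := h _ ht1 ht2
  have hconj : ∀ p : P, (tt ψ) * SemidirectProduct.inl p * (tt ψ)⁻¹ =
      SemidirectProduct.inl (ψ p) := by
    intro p
    have := tt_conj ψ 1 p
    rwa [zpow_one, zpow_one] at this
  have hS1 : ∀ p, f (ψ p) = τ * f p * τ⁻¹ := by
    have h1 : f.comp ψ.toMonoidHom = ((MulAut.conj τ).toMonoidHom).comp f := by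
      have h2 : (⊤ : Subgroup P) ≤ MonoidHom.eqLocus (f.comp ψ.toMonoidHom)
          (((MulAut.conj τ).toMonoidHom).comp f) := by
        rw [← htop, sup_le_iff]
        constructor
        · intro a ha
          show f (ψ a) = τ * f a * τ⁻¹
          have ha' : ψ a ∈ A := (hA a).mpr ha
          rw [hf1 ⟨a, ha⟩, hf1 ⟨ψ a, ha'⟩]
          show ρ₁ (i₁ ⟨ψ a, ha'⟩) = ρ₁ ⟨tt ψ, ht1⟩ * ρ₁ (i₁ ⟨a, ha⟩) * (ρ₁ ⟨tt ψ, ht1⟩)⁻¹
          rw [← map_mul, ← map_inv, ← map_mul]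
          congr 1
          apply Subtype.ext
          exact (hconj a).symm
        · intro a ha
          show f (ψ a) = τ * f a * τ⁻¹
          have ha' : ψ a ∈ C := (hC a).mpr ha
          rw [hf2 ⟨a, ha⟩, hf2 ⟨ψ a, ha'⟩, hτ]
          show ρ₂ (i₂ ⟨ψ a, ha'⟩) = ρ₂ ⟨tt ψ, ht2⟩ * ρ₂ (i₂ ⟨a, ha⟩) * (ρ₂ ⟨tt ψ, ht2⟩)⁻¹
          rw [← map_mul, ← map_inv, ← map_mul]
          congr 1
          apply Subtype.ext
          exact (hconj a).symm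
      ext1 p
      exact h2 (Subgroup.mem_top p)
    intro p
    exact DFunLike.congr_fun h1 p
  have hSn : ∀ (n : ℤ) p, f ((ψ ^ n) p) = τ ^ n * f p * (τ ^ n)⁻¹ := by
    intro n
    induction n using Int.induction_on with
    | zero => intro p; simp
    | succ k ih =>
      intro p
      rw [zpow_add_one, MulAut.mul_apply, ih, hS1, zpow_add_one]
      group
    | pred k ih =>
      intro p
      rw [zpow_sub_one, MulAut.mul_apply, ih]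
      have h1 : f p = τ * f (ψ⁻¹ p) * τ⁻¹ := by
        rw [← hS1, show ψ (ψ⁻¹ p) = p from MulAut.apply_inv_self _ ψ p]
      rw [h1]
      group
  let ρ : MT ψ →* Equiv.Perm Ω := SemidirectProduct.lift f (zpowersHom (Equiv.Perm Ω) τ) (by
    intro n
    ext1 p
    exact hSn (Multiplicative.toAdd n) p)
  have hρ : ∀ g : MT ψ, ρ g = f g.left * τ ^ (chi ψ g) := fun g => rfl
  refine ⟨ρ, ?_, ?_⟩
  · rintro ⟨g, hg⟩
    show ρ g = ρ₁ ⟨g, hg⟩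
    rw [hρ, hf1 ⟨g.left, hg⟩]
    show ρ₁ (i₁ ⟨g.left, hg⟩) * (ρ₁ ⟨tt ψ, ht1⟩) ^ (chi ψ g) = ρ₁ ⟨g, hg⟩
    rw [← map_zpow, ← map_mul]
    congr 1
    apply Subtype.ext
    exact (decomp ψ g).symm
  · rintro ⟨g, hg⟩
    show ρ g = ρ₂ ⟨g, hg⟩
    rw [hρ, hf2 ⟨g.left, hg⟩, hτ]
    show ρ₂ (i₂ ⟨g.left, hg⟩) * (ρ₂ ⟨tt ψ, ht2⟩) ^ (chi ψ g) = ρ₂ ⟨g, hg⟩
    rw [← map_zpow, ← map_mul]
    congr 1
    apply Subtype.ext
    exact (decomp ψ g).symm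

lemma mt_idx {A C : Subgroup P} (hA : ∀ x, ψ x ∈ A ↔ x ∈ A) (hC : ∀ x, ψ x ∈ C ↔ x ∈ C)
    (hidx : (A ⊓ C).relIndex C = 0) (K : Subgroup (MT ψ)) (hK : K.FiniteIndex) :
    ∃ c ∈ HH C hC, chi ψ c = 0 ∧ c ∈ K ∧ c ∉ HH A hA := by
  by_contra hcon
  push Not at hcon
  have h1 : ((K.comap (SemidirectProduct.inl : P →* MT ψ)).subgroupOf C).FiniteIndex := by
    have : (K.comap (SemidirectProduct.inl : P →* MT ψ)).FiniteIndex := by
      constructor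
      rw [Subgroup.index_comap]
      exact (inferInstance : (K.subgroupOf (SemidirectProduct.inl : P →* MT ψ).range).FiniteIndex).index_ne_zero
    infer_instance
  have h2 : (K.comap (SemidirectProduct.inl : P →* MT ψ)).subgroupOf C ≤ (A ⊓ C).subgroupOf C := by
    intro c hc
    exact ⟨hcon (SemidirectProduct.inl (c : P)) c.2 rfl hc, c.2⟩
  have h3 := Subgroup.finiteIndex_of_le h2
  exact h3.index_ne_zero hidx

/-- **Homological rigidity for mapping tori.** -/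
theorem rigid_mt {A C : Subgroup P} (hA : ∀ x, ψ x ∈ A ↔ x ∈ A) (hC : ∀ x, ψ x ∈ C ↔ x ∈ C)
    (hΓ : LERF (MT ψ)) (htop : A ⊔ C = ⊤) (hup : UP A C) (hAfg : A.FG) (hCfg : C.FG)
    (hLfg : (A ⊓ C).FG) (hidx : (A ⊓ C).relIndex C = 0) (x : P) (hx : x ∈ A)
    (f : HH A hA → ℚ) (hf : f ∈ VF (HH A hA))
    (hf1 : ∀ l (hl : l ∈ A), l ∈ C → f ⟨SemidirectProduct.inl l, hl⟩ = 0)
    (hf2 : ∀ l (hl : l ∈ A), l ∈ C → f (⟨SemidirectProduct.inl x, hx⟩ *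
      ⟨SemidirectProduct.inl l, hl⟩ * (⟨SemidirectProduct.inl x, hx⟩ : HH A hA)⁻¹) = 0) :
    f ⟨tt ψ, tt_mem A hA⟩ = f (⟨SemidirectProduct.inl x, hx⟩ * ⟨tt ψ, tt_mem A hA⟩ *
      (⟨SemidirectProduct.inl x, hx⟩ : HH A hA)⁻¹) := by
  have hAC : ∀ x, ψ x ∈ A ⊓ C ↔ x ∈ A ⊓ C := fun x =>
    ⟨fun h => ⟨(hA x).mp h.1, (hC x).mp h.2⟩, fun h => ⟨(hA x).mpr h.1, (hC x).mpr h.2⟩⟩
  have hinf : HH A hA ⊓ HH C hC = HH (A ⊓ C) hAC := by
    ext g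
    exact Iff.rfl
  have hLker : (kerOn (HH A hA ⊓ HH C hC) (chi ψ) ((chi_hom ψ).mono le_top)).FG := by
    have h1 := kerOn_HH (A ⊓ C) hAC hLfg
    convert h1 using 2
  have key : ∀ l : HH A hA, (l : MT ψ) ∈ HH C hC → chi ψ l = 0 →
      ∃ (hl : (l : MT ψ).left ∈ A), l = ⟨SemidirectProduct.inl (l : MT ψ).left, hl⟩ := by
    intro l _ hl
    exact ⟨l.2, Subtype.ext (inl_of_chi ψ hl)⟩
  apply rigid_vf hΓ (HH A hA) (HH C hC) (chi ψ) (chi_hom ψ) (tt ψ) (tt_mem A hA) (tt_mem C hC)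
    (chi_tt ψ) (kerOn_HH A hA hAfg) (kerOn_HH C hC hCfg) hLker (mt_idx hA hC hidx)
    (mt_up hA hC htop hup) ⟨SemidirectProduct.inl x, hx⟩ (chi_inl ψ x) f hf
  · intro l hl₂ hlχ
    obtain ⟨hl, e⟩ := key l hl₂ hlχ
    rw [e]
    exact hf1 _ hl hl₂
  · intro l hl₂ hlχ
    obtain ⟨hl, e⟩ := key l hl₂ hlχ
    rw [e]
    exact hf2 _ hl hl₂

end

end Run7.h574
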