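import Pool.Agent.Run7.h574.Dehn
import Pool.Agent.Helper180.BigPowers
import Pool.Agent.R646.P.Alt

/-!
# Two elements with large centralizers in the fibre of a LERF group
-/

set_option autoImplicit false
set_option linter.unusedSectionVars false
set_option linter.dupNamespace false

namespace Run7.h574

open FreeGroup (of)
open Pool.Agent.Helper180.FreeMetric
open Pool.Agent.Helper180

section

variable {α : Type}

lemma free_pair {x c : FreeGroup α} (h : x * c ≠ c * x) :
    ∃ p q : ℕ, 0 < p ∧ 0 < q ∧ ∀ i j : ℕ, 0 < i → 0 < j →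
      Function.Injective (FreeGroup.lift ![x ^ (p * i), c ^ (q * j)]) := by
  obtain ⟨p, q, hp, hq, h1 | h1⟩ := Pool.Agent.R646.P.concl_free x c
  · exfalso
    apply h
    have h2 : x ^ (p : ℤ) * c ^ (q : ℤ) = c ^ (q : ℤ) * x ^ (p : ℤ) := by
      rw [zpow_natCast, zpow_natCast]
      exact h1
    have h3 : x * c ^ (q : ℤ) = c ^ (q : ℤ) * x := comm_of_zpow (by exact_mod_cast hp.ne') h2
    exact (comm_of_zpow (by exact_mod_cast hq.ne') h3.symm).symm
  · refine ⟨p, q, hp, hq, fun i j hi hj => ?_⟩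
    have h2 := h1 i j hi hj
    rwa [← pow_mul, ← pow_mul] at h2

/-- elements of a free group of rank two commuting with a generator -/
lemma central_of1 {w : F2} (h : w * of 1 = of 1 * w) : ∃ k : ℤ, w = (of 1) ^ k := by
  have h1 : (of 1 : F2) ≠ 1 := by
    intro h; exact absurd h (by decide)
  obtain ⟨ρ, -, hρ⟩ := centralizer_cyclic (of 1 : F2) h1
  obtain ⟨i, hi⟩ := hρ _ rfl
  obtain ⟨j, hj⟩ := hρ w h
  -- exponents
  have h2 : Multiplicative.toAdd (expo 1 (of 1 : F2)) = i * Multiplicative.toAdd (expo 1 ρ) := by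
    conv_lhs => rw [hi]
    rw [map_zpow, toAdd_zpow, smul_eq_mul]
  have h3 : Multiplicative.toAdd (expo 1 (of 1 : F2)) = 1 := by
    unfold expo
    rw [FreeGroup.lift_apply_of, if_pos rfl]
    rfl
  rw [h3] at h2
  rcases Int.eq_one_or_neg_one_of_mul_eq_one h2.symm with h4 | h4
  · rw [h4, zpow_one] at hi
    exact ⟨j, by rw [hi]; exact hj⟩
  · rw [h4, zpow_neg_one] at hi
    refine ⟨-j, ?_⟩
    rw [hi, inv_zpow', neg_neg]
    exact hj

/-- the automorphism acts trivially on `A` and by conjugation by `c ^ j` on `C` -/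
structure Dyn (θ : MulAut (FreeGroup α)) (A C : Subgroup (FreeGroup α)) (c : FreeGroup α)
    (j : ℤ) : Prop where
  hA : ∀ x ∈ A, θ x = x
  hC : ∀ x ∈ C, θ x = c ^ j * x * c ^ (-j)
  c1 : c ≠ 1
  j0 : j ≠ 0
  cA : c ∈ A
  cC : c ∈ C
  inA : ∀ x ∈ A, x * c = c * x → x ∈ Subgroup.zpowers c
  inC : ∀ x ∈ C, x * c = c * x → x ∈ Subgroup.zpowers c

namespace Dyn

variable {θ : MulAut (FreeGroup α)} {A C : Subgroup (FreeGroup α)} {c : FreeGroup α} {j : ℤ}
  (D : Dyn θ A C c j)

include D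

lemma zp_A : Subgroup.zpowers c ≤ A := Subgroup.zpowers_le.mpr D.cA
lemma zp_C : Subgroup.zpowers c ≤ C := Subgroup.zpowers_le.mpr D.cC

lemma powA (N : ℕ) : ∀ x ∈ A, (θ ^ N) x = x := by
  induction N with
  | zero => intro x _; rfl
  | succ N ih => intro x hx; rw [pow_succ, MulAut.mul_apply, D.hA x hx, ih x hx]

lemma powC (N : ℕ) : ∀ x ∈ C, (θ ^ N) x = c ^ ((N : ℤ) * j) * x * c ^ ((N : ℤ) * (-j)) := by
  induction N with
  | zero => intro x _; simp
  | succ N ih =>
    intro x hx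
    have h1 : c ^ j * x * c ^ (-j) ∈ C :=
      C.mul_mem (C.mul_mem (C.zpow_mem D.cC _) hx) (C.zpow_mem D.cC _)
    rw [pow_succ, MulAut.mul_apply, D.hC x hx, ih _ h1]
    have e1 : c ^ (((N + 1 : ℕ) : ℤ) * j) = c ^ ((N : ℤ) * j) * c ^ j := by
      rw [← zpow_add]; congr 1; push_cast; ring
    have e2 : c ^ (((N + 1 : ℕ) : ℤ) * (-j)) = c ^ (-j) * c ^ ((N : ℤ) * (-j)) := by
      rw [← zpow_add]; congr 1; push_cast; ring
    rw [e1, e2]
    group

lemma nc {g : FreeGroup α} (hg : g ∉ Subgroup.zpowers c) (hgA : g ∈ A ∨ g ∈ C) :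
    c * (g * c * g⁻¹) ≠ (g * c * g⁻¹) * c := by
  intro h
  apply hg
  have h1 : c * g = g * c := by
    apply comm_of_conj D.c1 (m := 1) (n := 1) one_ne_zero one_ne_zero
    rw [zpow_one]
    exact h
  rcases hgA with h2 | h2
  · exact D.inA g h2 h1.symm
  · exact D.inC g h2 h1.symm

lemma notA {g : FreeGroup α} (h : g ∉ A) : g ∉ Subgroup.zpowers c := fun h' => h (D.zp_A h')
lemma notC {g : FreeGroup α} (h : g ∉ C) : g ∉ Subgroup.zpowers c := fun h' => h (D.zp_C h')

variable {M : Type} [Group M] (iA : A →* M) (iC : C →* M) (π : M →* FreeGroup α)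
  (hπA : ∀ a : A, π (iA a) = a) (hπC : ∀ a : C, π (iC a) = a)

include hπA hπC in
lemma expr [Finite α] [DecidableEq α] {b : Bool} {m : M} (hm : Red iA iC b m) :
    (b = true → ∃ a L, a ≠ 1 ∧ (∀ N : ℕ, (θ ^ N) (π m) = a * BigPowers.val N L) ∧
      BigPowers.Red ((c, -j, a) :: L)) ∧
    (b = false → ∃ g L, (∀ N : ℕ, (θ ^ N) (π m) = BigPowers.val N ((c, j, g) :: L)) ∧
      BigPowers.Red ((c, j, g) :: L)) := by
  induction hm with
  | baseA a h =>
    refine ⟨fun _ => ⟨a, [], ?_, ?_, D.c1, neg_ne_zero.mpr D.j0⟩, fun h => by simp at h⟩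
    · intro h'
      rw [h'] at h
      exact h C.one_mem
    · intro N
      rw [hπA, D.powA N a a.2]
      simp [BigPowers.val]
  | baseC a h =>
    refine ⟨fun h => by simp at h, fun _ => ⟨a, [(c, -j, 1)], ?_, ?_⟩⟩
    · intro N
      rw [hπC, D.powC N a a.2]
      simp [BigPowers.val]
    · refine ⟨D.c1, D.j0, D.nc (D.notA h) (Or.inr a.2), D.c1, neg_ne_zero.mpr D.j0⟩
  | consA a h m' _ ih =>
    refine ⟨fun _ => ?_, fun h => by simp at h⟩
    obtain ⟨g, L, h1, h2⟩ := ih.2 rfl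
    refine ⟨a, (c, j, g) :: L, ?_, ?_, D.c1, neg_ne_zero.mpr D.j0, D.nc (D.notC h) (Or.inl a.2), h2⟩
    · intro h'
      rw [h'] at h
      exact h C.one_mem
    · intro N
      rw [map_mul, map_mul, hπA, D.powA N a a.2, h1]
  | consC a h m' _ ih =>
    refine ⟨fun h => by simp at h, fun _ => ?_⟩
    obtain ⟨a', L, -, h1, h2⟩ := ih.1 rfl
    refine ⟨a, (c, -j, a') :: L, ?_, D.c1, D.j0, D.nc (D.notA h) (Or.inr a.2), h2⟩
    intro N
    rw [map_mul, map_mul, hπC, D.powC N a a.2, h1]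
    simp only [BigPowers.val]
    group

include hπA hπC in
theorem inj [Finite α] (hac : ∀ l (hA : l ∈ A) (hC : l ∈ C), iA ⟨l, hA⟩ = iC ⟨l, hC⟩)
    (hgen : (⊤ : Subgroup M) = iA.range ⊔ iC.range) : Function.Injective π := by
  classical
  rw [injective_iff_map_eq_one]
  intro m hm
  rcases NF.all iA iC hac hgen m with ⟨l, hlA, hlC, rfl⟩ | ⟨b, hb⟩
  · rw [hπA] at hm
    have : (⟨l, hlA⟩ : A) = 1 := Subtype.ext hm
    rw [this, map_one]
  · exfalso
    have h1 := D.expr iA iC π hπA hπC hb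
    cases b with
    | true =>
      obtain ⟨a, L, ha, h2, h3⟩ := h1.1 rfl
      have h4 : ∀ N : ℕ, BigPowers.val N L = a⁻¹ := by
        intro N
        have := h2 N
        rw [hm, map_one] at this
        exact (inv_eq_of_mul_eq_one_right this.symm).symm
      cases L with
      | nil =>
        apply ha
        have := h4 0
        simp only [BigPowers.val] at this
        exact inv_eq_one.mp this.symm
      | cons q L =>
        obtain ⟨w', m', g'⟩ := q
        obtain ⟨N, hN⟩ := (BigPowers.big_powers _ (by simp) h3.2.2.2 a⁻¹).exists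
        exact hN (h4 N)
    | false =>
      obtain ⟨g, L, h2, h3⟩ := h1.2 rfl
      obtain ⟨N, hN⟩ := (BigPowers.big_powers _ (by simp) h3 1).exists
      apply hN
      rw [← h2 N, hm, map_one]

end Dyn

end

end Run7.h574
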