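import Pool.Agent.Run7.h574.Strong

/-!
# Classification of LERF free-by-cyclic groups with a tame cyclic splitting
-/

set_option autoImplicit false
set_option linter.unusedSectionVars false
set_option linter.dupNamespace false

namespace Run7.h574

open Pool.Agent.Helper180.FreeMetric

section

variable {α : Type} {φ : MulAut (FreeGroup α)}

/-- an element with a noncommutative centralizer in the fibre -/
def BigC (s : MT φ) : Prop :=
  chi φ s ≠ 0 ∧ ∃ x y : FreeGroup α, x * y ≠ y * x ∧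
    Commute s (SemidirectProduct.inl x) ∧ Commute s (SemidirectProduct.inl y)

lemma comm_trans {a b c : FreeGroup α} (hb : b ≠ 1) (h1 : a * b = b * a) (h2 : c * b = b * c) :
    a * c = c * a := by
  obtain ⟨r, -, hr⟩ := centralizer_cyclic b hb
  obtain ⟨i, rfl⟩ := hr a h1
  obtain ⟨j, rfl⟩ := hr c h2
  rw [← zpow_add, ← zpow_add, add_comm]

lemma BigC.pick {s : MT φ} (hs : BigC s) {c : FreeGroup α} (hc : c ≠ 1) :
    ∃ x, x * c ≠ c * x ∧ Commute s (SemidirectProduct.inl x) := by
  obtain ⟨-, x, y, hxy, hx, hy⟩ := hs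
  by_cases h : x * c = c * x
  · refine ⟨y, fun h2 => hxy (comm_trans hc h h2), hy⟩
  · exact ⟨x, h, hx⟩

lemma BigC.zpow {s : MT φ} (hs : BigC s) {N : ℤ} (hN : N ≠ 0) : BigC (s ^ N) := by
  obtain ⟨h1, x, y, hxy, hx, hy⟩ := hs
  refine ⟨?_, x, y, hxy, hx.zpow_left N, hy.zpow_left N⟩
  rw [chi_zpow]
  exact mul_ne_zero hN h1

lemma BigC.conj {s : MT φ} (hs : BigC s) (γ : FreeGroup α) :
    BigC (SemidirectProduct.inl γ * s * (SemidirectProduct.inl γ)⁻¹ : MT φ) := by
  obtain ⟨h1, x, y, hxy, hx, hy⟩ := hs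
  have hcc : ∀ z : FreeGroup α, Commute s (SemidirectProduct.inl z) →
      Commute (SemidirectProduct.inl γ * s * (SemidirectProduct.inl γ)⁻¹ : MT φ)
        (SemidirectProduct.inl (γ * z * γ⁻¹)) := by
    intro z hz
    rw [map_mul, map_mul, map_inv]
    show _ = _
    calc (SemidirectProduct.inl γ * s * (SemidirectProduct.inl γ)⁻¹ : MT φ) *
        (SemidirectProduct.inl γ * SemidirectProduct.inl z * (SemidirectProduct.inl γ)⁻¹) =
        SemidirectProduct.inl γ * (s * SemidirectProduct.inl z) * (SemidirectProduct.inl γ)⁻¹ := by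
          group
      _ = SemidirectProduct.inl γ * (SemidirectProduct.inl z * s) * (SemidirectProduct.inl γ)⁻¹ := by
          rw [hz.eq]
      _ = _ := by group
  refine ⟨?_, γ * x * γ⁻¹, γ * y * γ⁻¹, ?_, hcc x hx, hcc y hy⟩
  · rw [chi_mul, chi_mul, chi_inv, chi_inl]
    simpa using h1
  · intro h
    apply hxy
    have e1 : γ * x * γ⁻¹ * (γ * y * γ⁻¹) = γ * (x * y) * γ⁻¹ := by group
    have e2 : γ * y * γ⁻¹ * (γ * x * γ⁻¹) = γ * (y * x) * γ⁻¹ := by group
    rw [e1, e2] at h
    exact mul_left_cancel (mul_right_cancel h)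

/-- elements with big centralizers and commuting with a common element are commensurable -/
lemma bigC_common [Finite α] (hG : LERF (MT φ)) {s r : MT φ} (hs : BigC s) (hr : BigC r)
    {c : FreeGroup α} (hc : c ≠ 1) {M M' : ℤ} (hM : M ≠ 0) (hM' : M' ≠ 0)
    (h1 : Commute (s ^ M) (SemidirectProduct.inl c))
    (h2 : Commute (r ^ M') (SemidirectProduct.inl c)) :
    ∃ a b : ℤ, a ≠ 0 ∧ b ≠ 0 ∧ s ^ a = r ^ b := by
  obtain ⟨x, hx, hsx⟩ := hs.pick hc
  obtain ⟨y, hy, hry⟩ := hr.pick hc
  obtain ⟨a, b, ha, hb, hab⟩ := p4 hG (hs.zpow hM).1 (hr.zpow hM').1 hc h1 h2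
    (hsx.zpow_left M) (hry.zpow_left M') hx hy
  refine ⟨M * a, M' * b, mul_ne_zero hM ha, mul_ne_zero hM' hb, ?_⟩
  rw [zpow_mul, zpow_mul, hab]

end

section

variable {α : Type} {φ : MulAut (FreeGroup α)} {V : Type} [MulAction (MT φ) V]
  {T : SimpleGraph V}

/-- an element of the stabilizer of two vertices separated by an edge fixes the edge -/
lemma fix_edge (h : CT φ T) {v x p q : V} (hpq : T.Adj p q) (hv : T.dist v p < T.dist v q)
    (hx : T.dist x q < T.dist x p) {a : MT φ} (hav : a • v = v) (hax : a • x = x) :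
    a • p = p ∧ a • q = q := by
  have h1 := through_edge h.tree hpq hx _ v rfl hv
  have h4 := h.tree.dist_eq_dist_add_one_of_adj v hpq
  constructor
  · have h2 : T.dist v (a • p) = T.dist v p := by
      have := dist_smul h.act h.tree a v p
      rwa [hav] at this
    have h3 : T.dist (a • p) x = T.dist p x := by
      have := dist_smul h.act h.tree a p x
      rwa [hax] at this
    have h5 := h.tree.dist_eq_dist_add_one_of_adj x hpq
    rw [SimpleGraph.dist_comm (u := x), SimpleGraph.dist_comm (u := x)] at h5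
    rw [SimpleGraph.dist_comm (u := x), SimpleGraph.dist_comm (u := x)] at hx
    exact geod_unique h.tree x v _ (a • p) p h2 rfl (by omega) (by omega)
  · have h2 : T.dist v (a • q) = T.dist v q := by
      have := dist_smul h.act h.tree a v q
      rwa [hav] at this
    have h3 : T.dist (a • q) x = T.dist q x := by
      have := dist_smul h.act h.tree a q x
      rwa [hax] at this
    exact geod_unique h.tree x v _ (a • q) q h2 rfl (by omega) (by omega)

/-- sliding an element of the stabilizer of an edge with trivial fibre stabilizer -/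
lemma slide (h : CT φ T) {p q : V} (hpq : T.Adj p q) {z : V} (hz : T.dist z q < T.dist z p)
    (hz1 : fst φ z ≠ ⊥) : ∀ k : ℕ, ∀ y : V, T.dist y z = k → T.dist y q < T.dist y p →
      ∀ u : MT φ, u • y = y → chi φ u ≠ 0 →
      ∃ (y' : V) (N : ℤ), T.dist y' q < T.dist y' p ∧ fst φ y' ≠ ⊥ ∧ N ≠ 0 ∧ (u ^ N) • y' = y' ∧
        (fst φ y ≠ ⊥ → y' = y) := by
  intro k
  induction k with
  | zero =>
    intro y hy hyq u huy hu
    have h1 : y = z := (h.tree.connected.dist_eq_zero_iff).mp hy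
    subst h1
    exact ⟨y, 1, hyq, hz1, one_ne_zero, by rw [zpow_one]; exact huy, fun _ => rfl⟩
  | succ k ih =>
    intro y hy hyq u huy hu
    by_cases hy1 : fst φ y = ⊥
    · obtain ⟨r, hr, hr'⟩ := exists_closer h.tree (v := z) (x := y) (by
        rintro rfl
        rw [SimpleGraph.dist_self] at hy
        omega)
      obtain ⟨k', hk1, hk2, hk3⟩ := h.edge y r hr
      obtain ⟨m, hm, hmk⟩ := diff_mem huy hk1
      rw [hy1, Subgroup.mem_bot] at hm
      rw [hm, map_one, one_mul] at hmk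
      have hrq : T.dist r q < T.dist r p := by
        by_contra hcon
        have h4 := h.tree.dist_eq_dist_add_one_of_adj r hpq
        have h5 : T.dist r p < T.dist r q := by omega
        -- then the edge y r is the edge q p and z is on the wrong side
        have h6 := through_edge h.tree hpq.symm h5 _ y rfl hyq
        have h7 := through_edge h.tree hpq hz _ r rfl h5
        have h8 := through_edge h.tree hpq hyq _ r rfl h5
        rw [SimpleGraph.dist_comm (u := y), SimpleGraph.dist_eq_one_iff_adj.mpr hr.symm] at h6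
        have h9 : T.dist y q = 0 := by omega
        have h10 : y = q := (h.tree.connected.dist_eq_zero_iff).mp h9
        subst h10
        rw [SimpleGraph.dist_comm (u := z), SimpleGraph.dist_comm (u := z)] at hr'
        omega
      obtain ⟨y', N, h1, h2, h3, h4, -⟩ := ih r (by
        rw [SimpleGraph.dist_comm (u := z), SimpleGraph.dist_comm (u := z)] at hr'
        omega) hrq (u ^ chi φ k') (by rw [hmk]; exact stab_zpow hk2 _) (by
          rw [chi_zpow]; exact mul_ne_zero hk3 hu)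
      refine ⟨y', chi φ k' * N, h1, h2, mul_ne_zero hk3 h3, ?_, fun h => absurd hy1 h⟩
      rw [zpow_mul]
      exact h4
    · exact ⟨y, 1, hyq, hy1, one_ne_zero, by rw [zpow_one]; exact huy, fun _ => rfl⟩

/-- nontrivial elements of the stabilizers of two vertices separated by an edge with trivial
stabilizer do not commute -/
lemma not_comm_of_edge (h : CT φ T) {p q : V} (hpq : T.Adj p q) (htriv : fst φ p ⊓ fst φ q = ⊥)
    {v x : V} (hv : T.dist v p < T.dist v q) (hx : T.dist x q < T.dist x p) {a b : FreeGroup α}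
    (ha : a ∈ fst φ v) (ha1 : a ≠ 1) (hb : b ∈ fst φ x) (hb1 : b ≠ 1) : a * b ≠ b * a := by
  intro hab
  have hav : (SemidirectProduct.inl a : MT φ) • v = v := ha
  have hbx : (SemidirectProduct.inl b : MT φ) • x = x := hb
  -- a moves q
  have haq : (SemidirectProduct.inl a : MT φ) • q ≠ q := by
    intro hcon
    have h1 : (SemidirectProduct.inl a : MT φ) • p = p :=
      fix_closer h.tree h.act hpq.symm hv hav hcon
    have h2 : a ∈ fst φ p ⊓ fst φ q := ⟨h1, hcon⟩
    rw [htriv, Subgroup.mem_bot] at h2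
    exact ha1 h2
  have h1 := swap_side h.tree h.act hpq hv hav haq hx
  -- b fixes the image of x
  have h2 : (SemidirectProduct.inl b : MT φ) • ((SemidirectProduct.inl a : MT φ) • x) =
      (SemidirectProduct.inl a : MT φ) • x := by
    rw [smul_smul, ← map_mul, ← hab, map_mul, mul_smul, hbx]
  obtain ⟨h3, h4⟩ := fix_edge h hpq h1 hx h2 hbx
  have h5 : b ∈ fst φ p ⊓ fst φ q := ⟨h3, h4⟩
  rw [htriv, Subgroup.mem_bot] at h5
  exact hb1 h5

lemma relIndex_bot_of_ne {C : Subgroup (FreeGroup α)} (hC : C ≠ ⊥) {L : Subgroup (FreeGroup α)}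
    (hL : L = ⊥) : L.relIndex C = 0 := by
  by_contra hne
  apply hC
  rw [Subgroup.eq_bot_iff_forall]
  intro x hx
  have hfi : (L.subgroupOf C).FiniteIndex := ⟨hne⟩
  obtain ⟨n, hn, hn'⟩ := exists_pow_mem (L.subgroupOf C) ⟨x, hx⟩
  have h1 : x ^ n ∈ L := hn'
  rw [hL, Subgroup.mem_bot] at h1
  exact zpow_inj hn.ne' (h1.trans (one_zpow n).symm)

/-- an element fixing an edge with trivial fibre stabilizer has a power commuting with a nontrivial
element of a vertex group on each side -/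
lemma te (h : CT φ T) (hgood : ∀ v : V, ¬ IsCyclic (fst φ v) → Good2 φ v) {p q : V} (hpq : T.Adj p q)
    (htriv : fst φ p ⊓ fst φ q = ⊥) {z z' : V} (hz : T.dist z q < T.dist z p) (hz1 : fst φ z ≠ ⊥)
    (hz' : T.dist z' p < T.dist z' q) (hz'1 : fst φ z' ≠ ⊥) {u : MT φ} (hup : u • p = p)
    (huq : u • q = q) (hu : chi φ u ≠ 0) :
    ∃ (y : V) (N : ℤ) (d : FreeGroup α), T.dist y q < T.dist y p ∧ N ≠ 0 ∧ d ∈ fst φ y ∧ d ≠ 1 ∧
      Commute (u ^ N) (SemidirectProduct.inl d) ∧ (fst φ q ≠ ⊥ → y = q) := by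
  have hpq1 : T.dist p q = 1 := SimpleGraph.dist_eq_one_iff_adj.mpr hpq
  have hqp1 : T.dist q p = 1 := SimpleGraph.dist_eq_one_iff_adj.mpr hpq.symm
  obtain ⟨y, N, hy, hy1, hN, huy, hyq⟩ := slide h hpq hz hz1 _ q rfl (by
    rw [SimpleGraph.dist_self, hqp1]; exact one_pos) u huq hu
  obtain ⟨x, M, hx, hx1, hM, hux, -⟩ := slide h hpq.symm hz' hz'1 _ p rfl (by
    rw [SimpleGraph.dist_self, hpq1]; exact one_pos) u hup hu
  by_cases hcy : IsCyclic (fst φ y)
  · obtain ⟨c, hc⟩ := (Subgroup.isCyclic_iff_exists_zpowers_eq_top (fst φ y)).mp hcy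
    have hcmem : c ∈ fst φ y := by rw [← hc]; exact Subgroup.mem_zpowers c
    have hc1 : c ≠ 1 := by
      rintro rfl
      apply hy1
      rw [← hc, Subgroup.zpowers_one_eq_bot]
    have h1 := sq_comm (φ := φ) (u := u ^ N) (c := c) (by rw [hc]; exact cj_fst huy)
    refine ⟨y, N * 2, c, hy, mul_ne_zero hN two_ne_zero, hcmem, hc1, ?_, hyq⟩
    rw [zpow_mul]
    have h2 := cj_zpow φ (u ^ N) 2 c
    rw [zpow_ofNat (cj φ (u ^ N)), h1, mul_inv_eq_iff_eq_mul] at h2
    exact h2
  · -- the two vertex groups form an amalgam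
    let _ : MulAction (FreeGroup α) V := MulAction.compHom V (SemidirectProduct.inl : _ →* MT φ)
    have hact : ∀ (g : FreeGroup α) (x y : V), T.Adj x y → T.Adj (g • x) (g • y) :=
      fun g x y hxy => h.act _ x y hxy
    have hbot : fst φ y ⊓ fst φ x = ⊥ := by
      rw [Subgroup.eq_bot_iff_forall]
      rintro a ⟨ha1, ha2⟩
      obtain ⟨h3, h4⟩ := fix_edge h hpq (a := (SemidirectProduct.inl a : MT φ)) hx hy ha2 ha1
      have h5 : a ∈ fst φ p ⊓ fst φ q := ⟨h3, h4⟩
      rwa [htriv, Subgroup.mem_bot] at h5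
    have ham : IsAmalgam (fst φ y) (fst φ x) := by
      refine amalgam_of_edge (F := FreeGroup α) h.tree hact hpq.symm hy hx ?_ ?_
      · intro a ha hap
        have h3 : (SemidirectProduct.inl a : MT φ) • q = q :=
          fix_closer h.tree h.act hpq hy ha hap
        have h5 : a ∈ fst φ p ⊓ fst φ q := ⟨hap, h3⟩
        rw [htriv, Subgroup.mem_bot] at h5
        rw [h5, one_smul]
      · intro a ha haq
        have h3 : (SemidirectProduct.inl a : MT φ) • p = p :=
          fix_closer h.tree h.act hpq.symm hx ha haq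
        have h5 : a ∈ fst φ p ⊓ fst φ q := ⟨h3, haq⟩
        rw [htriv, Subgroup.mem_bot] at h5
        rw [h5, one_smul]
    have hux' : (u ^ (N * M)) • x = x := by
      rw [mul_comm, zpow_mul]; exact stab_zpow hux _
    have huy' : (u ^ (N * M)) • y = y := by
      rw [zpow_mul]; exact stab_zpow huy _
    have hchi : chi φ (u ^ (N * M)) ≠ 0 := by
      rw [chi_zpow]; exact mul_ne_zero (mul_ne_zero hN hM) hu
    obtain ⟨J, w, hJ, hw, hcom⟩ := hgood y hcy (fst φ x) (h.fg x) (u ^ (N * M)) huy' hchi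
      (cj_fst hux') ham (by rw [hbot]; infer_instance) (relIndex_bot_of_ne hx1 hbot)
    rw [hbot, Subgroup.mem_bot] at hw
    obtain ⟨d, hd⟩ := (Subgroup.ne_bot_iff_exists_ne_one (H := fst φ y)).mp hy1
    refine ⟨y, N * M * J, d, hy, mul_ne_zero (mul_ne_zero hN hM) hJ, d.2,
      fun h => hd (Subtype.ext h), ?_, hyq⟩
    rw [zpow_mul]
    have h6 := hcom d d.2
    rwa [hw, map_one, one_mul] at h6

/-- two elements which centralize, up to powers, nontrivial elements of the same vertex group -/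
lemma vertex_common [Finite α] (hG : LERF (MT φ)) (h : CT φ T)
    (hgood : ∀ v : V, ¬ IsCyclic (fst φ v) → Good2 φ v) {v : V} {s r : MT φ} (hs : BigC s)
    (hr : BigC r) {c d : FreeGroup α} (hc : c ∈ fst φ v) (hc1 : c ≠ 1) (hd : d ∈ fst φ v)
    (hd1 : d ≠ 1) {M M' : ℤ} (hM : M ≠ 0) (hM' : M' ≠ 0)
    (h1 : Commute (s ^ M) (SemidirectProduct.inl c))
    (h2 : Commute (r ^ M') (SemidirectProduct.inl d)) :
    ∃ a b : ℤ, a ≠ 0 ∧ b ≠ 0 ∧ s ^ a = r ^ b := by
  by_cases hcyc : IsCyclic (fst φ v)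
  · -- c and d have a common power
    obtain ⟨e, he⟩ := (Subgroup.isCyclic_iff_exists_zpowers_eq_top (fst φ v)).mp hcyc
    have hc' := hc
    have hd' := hd
    rw [← he] at hc' hd'
    obtain ⟨i, hi⟩ := hc'
    obtain ⟨j, hj⟩ := hd'
    have hi' : e ^ i = c := hi
    have hj' : e ^ j = d := hj
    have hi0 : i ≠ 0 := by
      rintro rfl
      rw [zpow_zero] at hi'
      exact hc1 hi'.symm
    have hj0 : j ≠ 0 := by
      rintro rfl
      rw [zpow_zero] at hj'
      exact hd1 hj'.symm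
    refine bigC_common hG hs hr (c := e ^ (i * j)) ?_ hM hM' ?_ ?_
    · intro hcon
      have h3 : e = 1 := zpow_inj (mul_ne_zero hi0 hj0) (hcon.trans (one_zpow _).symm)
      rw [h3, one_zpow] at hi'
      exact hc1 hi'.symm
    · rw [zpow_mul, hi', map_zpow]
      exact h1.zpow_right j
    · rw [mul_comm, zpow_mul, hj', map_zpow]
      exact h2.zpow_right i
  · obtain ⟨g, hgv, hg, hcom⟩ := centralize h hcyc (good_of_good2 (hgood v hcyc))
    have hgB : BigC g := by
      refine ⟨hg, ?_⟩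
      by_contra hcon
      push Not at hcon
      apply hcyc
      apply cyclic_of_comm
      intro x hx y hy
      by_contra hxy
      exact hcon x y hxy (hcom x hx) (hcom y hy)
    have hg1 : ∀ x ∈ fst φ v, Commute (g ^ (1 : ℤ)) (SemidirectProduct.inl x) := by
      intro x hx
      rw [zpow_one]
      exact hcom x hx
    obtain ⟨a, b, ha, hb, hab⟩ := bigC_common hG hs hgB hc1 hM one_ne_zero h1 (hg1 c hc)
    obtain ⟨a', b', ha', hb', hab'⟩ := bigC_common hG hr hgB hd1 hM' one_ne_zero h2 (hg1 d hd)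
    refine ⟨a * b', a' * b, mul_ne_zero ha hb', mul_ne_zero ha' hb, ?_⟩
    rw [zpow_mul, hab, zpow_mul, hab', ← zpow_mul, ← zpow_mul, mul_comm]

/-- a nontrivial element of a vertex group, and an element of which a power centralizes it, have the
same behaviour at every element of the vertex group -/
lemma vertex_spread [Finite α] (hG : LERF (MT φ)) (h : CT φ T)
    (hgood : ∀ v : V, ¬ IsCyclic (fst φ v) → Good2 φ v) {v : V} {s : MT φ} (hs : BigC s)
    {c d : FreeGroup α} (hc : c ∈ fst φ v) (hc1 : c ≠ 1) (hd : d ∈ fst φ v)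
    {M : ℤ} (hM : M ≠ 0) (h1 : Commute (s ^ M) (SemidirectProduct.inl c)) :
    ∃ N : ℤ, N ≠ 0 ∧ Commute (s ^ N) (SemidirectProduct.inl d) := by
  by_cases hcyc : IsCyclic (fst φ v)
  · obtain ⟨e, he⟩ := (Subgroup.isCyclic_iff_exists_zpowers_eq_top (fst φ v)).mp hcyc
    have hc' := hc
    have hd' := hd
    rw [← he] at hc' hd'
    obtain ⟨i, hi⟩ := hc'
    obtain ⟨j, hj⟩ := hd'
    have hi' : e ^ i = c := hi
    have hj' : e ^ j = d := hj
    have hi0 : i ≠ 0 := by
      rintro rfl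
      rw [zpow_zero] at hi'
      exact hc1 hi'.symm
    refine ⟨M, hM, ?_⟩
    rw [comm_iff] at h1 ⊢
    rw [← hi', map_zpow] at h1
    rw [← hj', map_zpow, zpow_inj hi0 h1]
  · obtain ⟨g, hgv, hg, hcom⟩ := centralize h hcyc (good_of_good2 (hgood v hcyc))
    have hgB : BigC g := by
      refine ⟨hg, ?_⟩
      by_contra hcon
      push Not at hcon
      apply hcyc
      apply cyclic_of_comm
      intro x hx y hy
      by_contra hxy
      exact hcon x y hxy (hcom x hx) (hcom y hy)
    obtain ⟨a, b, ha, hb, hab⟩ := bigC_common hG hs hgB hc1 hM one_ne_zero h1 (by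
      rw [zpow_one]; exact hcom c hc)
    exact ⟨a, ha, by rw [hab]; exact (hcom d hd).zpow_left b⟩

/-- the propagated property -/
def RR (φ : MulAut (FreeGroup α)) [MulAction (MT φ) V] (s : MT φ) (x : V) : Prop :=
  (fst φ x ≠ ⊥ → ∃ (N : ℤ) (c : FreeGroup α), N ≠ 0 ∧ c ∈ fst φ x ∧ c ≠ 1 ∧
    Commute (s ^ N) (SemidirectProduct.inl c)) ∧
  (fst φ x = ⊥ → ∃ N : ℤ, N ≠ 0 ∧ (s ^ N) • x = x)

lemma prop_edge [Finite α] (hG : LERF (MT φ)) (h : CT φ T)
    (hgood : ∀ v : V, ¬ IsCyclic (fst φ v) → Good2 φ v) {s : MT φ} (hs : BigC s)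
    {p q : V} (hpq : T.Adj p q) {z z' : V} (hz : T.dist z q < T.dist z p) (hz1 : fst φ z ≠ ⊥)
    (hz' : T.dist z' p < T.dist z' q) (hz'1 : fst φ z' ≠ ⊥) (hp : RR φ s p) : RR φ s q := by
  by_cases htriv : fst φ p ⊓ fst φ q = ⊥
  · obtain ⟨u, hup, huq, hu⟩ := h.edge p q hpq
    obtain ⟨y, N, d, hy, hN, hd, hd1, hcd, hyq⟩ := te h hgood hpq htriv hz hz1 hz' hz'1 hup huq hu
    -- s and u are commensurable
    obtain ⟨a, b, ha, hb, hab⟩ : ∃ a b : ℤ, a ≠ 0 ∧ b ≠ 0 ∧ s ^ a = u ^ b := by
      by_cases hpb : fst φ p = ⊥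
      · obtain ⟨M, hM, hsM⟩ := hp.2 hpb
        obtain ⟨m, hm, hmk⟩ := diff_mem hsM hup
        rw [hpb, Subgroup.mem_bot] at hm
        rw [hm, map_one, one_mul, ← zpow_mul] at hmk
        refine ⟨_, _, mul_ne_zero hM hu, ?_, hmk⟩
        rw [chi_zpow]
        exact mul_ne_zero hM hs.1
      · obtain ⟨x, N', d', hx, hN', hd', hd'1, hcd', hxp⟩ := te h hgood hpq.symm
          (by rw [inf_comm]; exact htriv) hz' hz'1 hz hz1 huq hup hu
        have hxp' := hxp hpb
        subst hxp'
        obtain ⟨M, c, hM, hc, hc1, hsc⟩ := hp.1 hpb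
        have hNN : N * N' ≠ 0 := mul_ne_zero hN hN'
        have hcd1 : Commute (u ^ (N * N')) (SemidirectProduct.inl d) := by
          rw [zpow_mul]; exact hcd.zpow_left _
        have hcd2 : Commute (u ^ (N * N')) (SemidirectProduct.inl d') := by
          rw [mul_comm, zpow_mul]; exact hcd'.zpow_left _
        have huB : BigC (u ^ (N * N')) := by
          refine ⟨?_, d', d, not_comm_of_edge h hpq htriv hx hy hd' hd'1 hd hd1, hcd2, hcd1⟩
          rw [chi_zpow]
          exact mul_ne_zero hNN hu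
        obtain ⟨a, b, ha, hb, hab⟩ := vertex_common hG h hgood hs huB hc hc1 hd' hd'1 hM
          one_ne_zero hsc (by rw [zpow_one]; exact hcd2)
        refine ⟨a, N * N' * b, ha, mul_ne_zero hNN hb, ?_⟩
        rw [hab, ← zpow_mul]
    constructor
    · intro hqb
      have hyq' := hyq hqb
      subst hyq'
      refine ⟨a * N, d, mul_ne_zero ha hN, hd, hd1, ?_⟩
      rw [zpow_mul, hab, ← zpow_mul, mul_comm, zpow_mul]
      exact hcd.zpow_left _
    · intro _
      exact ⟨a, ha, by rw [hab]; exact stab_zpow huq _⟩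
  · obtain ⟨⟨l, hlp, hlq⟩, hl⟩ := (Subgroup.ne_bot_iff_exists_ne_one (H := fst φ p ⊓ fst φ q)).mp htriv
    have hl1 : l ≠ 1 := fun h => hl (Subtype.ext h)
    have hpb : fst φ p ≠ ⊥ := by
      intro hcon
      rw [hcon] at hlp
      exact hl1 (Subgroup.mem_bot.mp hlp)
    have hqb : fst φ q ≠ ⊥ := by
      intro hcon
      rw [hcon] at hlq
      exact hl1 (Subgroup.mem_bot.mp hlq)
    obtain ⟨M, c, hM, hc, hc1, hsc⟩ := hp.1 hpb
    obtain ⟨N, hN, hN'⟩ := vertex_spread hG h hgood hs hc hc1 hlp hM hsc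
    exact ⟨fun _ => ⟨N, l, hN, hlq, hl1, hN'⟩, fun hcon => absurd hcon hqb⟩

lemma prop_path [Finite α] (hG : LERF (MT φ)) (h : CT φ T)
    (hgood : ∀ v : V, ¬ IsCyclic (fst φ v) → Good2 φ v) {s : MT φ} (hs : BigC s)
    {v z : V} (hv1 : fst φ v ≠ ⊥) (hz1 : fst φ z ≠ ⊥) (hv : RR φ s v) :
    ∀ k : ℕ, ∀ x : V, T.dist v x = k → T.dist v z = T.dist v x + T.dist x z → RR φ s x := by
  intro k
  induction k with
  | zero =>
    intro x hx _
    have h1 : v = x := (h.tree.connected.dist_eq_zero_iff).mp hx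
    subst h1
    exact hv
  | succ k ih =>
    intro x hx hxz
    obtain ⟨r, hr, hr'⟩ := exists_closer h.tree (v := v) (x := x) (by
      rintro rfl
      rw [SimpleGraph.dist_self] at hx
      omega)
    have h5 := h.tree.connected.dist_triangle (u := v) (v := r) (w := z)
    have h6 := h.tree.connected.dist_triangle (u := r) (v := x) (w := z)
    rw [SimpleGraph.dist_eq_one_iff_adj.mpr hr.symm] at h6
    have h7 := ih r (by omega) (by omega)
    refine prop_edge hG h hgood hs hr.symm (z := z) (z' := v) ?_ hz1 ?_ hv1 h7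
    · rw [SimpleGraph.dist_comm (u := z), SimpleGraph.dist_comm (u := z)]
      omega
    · omega

/-- an element with a big centralizer centralizing, up to powers, a nontrivial element of a vertex
group -/
lemma finish [Finite α] (hG : LERF (MT φ)) (h : CT φ T)
    (hgood : ∀ v : V, ¬ IsCyclic (fst φ v) → Good2 φ v) {s : MT φ} (hs : BigC s)
    {v : V} (hv1 : fst φ v ≠ ⊥) (hv : RR φ s v) (γ : FreeGroup α) :
    ∃ N : ℤ, N ≠ 0 ∧ Commute (s ^ N) (SemidirectProduct.inl γ) := by
  set z : V := (SemidirectProduct.inl γ⁻¹ : MT φ) • v with hz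
  have hz1 : fst φ z ≠ ⊥ := by
    intro hcon
    apply hv1
    rw [Subgroup.eq_bot_iff_forall]
    intro a ha
    have h1 : γ⁻¹ * a * γ ∈ fst φ z := by
      rw [hz, fst_smul]
      have : γ⁻¹⁻¹ * (γ⁻¹ * a * γ) * γ⁻¹ = a := by group
      rw [this]
      exact ha
    rw [hcon, Subgroup.mem_bot] at h1
    have h2 : a = γ * (γ⁻¹ * a * γ) * γ⁻¹ := by group
    rw [h2, h1]
    group
  have hR := prop_path hG h hgood hs hv1 hz1 hv _ z rfl (by rw [SimpleGraph.dist_self, add_zero])
  obtain ⟨M, c, hM, hc, hc1, hsc⟩ := hv.1 hv1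
  obtain ⟨M', c', hM', hc', hc'1, hsc'⟩ := hR.1 hz1
  have hcv : γ * c' * γ⁻¹ ∈ fst φ v := by
    rw [hz, fst_smul] at hc'
    rwa [inv_inv] at hc'
  have hcom : Commute ((SemidirectProduct.inl γ * s * (SemidirectProduct.inl γ)⁻¹ : MT φ) ^ M')
      (SemidirectProduct.inl (γ * c' * γ⁻¹)) := by
    rw [conj_zpow, map_mul, map_mul, map_inv]
    show _ = _
    calc (SemidirectProduct.inl γ * s ^ M' * (SemidirectProduct.inl γ)⁻¹ : MT φ) *
        (SemidirectProduct.inl γ * SemidirectProduct.inl c' * (SemidirectProduct.inl γ)⁻¹) =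
        SemidirectProduct.inl γ * (s ^ M' * SemidirectProduct.inl c') *
          (SemidirectProduct.inl γ)⁻¹ := by group
      _ = SemidirectProduct.inl γ * (SemidirectProduct.inl c' * s ^ M') *
          (SemidirectProduct.inl γ)⁻¹ := by rw [hsc'.eq]
      _ = _ := by group
  obtain ⟨a, b, ha, hb, hab⟩ := vertex_common hG h hgood hs (hs.conj γ) hc hc1 hcv (by
    intro hcon
    apply hc'1
    have h2 : c' = γ⁻¹ * (γ * c' * γ⁻¹) * γ := by group
    rw [h2, hcon]
    group) hM hM' hsc hcom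
  have hchi := congrArg (chi φ) hab
  rw [chi_zpow, chi_zpow, chi_mul, chi_mul, chi_inv, chi_inl, zero_add, neg_zero, add_zero] at hchi
  have hab' : a = b := mul_right_cancel₀ hs.1 hchi
  subst hab'
  refine ⟨a, ha, ?_⟩
  rw [conj_zpow] at hab
  show s ^ a * SemidirectProduct.inl γ = SemidirectProduct.inl γ * s ^ a
  conv_lhs => rw [hab]
  rw [inv_mul_cancel_right]

end

end Run7.h574
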