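import Pool.Agent.Run7.h574.Classify

/-!
# Classification of LERF free-by-cyclic groups with a tame cyclic splitting, conclusion
-/

set_option autoImplicit false
set_option linter.unusedSectionVars false
set_option linter.dupNamespace false

namespace Run7.h574

open Pool.Agent.Helper180.FreeMetric

section

variable {α : Type}

/-- an element conjugating a nontrivial element into its centralizer commutes with it -/
lemma comm_of_conj1 {γ c : FreeGroup α} (hc : c ≠ 1) (h : (γ * c * γ⁻¹) * c = c * (γ * c * γ⁻¹)) :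
    γ * c = c * γ := by
  refine (comm_of_conj hc (m := 1) (n := 1) one_ne_zero one_ne_zero ?_).symm
  rw [zpow_one]
  exact h.symm

lemma uniform_pow [Finite α] {φ : MulAut (FreeGroup α)} {s : MT φ}
    (h : ∀ γ : FreeGroup α, ∃ N : ℤ, N ≠ 0 ∧ Commute (s ^ N) (SemidirectProduct.inl γ)) :
    ∃ N : ℤ, N ≠ 0 ∧ ∀ γ : FreeGroup α, Commute (s ^ N) (SemidirectProduct.inl γ) := by
  have := Fintype.ofFinite α
  choose N hN hN' using h
  refine ⟨∏ a : α, N (FreeGroup.of a), Finset.prod_ne_zero_iff.mpr (fun a _ => hN _), ?_⟩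
  have h1 : ∀ a : α, Commute (s ^ (∏ a : α, N (FreeGroup.of a)))
      (SemidirectProduct.inl (FreeGroup.of a) : MT φ) := by
    intro a
    obtain ⟨k, hk⟩ := Finset.dvd_prod_of_mem (fun a : α => N (FreeGroup.of a)) (Finset.mem_univ a)
    rw [hk, zpow_mul]
    exact (hN' (FreeGroup.of a)).zpow_left k
  intro γ
  induction γ using FreeGroup.induction_on with
  | C1 => rw [map_one]; exact Commute.one_right _
  | of a => exact h1 a
  | inv_of a _ => rw [map_inv]; exact (h1 a).inv_right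
  | mul a b ha hb => rw [map_mul]; exact ha.mul_right hb

end

section

variable {α : Type} {φ : MulAut (FreeGroup α)} {V : Type} [MulAction (MT φ) V]
  {T : SimpleGraph V}

/-- along a path all of whose edges have nontrivial fibre stabilizers cyclic vertex groups
commute -/
lemma chain (h : CT φ T) (hcyc : ∀ v : V, IsCyclic (fst φ v)) {v z : V} {c : FreeGroup α}
    (hc : c ∈ fst φ v)
    (hedges : ∀ p q, T.Adj p q → T.dist v p < T.dist v q → T.dist z q < T.dist z p →
      fst φ p ⊓ fst φ q ≠ ⊥) :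
    ∀ k : ℕ, ∀ x : V, T.dist v x = k → T.dist v z = T.dist v x + T.dist x z →
      ∀ d ∈ fst φ x, d * c = c * d := by
  have hab : ∀ x : V, ∀ a ∈ fst φ x, ∀ b ∈ fst φ x, a * b = b * a := by
    intro x a ha b hb
    obtain ⟨e, he⟩ := (Subgroup.isCyclic_iff_exists_zpowers_eq_top (fst φ x)).mp (hcyc x)
    rw [← he] at ha hb
    obtain ⟨i, hi⟩ := ha
    obtain ⟨j, hj⟩ := hb
    have hi' : e ^ i = a := hi
    have hj' : e ^ j = b := hj
    rw [← hi', ← hj', ← zpow_add, ← zpow_add, add_comm]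
  intro k
  induction k with
  | zero =>
    intro x hx _ d hd
    have h1 : v = x := (h.tree.connected.dist_eq_zero_iff).mp hx
    subst h1
    exact hab _ d hd c hc
  | succ k ih =>
    intro x hx hxz d hd
    obtain ⟨r, hr, hr'⟩ := exists_closer h.tree (v := v) (x := x) (by
      rintro rfl
      rw [SimpleGraph.dist_self] at hx
      omega)
    have h5 := h.tree.connected.dist_triangle (u := v) (v := r) (w := z)
    have h6 := h.tree.connected.dist_triangle (u := r) (v := x) (w := z)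
    rw [SimpleGraph.dist_eq_one_iff_adj.mpr hr.symm] at h6
    have h7 := ih r (by omega) (by omega)
    have h8 := hedges r x hr.symm (by omega) (by
      rw [SimpleGraph.dist_comm (u := z), SimpleGraph.dist_comm (u := z)]
      omega)
    obtain ⟨⟨l, hlr, hlx⟩, hl⟩ := (Subgroup.ne_bot_iff_exists_ne_one (H := fst φ r ⊓ fst φ x)).mp h8
    have hl1 : l ≠ 1 := fun h => hl (Subtype.ext h)
    exact comm_trans hl1 (hab x d hd l hlx) (h7 l hlr).symm

/-- a power of an element fixing a vertex centralizes the fibre when the fibre acts freely -/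
lemma free_case (h : CT φ T) (hall : ∀ v : V, fst φ v = ⊥) {v₀ : V} {u₀ : MT φ}
    (hu₀v : u₀ • v₀ = v₀) (hu₀ : chi φ u₀ ≠ 0) (f : FreeGroup α) :
    ∃ N : ℤ, N ≠ 0 ∧ Commute (u₀ ^ N) (SemidirectProduct.inl f) := by
  have h3 : ∀ v, ∀ (w : V), T.Reachable v w → ∀ u : MT φ, u • v = v → chi φ u ≠ 0 →
      ∃ N : ℤ, N ≠ 0 ∧ (u ^ N) • w = w := by
    intro v w hvw
    obtain ⟨p⟩ := hvw
    induction p with
    | nil => exact fun u hu _ => ⟨1, one_ne_zero, by rw [zpow_one]; exact hu⟩
    | cons hadj p ih =>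
      intro u huv hu
      obtain ⟨k, hk1, hk2, hk⟩ := h.edge _ _ hadj
      obtain ⟨m, hm, hmk⟩ := diff_mem huv hk1
      rw [hall, Subgroup.mem_bot] at hm
      rw [hm, map_one, one_mul] at hmk
      obtain ⟨N, hN, hN'⟩ := ih (u ^ (chi φ k)) (by rw [hmk]; exact stab_zpow hk2 _) (by
        rw [chi_zpow]; exact mul_ne_zero hk hu)
      refine ⟨chi φ k * N, mul_ne_zero hk hN, ?_⟩
      rw [zpow_mul]
      exact hN'
  obtain ⟨N, hN, hN'⟩ := h3 v₀ ((SemidirectProduct.inl f : MT φ) • v₀)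
    (h.tree.connected _ _) u₀ hu₀v hu₀
  refine ⟨N, hN, ?_⟩
  let c : MT φ := (SemidirectProduct.inl f : MT φ)⁻¹ * u₀ ^ N * SemidirectProduct.inl f
  have hcv : c • v₀ = v₀ := by
    show ((SemidirectProduct.inl f : MT φ)⁻¹ * u₀ ^ N * SemidirectProduct.inl f) • v₀ = v₀
    rw [mul_smul, mul_smul, hN', inv_smul_smul]
  have hcc : chi φ (c * (u₀ ^ N)⁻¹) = 0 := by
    show chi φ ((SemidirectProduct.inl f : MT φ)⁻¹ * u₀ ^ N * SemidirectProduct.inl f *
      (u₀ ^ N)⁻¹) = 0
    rw [chi_mul, chi_mul, chi_mul, chi_inv, chi_inv, chi_inl]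
    ring
  have h4 := inl_of_chi φ hcc
  have h5 : (c * (u₀ ^ N)⁻¹).left ∈ fst φ v₀ := by
    rw [mem_fst, ← h4, mul_smul]
    have : (u₀ ^ N)⁻¹ • v₀ = v₀ := by rw [inv_smul_eq_iff, stab_zpow hu₀v]
    rw [this, hcv]
  rw [hall, Subgroup.mem_bot] at h5
  rw [h5, map_one, mul_inv_eq_one] at h4
  have h6 : (SemidirectProduct.inl f : MT φ)⁻¹ * u₀ ^ N * SemidirectProduct.inl f = u₀ ^ N := h4
  show u₀ ^ N * SemidirectProduct.inl f = SemidirectProduct.inl f * u₀ ^ N
  conv_rhs => rw [← h6]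
  group

/-- **Classification.** A LERF free-by-cyclic group with a tame cyclic splitting is virtually a
product. -/
theorem classify [Finite α] (hG : LERF (MT φ)) (h : CT φ T)
    (hgood : ∀ v : V, ¬ IsCyclic (fst φ v) → Good2 φ v) :
    ∃ g : MT φ, chi φ g ≠ 0 ∧ ∀ γ : FreeGroup α, Commute g (SemidirectProduct.inl γ) := by
  obtain ⟨v₁⟩ := h.tree.connected.nonempty
  obtain ⟨γ₁, hγ₁⟩ : ∃ γ, γ ∉ fst φ v₁ := by
    by_contra hall
    push Not at hall
    exact h.nofix v₁ ((Subgroup.eq_top_iff' _).mpr hall)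
  obtain ⟨w₁, hw₁, -⟩ := exists_closer h.tree (v := (SemidirectProduct.inl γ₁ : MT φ) • v₁)
    (x := v₁) hγ₁
  obtain ⟨u₁, hu₁v, -, hu₁⟩ := h.edge v₁ w₁ hw₁
  by_cases hcomm : ∀ x y : FreeGroup α, x * y = y * x
  · -- the fibre is cyclic
    have hcyc : IsCyclic (⊤ : Subgroup (FreeGroup α)) :=
      cyclic_of_comm ⊤ (fun x _ y _ => hcomm x y)
    obtain ⟨c, hc⟩ := (Subgroup.isCyclic_iff_exists_zpowers_eq_top _).mp hcyc
    have h1 := sq_comm (φ := φ) (u := u₁) (c := c) (by
      rw [hc]; exact fun x => ⟨fun _ => trivial, fun _ => trivial⟩)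
    have h2 := cj_zpow φ u₁ 2 c
    rw [zpow_ofNat (cj φ u₁), h1, mul_inv_eq_iff_eq_mul] at h2
    refine ⟨u₁ ^ (2 : ℤ), by rw [chi_zpow]; exact mul_ne_zero two_ne_zero hu₁, ?_⟩
    intro γ
    have h3 : γ ∈ Subgroup.zpowers c := by rw [hc]; trivial
    obtain ⟨k, hk⟩ := h3
    have hk' : c ^ k = γ := hk
    rw [← hk', map_zpow]
    have h4 : Commute (u₁ ^ (2 : ℤ)) (SemidirectProduct.inl c) := h2
    exact h4.zpow_right k
  push Not at hcomm
  obtain ⟨x₀, y₀, hxy₀⟩ := hcomm
  obtain ⟨s, hs, hs'⟩ : ∃ s : MT φ, chi φ s ≠ 0 ∧ ∀ γ : FreeGroup α,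
      ∃ N : ℤ, N ≠ 0 ∧ Commute (s ^ N) (SemidirectProduct.inl γ) := by
    by_cases hnc : ∃ v : V, ¬ IsCyclic (fst φ v)
    · obtain ⟨v, hv⟩ := hnc
      obtain ⟨g, hgv, hg, hcom⟩ := centralize h hv (good_of_good2 (hgood v hv))
      have hgB : BigC g := by
        refine ⟨hg, ?_⟩
        by_contra hcon
        push Not at hcon
        apply hv
        apply cyclic_of_comm
        intro x hx y hy
        by_contra hxy
        exact hcon x y hxy (hcom x hx) (hcom y hy)
      have hvb : fst φ v ≠ ⊥ := by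
        intro hcon
        apply hv
        rw [hcon]
        infer_instance
      obtain ⟨d, hd⟩ := (Subgroup.ne_bot_iff_exists_ne_one (H := fst φ v)).mp hvb
      refine ⟨g, hg, fun γ => finish hG h hgood hgB hvb ⟨fun _ => ⟨1, d, one_ne_zero, d.2,
        fun h => hd (Subtype.ext h), ?_⟩, fun hcon => absurd hcon hvb⟩ γ⟩
      rw [zpow_one]
      exact hcom d d.2
    · push Not at hnc
      by_cases hall : ∀ v : V, fst φ v = ⊥
      · exact ⟨u₁, hu₁, free_case h hall hu₁v hu₁⟩
      · push Not at hall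
        obtain ⟨v, hv⟩ := hall
        obtain ⟨⟨c, hcv⟩, hc⟩ := (Subgroup.ne_bot_iff_exists_ne_one (H := fst φ v)).mp hv
        have hc1 : c ≠ 1 := fun h => hc (Subtype.ext h)
        obtain ⟨γ, hγ⟩ : ∃ γ, γ * c ≠ c * γ := by
          by_contra hcon
          push Not at hcon
          exact hxy₀ (comm_trans hc1 (hcon x₀) (hcon y₀))
        set z : V := (SemidirectProduct.inl γ : MT φ) • v with hz
        have hzc : γ * c * γ⁻¹ ∈ fst φ z := by
          rw [hz, fst_smul]
          have : γ⁻¹ * (γ * c * γ⁻¹) * γ = c := by group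
          rw [this]
          exact hcv
        have hz1 : fst φ z ≠ ⊥ := by
          intro hcon
          rw [hcon, Subgroup.mem_bot] at hzc
          apply hc1
          have h2 : c = γ⁻¹ * (γ * c * γ⁻¹) * γ := by group
          rw [h2, hzc]
          group
        obtain ⟨p, q, hpq, hvp, hzq, htriv⟩ : ∃ p q, T.Adj p q ∧ T.dist v p < T.dist v q ∧
            T.dist z q < T.dist z p ∧ fst φ p ⊓ fst φ q = ⊥ := by
          by_contra hcon
          push Not at hcon
          apply hγ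
          apply comm_of_conj1 hc1
          exact chain h hnc hcv hcon _ z rfl (by rw [SimpleGraph.dist_self, add_zero]) _ hzc
        obtain ⟨u, hup, huq, hu⟩ := h.edge p q hpq
        obtain ⟨y, N, d, hy, hN, hd, hd1, hcd, -⟩ := te h hgood hpq htriv hzq hz1 hvp hv hup huq hu
        obtain ⟨x, N', d', hx, hN', hd', hd'1, hcd', -⟩ := te h hgood hpq.symm
          (by rw [inf_comm]; exact htriv) hvp hv hzq hz1 huq hup hu
        have hNN : N * N' ≠ 0 := mul_ne_zero hN hN'
        have hcd1 : Commute (u ^ (N * N')) (SemidirectProduct.inl d) := by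
          rw [zpow_mul]; exact hcd.zpow_left _
        have hcd2 : Commute (u ^ (N * N')) (SemidirectProduct.inl d') := by
          rw [mul_comm, zpow_mul]; exact hcd'.zpow_left _
        have huB : BigC (u ^ (N * N')) := by
          refine ⟨?_, d', d, not_comm_of_edge h hpq htriv hx hy hd' hd'1 hd hd1, hcd2, hcd1⟩
          rw [chi_zpow]
          exact mul_ne_zero hNN hu
        have hxb : fst φ x ≠ ⊥ := by
          intro hcon
          rw [hcon, Subgroup.mem_bot] at hd'
          exact hd'1 hd'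
        refine ⟨_, huB.1, fun γ => finish hG h hgood huB hxb ⟨fun _ => ⟨1, d', one_ne_zero, hd',
          hd'1, ?_⟩, fun hcon => absurd hcon hxb⟩ γ⟩
        rw [zpow_one]
        exact hcd2
  obtain ⟨N, hN, hN'⟩ := uniform_pow hs'
  exact ⟨s ^ N, by rw [chi_zpow]; exact mul_ne_zero hN hs, hN'⟩

end

end Run7.h574
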