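import Pool.Agent.Helper180.FreeMetric

/-!
# Commutation in free groups
-/

set_option autoImplicit false
set_option linter.unusedSectionVars false
set_option linter.dupNamespace false

namespace Run7.h574

open Pool.Agent.Helper180.FreeMetric

lemma zpow_inj {G : Type*} [Group G] [IsMulTorsionFree G] {a b : G} {n : ℤ} (hn : n ≠ 0)
    (h : a ^ n = b ^ n) : a = b := zpow_left_injective hn h

lemma comm_of_zpow {G : Type*} [Group G] [IsMulTorsionFree G] {a b : G} {n : ℤ} (hn : n ≠ 0)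
    (h : a ^ n * b = b * a ^ n) : a * b = b * a := by
  have h1 : (b * a * b⁻¹) ^ n = a ^ n := by
    rw [conj_zpow, ← h, mul_inv_cancel_right]
  have h2 := zpow_inj hn h1
  rw [mul_inv_eq_iff_eq_mul] at h2
  exact h2.symm

section free

variable {ι : Type}

/-- If a nonzero power of `w` commutes with a conjugate by `x` of a nonzero power of `w` then `w`
commutes with `x`. -/
theorem comm_of_conj {w x : FreeGroup ι} (hw : w ≠ 1) {m n : ℤ} (hm : m ≠ 0) (hn : n ≠ 0)
    (h : w ^ m * (x * w ^ n * x⁻¹) = (x * w ^ n * x⁻¹) * w ^ m) : w * x = x * w := by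
  have h1 : w * (x * w ^ n * x⁻¹) = (x * w ^ n * x⁻¹) * w := comm_of_zpow hm h
  have h2 : (x * w * x⁻¹) * w = w * (x * w * x⁻¹) := by
    apply comm_of_zpow hn
    rw [conj_zpow]
    exact h1.symm
  obtain ⟨r, hr, hrc⟩ := centralizer_cyclic w hw
  have hxw : x * w * x⁻¹ ≠ 1 := by
    intro h3
    apply hw
    have : w = x⁻¹ * (x * w * x⁻¹) * x := by group
    rw [this, h3]
    group
  -- the conjugate of r
  have h3 : (x * r * x⁻¹) * (x * w * x⁻¹) = (x * w * x⁻¹) * (x * r * x⁻¹) := by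
    have e1 : (x * r * x⁻¹) * (x * w * x⁻¹) = x * (r * w) * x⁻¹ := by group
    have e2 : (x * w * x⁻¹) * (x * r * x⁻¹) = x * (w * r) * x⁻¹ := by group
    rw [e1, e2, hr]
  have h4 : (x * r * x⁻¹) * w = w * (x * r * x⁻¹) := comm_trans hxw h3 h2.symm
  obtain ⟨i, hi⟩ := hrc _ h4
  have h5 : (x⁻¹ * w * x) * w = w * (x⁻¹ * w * x) := by
    have e1 : (x⁻¹ * w * x) * w = x⁻¹ * (w * (x * w * x⁻¹)) * x := by group
    have e2 : w * (x⁻¹ * w * x) = x⁻¹ * ((x * w * x⁻¹) * w) * x := by group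
    rw [e1, e2, h2]
  have h6 : (x⁻¹ * r * x) * (x⁻¹ * w * x) = (x⁻¹ * w * x) * (x⁻¹ * r * x) := by
    have e1 : (x⁻¹ * r * x) * (x⁻¹ * w * x) = x⁻¹ * (r * w) * x := by group
    have e2 : (x⁻¹ * w * x) * (x⁻¹ * r * x) = x⁻¹ * (w * r) * x := by group
    rw [e1, e2, hr]
  have hxw' : x⁻¹ * w * x ≠ 1 := by
    intro h7
    apply hw
    have : w = x * (x⁻¹ * w * x) * x⁻¹ := by group
    rw [this, h7]
    group
  have h7 : (x⁻¹ * r * x) * w = w * (x⁻¹ * r * x) := comm_trans hxw' h6 h5.symm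
  obtain ⟨j, hj⟩ := hrc _ h7
  have hr1 : r ≠ 1 := by
    rintro rfl
    obtain ⟨n, hn⟩ := hrc w rfl
    rw [one_zpow] at hn
    exact hw hn
  have h8 : r = r ^ (i * j) := by
    have e1 : r = x * (x⁻¹ * r * x) * x⁻¹ := by group
    have e2 : x * (x⁻¹ * r * x) * x⁻¹ = r ^ (i * j) := by
      rw [hj, ← conj_zpow, hi, zpow_mul]
    rwa [e2] at e1
  have h9 : i * j = 1 := by
    by_contra hne
    have : r ^ (i * j - 1) = 1 := by rw [zpow_sub_one, ← h8, mul_inv_cancel]
    have h10 : r ^ (i * j - 1) = 1 ^ (i * j - 1) := by rw [this, one_zpow]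
    exact hr1 (zpow_inj (by omega) h10)
  have h10 : r * x = x * r := by
    rcases Int.eq_one_or_neg_one_of_mul_eq_one h9 with rfl | rfl
    · rw [zpow_one, mul_inv_eq_iff_eq_mul] at hi
      exact hi.symm
    · -- the square of x commutes with r
      have e1 : x ^ (2 : ℤ) * r = r * x ^ (2 : ℤ) := by
        rw [zpow_neg_one, mul_inv_eq_iff_eq_mul] at hi
        have e2 : x * r⁻¹ = r * x := by
          have : x * r⁻¹ = r * (r⁻¹ * x) * r⁻¹ := by group
          rw [this, ← hi]; group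
        calc x ^ (2 : ℤ) * r = x * (x * r) := by rw [zpow_ofNat, pow_two, mul_assoc]
          _ = (x * r⁻¹) * x := by rw [hi, mul_assoc]
          _ = r * x ^ (2 : ℤ) := by rw [e2, zpow_ofNat, pow_two, mul_assoc]
      exact (comm_of_zpow (by norm_num) e1).symm
  obtain ⟨n', hn'⟩ := hrc w rfl
  have h11 : Commute r x := h10
  rw [hn']
  exact (h11.zpow_left n').eq

/-- three cosets of the cyclic subgroup generated by `w` -/
theorem three {w x y : FreeGroup ι} (hw : w ≠ 1) {a b a' b' a'' b'' : ℤ} (hab : b ≠ a')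
    (h : ∀ n : ℤ, w ^ (-(a * n)) * x * w ^ (b * n) * (w ^ (-(a' * n)) * y * w ^ (b' * n)) =
      w ^ (-(a'' * n)) * (x * y) * w ^ (b'' * n)) : w * x = x * w ∨ w * y = y * w := by
  -- put in the form u ^ n * v ^ n * z ^ n = 1
  have key : ∀ n : ℤ, (w ^ (a'' - a)) ^ n * (x * w ^ (b - a') * x⁻¹) ^ n *
      ((x * y) * w ^ (b' - b'') * (x * y)⁻¹) ^ n = 1 := by
    intro n
    have h1 := h n
    rw [conj_zpow, conj_zpow, ← zpow_mul, ← zpow_mul, ← zpow_mul]
    have e1 : w ^ ((a'' - a) * n) = w ^ (a'' * n) * w ^ (-(a * n)) := by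
      rw [← zpow_add]; congr 1; ring
    have e2 : w ^ ((b - a') * n) = w ^ (b * n) * w ^ (-(a' * n)) := by
      rw [← zpow_add]; congr 1; ring
    have e3 : w ^ ((b' - b'') * n) = w ^ (b' * n) * (w ^ (b'' * n))⁻¹ := by
      rw [← zpow_neg, ← zpow_add]; congr 1; ring
    rw [e1, e2, e3]
    have e4 : w ^ (a'' * n) * w ^ (-(a * n)) * (x * (w ^ (b * n) * w ^ (-(a' * n))) * x⁻¹) *
        (x * y * (w ^ (b' * n) * (w ^ (b'' * n))⁻¹) * (x * y)⁻¹) =
        w ^ (a'' * n) * (w ^ (-(a * n)) * x * w ^ (b * n) * (w ^ (-(a' * n)) * y * w ^ (b' * n)))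
          * (w ^ (b'' * n))⁻¹ * (x * y)⁻¹ := by group
    rw [e4, h1, zpow_neg]
    group
  set u := w ^ (a'' - a) with hu
  set v := x * w ^ (b - a') * x⁻¹ with hv
  set z := (x * y) * w ^ (b' - b'') * (x * y)⁻¹ with hz
  have k1 := key 1
  have k2 := key 2
  simp only [zpow_one] at k1
  have huv : u * v = v * u := by
    have e1 : z = (u * v)⁻¹ := eq_inv_of_mul_eq_one_right k1
    rw [e1, zpow_ofNat, zpow_ofNat, zpow_ofNat, pow_two, pow_two, pow_two] at k2
    have e2 : u * u * (v * v) = u * v * (u * v) := by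
      calc u * u * (v * v) = u * u * (v * v) * ((u * v)⁻¹ * (u * v)⁻¹) * ((u * v) * (u * v)) := by
            group
        _ = u * v * (u * v) := by rw [k2, one_mul]
    have e3 : u * (u * v) * v = u * (v * u) * v := by
      calc u * (u * v) * v = u * u * (v * v) := by group
        _ = u * v * (u * v) := e2
        _ = u * (v * u) * v := by group
    exact mul_left_cancel (mul_right_cancel e3)
  by_cases ha : a'' = a
  · right
    have hu1 : u = 1 := by rw [hu, ha, sub_self, zpow_zero]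
    rw [hu1, one_mul] at k1
    have e1 : w ^ (b - a') * (y * w ^ (b' - b'') * y⁻¹) = 1 := by
      have : w ^ (b - a') * (y * w ^ (b' - b'') * y⁻¹) = x⁻¹ * (v * z) * x := by
        rw [hv, hz]; group
      rw [this, k1]; group
    have e2 : b' - b'' ≠ 0 := by
      intro h0
      rw [h0, zpow_zero, mul_one, mul_inv_cancel, mul_one] at e1
      have e3 : w ^ (b - a') = 1 ^ (b - a') := by rw [e1, one_zpow]
      exact hw (zpow_inj (by omega) e3)
    apply comm_of_conj hw (m := b - a') (n := b' - b'') (by omega) e2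
    have e3 : y * w ^ (b' - b'') * y⁻¹ = (w ^ (b - a'))⁻¹ := eq_inv_of_mul_eq_one_right e1
    rw [e3]; group
  · left
    exact comm_of_conj hw (m := a'' - a) (n := b - a') (by omega) (by omega) huv

end free

end Run7.h574
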