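import Pool.Agent.Run7.h574.PingPong
import Pool.Agent.Run7.h574.FreeAlg
import Pool.Agent.Helper180.BigPowers

/-!
# Combination of two finitely generated subgroups of a free group
-/

set_option autoImplicit false
set_option linter.unusedSectionVars false
set_option linter.dupNamespace false

namespace Run7.h574

open Pool.Agent.Helper180.FreeMetric Pool.Agent.Helper180.BigPowers

section pp

variable {F M : Type} [Group F] [Group M] {A C : Subgroup F} (iA : A →* M) (iC : C →* M)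

lemma Red.act_base {X : Type} [MulAction F X] (π : M →* F) (hπA : ∀ a : A, π (iA a) = a)
    (hπC : ∀ c : C, π (iC c) = c) (U W : Set X) (v : X)
    (hA : ∀ a ∈ A, a ∉ C → ∀ y ∈ W, a • y ∈ U) (hC : ∀ c ∈ C, c ∉ A → ∀ y ∈ U, c • y ∈ W)
    (hAv : ∀ a ∈ A, a ∉ C → a • v ∈ U) (hCv : ∀ c ∈ C, c ∉ A → c • v ∈ W)
    {b : Bool} {m : M} (hm : Red iA iC b m) : π m • v ∈ (if b then U else W) := by
  induction hm with
  | baseA a h => rw [hπA]; exact hAv a a.2 h
  | baseC c h => rw [hπC]; exact hCv c c.2 h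
  | consA a h m' _ ih =>
    rw [map_mul, hπA, mul_smul]
    exact hA a a.2 h _ ih
  | consC c h m' _ ih =>
    rw [map_mul, hπC, mul_smul]
    exact hC c c.2 h _ ih

/-- ping-pong criterion for an amalgam, with a base point -/
theorem amalgam_of_base {X : Type} [MulAction F X] (A C : Subgroup F)
    (U W : Set X) (v : X)
    (hA : ∀ a ∈ A, a ∉ C → ∀ y ∈ W, a • y ∈ U) (hC : ∀ c ∈ C, c ∉ A → ∀ y ∈ U, c • y ∈ W)
    (hAv : ∀ a ∈ A, a ∉ C → a • v ∈ U) (hCv : ∀ c ∈ C, c ∉ A → c • v ∈ W) (hvU : v ∉ U)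
    (hvW : v ∉ W) : IsAmalgam A C := by
  let N : Subgroup (Monoid.Coprod A C) := Subgroup.normalClosure (amalgRel A C)
  let q : Monoid.Coprod A C →* Monoid.Coprod A C ⧸ N := QuotientGroup.mk' N
  let lf : Monoid.Coprod A C →* F := Monoid.Coprod.lift A.subtype C.subtype
  have hle : N ≤ lf.ker := by
    apply Subgroup.normalClosure_le_normal
    rintro _ ⟨l, hlA, hlC, rfl⟩
    rw [SetLike.mem_coe, MonoidHom.mem_ker, map_mul, map_inv, mul_inv_eq_one]
    simp only [lf, Monoid.Coprod.lift_apply_inl, Monoid.Coprod.lift_apply_inr]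
    rfl
  let π : Monoid.Coprod A C ⧸ N →* F := QuotientGroup.lift N lf hle
  have hac : ∀ l (hA : l ∈ A) (hC : l ∈ C), (q.comp Monoid.Coprod.inl) ⟨l, hA⟩ =
      (q.comp Monoid.Coprod.inr) ⟨l, hC⟩ := by
    intro l hlA hlC
    show q _ = q _
    rw [← mul_inv_eq_one, ← map_inv, ← map_mul]
    exact (QuotientGroup.eq_one_iff _).mpr (Subgroup.subset_normalClosure ⟨l, hlA, hlC, rfl⟩)
  have hπA : ∀ a : A, π ((q.comp Monoid.Coprod.inl) a) = a := by
    intro a
    show lf (Monoid.Coprod.inl a) = a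
    simp only [lf, Monoid.Coprod.lift_apply_inl]
    rfl
  have hπC : ∀ c : C, π ((q.comp Monoid.Coprod.inr) c) = c := by
    intro a
    show lf (Monoid.Coprod.inr a) = a
    simp only [lf, Monoid.Coprod.lift_apply_inr]
    rfl
  have hgen : (⊤ : Subgroup (Monoid.Coprod A C ⧸ N)) =
      (q.comp Monoid.Coprod.inl).range ⊔ (q.comp Monoid.Coprod.inr).range := by
    rw [MonoidHom.range_comp, MonoidHom.range_comp, ← Subgroup.map_sup,
      Monoid.Coprod.range_inl_sup_range_inr, ← MonoidHom.range_eq_map]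
    exact (MonoidHom.range_eq_top.mpr (QuotientGroup.mk'_surjective N)).symm
  have hinj : Function.Injective π := by
    rw [injective_iff_map_eq_one]
    intro m hm
    rcases NF.all (q.comp Monoid.Coprod.inl) (q.comp Monoid.Coprod.inr) hac hgen m with
      ⟨l, hlA, hlC, rfl⟩ | ⟨b, hb⟩
    · rw [hπA] at hm
      have : (⟨l, hlA⟩ : A) = 1 := Subtype.ext hm
      rw [this, map_one]
    · exfalso
      have h1 := Red.act_base _ _ π hπA hπC U W v hA hC hAv hCv hb
      rw [hm, one_smul] at h1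
      cases b with
      | true => exact hvU h1
      | false => exact hvW h1
  apply le_antisymm
  · intro z hz
    have h1 : π (q z) = 1 := hz
    have h2 : q z = 1 := hinj (h1.trans (map_one π).symm)
    exact (QuotientGroup.eq_one_iff _).mp h2
  · exact hle

end pp

section metric

variable {α : Type} [DecidableEq α]

/-- the distance of the Cayley tree -/
def ds (x y : FreeGroup α) : ℤ := ((x⁻¹ * y).norm : ℤ)

lemma ds_nonneg (x y : FreeGroup α) : 0 ≤ ds x y := Int.natCast_nonneg _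

lemma ds_smul (g x y : FreeGroup α) : ds (g * x) (g * y) = ds x y := by
  unfold ds
  congr 2
  group

lemma ds_comm (x y : FreeGroup α) : ds x y = ds y x := by
  unfold ds
  rw [← FreeGroup.norm_inv_eq]
  congr 2
  group

lemma ds_self (x : FreeGroup α) : ds x x = 0 := by
  unfold ds
  rw [inv_mul_cancel, FreeGroup.norm_one]
  rfl

lemma ds_eq_zero {x y : FreeGroup α} (h : ds x y = 0) : x = y := by
  unfold ds at h
  have h1 : (x⁻¹ * y).norm = 0 := by exact_mod_cast h
  rw [FreeGroup.norm_eq_zero, inv_mul_eq_one] at h1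
  exact h1

lemma ds_tri (x y z : FreeGroup α) : ds x z ≤ ds x y + ds y z := by
  unfold ds
  have := FreeGroup.norm_mul_le (x⁻¹ * y) (y⁻¹ * z)
  have e : x⁻¹ * y * (y⁻¹ * z) = x⁻¹ * z := by group
  rw [e] at this
  exact_mod_cast this

lemma ds_four (x y z w : FreeGroup α) : ds x y + ds z w ≤ max (ds x z + ds w y) (ds z y + ds x w) := by
  have h1 := gp_hyp (w⁻¹ * x) (w⁻¹ * z) (w⁻¹ * y)
  unfold gp at h1
  have e1 : (w⁻¹ * x)⁻¹ * (w⁻¹ * z) = x⁻¹ * z := by group
  have e2 : (w⁻¹ * z)⁻¹ * (w⁻¹ * y) = z⁻¹ * y := by group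
  have e3 : (w⁻¹ * x)⁻¹ * (w⁻¹ * y) = x⁻¹ * y := by group
  rw [e1, e2, e3] at h1
  have c1 := ds_comm z w
  have c2 := ds_comm x w
  unfold ds at *
  omega

lemma ds_geod (x y : FreeGroup α) (k : ℤ) (hk : 0 ≤ k) (hk' : k ≤ ds x y) :
    ∃ z, ds x z = k ∧ ds z y = ds x y - k := by
  obtain ⟨k, rfl⟩ := Int.eq_ofNat_of_zero_le hk
  obtain ⟨z, hz1, hz2⟩ := exists_initial (x⁻¹ * y) k (by unfold ds at hk'; exact_mod_cast hk')
  refine ⟨x * z, ?_, ?_⟩
  · unfold ds
    rw [inv_mul_cancel_left, hz1]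
  · unfold ds at *
    have e : (x * z)⁻¹ * y = z⁻¹ * (x⁻¹ * y) := by group
    rw [e, hz2]
    omega

/-- the hull of a subgroup -/
def hull (A : Subgroup (FreeGroup α)) : Set (FreeGroup α) :=
  {x | ∃ a ∈ A, ds 1 x + ds x a = ds 1 a}

lemma mem_hull_self {A : Subgroup (FreeGroup α)} {a : FreeGroup α} (ha : a ∈ A) : a ∈ hull A :=
  ⟨a, ha, by rw [ds_self, add_zero]⟩

lemma hull_prefix {A : Subgroup (FreeGroup α)} {x z : FreeGroup α} (hx : x ∈ hull A)
    (hz : ds 1 z + ds z x = ds 1 x) : z ∈ hull A := by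
  obtain ⟨a, ha, h⟩ := hx
  refine ⟨a, ha, ?_⟩
  have h1 := ds_tri 1 z a
  have h2 := ds_tri z x a
  omega

lemma hull_smul {A : Subgroup (FreeGroup α)} {x b : FreeGroup α} (hb : b ∈ A) (hx : x ∈ hull A) :
    b * x ∈ hull A := by
  obtain ⟨a, ha, h⟩ := hx
  have e1 : ds b (b * x) = ds 1 x := by
    have := ds_smul b 1 x
    rwa [mul_one] at this
  have e2 : ds (b * x) (b * a) = ds x a := ds_smul b x a
  have e3 : ds b (b * a) = ds 1 a := by
    have := ds_smul b 1 a
    rwa [mul_one] at this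
  have h1 := ds_four b (b * a) 1 (b * x)
  have t1 := ds_tri 1 (b * x) b
  have t2 := ds_tri 1 (b * x) (b * a)
  have c1 := ds_comm b 1
  have c2 := ds_comm (b * x) b
  rcases le_max_iff.mp h1 with h2 | h2
  · exact ⟨b, hb, by omega⟩
  · exact ⟨b * a, A.mul_mem hb ha, by omega⟩

/-- the gate of a point -/
def IsGate (Y : Set (FreeGroup α)) (x p : FreeGroup α) : Prop :=
  p ∈ Y ∧ ∀ z ∈ Y, ds x z = ds x p + ds p z

lemma exists_gate (A : Subgroup (FreeGroup α)) (x : FreeGroup α) : ∃ p, IsGate (hull A) x p := by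
  classical
  -- the longest initial segment in the hull
  have hex : ∃ n : ℕ, ∃ p ∈ hull A, ds 1 p + ds p x = ds 1 x ∧ ds p x = n := by
    refine ⟨(ds 1 x).toNat, 1, mem_hull_self A.one_mem, ?_, ?_⟩
    · rw [ds_self, zero_add]
    · exact (Int.toNat_of_nonneg (ds_nonneg 1 x)).symm
  obtain ⟨p, hp, hp1, hp2⟩ := Nat.find_spec hex
  have hmin := fun m (h : m < Nat.find hex) => Nat.find_min hex h
  refine ⟨p, hp, ?_⟩
  intro y hy
  have t1 := ds_tri x p y
  have c1 := ds_comm x p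
  have c3 := ds_comm x y
  by_contra hne
  have hlt : ds x y < ds x p + ds p y := lt_of_le_of_ne t1 hne
  -- the branch point
  have hgp := gp_eq x y
  have hg0 := gp_nonneg x y
  set k : ℤ := (lcp x.toWord y.toWord : ℤ) with hk
  have hk2 : ds 1 x + ds 1 y - ds x y = 2 * k := by
    unfold gp at hgp
    unfold ds
    rw [inv_one, one_mul, one_mul]
    exact hgp
  have hkx : k ≤ ds 1 x := by
    have := ds_tri 1 x y
    omega
  obtain ⟨m, hm1, hm2⟩ := ds_geod 1 x k (by omega) hkx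
  have hmy : ds 1 m + ds m y = ds 1 y := by
    have h1 := ds_four m y 1 x
    have t2 := ds_tri 1 m y
    have c4 := ds_comm m x
    have c5 := ds_comm m 1
    have c6 := ds_comm x 1
    rcases le_max_iff.mp h1 with h2 | h2
    · omega
    · omega
  have hmh : m ∈ hull A := hull_prefix hy hmy
  have hmp : ds p x ≤ ds m x := by
    by_contra hcon
    push Not at hcon
    have h0 := ds_nonneg m x
    apply hmin (ds m x).toNat (by omega)
    exact ⟨m, hmh, by omega, (Int.toNat_of_nonneg h0).symm⟩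
  have h1 := ds_four x y p 1
  have h2 := ds_four p y x 1
  have h3 := ds_four 1 y p x
  have c4 := ds_comm p 1
  have c6 := ds_comm x 1
  have t3 := ds_tri p x y
  omega

lemma gate_smul {A : Subgroup (FreeGroup α)} {x p a : FreeGroup α} (ha : a ∈ A)
    (h : IsGate (hull A) x p) : IsGate (hull A) (a * x) (a * p) := by
  refine ⟨hull_smul ha h.1, ?_⟩
  intro z hz
  have h1 := h.2 (a⁻¹ * z) (hull_smul (A.inv_mem ha) hz)
  have e1 := ds_smul a x (a⁻¹ * z)
  have e2 := ds_smul a p (a⁻¹ * z)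
  rw [mul_inv_cancel_left] at e1 e2
  rw [e1, e2, ds_smul, h1]

lemma hull_convex {A : Subgroup (FreeGroup α)} {p q r : FreeGroup α} (hp : p ∈ hull A)
    (hr : r ∈ hull A) (h : ds p q + ds q r = ds p r) : q ∈ hull A := by
  obtain ⟨g, hg, hg'⟩ := exists_gate A q
  have h1 := hg' p hp
  have h2 := hg' r hr
  have h3 := ds_tri p g r
  have c1 := ds_comm p q
  have c2 := ds_comm p g
  have h0 := ds_nonneg q g
  have h4 : ds q g = 0 := by omega
  rw [ds_eq_zero h4]
  exact hg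

lemma cross {A C : Subgroup (FreeGroup α)} {y p q : FreeGroup α} (hp : IsGate (hull A) y p)
    (hq : IsGate (hull C) y q) (hqA : q ∉ hull A) : p ∈ hull C := by
  have h1 := hp.2 1 (mem_hull_self A.one_mem)
  have h2 := hq.2 1 (mem_hull_self C.one_mem)
  have h3 := ds_four y 1 p q
  have c1 := ds_comm p q
  have c2 := ds_comm q 1
  have c3 := ds_comm p 1
  have t1 := ds_tri p q 1
  have t2 := ds_tri q p 1
  by_contra hpC
  rcases le_total (ds y p) (ds y q) with h4 | h4
  · apply hqA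
    apply hull_convex hp.1 (mem_hull_self A.one_mem)
    rcases le_max_iff.mp h3 with h5 | h5
    · omega
    · omega
  · apply hpC
    apply hull_convex hq.1 (mem_hull_self C.one_mem)
    rcases le_max_iff.mp h3 with h5 | h5
    · omega
    · omega

lemma hull_near {A : Subgroup (FreeGroup α)} (hA : A.FG) :
    ∃ R : ℕ, ∀ x ∈ hull A, ∃ a ∈ A, (a⁻¹ * x).norm ≤ R := by
  obtain ⟨S, rfl⟩ := hA
  refine ⟨S.sup FreeGroup.norm, ?_⟩
  rintro x ⟨a, ha, hx⟩
  have hx' : OnSeg x a := by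
    unfold ds at hx
    rw [inv_one, one_mul, one_mul] at hx
    exact hx
  clear hx
  induction ha using Subgroup.closure_induction generalizing x with
  | mem s hs =>
    refine ⟨1, Subgroup.one_mem _, ?_⟩
    have h1 : s.norm ≤ S.sup FreeGroup.norm := Finset.le_sup (f := FreeGroup.norm) hs
    unfold OnSeg at hx'
    rw [inv_one, one_mul]
    omega
  | one =>
    refine ⟨1, Subgroup.one_mem _, ?_⟩
    unfold OnSeg at hx'
    rw [FreeGroup.norm_one] at hx'
    rw [inv_one, one_mul]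
    omega
  | mul a b ha' hb' ha hb =>
    rcases seg_split hx' with h1 | h1
    · exact ha x h1
    · obtain ⟨c, hc, hc'⟩ := hb _ h1
      refine ⟨a * c, Subgroup.mul_mem _ ha' hc, ?_⟩
      have e : (a * c)⁻¹ * x = c⁻¹ * (a⁻¹ * x) := by group
      rw [e]
      exact hc'
  | inv a ha' ha =>
    have h1 : OnSeg (a * x) a := by
      unfold OnSeg at hx' ⊢
      have e1 : (a * x)⁻¹ * a = x⁻¹ := by group
      have e2 : (x⁻¹ * a⁻¹).norm = (a * x).norm := by
        rw [← FreeGroup.norm_inv_eq]; congr 1; group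
      rw [e1, FreeGroup.norm_inv_eq]
      rw [e2, FreeGroup.norm_inv_eq] at hx'
      omega
    obtain ⟨c, hc, hc'⟩ := ha _ h1
    refine ⟨a⁻¹ * c, Subgroup.mul_mem _ (Subgroup.inv_mem _ ha') hc, ?_⟩
    have e : (a⁻¹ * c)⁻¹ * x = c⁻¹ * (a * x) := by group
    rw [e]
    exact hc'

/-- the intersection of the hulls is finite modulo the intersection -/
lemma inter_finite [Finite α] {A C : Subgroup (FreeGroup α)} (hA : A.FG) (hC : C.FG) :
    ∃ Q : Set (FreeGroup α), Q.Finite ∧ ∀ x ∈ hull A, x ∈ hull C → ∃ y ∈ Q, x * y⁻¹ ∈ A ⊓ C := by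
  classical
  obtain ⟨R, hR⟩ := hull_near hA
  obtain ⟨R', hR'⟩ := hull_near hC
  choose a ha ha' using hR
  choose c hc hc' using hR'
  let N := {x : FreeGroup α // x ∈ hull A ∧ x ∈ hull C}
  let κ : N → FreeGroup α × FreeGroup α := fun x =>
    ((a x.1 x.2.1)⁻¹ * x.1, (c x.1 x.2.2)⁻¹ * x.1)
  let B : Set (FreeGroup α × FreeGroup α) := {x | x.norm ≤ R} ×ˢ {x | x.norm ≤ R'}
  have hB : B.Finite := (finite_ball R).prod (finite_ball R')
  have hκ : ∀ x, κ x ∈ B := fun x => ⟨ha' _ _, hc' _ _⟩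
  refine ⟨(fun b => if h : ∃ x : N, κ x = b then (h.choose : FreeGroup α) else 1) '' B,
    hB.image _, ?_⟩
  intro x hxA hxC
  refine ⟨_, ⟨κ ⟨x, hxA, hxC⟩, hκ _, rfl⟩, ?_⟩
  have hex : ∃ y : N, κ y = κ ⟨x, hxA, hxC⟩ := ⟨_, rfl⟩
  beta_reduce
  rw [dif_pos hex]
  set y : N := hex.choose with hy
  have hyx : κ y = κ ⟨x, hxA, hxC⟩ := hex.choose_spec
  have h1 : (a y.1 y.2.1)⁻¹ * y.1 = (a x hxA)⁻¹ * x := congrArg Prod.fst hyx
  have h2 : (c y.1 y.2.2)⁻¹ * y.1 = (c x hxC)⁻¹ * x := congrArg Prod.snd hyx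
  constructor
  · have e : x * (y.1)⁻¹ = a x hxA * (a y.1 y.2.1)⁻¹ := by
      have : x = a x hxA * ((a y.1 y.2.1)⁻¹ * y.1) := by rw [h1]; group
      conv_lhs => rw [this]
      group
    rw [e]
    exact A.mul_mem (ha _ _) (A.inv_mem (ha _ _))
  · have e : x * (y.1)⁻¹ = c x hxC * (c y.1 y.2.2)⁻¹ := by
      have : x = c x hxC * ((c y.1 y.2.2)⁻¹ * y.1) := by rw [h2]; group
      conv_lhs => rw [this]
      group
    rw [e]
    exact C.mul_mem (hc _ _) (C.inv_mem (hc _ _))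

/-- **Combination.** Deep enough subgroups of finite index of two finitely generated subgroups
generate their amalgam. -/
theorem comb [Finite α] {A C : Subgroup (FreeGroup α)} (hA : A.FG) (hC : C.FG) :
    ∃ E : Set (FreeGroup α), E.Finite ∧ ∀ K : Subgroup (FreeGroup α), A ⊓ C ≤ K →
      (∀ g ∈ E, g ∈ K → g ∈ A ⊓ C) → IsAmalgam (A ⊓ K) (C ⊓ K) := by
  obtain ⟨Q, hQ, hQ'⟩ := inter_finite hA hC
  refine ⟨Set.image2 (fun x y => x * y⁻¹) Q Q, hQ.image2 _ hQ, ?_⟩
  intro K hK hE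
  -- the translates of the intersection of the hulls
  have key : ∀ a n : FreeGroup α, a ∈ K → n ∈ hull A → n ∈ hull C → a * n ∈ hull A →
      a * n ∈ hull C → a ∈ A ⊓ C := by
    intro a n ha h1 h2 h3 h4
    obtain ⟨y, hy, hny⟩ := hQ' n h1 h2
    obtain ⟨y', hy', hny'⟩ := hQ' _ h3 h4
    have e : y' * y⁻¹ = (a * n * y'⁻¹)⁻¹ * (a * (n * y⁻¹)) := by group
    have h5 : y' * y⁻¹ ∈ A ⊓ C := by
      apply hE _ ⟨y', hy', y, hy, rfl⟩
      beta_reduce
      rw [e]
      exact K.mul_mem (K.inv_mem (hK hny')) (K.mul_mem ha (hK hny))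
    have e2 : a = (a * n * y'⁻¹) * (y' * y⁻¹) * (n * y⁻¹)⁻¹ := by group
    rw [e2]
    exact (A ⊓ C).mul_mem ((A ⊓ C).mul_mem hny' h5) ((A ⊓ C).inv_mem hny)
  have h1A := mem_hull_self A.one_mem
  have h1C := mem_hull_self C.one_mem
  have hself : ∀ (B : Subgroup (FreeGroup α)) (a : FreeGroup α), a ∈ B → IsGate (hull B) a a :=
    fun B a ha => ⟨mem_hull_self ha, fun z _ => by rw [ds_self, zero_add]⟩
  apply amalgam_of_base (X := FreeGroup α) (A ⊓ K) (C ⊓ K)
    {y | ∃ p, IsGate (hull A) y p ∧ p ∉ hull C} {y | ∃ q, IsGate (hull C) y q ∧ q ∉ hull A} 1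
  · rintro a ⟨haA, haK⟩ haC y ⟨q, hq, hqA⟩
    obtain ⟨p, hp⟩ := exists_gate A y
    have hpC := cross hp hq hqA
    refine ⟨a * p, gate_smul haA hp, ?_⟩
    intro hcon
    exact haC ⟨(key a p haK hp.1 hpC (hull_smul haA hp.1) hcon).2, haK⟩
  · rintro a ⟨haC, haK⟩ haA y ⟨q, hq, hqC⟩
    obtain ⟨p, hp⟩ := exists_gate C y
    have hpA := cross hp hq hqC
    refine ⟨a * p, gate_smul haC hp, ?_⟩
    intro hcon
    exact haA ⟨(key a p haK hpA hp.1 hcon (hull_smul haC hp.1)).1, haK⟩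
  · rintro a ⟨haA, haK⟩ haC
    refine ⟨a, ?_, ?_⟩
    · show IsGate (hull A) (a * 1) a
      rw [mul_one]
      exact hself A a haA
    · intro hcon
      refine haC ⟨(key a 1 haK h1A h1C ?_ ?_).2, haK⟩
      · rw [mul_one]; exact mem_hull_self haA
      · rw [mul_one]; exact hcon
  · rintro a ⟨haC, haK⟩ haA
    refine ⟨a, ?_, ?_⟩
    · show IsGate (hull C) (a * 1) a
      rw [mul_one]
      exact hself C a haC
    · intro hcon
      refine haA ⟨(key a 1 haK h1A h1C ?_ ?_).1, haK⟩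
      · rw [mul_one]; exact hcon
      · rw [mul_one]; exact mem_hull_self haC
  · rintro ⟨p, hp, hpC⟩
    apply hpC
    have h1 := hp.2 1 h1A
    rw [ds_self] at h1
    have h2 := ds_nonneg 1 p
    have h3 := ds_nonneg p 1
    rw [← ds_eq_zero (by omega : ds 1 p = 0)]
    exact h1C
  · rintro ⟨p, hp, hpA⟩
    apply hpA
    have h1 := hp.2 1 h1C
    rw [ds_self] at h1
    have h2 := ds_nonneg 1 p
    have h3 := ds_nonneg p 1
    rw [← ds_eq_zero (by omega : ds 1 p = 0)]
    exact h1A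

end metric

end Run7.h574
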