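import Pool.Agent.Run7.h574.Glue
import Pool.Agent.Run7.h574.OpenFG

/-!
# Homological rigidity of subgroup separable amalgams

`Γ = H₁ *_E H₂` with a homomorphism `χ` to the integers, which is onto on `E` and has finitely
generated kernels on `H₁`, `H₂` and `E`. If `Γ` is LERF then virtual homomorphisms to the integers
that vanish on the kernel of `χ` on `E` (and on its conjugate by `x`) take the same value on `T` and
on `x T x⁻¹`.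
-/

set_option autoImplicit false
set_option linter.unusedSectionVars false
set_option linter.dupNamespace false

namespace Run7.h574

/-- subgroup separability -/
def LERF (G : Type) [Group G] : Prop :=
  ∀ H : Subgroup G, H.FG → ∀ g : G, g ∉ H → ∃ K : Subgroup G, K.FiniteIndex ∧ H ≤ K ∧ g ∉ K

lemma fg_inf {G : Type} [Group G] {K G₀ : Subgroup G} (hK : K.FG) [G₀.FiniteIndex] :
    (K ⊓ G₀).FG := by
  have h1 : Group.FG K := (Group.fg_iff_subgroup_fg _).mpr hK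
  have h2 : (G₀.subgroupOf K).FiniteIndex := inferInstance
  have h3 : Group.FG (G₀.subgroupOf K) := inferInstance
  have h4 : (G₀.subgroupOf K).FG := (Group.fg_iff_subgroup_fg _).mp h3
  have h5 := fg_map K.subtype h4
  rw [Subgroup.subgroupOf_map_subtype] at h5
  rwa [inf_comm]

lemma fg_closure_union {G : Type} [Group G] {A B : Subgroup G} (hA : A.FG) (hB : B.FG) (s : G) :
    (A ⊔ B ⊔ Subgroup.zpowers s).FG := by
  refine (hA.sup hB).sup ?_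
  rw [Subgroup.zpowers_eq_closure]
  exact ⟨{s}, by simp⟩

/-- every element has a power in a subgroup of finite index -/
lemma exists_pow_mem {G : Type} [Group G] (K : Subgroup G) [K.FiniteIndex] (g : G) :
    ∃ n : ℤ, 0 < n ∧ g ^ n ∈ K := by
  obtain ⟨n, hn, -, h⟩ := K.exists_pow_mem_of_index_ne_zero (Subgroup.FiniteIndex.index_ne_zero) g
  exact ⟨n, by exact_mod_cast hn, by rw [zpow_natCast]; exact h⟩

/-- The number theory behind the first part of the argument. -/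
lemma exists_comb (M : AddSubgroup ℤ) (q p d : ℤ) (hM : ∃ m ∈ M, m ≠ 0) (hq : 0 < q)
    (hd : d = ((Int.gcd q p : ℕ) : ℤ)) (h : ∀ i : ℤ, i * q ∈ M → i * p ∈ M) : ∃ a : ℤ, d - a * q ∈ M := by
  obtain ⟨m, hm⟩ := Int.subgroup_cyclic M
  have hmem : ∀ z, z ∈ M ↔ m ∣ z := by
    intro z
    rw [hm, AddSubgroup.mem_closure_singleton]
    constructor
    · rintro ⟨n, rfl⟩
      exact ⟨n, by rw [zsmul_eq_mul, mul_comm]; rfl⟩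
    · rintro ⟨n, rfl⟩
      exact ⟨n, by rw [zsmul_eq_mul, mul_comm]; rfl⟩
  have hm0 : m ≠ 0 := by
    rintro rfl
    obtain ⟨z, hz, hz'⟩ := hM
    exact hz' (zero_dvd_iff.mp ((hmem z).mp hz))
  set g : ℤ := ((Int.gcd q m : ℕ) : ℤ) with hg
  have hgpos : 0 < g := by
    rw [hg]
    have : Int.gcd q m ≠ 0 := by
      rw [Ne, Int.gcd_eq_zero_iff]
      rintro ⟨h1, _⟩
      omega
    exact_mod_cast Nat.pos_of_ne_zero this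
  obtain ⟨q', hq'⟩ : g ∣ q := Int.gcd_dvd_left ..
  obtain ⟨m', hm'⟩ : g ∣ m := Int.gcd_dvd_right ..
  have hm'0 : m' ≠ 0 := by
    rintro rfl
    apply hm0
    rw [hm', mul_zero]
  have h1 : m' * q ∈ M := by
    rw [hmem]
    refine ⟨q', ?_⟩
    calc m' * q = m' * (g * q') := by rw [← hq']
      _ = (g * m') * q' := by ring
      _ = m * q' := by rw [← hm']
  have h2 : m ∣ m' * p := (hmem _).mp (h m' h1)
  have h3 : g ∣ p := by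
    rw [hm', mul_comm g m'] at h2
    exact (mul_dvd_mul_iff_left hm'0).mp h2
  have h4 : g ∣ d := by
    rw [hd]
    exact Int.dvd_coe_gcd ⟨q', hq'⟩ h3
  obtain ⟨e, he⟩ := h4
  have h5 : g = q * Int.gcdA q m + m * Int.gcdB q m := Int.gcd_eq_gcd_ab q m
  refine ⟨Int.gcdA q m * e, ?_⟩
  rw [hmem]
  refine ⟨Int.gcdB q m * e, ?_⟩
  rw [he, h5]
  ring

section

variable {Γ : Type} [Group Γ]

/-- The main step. -/
theorem rigid_aux (hΓ : LERF Γ) (H₁ H₂ : Subgroup Γ) (χ : Γ → ℤ) (hχ : HomOn ⊤ χ) (t : Γ)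
    (ht₁ : t ∈ H₁) (ht₂ : t ∈ H₂) (htχ : χ t = 1)
    (hA : (kerOn H₁ χ (hχ.mono le_top)).FG) (hC : (kerOn H₂ χ (hχ.mono le_top)).FG)
    (hidx : ∀ K : Subgroup Γ, K.FiniteIndex → ∃ c ∈ H₂, χ c = 0 ∧ c ∈ K ∧ c ∉ H₁)
    (hUP : ∀ (Ω : Type) (ρ₁ : H₁ →* Equiv.Perm Ω) (ρ₂ : H₂ →* Equiv.Perm Ω),
      (∀ e (h₁ : e ∈ H₁) (h₂ : e ∈ H₂), ρ₁ ⟨e, h₁⟩ = ρ₂ ⟨e, h₂⟩) →
      ∃ ρ : Γ →* Equiv.Perm Ω, (∀ g : H₁, ρ g = ρ₁ g) ∧ ∀ g : H₂, ρ g = ρ₂ g)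
    (G₀ : Subgroup Γ) [G₀.Normal] [G₀.FiniteIndex] (β : Γ → ℤ) (hβ : HomOn (H₁ ⊓ G₀) β) (k : ℤ)
    (hk : 0 < k) (hT : t ^ k ∈ G₀) (x : Γ) (hx : x ∈ H₁) (hxχ : χ x = 0)
    (hβ1 : ∀ l, l ∈ H₁ → l ∈ H₂ → χ l = 0 → l ∈ G₀ → β l = 0)
    (hβ2 : ∀ l, l ∈ H₁ → l ∈ H₂ → χ l = 0 → l ∈ G₀ → β (x * l * x⁻¹) = 0)
    (y : Γ) (hy : y ∈ H₂) (hyχ : χ y = 0)
    (hyl : ∀ l, l ∈ H₁ → l ∈ H₂ → χ l = 0 → y * l ∉ G₀) :
    β (t ^ k) = β (x * t ^ k * x⁻¹) := by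
  classical
  by_contra hne
  have hG₀ : ∀ g h : Γ, g ∈ G₀ → h * g * h⁻¹ ∈ G₀ := fun g h hg =>
    Subgroup.Normal.conj_mem inferInstance g hg h
  have χm : ∀ a b, χ (a * b) = χ a + χ b := fun a b => hχ a trivial b trivial
  have χi : ∀ a, χ a⁻¹ = - χ a := fun a => hχ.inv trivial
  have χz : ∀ a (n : ℤ), χ (a ^ n) = n * χ a := fun a n => hχ.zpow trivial n
  set T : Γ := t ^ k with hTdef
  have hT₁ : T ∈ H₁ := H₁.zpow_mem ht₁ k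
  have hT₂ : T ∈ H₂ := H₂.zpow_mem ht₂ k
  have hTχ : χ T = k := by rw [hTdef, χz, htχ, mul_one]
  set b : ℤ := β (x * T * x⁻¹) - β T with hbdef
  have hb : b ≠ 0 := fun h => hne (by omega)
  set P₁ : Subgroup Γ := H₁ ⊓ G₀ with hP₁
  -- finite generation
  have hfg1 : (kerOn P₁ χ (hχ.mono le_top)).FG := by
    have h1 := fg_inf (G₀ := G₀) hA
    convert h1 using 1
    ext g
    constructor
    · rintro ⟨⟨h1, h2⟩, h3⟩
      exact ⟨⟨h1, h3⟩, h2⟩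
    · rintro ⟨⟨h1, h3⟩, h2⟩
      exact ⟨⟨h1, h2⟩, h3⟩
  obtain ⟨N0, hN0⟩ := open_fg (A := P₁) (θ := χ) (g := β) (hχ.mono le_top)
    hβ hfg1 ⟨T, ⟨hT₁, hT⟩, by rw [hTχ]; omega⟩
  set N : ℤ := max N0 (|β T| + k * |b| + 1) with hN
  have hN1 : N0 ≤ N := le_max_left _ _
  have hN2 : |β T| + k * |b| + 1 ≤ N := le_max_right _ _
  have hfg2 := hN0 N hN1
  set α : Γ → ℤ := fun g => β g + N * χ g with hα
  have hαP : HomOn P₁ α := hβ.lin (hχ.mono le_top) N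
  set K₁ : Subgroup Γ := kerOn P₁ α hαP with hK₁
  have hK₁fg : K₁.FG := hfg2
  have hK₁mem : ∀ g, g ∈ K₁ ↔ (g ∈ H₁ ∧ g ∈ G₀) ∧ α g = 0 := fun g => Iff.rfl
  set q : ℤ := α T with hq
  set p : ℤ := α (x * T * x⁻¹) with hp
  have hqv : q = β T + N * k := by
    rw [hq, hα]
    simp only
    rw [hTχ]
  have hpv : p = q + b := by
    have h1 : χ (x * T * x⁻¹) = k := by rw [χm, χm, χi, hxχ, hTχ]; ring
    rw [hqv, hp, hα]
    simp only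
    rw [h1, hbdef]
    ring
  have habs : 0 ≤ |b| := abs_nonneg b
  have hkb : 0 ≤ k * |b| := mul_nonneg hk.le habs
  have hqb : k * |b| < q := by
    have h1 := neg_abs_le (β T)
    have h2 : 0 ≤ |β T| := abs_nonneg _
    have h3 : N * 1 ≤ N * k := mul_le_mul_of_nonneg_left (by omega) (by omega)
    rw [hqv]
    omega
  have hq0 : 0 < q := by omega
  have hbb : |b| ≤ k * |b| := by nlinarith
  have hp0 : 0 < p := by
    have := neg_abs_le b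
    rw [hpv]
    omega
  set d : ℤ := ((Int.gcd q p : ℕ) : ℤ) with hd
  have hdpos : 0 < d := by
    have : Int.gcd q p ≠ 0 := by
      rw [Ne, Int.gcd_eq_zero_iff]
      rintro ⟨h1, _⟩
      omega
    rw [hd]
    exact Int.natCast_pos.mpr (Nat.pos_of_ne_zero this)
  have hdb : d ≤ |b| := by
    apply Int.le_of_dvd (abs_pos.mpr hb)
    rw [dvd_abs]
    have h1 : d ∣ p - q := dvd_sub (Int.gcd_dvd_right ..) (Int.gcd_dvd_left ..)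
    have h2 : p - q = b := by rw [hpv]; ring
    rwa [h2] at h1
  have hxT₁ : x * T * x⁻¹ ∈ H₁ := H₁.mul_mem (H₁.mul_mem hx hT₁) (H₁.inv_mem hx)
  have hxTG : x * T * x⁻¹ ∈ G₀ := hG₀ _ _ hT
  set h : Γ := T ^ (Int.gcdA q p) * (x * T * x⁻¹) ^ (Int.gcdB q p) with hh
  have hh₁ : h ∈ H₁ := H₁.mul_mem (H₁.zpow_mem hT₁ _) (H₁.zpow_mem hxT₁ _)
  have hhG : h ∈ G₀ := G₀.mul_mem (G₀.zpow_mem hT _) (G₀.zpow_mem hxTG _)
  have hhα : α h = d := by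
    rw [hh, hαP _ (P₁.zpow_mem ⟨hT₁, hT⟩ _) _ (P₁.zpow_mem ⟨hxT₁, hxTG⟩ _),
      hαP.zpow ⟨hT₁, hT⟩, hαP.zpow ⟨hxT₁, hxTG⟩, ← hq, ← hp, hd, Int.gcd_eq_gcd_ab]
    ring
  -- facts on elements of the intersection
  have F1 : ∀ e, e ∈ H₁ → e ∈ H₂ → e ∈ G₀ → k * α e = χ e * q ∧
      k * α (x * e * x⁻¹) = χ e * p := by
    intro e he₁ he₂ heG
    set l : Γ := e ^ k * (T ^ (χ e))⁻¹ with hl
    have hl₁ : l ∈ H₁ := H₁.mul_mem (H₁.zpow_mem he₁ _) (H₁.inv_mem (H₁.zpow_mem hT₁ _))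
    have hl₂ : l ∈ H₂ := H₂.mul_mem (H₂.zpow_mem he₂ _) (H₂.inv_mem (H₂.zpow_mem hT₂ _))
    have hlG : l ∈ G₀ := G₀.mul_mem (G₀.zpow_mem heG _) (G₀.inv_mem (G₀.zpow_mem hT _))
    have hlχ : χ l = 0 := by rw [hl, χm, χi, χz, χz, hTχ]; ring
    have h1 := hβ1 l hl₁ hl₂ hlχ hlG
    have h2 := hβ2 l hl₁ hl₂ hlχ hlG
    have hαl : α l = 0 := by
      show β l + N * χ l = 0
      rw [h1, hlχ]; ring
    have hαxl : α (x * l * x⁻¹) = 0 := by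
      show β (x * l * x⁻¹) + N * χ (x * l * x⁻¹) = 0
      rw [h2, χm, χm, χi, hlχ, hxχ]; ring
    constructor
    · have h3 : e ^ k = l * T ^ (χ e) := by rw [hl, inv_mul_cancel_right]
      have h4 : α (e ^ k) = k * α e := hαP.zpow ⟨he₁, heG⟩ k
      rw [h3, hαP _ ⟨hl₁, hlG⟩ _ (P₁.zpow_mem ⟨hT₁, hT⟩ _), hαl, hαP.zpow ⟨hT₁, hT⟩,
        ← hq] at h4
      rw [← h4]; ring
    · have h3 : (x * e * x⁻¹) ^ k = (x * l * x⁻¹) * (x * T * x⁻¹) ^ (χ e) := by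
        rw [conj_zpow, conj_zpow, hl]
        group
      have h4 : α ((x * e * x⁻¹) ^ k) = k * α (x * e * x⁻¹) :=
        hαP.zpow ⟨H₁.mul_mem (H₁.mul_mem hx he₁) (H₁.inv_mem hx), hG₀ _ _ heG⟩ k
      rw [h3, hαP _ ⟨H₁.mul_mem (H₁.mul_mem hx hl₁) (H₁.inv_mem hx), hG₀ _ _ hlG⟩ _
        (P₁.zpow_mem ⟨hxT₁, hxTG⟩ _), hαxl, hαP.zpow ⟨hxT₁, hxTG⟩, ← hp] at h4
      rw [← h4]; ring
  have F3 : ∀ e, e ∈ H₁ → e ∈ H₂ → x * e ∉ G₀ := by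
    intro e he₁ he₂ hxe
    apply hne
    have h1 : x * T * x⁻¹ = (x * e) * (e⁻¹ * T * e) * (x * e)⁻¹ := by group
    have h2 : e⁻¹ * T * e ∈ G₀ := by
      have := hG₀ T e⁻¹ hT
      rwa [inv_inv] at this
    have h2' : e⁻¹ * T * e ∈ H₁ := H₁.mul_mem (H₁.mul_mem (H₁.inv_mem he₁) hT₁) he₁
    have h3 : β (x * T * x⁻¹) = β (e⁻¹ * T * e) := by
      rw [h1]
      exact hβ.conj ⟨H₁.mul_mem hx he₁, hxe⟩ ⟨h2', h2⟩
    have h4 : e⁻¹ * T * e * T⁻¹ ∈ G₀ := G₀.mul_mem h2 (G₀.inv_mem hT)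
    have h5 : β (e⁻¹ * T * e * T⁻¹) = 0 := by
      apply hβ1 _ _ _ _ h4
      · exact H₁.mul_mem (H₁.mul_mem (H₁.mul_mem (H₁.inv_mem he₁) hT₁) he₁) (H₁.inv_mem hT₁)
      · exact H₂.mul_mem (H₂.mul_mem (H₂.mul_mem (H₂.inv_mem he₂) hT₂) he₂) (H₂.inv_mem hT₂)
      · rw [χm, χm, χm, χi, χi]; ring
    have h6 : e⁻¹ * T * e = (e⁻¹ * T * e * T⁻¹) * T := by group
    rw [h3, h6, hβ _ ⟨H₁.mul_mem h2' (H₁.inv_mem hT₁), h4⟩ _ ⟨hT₁, hT⟩, h5]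
    ring
  have A0 : ∀ e, e ∈ H₁ → e ∈ H₂ → e ∈ G₀ → (α e = 0 ↔ χ e = 0) := by
    intro e he₁ he₂ heG
    have h1 := (F1 e he₁ he₂ heG).1
    constructor
    · intro h2
      rw [h2, mul_zero] at h1
      exact (mul_eq_zero.mp h1.symm).resolve_right hq0.ne'
    · intro h2
      rw [h2, zero_mul] at h1
      exact (mul_eq_zero.mp h1).resolve_left hk.ne'
  have A1 : ∀ e, e ∈ H₁ → e ∈ H₂ → e ∈ G₀ → (α (x * e * x⁻¹) = 0 ↔ χ e = 0) := by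
    intro e he₁ he₂ heG
    have h1 := (F1 e he₁ he₂ heG).2
    constructor
    · intro h2
      rw [h2, mul_zero] at h1
      exact (mul_eq_zero.mp h1.symm).resolve_right hp0.ne'
    · intro h2
      rw [h2, zero_mul] at h1
      exact (mul_eq_zero.mp h1).resolve_left hk.ne'
  have A2 : ∀ e, e ∈ H₁ → e ∈ H₂ → e ∈ G₀ → α e ≠ d ∧ α e ≠ -d := by
    intro e he₁ he₂ heG
    have h1 := (F1 e he₁ he₂ heG).1
    have h2 : k * d ≤ k * |b| := mul_le_mul_of_nonneg_left hdb hk.le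
    have h3 : 0 < k * d := mul_pos hk hdpos
    have h4 : ∀ z : ℤ, z * q ≠ k * d := by
      intro z hz
      rcases lt_trichotomy z 0 with h | h | h
      · have : z * q < 0 := mul_neg_of_neg_of_pos h hq0
        omega
      · rw [h, zero_mul] at hz
        omega
      · have : 1 * q ≤ z * q := mul_le_mul_of_nonneg_right (by omega) hq0.le
        omega
    constructor
    · intro h5
      rw [h5] at h1
      exact h4 _ h1.symm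
    · intro h5
      rw [h5] at h1
      apply h4 (- χ e)
      rw [neg_mul, ← h1]
      ring
  -- the subgroup
  set C' : Subgroup Γ := kerOn H₂ χ (hχ.mono le_top) ⊓ G₀ with hC'
  have hC'mem : ∀ g, g ∈ C' ↔ (g ∈ H₂ ∧ χ g = 0) ∧ g ∈ G₀ := fun g => Iff.rfl
  have hC'fg : C'.FG := fg_inf hC
  obtain ⟨c₀, hc₂, hcχ, hcG, hc₁⟩ := hidx G₀ inferInstance
  set s : Γ := x * y⁻¹ with hs
  set S : Subgroup Γ := K₁ ⊔ C' ⊔ Subgroup.zpowers s with hS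
  have hSfg : S.FG := fg_closure_union hK₁fg hC'fg s
  -- the first part
  have part1 : ∀ K : Subgroup Γ, K.FiniteIndex → S ≤ K → h⁻¹ * c₀ * h ∈ K := by
    intro K hKf hSK
    have hK1 : ∀ g ∈ K₁, g ∈ K := fun g hg =>
      hSK (Subgroup.mem_sup_left (Subgroup.mem_sup_left hg))
    have hK2 : ∀ g ∈ C', g ∈ K := fun g hg =>
      hSK (Subgroup.mem_sup_left (Subgroup.mem_sup_right hg))
    have hK3 : s ∈ K := hSK (Subgroup.mem_sup_right (Subgroup.mem_zpowers s))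
    let M : AddSubgroup ℤ :=
      { carrier := {z | ∃ g, (g ∈ H₁ ∧ g ∈ G₀) ∧ g ∈ K ∧ α g = z}
        add_mem' := by
          rintro _ _ ⟨g, hg, hgK, rfl⟩ ⟨g', hg', hgK', rfl⟩
          exact ⟨g * g', ⟨H₁.mul_mem hg.1 hg'.1, G₀.mul_mem hg.2 hg'.2⟩, K.mul_mem hgK hgK',
            hαP _ hg _ hg'⟩
        zero_mem' := ⟨1, ⟨H₁.one_mem, G₀.one_mem⟩, K.one_mem, hαP.one⟩
        neg_mem' := by
          rintro _ ⟨g, hg, hgK, rfl⟩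
          exact ⟨g⁻¹, ⟨H₁.inv_mem hg.1, G₀.inv_mem hg.2⟩, K.inv_mem hgK, hαP.inv hg⟩ }
    have hM : ∀ g, g ∈ H₁ → g ∈ G₀ → (g ∈ K ↔ α g ∈ M) := by
      intro g hg₁ hgG
      constructor
      · intro hgK
        exact ⟨g, ⟨hg₁, hgG⟩, hgK, rfl⟩
      · rintro ⟨g', hg', hgK', hgg⟩
        have h1 : g * g'⁻¹ ∈ K₁ := by
          rw [hK₁mem]
          refine ⟨⟨H₁.mul_mem hg₁ (H₁.inv_mem hg'.1), G₀.mul_mem hgG (G₀.inv_mem hg'.2)⟩, ?_⟩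
          rw [hαP _ ⟨hg₁, hgG⟩ _ (P₁.inv_mem hg'), hαP.inv hg', hgg]
          ring
        have h2 := K.mul_mem (hK1 _ h1) hgK'
        rwa [inv_mul_cancel_right] at h2
    have hTz : ∀ i : ℤ, T ^ i ∈ H₁ ∧ T ^ i ∈ G₀ ∧ α (T ^ i) = i * q := fun i =>
      ⟨H₁.zpow_mem hT₁ _, G₀.zpow_mem hT _, hαP.zpow ⟨hT₁, hT⟩ i⟩
    have hTz' : ∀ i : ℤ, x * T ^ i * x⁻¹ ∈ H₁ ∧ x * T ^ i * x⁻¹ ∈ G₀ ∧
        α (x * T ^ i * x⁻¹) = i * p := fun i => by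
      rw [← conj_zpow]
      exact ⟨H₁.zpow_mem hxT₁ _, G₀.zpow_mem hxTG _, hαP.zpow ⟨hxT₁, hxTG⟩ i⟩
    have hTK : ∀ i : ℤ, T ^ i ∈ K → x * T ^ i * x⁻¹ ∈ K := by
      intro i hi
      have h1 : y * T ^ i * y⁻¹ * (T ^ i)⁻¹ ∈ C' := by
        rw [hC'mem]
        refine ⟨⟨?_, ?_⟩, ?_⟩
        · exact H₂.mul_mem (H₂.mul_mem (H₂.mul_mem hy (H₂.zpow_mem hT₂ _)) (H₂.inv_mem hy))
            (H₂.inv_mem (H₂.zpow_mem hT₂ _))
        · rw [χm, χm, χm, χi, χi]; ring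
        · exact G₀.mul_mem (hG₀ _ _ (G₀.zpow_mem hT _)) (G₀.inv_mem (G₀.zpow_mem hT _))
      have h2 : x * T ^ i * x⁻¹ = s * ((y * T ^ i * y⁻¹ * (T ^ i)⁻¹) * T ^ i) * s⁻¹ := by
        rw [hs]; group
      rw [h2]
      exact K.mul_mem (K.mul_mem hK3 (K.mul_mem (hK2 _ h1) hi)) (K.inv_mem hK3)
    obtain ⟨a, ha⟩ := exists_comb M q p d (by
      obtain ⟨n, hn, hnK⟩ := exists_pow_mem K T
      refine ⟨n * q, (hTz n).2.2 ▸ (hM _ (hTz n).1 (hTz n).2.1).mp hnK, ?_⟩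
      exact mul_ne_zero hn.ne' hq0.ne') hq0 rfl (by
      intro i hi
      rw [← (hTz i).2.2, ← hM _ (hTz i).1 (hTz i).2.1] at hi
      have := hTK i hi
      rwa [hM _ (hTz' i).1 (hTz' i).2.1, (hTz' i).2.2] at this)
    have h1 : (T ^ a)⁻¹ * h ∈ K := by
      rw [hM _ (H₁.mul_mem (H₁.inv_mem (hTz a).1) hh₁) (G₀.mul_mem (G₀.inv_mem (hTz a).2.1) hhG),
        hαP _ (P₁.inv_mem ⟨(hTz a).1, (hTz a).2.1⟩) _ ⟨hh₁, hhG⟩,
        hαP.inv ⟨(hTz a).1, (hTz a).2.1⟩, (hTz a).2.2, hhα]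
      have h2 : -(a * q) + d = d - a * q := by ring
      rw [h2]
      exact ha
    have h2 : (T ^ a)⁻¹ * c₀ * T ^ a ∈ C' := by
      rw [hC'mem]
      refine ⟨⟨?_, ?_⟩, ?_⟩
      · exact H₂.mul_mem (H₂.mul_mem (H₂.inv_mem (H₂.zpow_mem hT₂ _)) hc₂) (H₂.zpow_mem hT₂ _)
      · rw [χm, χm, χi, hcχ]; ring
      · have := hG₀ c₀ (T ^ a)⁻¹ hcG
        rwa [inv_inv] at this
    have h3 : h⁻¹ * c₀ * h = ((T ^ a)⁻¹ * h)⁻¹ * ((T ^ a)⁻¹ * c₀ * T ^ a) * ((T ^ a)⁻¹ * h) := by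
      group
    rw [h3]
    exact K.mul_mem (K.mul_mem (K.inv_mem h1) (hK2 _ h2)) h1
  -- the second part
  have part2 : h⁻¹ * c₀ * h ∉ S := by
    set L₀ : Subgroup Γ := kerOn (H₁ ⊓ H₂) χ (hχ.mono le_top) ⊓ G₀ with hL₀
    have hL₀mem : ∀ g, g ∈ L₀ ↔ ((g ∈ H₁ ∧ g ∈ H₂) ∧ χ g = 0) ∧ g ∈ G₀ := fun g => Iff.rfl
    let i₁ : (H₁ ⊓ H₂ : Subgroup Γ) →* H₁ := Subgroup.inclusion inf_le_left
    let i₂ : (H₁ ⊓ H₂ : Subgroup Γ) →* H₂ := Subgroup.inclusion inf_le_right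
    have hi₁ : Function.Injective i₁ := Subgroup.inclusion_injective _
    have hi₂ : Function.Injective i₂ := Subgroup.inclusion_injective _
    let Y₁ := H₁ ⧸ K₁.subgroupOf H₁
    let Y₂ := (H₂ ⧸ C'.subgroupOf H₂) ⊕ (H₂ ⧸ L₀.subgroupOf H₂)
    let z₁ : Fin 3 → H₁ := ![1, ⟨x⁻¹, H₁.inv_mem hx⟩, ⟨h, hh₁⟩]
    let p₁ : Fin 3 → Y₁ := fun d => QuotientGroup.mk (z₁ d)
    let p₂ : Fin 3 → Y₂ := ![Sum.inl (QuotientGroup.mk 1),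
      Sum.inl (QuotientGroup.mk ⟨y⁻¹, H₂.inv_mem hy⟩), Sum.inr (QuotientGroup.mk 1)]
    have hp₁ : ∀ (e : (H₁ ⊓ H₂ : Subgroup Γ)) d d', i₁ e • p₁ d = p₁ d' ↔
        ((z₁ d : Γ))⁻¹ * (e : Γ)⁻¹ * z₁ d' ∈ K₁ := by
      intro e d d'
      show (QuotientGroup.mk (i₁ e * z₁ d) : Y₁) = QuotientGroup.mk (z₁ d') ↔ _
      rw [QuotientGroup.eq, Subgroup.mem_subgroupOf]
      have h1 : (((i₁ e * z₁ d)⁻¹ * z₁ d' : H₁) : Γ) = ((z₁ d : Γ))⁻¹ * (e : Γ)⁻¹ * z₁ d' := by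
        push_cast
        rw [mul_inv_rev]
        rfl
      rw [h1]
    -- the criterion on the first side
    have crit1 : ∀ (e : (H₁ ⊓ H₂ : Subgroup Γ)) d d', i₁ e • p₁ d = p₁ d' ↔
        (d = d' ∧ (e : Γ) ∈ L₀) := by
      intro e d d'
      rw [hp₁, hK₁mem, hL₀mem]
      have he₁ : (e : Γ) ∈ H₁ := e.2.1
      have he₂ : (e : Γ) ∈ H₂ := e.2.2
      generalize (e : Γ) = e at he₁ he₂
      have he₁' : e⁻¹ ∈ H₁ := H₁.inv_mem he₁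
      have he₂' : e⁻¹ ∈ H₂ := H₂.inv_mem he₂
      have z0 : ((z₁ 0 : H₁) : Γ) = 1 := rfl
      have z1 : ((z₁ 1 : H₁) : Γ) = x⁻¹ := rfl
      have z2 : ((z₁ 2 : H₁) : Γ) = h := rfl
      have hinv : ∀ g : Γ, g⁻¹ ∈ G₀ ↔ g ∈ G₀ := fun g => inv_mem_iff
      have hαi : ∀ g, g ∈ H₁ → g ∈ G₀ → α g⁻¹ = - α g := fun g hg hg' => hαP.inv ⟨hg, hg'⟩
      fin_cases d <;> fin_cases d'
      · -- (0, 0)
        show (((1 : Γ)⁻¹ * e⁻¹ * 1 ∈ H₁ ∧ (1 : Γ)⁻¹ * e⁻¹ * 1 ∈ G₀) ∧ α ((1 : Γ)⁻¹ * e⁻¹ * 1) = 0) ↔ _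
        rw [inv_one, one_mul, mul_one]
        constructor
        · rintro ⟨⟨h1, h2⟩, h3⟩
          rw [hinv] at h2
          rw [hαi e he₁ h2, neg_eq_zero, A0 e he₁ he₂ h2] at h3
          exact ⟨rfl, ⟨⟨he₁, he₂⟩, h3⟩, h2⟩
        · rintro ⟨-, ⟨-, h3⟩, h2⟩
          refine ⟨⟨he₁', (hinv e).mpr h2⟩, ?_⟩
          rw [hαi e he₁ h2, neg_eq_zero, A0 e he₁ he₂ h2]
          exact h3
      · -- (0, 1)
        refine iff_of_false ?_ (fun h => absurd h.1 (by decide))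
        rintro ⟨⟨-, h2⟩, -⟩
        have h2 : (1 : Γ)⁻¹ * e⁻¹ * x⁻¹ ∈ G₀ := h2
        rw [inv_one, one_mul, ← mul_inv_rev, hinv] at h2
        exact F3 e he₁ he₂ h2
      · -- (0, 2)
        refine iff_of_false ?_ (fun h => absurd h.1 (by decide))
        rintro ⟨⟨-, h2⟩, h3⟩
        have h2 : (1 : Γ)⁻¹ * e⁻¹ * h ∈ G₀ := h2
        have h3 : α ((1 : Γ)⁻¹ * e⁻¹ * h) = 0 := h3
        rw [inv_one, one_mul] at h2 h3
        have h4 : e⁻¹ ∈ G₀ := by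
          have := G₀.mul_mem h2 (G₀.inv_mem hhG)
          rwa [mul_inv_cancel_right] at this
        rw [hαP _ ⟨he₁', h4⟩ _ ⟨hh₁, hhG⟩, hhα] at h3
        exact (A2 e⁻¹ he₁' he₂' h4).2 (by omega)
      · -- (1, 0)
        refine iff_of_false ?_ (fun h => absurd h.1 (by decide))
        rintro ⟨⟨-, h2⟩, -⟩
        have h2 : x⁻¹⁻¹ * e⁻¹ * 1 ∈ G₀ := h2
        rw [inv_inv, mul_one] at h2
        exact F3 e⁻¹ he₁' he₂' h2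
      · -- (1, 1)
        show ((x⁻¹⁻¹ * e⁻¹ * x⁻¹ ∈ H₁ ∧ x⁻¹⁻¹ * e⁻¹ * x⁻¹ ∈ G₀) ∧ α (x⁻¹⁻¹ * e⁻¹ * x⁻¹) = 0) ↔ _
        rw [inv_inv]
        constructor
        · rintro ⟨⟨h1, h2⟩, h3⟩
          have h4 : e⁻¹ ∈ G₀ := by
            have := hG₀ _ x⁻¹ h2
            rwa [show x⁻¹ * (x * e⁻¹ * x⁻¹) * x⁻¹⁻¹ = e⁻¹ by group] at this
          rw [A1 e⁻¹ he₁' he₂' h4, χi, neg_eq_zero] at h3
          rw [hinv] at h4
          exact ⟨rfl, ⟨⟨he₁, he₂⟩, h3⟩, h4⟩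
        · rintro ⟨-, ⟨-, h3⟩, h2⟩
          have h4 : e⁻¹ ∈ G₀ := (hinv e).mpr h2
          refine ⟨⟨H₁.mul_mem (H₁.mul_mem hx he₁') (H₁.inv_mem hx), hG₀ _ _ h4⟩, ?_⟩
          rw [A1 e⁻¹ he₁' he₂' h4, χi, neg_eq_zero]
          exact h3
      · -- (1, 2)
        refine iff_of_false ?_ (fun h => absurd h.1 (by decide))
        rintro ⟨⟨-, h2⟩, -⟩
        have h2 : x⁻¹⁻¹ * e⁻¹ * h ∈ G₀ := h2
        rw [inv_inv] at h2
        have h4 : x * e⁻¹ ∈ G₀ := by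
          have := G₀.mul_mem h2 (G₀.inv_mem hhG)
          rwa [mul_inv_cancel_right] at this
        exact F3 e⁻¹ he₁' he₂' h4
      · -- (2, 0)
        refine iff_of_false ?_ (fun h => absurd h.1 (by decide))
        rintro ⟨⟨-, h2⟩, h3⟩
        have h2 : h⁻¹ * e⁻¹ * 1 ∈ G₀ := h2
        have h3 : α (h⁻¹ * e⁻¹ * 1) = 0 := h3
        rw [mul_one] at h2 h3
        have h4 : e⁻¹ ∈ G₀ := by
          have := G₀.mul_mem hhG h2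
          rwa [mul_inv_cancel_left] at this
        rw [hαP _ (P₁.inv_mem ⟨hh₁, hhG⟩) _ ⟨he₁', h4⟩, hαi h hh₁ hhG, hhα] at h3
        exact (A2 e⁻¹ he₁' he₂' h4).1 (by omega)
      · -- (2, 1)
        refine iff_of_false ?_ (fun h => absurd h.1 (by decide))
        rintro ⟨⟨-, h2⟩, -⟩
        have h2 : h⁻¹ * e⁻¹ * x⁻¹ ∈ G₀ := h2
        have h4 : x * e ∈ G₀ := by
          have := G₀.mul_mem hhG h2
          rwa [show h * (h⁻¹ * e⁻¹ * x⁻¹) = (x * e)⁻¹ by group, hinv] at this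
        exact F3 e he₁ he₂ h4
      · -- (2, 2)
        show ((h⁻¹ * e⁻¹ * h ∈ H₁ ∧ h⁻¹ * e⁻¹ * h ∈ G₀) ∧ α (h⁻¹ * e⁻¹ * h) = 0) ↔ _
        constructor
        · rintro ⟨⟨h1, h2⟩, h3⟩
          have h4 : e⁻¹ ∈ G₀ := by
            have := hG₀ _ h h2
            rwa [show h * (h⁻¹ * e⁻¹ * h) * h⁻¹ = e⁻¹ by group] at this
          rw [hαP _ (P₁.mul_mem (P₁.inv_mem ⟨hh₁, hhG⟩) ⟨he₁', h4⟩) _ ⟨hh₁, hhG⟩,
            hαP _ (P₁.inv_mem ⟨hh₁, hhG⟩) _ ⟨he₁', h4⟩, hαi h hh₁ hhG] at h3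
          have h5 : α e⁻¹ = 0 := by omega
          rw [A0 e⁻¹ he₁' he₂' h4, χi, neg_eq_zero] at h5
          rw [hinv] at h4
          exact ⟨rfl, ⟨⟨he₁, he₂⟩, h5⟩, h4⟩
        · rintro ⟨-, ⟨-, h3⟩, h2⟩
          have h4 : e⁻¹ ∈ G₀ := (hinv e).mpr h2
          refine ⟨⟨H₁.mul_mem (H₁.mul_mem (H₁.inv_mem hh₁) he₁') hh₁,
            G₀.mul_mem (G₀.mul_mem (G₀.inv_mem hhG) h4) hhG⟩, ?_⟩
          rw [hαP _ (P₁.mul_mem (P₁.inv_mem ⟨hh₁, hhG⟩) ⟨he₁', h4⟩) _ ⟨hh₁, hhG⟩,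
            hαP _ (P₁.inv_mem ⟨hh₁, hhG⟩) _ ⟨he₁', h4⟩, hαi h hh₁ hhG]
          have h5 : α e⁻¹ = 0 := by
            rw [A0 e⁻¹ he₁' he₂' h4, χi, neg_eq_zero]
            exact h3
          omega
    -- the criterion on the second side
    have crit2 : ∀ (e : (H₁ ⊓ H₂ : Subgroup Γ)) d d', i₂ e • p₂ d = p₂ d' ↔
        (d = d' ∧ (e : Γ) ∈ L₀) := by
      intro e d d'
      have hl : ∀ u v : H₂, i₂ e • (Sum.inl (QuotientGroup.mk u) : Y₂) =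
          Sum.inl (QuotientGroup.mk v) ↔ (u : Γ)⁻¹ * (e : Γ)⁻¹ * v ∈ C' := by
        intro u v
        show (Sum.inl (QuotientGroup.mk (i₂ e * u)) : Y₂) = Sum.inl (QuotientGroup.mk v) ↔ _
        rw [Sum.inl.injEq, QuotientGroup.eq, Subgroup.mem_subgroupOf]
        have h1 : (((i₂ e * u)⁻¹ * v : H₂) : Γ) = ((u : Γ))⁻¹ * (e : Γ)⁻¹ * v := by
          push_cast
          rw [mul_inv_rev]
          rfl
        rw [h1]
      have hr : ∀ u v : H₂, i₂ e • (Sum.inr (QuotientGroup.mk u) : Y₂) =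
          Sum.inr (QuotientGroup.mk v) ↔ (u : Γ)⁻¹ * (e : Γ)⁻¹ * v ∈ L₀ := by
        intro u v
        show (Sum.inr (QuotientGroup.mk (i₂ e * u)) : Y₂) = Sum.inr (QuotientGroup.mk v) ↔ _
        rw [Sum.inr.injEq, QuotientGroup.eq, Subgroup.mem_subgroupOf]
        have h1 : (((i₂ e * u)⁻¹ * v : H₂) : Γ) = ((u : Γ))⁻¹ * (e : Γ)⁻¹ * v := by
          push_cast
          rw [mul_inv_rev]
          rfl
        rw [h1]
      have he₁ : (e : Γ) ∈ H₁ := e.2.1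
      have he₂ : (e : Γ) ∈ H₂ := e.2.2
      have he₁' : (e : Γ)⁻¹ ∈ H₁ := H₁.inv_mem he₁
      have he₂' : (e : Γ)⁻¹ ∈ H₂ := H₂.inv_mem he₂
      have hinv : ∀ g : Γ, g⁻¹ ∈ G₀ ↔ g ∈ G₀ := fun g => inv_mem_iff
      fin_cases d <;> fin_cases d'
      · -- (0, 0)
        refine Iff.trans (hl 1 1) ?_
        rw [Subgroup.coe_one, inv_one, one_mul, mul_one, inv_mem_iff, hC'mem, hL₀mem]
        constructor
        · rintro ⟨⟨-, h3⟩, h2⟩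
          exact ⟨rfl, ⟨⟨he₁, he₂⟩, h3⟩, h2⟩
        · rintro ⟨-, ⟨-, h3⟩, h2⟩
          exact ⟨⟨he₂, h3⟩, h2⟩
      · -- (0, 1)
        refine iff_of_false ?_ (fun h => absurd h.1 (by decide))
        intro h1
        have h1 := (hl 1 ⟨y⁻¹, H₂.inv_mem hy⟩).mp h1
        have h2 : (1 : Γ)⁻¹ * (e : Γ)⁻¹ * y⁻¹ ∈ C' := h1
        rw [inv_one, one_mul, ← mul_inv_rev, inv_mem_iff, hC'mem] at h2
        have h3 := h2.1.2
        rw [χm, hyχ, zero_add] at h3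
        exact hyl _ he₁ he₂ h3 h2.2
      · -- (0, 2)
        exact iff_of_false (fun h => Sum.inl_ne_inr h) (fun h => absurd h.1 (by decide))
      · -- (1, 0)
        refine iff_of_false ?_ (fun h => absurd h.1 (by decide))
        intro h1
        have h1 := (hl ⟨y⁻¹, H₂.inv_mem hy⟩ 1).mp h1
        have h2 : y⁻¹⁻¹ * (e : Γ)⁻¹ * 1 ∈ C' := h1
        rw [inv_inv, mul_one, hC'mem] at h2
        have h3 := h2.1.2
        rw [χm, hyχ, zero_add] at h3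
        exact hyl _ he₁' he₂' h3 h2.2
      · -- (1, 1)
        refine Iff.trans (hl ⟨y⁻¹, H₂.inv_mem hy⟩ ⟨y⁻¹, H₂.inv_mem hy⟩) ?_
        show y⁻¹⁻¹ * (e : Γ)⁻¹ * y⁻¹ ∈ C' ↔ _
        rw [inv_inv, hC'mem, hL₀mem]
        constructor
        · rintro ⟨⟨-, h3⟩, h2⟩
          have h4 : (e : Γ)⁻¹ ∈ G₀ := by
            have := hG₀ _ y⁻¹ h2
            rwa [show y⁻¹ * (y * (e : Γ)⁻¹ * y⁻¹) * y⁻¹⁻¹ = (e : Γ)⁻¹ by group] at this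
          rw [χm, χm, χi, χi, hyχ] at h3
          rw [hinv] at h4
          exact ⟨rfl, ⟨⟨he₁, he₂⟩, by omega⟩, h4⟩
        · rintro ⟨-, ⟨-, h3⟩, h2⟩
          have h4 : (e : Γ)⁻¹ ∈ G₀ := (hinv _).mpr h2
          refine ⟨⟨H₂.mul_mem (H₂.mul_mem hy he₂') (H₂.inv_mem hy), ?_⟩, hG₀ _ _ h4⟩
          rw [χm, χm, χi, χi, hyχ]
          omega
      · -- (1, 2)
        exact iff_of_false (fun h => Sum.inl_ne_inr h) (fun h => absurd h.1 (by decide))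
      · -- (2, 0)
        exact iff_of_false (fun h => Sum.inr_ne_inl h) (fun h => absurd h.1 (by decide))
      · -- (2, 1)
        exact iff_of_false (fun h => Sum.inr_ne_inl h) (fun h => absurd h.1 (by decide))
      · -- (2, 2)
        refine Iff.trans (hr 1 1) ?_
        rw [Subgroup.coe_one, inv_one, one_mul, mul_one, inv_mem_iff]
        exact ⟨fun h => ⟨rfl, h⟩, fun h => h.2⟩
    obtain ⟨Ω, ρ₁, ρ₂, j₁, j₂, hj₁, hj₂, hρ, hρ₁, hρ₂, hj⟩ := amalgamate i₁ i₂ hi₁ hi₂ p₁ p₂ (by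
      intro e e' d d'
      have e1 : i₁ e • p₁ d = i₁ e' • p₁ d' ↔ i₁ (e'⁻¹ * e) • p₁ d = p₁ d' := by
        rw [map_mul, mul_smul, map_inv, inv_smul_eq_iff]
      have e2 : i₂ e • p₂ d = i₂ e' • p₂ d' ↔ i₂ (e'⁻¹ * e) • p₂ d = p₂ d' := by
        rw [map_mul, mul_smul, map_inv, inv_smul_eq_iff]
      rw [e1, e2, crit1, crit2])
    obtain ⟨ρ, hρ1, hρ2⟩ := hUP Ω ρ₁ ρ₂ (fun e h₁ h₂ => hρ ⟨e, h₁, h₂⟩)
    let ω : Ω := j₁ (p₁ 0)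
    have hω : ω = j₂ (p₂ 0) := hj 0
    have hSω : ∀ g ∈ S, ρ g ω = ω := by
      have h1 : S ≤ (MulAction.stabilizer (Equiv.Perm Ω) ω).comap ρ := by
        refine sup_le (sup_le ?_ ?_) ?_
        · intro g hg
          show ρ g ω = ω
          have hg' := (hK₁mem g).mp hg
          rw [show ρ g = ρ₁ ⟨g, hg'.1.1⟩ from hρ1 ⟨g, hg'.1.1⟩, ← hρ₁]
          congr 1
          show (QuotientGroup.mk (⟨g, hg'.1.1⟩ * 1 : H₁) : Y₁) = QuotientGroup.mk 1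
          rw [QuotientGroup.eq, Subgroup.mem_subgroupOf]
          simpa using hg
        · intro g hg
          show ρ g ω = ω
          have hg' := (hC'mem g).mp hg
          rw [show ρ g = ρ₂ ⟨g, hg'.1.1⟩ from hρ2 ⟨g, hg'.1.1⟩, hω, ← hρ₂]
          congr 1
          show (Sum.inl (QuotientGroup.mk (⟨g, hg'.1.1⟩ * 1 : H₂)) : Y₂) =
            Sum.inl (QuotientGroup.mk 1)
          congr 1
          rw [QuotientGroup.eq, Subgroup.mem_subgroupOf]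
          simpa using hg
        · rw [Subgroup.zpowers_le]
          show ρ s ω = ω
          rw [hs, map_mul, Equiv.Perm.mul_apply]
          have h1 : ρ y⁻¹ ω = j₂ (p₂ 1) := by
            rw [show ρ y⁻¹ = ρ₂ ⟨y⁻¹, H₂.inv_mem hy⟩ from hρ2 ⟨y⁻¹, H₂.inv_mem hy⟩, hω, ← hρ₂]
            congr 1
            show (Sum.inl (QuotientGroup.mk (⟨y⁻¹, H₂.inv_mem hy⟩ * 1 : H₂)) : Y₂) =
              Sum.inl (QuotientGroup.mk ⟨y⁻¹, H₂.inv_mem hy⟩)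
            rw [mul_one]
          rw [h1, ← hj 1, show ρ x = ρ₁ ⟨x, hx⟩ from hρ1 ⟨x, hx⟩, ← hρ₁]
          show j₁ _ = j₁ _
          congr 1
          show (QuotientGroup.mk (⟨x, hx⟩ * ⟨x⁻¹, H₁.inv_mem hx⟩ : H₁) : Y₁) = QuotientGroup.mk 1
          congr 1
          exact Subtype.ext (mul_inv_cancel x)
      exact fun g hg => h1 hg
    intro hmem
    have h1 := hSω _ hmem
    rw [mul_assoc, map_mul, Equiv.Perm.mul_apply, map_mul, Equiv.Perm.mul_apply, map_inv,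
      Equiv.Perm.inv_eq_iff_eq] at h1
    have h2 : ρ h ω = j₂ (p₂ 2) := by
      rw [← hj 2, show ρ h = ρ₁ ⟨h, hh₁⟩ from hρ1 ⟨h, hh₁⟩, ← hρ₁]
      congr 1
      show (QuotientGroup.mk (⟨h, hh₁⟩ * 1 : H₁) : Y₁) = QuotientGroup.mk ⟨h, hh₁⟩
      rw [mul_one]
    rw [h2, show ρ c₀ = ρ₂ ⟨c₀, hc₂⟩ from hρ2 ⟨c₀, hc₂⟩, ← hρ₂] at h1
    have h3 := hj₂ h1
    have h4 : (Sum.inr (QuotientGroup.mk (⟨c₀, hc₂⟩ * 1 : H₂)) : Y₂) =
      Sum.inr (QuotientGroup.mk 1) := h3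
    have h5 := Sum.inr.inj h4
    rw [QuotientGroup.eq, Subgroup.mem_subgroupOf] at h5
    have h6 : c₀⁻¹ ∈ L₀ := by simpa using h5
    rw [inv_mem_iff, hL₀mem] at h6
    exact hc₁ h6.1.1.1
  exact part2 (by
    by_contra hnS
    obtain ⟨K, hKf, hSK, hnK⟩ := hΓ S hSfg _ hnS
    exact hnK (part1 K hKf hSK))

/-- **Homological rigidity.** -/
theorem rigid (hΓ : LERF Γ) (H₁ H₂ : Subgroup Γ) (χ : Γ → ℤ) (hχ : HomOn ⊤ χ) (t : Γ)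
    (ht₁ : t ∈ H₁) (ht₂ : t ∈ H₂) (htχ : χ t = 1)
    (hA : (kerOn H₁ χ (hχ.mono le_top)).FG) (hC : (kerOn H₂ χ (hχ.mono le_top)).FG)
    (hL : (kerOn (H₁ ⊓ H₂) χ (hχ.mono le_top)).FG)
    (hidx : ∀ K : Subgroup Γ, K.FiniteIndex → ∃ c ∈ H₂, χ c = 0 ∧ c ∈ K ∧ c ∉ H₁)
    (hUP : ∀ (Ω : Type) (ρ₁ : H₁ →* Equiv.Perm Ω) (ρ₂ : H₂ →* Equiv.Perm Ω),
      (∀ e (h₁ : e ∈ H₁) (h₂ : e ∈ H₂), ρ₁ ⟨e, h₁⟩ = ρ₂ ⟨e, h₂⟩) →
      ∃ ρ : Γ →* Equiv.Perm Ω, (∀ g : H₁, ρ g = ρ₁ g) ∧ ∀ g : H₂, ρ g = ρ₂ g)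
    (G₀ : Subgroup Γ) [G₀.Normal] [G₀.FiniteIndex] (β : Γ → ℤ) (hβ : HomOn (H₁ ⊓ G₀) β) (k : ℤ)
    (hk : 0 < k) (hT : t ^ k ∈ G₀) (x : Γ) (hx : x ∈ H₁) (hxχ : χ x = 0)
    (hβ1 : ∀ l, l ∈ H₁ → l ∈ H₂ → χ l = 0 → l ∈ G₀ → β l = 0)
    (hβ2 : ∀ l, l ∈ H₁ → l ∈ H₂ → χ l = 0 → l ∈ G₀ → β (x * l * x⁻¹) = 0) :
    β (t ^ k) = β (x * t ^ k * x⁻¹) := by
  classical
  obtain ⟨y, hy, hyχ, -, hy₁⟩ := hidx ⊤ inferInstance
  obtain ⟨G₁, hG₁, hLG₁, hyG₁⟩ := hΓ _ hL y (fun h => hy₁ h.1.1)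
  have hfi : (G₀ ⊓ G₁.normalCore).FiniteIndex := inferInstance
  have hno : (G₀ ⊓ G₁.normalCore).Normal := inferInstance
  obtain ⟨n, hn, hnT⟩ := exists_pow_mem (G₀ ⊓ G₁.normalCore) (t ^ k)
  rw [← zpow_mul] at hnT
  have h1 := rigid_aux hΓ H₁ H₂ χ hχ t ht₁ ht₂ htχ hA hC hidx hUP (G₀ ⊓ G₁.normalCore) β
    (hβ.mono (inf_le_inf_left _ inf_le_left)) (k * n) (mul_pos hk hn) hnT x hx hxχ
    (fun l h₁ h₂ h₃ h₄ => hβ1 l h₁ h₂ h₃ h₄.1) (fun l h₁ h₂ h₃ h₄ => hβ2 l h₁ h₂ h₃ h₄.1)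
    y hy hyχ (by
      intro l hl₁ hl₂ hlχ hyl
      apply hyG₁
      have h2 : y * l ∈ G₁ := G₁.normalCore_le hyl.2
      have h3 : l ∈ G₁ := hLG₁ ⟨⟨hl₁, hl₂⟩, hlχ⟩
      have := G₁.mul_mem h2 (G₁.inv_mem h3)
      rwa [mul_inv_cancel_right] at this)
  have hxTG : x * t ^ k * x⁻¹ ∈ G₀ := Subgroup.Normal.conj_mem inferInstance _ hT x
  rw [zpow_mul, hβ.zpow ⟨H₁.zpow_mem ht₁ _, hT⟩, ← conj_zpow, hβ.zpow
    ⟨H₁.mul_mem (H₁.mul_mem hx (H₁.zpow_mem ht₁ _)) (H₁.inv_mem hx), hxTG⟩] at h1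
  exact mul_left_cancel₀ hn.ne' h1

end

end Run7.h574
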