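import Pool.Agent.Run7.h574.Vfun
import Pool.Agent.H599R3.RF

/-!
# Counting the edges of a finite cover of a graph crossed by a word
-/

set_option autoImplicit false
set_option linter.unusedSectionVars false
set_option linter.dupNamespace false

namespace Run7.h574

open Pool.Agent.H599R3

section

variable {α Q : Type} [DecidableEq α] [Group Q] [DecidableEq Q] (π : FreeGroup α →* Q) (i : α)

/-- the wreath product recursion -/
def wr : FreeGroup α →* ((Q → Multiplicative ℤ) ⋊[sh Q (Multiplicative ℤ)] Q) :=
  FreeGroup.lift (fun j => ⟨fun q => if j = i ∧ q = 1 then Multiplicative.ofAdd 1 else 1,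
    π (FreeGroup.of j)⟩)

lemma wr_right (g : FreeGroup α) : (wr π i g).right = π g := by
  have : SemidirectProduct.rightHom.comp (wr π i) = π := by
    ext j
    simp [wr]
  exact DFunLike.congr_fun this g

/-- number of crossings of the `i`-edge over `q` -/
def cnt (g : FreeGroup α) (q : Q) : ℤ := Multiplicative.toAdd ((wr π i g).left q)

lemma cnt_mul (g h : FreeGroup α) (q : Q) :
    cnt π i (g * h) q = cnt π i g q + cnt π i h (q * π g) := by
  unfold cnt
  rw [map_mul, SemidirectProduct.mul_left, ← wr_right π i g]
  rfl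

lemma cnt_one (q : Q) : cnt π i 1 q = 0 := by
  unfold cnt
  rw [map_one]
  rfl

lemma cnt_inv (g : FreeGroup α) (q : Q) : cnt π i g⁻¹ (q * π g) = - cnt π i g q := by
  have h1 := cnt_mul π i g g⁻¹ q
  rw [mul_inv_cancel, cnt_one] at h1
  omega

lemma cnt_of (q : Q) : cnt π i (FreeGroup.of i) q = if q = 1 then 1 else 0 := by
  unfold cnt wr
  rw [FreeGroup.lift_apply_of]
  show Multiplicative.toAdd (if i = i ∧ q = 1 then Multiplicative.ofAdd (1 : ℤ) else 1) = _
  by_cases h : q = 1
  · rw [if_pos ⟨rfl, h⟩, if_pos h]; rfl
  · rw [if_neg (fun h' => h h'.2), if_neg h]; rfl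

lemma cnt_of' {j : α} (hj : j ≠ i) (q : Q) : cnt π i (FreeGroup.of j) q = 0 := by
  unfold cnt wr
  rw [FreeGroup.lift_apply_of]
  show Multiplicative.toAdd (if j = i ∧ q = 1 then Multiplicative.ofAdd (1 : ℤ) else 1) = _
  rw [if_neg (fun h => hj h.1)]
  rfl

/-- behaviour under conjugation -/
lemma cnt_conj {g : FreeGroup α} (hg : π g = 1) (v : FreeGroup α) (q : Q) :
    cnt π i (v * g * v⁻¹) q = cnt π i g (q * π v) := by
  rw [cnt_mul, cnt_mul, map_mul, hg, mul_one, cnt_inv]
  ring

lemma cnt_ker {g h : FreeGroup α} (hg : π g = 1) (q : Q) :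
    cnt π i (g * h) q = cnt π i g q + cnt π i h q := by
  rw [cnt_mul, hg, mul_one]

/-- exponent sum -/
def expo : FreeGroup α →* Multiplicative ℤ :=
  FreeGroup.lift (fun j => if j = i then Multiplicative.ofAdd 1 else 1)

lemma sum_cnt [Fintype Q] (g : FreeGroup α) : ∑ q, cnt π i g q = Multiplicative.toAdd (expo i g) := by
  have key : ∀ g h, ∑ q, cnt π i (g * h) q = ∑ q, cnt π i g q + ∑ q, cnt π i h q := by
    intro g h
    simp only [cnt_mul]
    rw [Finset.sum_add_distrib]
    congr 1
    exact Fintype.sum_equiv (Equiv.mulRight (π g)) _ _ (fun q => rfl)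
  let s : FreeGroup α →* Multiplicative ℤ :=
    { toFun := fun g => Multiplicative.ofAdd (∑ q, cnt π i g q)
      map_one' := by simp [cnt_one]
      map_mul' := by
        intro g h
        rw [key]
        rfl }
  have : s = expo i := by
    ext j
    show ∑ q, cnt π i (FreeGroup.of j) q = Multiplicative.toAdd (expo i (FreeGroup.of j))
    unfold expo
    rw [FreeGroup.lift_apply_of]
    by_cases hj : j = i
    · subst hj
      simp [cnt_of]
    · simp [cnt_of' π i hj, hj]
  have h1 := DFunLike.congr_fun this g
  rw [← h1]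
  rfl

/-- the support of the count is bounded by the length of the word -/
lemma supp_cnt [Fintype Q] (L : List (α × Bool)) :
    (Finset.univ.filter (fun q => cnt π i (FreeGroup.mk L) q ≠ 0)).card ≤ L.length := by
  classical
  induction L with
  | nil =>
    have h1 : (FreeGroup.mk ([] : List (α × Bool))) = 1 := rfl
    rw [h1]
    simp [cnt_one]
  | cons c L ih =>
    have h1 : FreeGroup.mk (c :: L) = FreeGroup.mk [c] * FreeGroup.mk L := by
      rw [FreeGroup.mul_mk]; rfl
    have h2 : (Finset.univ.filter (fun q => cnt π i (FreeGroup.mk [c]) q ≠ 0)).card ≤ 1 := by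
      obtain ⟨a, b⟩ := c
      cases b with
      | true =>
        have e : (FreeGroup.mk [(a, true)] : FreeGroup α) = FreeGroup.of a := rfl
        rw [e]
        by_cases ha : a = i
        · subst ha
          rw [Finset.card_le_one]
          intro x hx y hy
          rw [Finset.mem_filter, cnt_of] at hx hy
          have hx1 : x = 1 := by
            by_contra h; exact hx.2 (if_neg h)
          have hy1 : y = 1 := by
            by_contra h; exact hy.2 (if_neg h)
          rw [hx1, hy1]
        · simp [cnt_of' π i ha]
      | false =>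
        have e : (FreeGroup.mk [(a, false)] : FreeGroup α) = (FreeGroup.of a)⁻¹ := by
          rw [FreeGroup.of, FreeGroup.inv_mk]; rfl
        rw [e]
        have e2 : ∀ q, cnt π i (FreeGroup.of a)⁻¹ q =
            - cnt π i (FreeGroup.of a) (q * (π (FreeGroup.of a))⁻¹) := by
          intro q
          have := cnt_inv π i (FreeGroup.of a) (q * (π (FreeGroup.of a))⁻¹)
          rwa [inv_mul_cancel_right] at this
        by_cases ha : a = i
        · subst ha
          rw [Finset.card_le_one]
          intro x hx y hy
          rw [Finset.mem_filter, e2, cnt_of] at hx hy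
          have hx1 : x * (π (FreeGroup.of a))⁻¹ = 1 := by
            by_contra h; exact hx.2 (by rw [if_neg h, neg_zero])
          have hy1 : y * (π (FreeGroup.of a))⁻¹ = 1 := by
            by_contra h; exact hy.2 (by rw [if_neg h, neg_zero])
          exact mul_right_cancel (hx1.trans hy1.symm)
        · simp [e2, cnt_of' π i ha]
    have h3 : (Finset.univ.filter (fun q => cnt π i (FreeGroup.mk (c :: L)) q ≠ 0)) ⊆
        (Finset.univ.filter (fun q => cnt π i (FreeGroup.mk [c]) q ≠ 0)) ∪
        (Finset.univ.filter (fun q => cnt π i (FreeGroup.mk L) q ≠ 0)).image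
          (fun q => q * (π (FreeGroup.mk [c]))⁻¹) := by
      intro q hq
      rw [Finset.mem_filter, h1, cnt_mul] at hq
      rw [Finset.mem_union, Finset.mem_filter, Finset.mem_image]
      by_cases h : cnt π i (FreeGroup.mk [c]) q = 0
      · right
        rw [h, zero_add] at hq
        exact ⟨_, Finset.mem_filter.mpr ⟨Finset.mem_univ _, hq.2⟩, mul_inv_cancel_right _ _⟩
      · exact Or.inl ⟨Finset.mem_univ _, h⟩
    calc _ ≤ _ := Finset.card_le_card h3
      _ ≤ _ := Finset.card_union_le _ _
      _ ≤ 1 + L.length := add_le_add h2 (Finset.card_image_le.trans ih)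
      _ = (c :: L).length := by rw [List.length_cons, add_comm]

end

end Run7.h574
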