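import Pool.Agent.Run7.h574.PingPong
import Pool.Agent.Run7.h574.FreeAlg

/-!
# Amalgams of stabilizers of two vertices of a tree
-/

set_option autoImplicit false
set_option linter.unusedSectionVars false
set_option linter.dupNamespace false

namespace Run7.h574

section tree

variable {V : Type} {T : SimpleGraph V} (hT : T.IsTree)

include hT in
/-- a neighbour one step closer -/
lemma exists_closer {v x : V} (h : v ≠ x) : ∃ r, T.Adj x r ∧ T.dist v x = T.dist v r + 1 := by
  obtain ⟨q, hq⟩ := hT.connected.exists_walk_length_eq_dist x v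
  cases q with
  | nil => exact absurd rfl h
  | cons hadj q' =>
    rename_i r
    refine ⟨r, hadj, ?_⟩
    have h1 : T.dist r v ≤ q'.length := SimpleGraph.dist_le q'
    rw [SimpleGraph.Walk.length_cons] at hq
    have h2 := hT.dist_eq_dist_add_one_of_adj v hadj
    rw [SimpleGraph.dist_comm (u := r)] at h1
    rw [SimpleGraph.dist_comm (u := x)] at hq
    omega

include hT in
/-- vertices of a geodesic at the same distance from the origin are equal -/
lemma geod_unique (z v : V) : ∀ k : ℕ, ∀ q q' : V, T.dist v q = k → T.dist v q' = k →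
    T.dist v z = T.dist v q + T.dist q z → T.dist v z = T.dist v q' + T.dist q' z → q = q' := by
  intro k
  induction k with
  | zero =>
    intro q q' h1 h2 _ _
    have h3 := (hT.connected.dist_eq_zero_iff).mp h1
    have h4 := (hT.connected.dist_eq_zero_iff).mp h2
    rw [← h3, h4]
  | succ k ih =>
    intro q q' h1 h2 h3 h4
    have key : ∀ q, T.dist v q = k + 1 → T.dist v z = T.dist v q + T.dist q z →
        ∃ r, T.Adj q r ∧ T.dist v r = k ∧ T.dist v z = T.dist v r + T.dist r z ∧
          T.dist r z = T.dist q z + 1 := by
      intro q h1 h3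
      obtain ⟨r, hr, hr'⟩ := exists_closer hT (v := v) (x := q) (by
        rintro rfl
        rw [SimpleGraph.dist_self] at h1
        omega)
      have h5 := hT.connected.dist_triangle (u := v) (v := r) (w := z)
      have h6 := hT.connected.dist_triangle (u := r) (v := q) (w := z)
      rw [SimpleGraph.dist_eq_one_iff_adj.mpr hr.symm] at h6
      exact ⟨r, hr, by omega, by omega, by omega⟩
    obtain ⟨r, hr1, hr2, hr3, hr4⟩ := key q h1 h3
    obtain ⟨r', hr1', hr2', hr3', hr4'⟩ := key q' h2 h4
    have e := ih r r' hr2 hr2' hr3 hr3'
    subst e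
    apply near_unique hT hr1.symm hr1'.symm (y := z)
    · rw [SimpleGraph.dist_comm (u := z), SimpleGraph.dist_comm (u := z)]; omega
    · rw [SimpleGraph.dist_comm (u := z), SimpleGraph.dist_comm (u := z)]; omega

include hT in
/-- the two sides of an edge -/
lemma through_edge {p q : V} (hpq : T.Adj p q) {y : V} (hy : T.dist y q < T.dist y p) :
    ∀ k : ℕ, ∀ v : V, T.dist v p = k → T.dist v p < T.dist v q →
      T.dist v y = T.dist v p + 1 + T.dist q y := by
  intro k
  induction k using Nat.strong_induction_on with
  | _ k ih =>
    intro v hk hv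
    rcases Nat.eq_zero_or_pos k with h0 | h0
    · have h1 : v = p := (hT.connected.dist_eq_zero_iff).mp (by omega)
      subst h1
      have h2 := hT.dist_eq_dist_add_one_of_adj y hpq
      rw [SimpleGraph.dist_self, SimpleGraph.dist_comm (u := v), SimpleGraph.dist_comm (u := q)]
      omega
    · obtain ⟨v', hv1, hv2⟩ := exists_closer hT (v := p) (x := v) (by
        rintro rfl
        rw [SimpleGraph.dist_self] at hk
        omega)
      rw [SimpleGraph.dist_comm (u := p), SimpleGraph.dist_comm (u := p)] at hv2
      have h1 := hT.dist_eq_dist_add_one_of_adj v hpq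
      have h2 := hT.dist_eq_dist_add_one_of_adj v' hpq
      have h3 := hT.dist_eq_dist_add_one_of_adj q hv1
      rw [SimpleGraph.dist_comm (u := q), SimpleGraph.dist_comm (u := q)] at h3
      have hv' : T.dist v' p < T.dist v' q := by omega
      have h4 := ih (T.dist v' p) (by omega) v' rfl hv'
      have h5 := hT.dist_eq_dist_add_one_of_adj y hv1
      rw [SimpleGraph.dist_comm (u := y), SimpleGraph.dist_comm (u := y)] at h5
      rcases h5 with h5 | h5
      · omega
      · exfalso
        -- v is the neighbour of v' closer to y
        by_cases hk1 : T.dist v' p = 0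
        · have h6 : v' = p := (hT.connected.dist_eq_zero_iff).mp hk1
          subst h6
          have h7 : v = q := near_unique hT hv1.symm hpq (y := y) (by
            rw [SimpleGraph.dist_comm (u := y), SimpleGraph.dist_comm (u := y)]; omega) hy
          subst h7
          rw [SimpleGraph.dist_self] at hv
          omega
        · obtain ⟨v'', hw1, hw2⟩ := exists_closer hT (v := p) (x := v') (by
            rintro rfl
            rw [SimpleGraph.dist_self] at hk1
            omega)
          rw [SimpleGraph.dist_comm (u := p), SimpleGraph.dist_comm (u := p)] at hw2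
          have h6 := hT.dist_eq_dist_add_one_of_adj v'' hpq
          have h7 := hT.dist_eq_dist_add_one_of_adj q hw1
          rw [SimpleGraph.dist_comm (u := q), SimpleGraph.dist_comm (u := q)] at h7
          have h8 := ih (T.dist v'' p) (by omega) v'' rfl (by omega)
          have h9 : v = v'' := near_unique hT hv1.symm hw1 (y := y) (by
            rw [SimpleGraph.dist_comm (u := y), SimpleGraph.dist_comm (u := y)]; omega) (by
            rw [SimpleGraph.dist_comm (u := y), SimpleGraph.dist_comm (u := y)]; omega)
          subst h9
          omega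

variable {F : Type} [Group F] [MulAction F V]
  (hact : ∀ (g : F) (x y : V), T.Adj x y → T.Adj (g • x) (g • y))

include hT hact in
lemma swap_side {p q v : V} (hpq : T.Adj p q) (hv : T.dist v p < T.dist v q) {a : F}
    (hav : a • v = v) (haq : a • q ≠ q) {y : V} (hy : T.dist y q < T.dist y p) :
    T.dist (a • y) p < T.dist (a • y) q := by
  rcases hT.dist_eq_dist_add_one_of_adj (a • y) hpq with h | h
  · exfalso
    apply haq
    have h1 := through_edge hT hpq hy _ v rfl hv
    have h2 := through_edge hT hpq (y := a • y) (by omega) _ v rfl hv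
    have e1 : ∀ x, T.dist v (a • x) = T.dist v x := by
      intro x
      have := dist_smul hact hT a v x
      rwa [hav] at this
    have e2 := dist_smul hact hT a q y
    have h3 := hT.dist_eq_dist_add_one_of_adj v hpq
    have h4 := e1 y
    have h5 := e1 q
    exact geod_unique hT (a • y) v _ (a • q) q h5 rfl (by omega) (by omega)
  · omega

include hT hact in
/-- if an edge separates two vertices and the part of the stabilizer of each of them which fixes
the far end of the edge is in the stabilizer of the other one then the two stabilizers generate their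
amalgam -/
theorem amalgam_of_edge {v x p q : V} (hpq : T.Adj p q) (hv : T.dist v p < T.dist v q)
    (hx : T.dist x q < T.dist x p)
    (h1 : ∀ a : F, a • v = v → a • q = q → a • x = x)
    (h2 : ∀ a : F, a • x = x → a • p = p → a • v = v) :
    IsAmalgam (MulAction.stabilizer F v) (MulAction.stabilizer F x) := by
  apply amalgam_of_pingpong (X := V) _ _ {y | T.dist y p < T.dist y q} {y | T.dist y q < T.dist y p}
    v x
  · intro a ha hac y hy
    exact swap_side hT hact hpq hv ha (fun h => hac (h1 a ha h)) hy
  · intro a ha hac y hy
    exact swap_side hT hact hpq.symm hx ha (fun h => hac (h2 a ha h)) hy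
  · intro a ha; exact ha
  · intro a ha; exact ha
  · exact hv
  · exact hx
  · rw [Set.disjoint_left]
    intro y h1 h2
    rw [Set.mem_ofPred_eq] at h1 h2
    omega

include hT hact in
/-- an element fixing two vertices fixes the neighbour of the first one on the way to the second
one -/
lemma fix_closer {v x r : V} (hr : T.Adj x r) (hr' : T.dist v r < T.dist v x) {a : F}
    (hav : a • v = v) (hax : a • x = x) : a • r = r := by
  have h1 : T.Adj x (a • r) := by
    have := hact a x r hr
    rwa [hax] at this
  have h2 : T.dist v (a • r) = T.dist v r := by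
    have := dist_smul hact hT a v r
    rwa [hav] at this
  exact near_unique hT h1 hr (by rw [h2]; exact hr') hr'

end tree

/-! ### cyclic subgroups of free groups -/

open Pool.Agent.Helper180.FreeMetric

section

variable {α : Type}

lemma cyclic_of_comm (A : Subgroup (FreeGroup α)) (h : ∀ x ∈ A, ∀ y ∈ A, x * y = y * x) :
    IsCyclic A := by
  by_cases h1 : ∃ a ∈ A, a ≠ 1
  · obtain ⟨a, ha, ha1⟩ := h1
    obtain ⟨r, -, hr⟩ := centralizer_cyclic a ha1
    have hle : A ≤ Subgroup.zpowers r := by
      intro x hx
      obtain ⟨k, hk⟩ := hr x (h x hx a ha)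
      exact ⟨k, hk.symm⟩
    exact isCyclic_of_injective (Subgroup.inclusion hle) (Subgroup.inclusion_injective hle)
  · push Not at h1
    have : A = ⊥ := by
      rw [Subgroup.eq_bot_iff_forall]
      exact h1
    rw [this]
    infer_instance

lemma cyclic_of_fi {L A : Subgroup (FreeGroup α)} (hL : IsCyclic L) (h : L.relIndex A ≠ 0) :
    IsCyclic A := by
  apply cyclic_of_comm
  obtain ⟨r, hr⟩ := (Subgroup.isCyclic_iff_exists_zpowers_eq_top L).mp hL
  have hpow : ∀ x ∈ A, ∃ n : ℤ, n ≠ 0 ∧ x ^ n ∈ L := by
    intro x hx
    have hfi : (L.subgroupOf A).FiniteIndex := ⟨h⟩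
    obtain ⟨n, hn, hn'⟩ := exists_pow_mem (L.subgroupOf A) ⟨x, hx⟩
    exact ⟨n, hn.ne', hn'⟩
  intro x hx y hy
  obtain ⟨n, hn, hxn⟩ := hpow x hx
  obtain ⟨m, hm, hym⟩ := hpow y hy
  rw [← hr] at hxn hym
  obtain ⟨i, hi⟩ := hxn
  obtain ⟨j, hj⟩ := hym
  have hi' : r ^ i = x ^ n := hi
  have hj' : r ^ j = y ^ m := hj
  have h1 : x ^ n * y ^ m = y ^ m * x ^ n := by
    rw [← hi', ← hj', ← zpow_add, ← zpow_add, add_comm]
  have h2 : x * y ^ m = y ^ m * x := comm_of_zpow hn h1
  exact (comm_of_zpow hm h2.symm).symm

lemma relIndex_of_not_cyclic {L A : Subgroup (FreeGroup α)} (hL : IsCyclic L) (hA : ¬ IsCyclic A) :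
    L.relIndex A = 0 := by
  by_contra h
  exact hA (cyclic_of_fi hL h)

lemma cyclic_le {L A : Subgroup (FreeGroup α)} (hA : IsCyclic A) (h : L ≤ A) : IsCyclic L :=
  isCyclic_of_injective (Subgroup.inclusion h) (Subgroup.inclusion_injective h)

end

end Run7.h574
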