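import Pool.Agent.Run7.h574.RankTwoF
import Pool.Agent.Run7.h574.TreeLemmas

/-!
# The mapping torus of a Dehn twist of a free group of rank two is not LERF
-/

set_option autoImplicit false
set_option linter.unusedSectionVars false
set_option linter.dupNamespace false

namespace Run7.h574

open FreeGroup (of)

section

variable {P : Type} [Group P] {ψ : MulAut P} {H : Type} [Group H] (f : P →* H) (s : H)

lemma conj_iter (hs : ∀ x, s * f x * s⁻¹ = f (ψ x)) (n : ℤ) : ∀ x,
    s ^ n * f x * (s ^ n)⁻¹ = f ((ψ ^ n) x) := by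
  have hinv : ∀ x, s⁻¹ * f x * s = f (ψ⁻¹ x) := by
    intro x
    have h1 := hs (ψ⁻¹ x)
    rw [show ψ (ψ⁻¹ x) = x from MulAut.apply_inv_self _ ψ x] at h1
    rw [← h1]
    group
  induction n using Int.induction_on with
  | zero => intro x; simp
  | succ k ih =>
    intro x
    rw [zpow_add_one, zpow_add_one, MulAut.mul_apply, ← ih, ← hs]
    group
  | pred k ih =>
    intro x
    rw [zpow_sub_one, zpow_sub_one, MulAut.mul_apply, ← ih, ← hinv]
    group

/-- homomorphisms from mapping tori -/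
def mtmap (hs : ∀ x, s * f x * s⁻¹ = f (ψ x)) : MT ψ →* H :=
  SemidirectProduct.lift f (zpowersHom H s) (by
    intro n
    ext1 x
    exact (conj_iter f s hs (Multiplicative.toAdd n) x).symm)

lemma mtmap_apply (hs : ∀ x, s * f x * s⁻¹ = f (ψ x)) (g : MT ψ) :
    mtmap f s hs g = f g.left * s ^ (chi ψ g) := rfl

lemma mtmap_inl (hs : ∀ x, s * f x * s⁻¹ = f (ψ x)) (x : P) :
    mtmap f s hs (SemidirectProduct.inl x) = f x := by
  rw [mtmap_apply, chi_inl, zpow_zero, mul_one]
  rfl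

lemma mtmap_tt (hs : ∀ x, s * f x * s⁻¹ = f (ψ x)) : mtmap f s hs (tt ψ) = s := by
  rw [mtmap_apply, chi_tt, zpow_one]
  show f 1 * s = s
  rw [map_one, one_mul]

lemma mtmap_inj {Q : Type} [Group Q] {φ' : MulAut Q} (f : P →* MT φ') (s : MT φ')
    (hs : ∀ x, s * f x * s⁻¹ = f (ψ x)) (hf : Function.Injective f) (hf0 : ∀ x, chi φ' (f x) = 0)
    (hs0 : chi φ' s ≠ 0) : Function.Injective (mtmap f s hs) := by
  rw [injective_iff_map_eq_one]
  intro g hg
  rw [mtmap_apply] at hg
  have h1 : chi φ' (f g.left * s ^ (chi ψ g)) = 0 := by rw [hg]; rfl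
  have hm : ∀ a b : MT φ', chi φ' (a * b) = chi φ' a + chi φ' b := fun a b => rfl
  have hz : chi φ' (s ^ (chi ψ g)) = chi ψ g * chi φ' s := (chi_hom φ').zpow trivial _
  rw [hm, hz, hf0, zero_add] at h1
  have h2 : chi ψ g = 0 := (mul_eq_zero.mp h1).resolve_right hs0
  rw [h2, zpow_zero, mul_one] at hg
  have h3 : g.left = 1 := hf (hg.trans (map_one f).symm)
  rw [inl_of_chi ψ h2, h3, map_one]

end

/-- the free group of rank four -/
abbrev F4 : Type := FreeGroup (Fin 4)

/-- partial conjugations -/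
def thf (m k : ℤ) : F4 →* F4 :=
  FreeGroup.lift ![(of 1) ^ (-m) * of 0 * (of 1) ^ m, of 1, of 2, (of 2) ^ k * of 3 * (of 2) ^ (-k)]

lemma thf0 (m k : ℤ) : thf m k (of 0) = (of 1) ^ (-m) * of 0 * (of 1) ^ m := by
  unfold thf; rw [FreeGroup.lift_apply_of]; rfl
lemma thf1 (m k : ℤ) : thf m k (of 1) = of 1 := by
  unfold thf; rw [FreeGroup.lift_apply_of]; rfl
lemma thf2 (m k : ℤ) : thf m k (of 2) = of 2 := by
  unfold thf; rw [FreeGroup.lift_apply_of]; rfl
lemma thf3 (m k : ℤ) : thf m k (of 3) = (of 2) ^ k * of 3 * (of 2) ^ (-k) := by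
  unfold thf; rw [FreeGroup.lift_apply_of]; rfl

lemma hom4_ext {M : Type} [Group M] {f g : F4 →* M} (h0 : f (of 0) = g (of 0))
    (h1 : f (of 1) = g (of 1)) (h2 : f (of 2) = g (of 2)) (h3 : f (of 3) = g (of 3)) : f = g := by
  apply FreeGroup.ext_hom
  intro j
  fin_cases j
  · exact h0
  · exact h1
  · exact h2
  · exact h3

lemma thf_inv (m k : ℤ) : (thf (-m) (-k)).comp (thf m k) = MonoidHom.id _ := by
  apply hom4_ext
  · show thf (-m) (-k) (thf m k (of 0)) = of 0
    rw [thf0, map_mul, map_mul, map_zpow, map_zpow, thf0, thf1]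
    group
  · show thf (-m) (-k) (thf m k (of 1)) = of 1
    rw [thf1, thf1]
  · show thf (-m) (-k) (thf m k (of 2)) = of 2
    rw [thf2, thf2]
  · show thf (-m) (-k) (thf m k (of 3)) = of 3
    rw [thf3, map_mul, map_mul, map_zpow, map_zpow, thf3, thf2]
    group

/-- the automorphism -/
def th (m k : ℤ) : MulAut F4 :=
  MonoidHom.toMulEquiv (thf m k) (thf (-m) (-k)) (thf_inv m k) (by
    have := thf_inv (-m) (-k)
    rwa [neg_neg, neg_neg] at this)

lemma th_apply (m k : ℤ) (x : F4) : th m k x = thf m k x := rfl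

/-- first subgroup -/
def SA : Subgroup F4 := Subgroup.closure {of 0, of 1, of 2}
/-- second subgroup -/
def SC : Subgroup F4 := Subgroup.closure {of 2, of 3}

lemma sa0 : of 0 ∈ SA := Subgroup.subset_closure (Or.inl rfl)
lemma sa1 : of 1 ∈ SA := Subgroup.subset_closure (Or.inr (Or.inl rfl))
lemma sa2 : of 2 ∈ SA := Subgroup.subset_closure (Or.inr (Or.inr rfl))
lemma sc2 : of 2 ∈ SC := Subgroup.subset_closure (Or.inl rfl)
lemma sc3 : of 3 ∈ SC := Subgroup.subset_closure (Or.inr rfl)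

lemma thf_sa (m k : ℤ) : ∀ x ∈ SA, thf m k x ∈ SA := by
  have h : SA ≤ SA.comap (thf m k) := by
    conv_lhs => unfold SA
    rw [Subgroup.closure_le]
    rintro x (rfl | rfl | rfl)
    · show thf m k (of 0) ∈ SA
      rw [thf0]
      exact SA.mul_mem (SA.mul_mem (SA.zpow_mem sa1 _) sa0) (SA.zpow_mem sa1 _)
    · show thf m k (of 1) ∈ SA
      rw [thf1]; exact sa1
    · show thf m k (of 2) ∈ SA
      rw [thf2]; exact sa2
  exact fun x hx => h hx

lemma thf_sc (m k : ℤ) : ∀ x ∈ SC, thf m k x ∈ SC := by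
  have h : SC ≤ SC.comap (thf m k) := by
    conv_lhs => unfold SC
    rw [Subgroup.closure_le]
    rintro x (rfl | rfl)
    · show thf m k (of 2) ∈ SC
      rw [thf2]; exact sc2
    · show thf m k (of 3) ∈ SC
      rw [thf3]
      exact SC.mul_mem (SC.mul_mem (SC.zpow_mem sc2 _) sc3) (SC.zpow_mem sc2 _)
  exact fun x hx => h hx

lemma th_sa (m k : ℤ) (x : F4) : th m k x ∈ SA ↔ x ∈ SA := by
  constructor
  · intro h
    have h1 := thf_sa (-m) (-k) _ h
    have h2 : thf (-m) (-k) (thf m k x) = x := DFunLike.congr_fun (thf_inv m k) x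
    rw [th_apply, h2] at h1
    exact h1
  · exact thf_sa m k x

lemma th_sc (m k : ℤ) (x : F4) : th m k x ∈ SC ↔ x ∈ SC := by
  constructor
  · intro h
    have h1 := thf_sc (-m) (-k) _ h
    have h2 : thf (-m) (-k) (thf m k x) = x := DFunLike.congr_fun (thf_inv m k) x
    rw [th_apply, h2] at h1
    exact h1
  · exact thf_sc m k x

lemma up_sa_sc : UP SA SC := by
  intro Ω f₁ f₂ h
  let f : F4 →* Equiv.Perm Ω :=
    FreeGroup.lift ![f₁ ⟨of 0, sa0⟩, f₁ ⟨of 1, sa1⟩, f₁ ⟨of 2, sa2⟩, f₂ ⟨of 3, sc3⟩]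
  have f0 : f (of 0) = f₁ ⟨of 0, sa0⟩ := by simp only [f]; rw [FreeGroup.lift_apply_of]; rfl
  have f1 : f (of 1) = f₁ ⟨of 1, sa1⟩ := by simp only [f]; rw [FreeGroup.lift_apply_of]; rfl
  have f2 : f (of 2) = f₁ ⟨of 2, sa2⟩ := by simp only [f]; rw [FreeGroup.lift_apply_of]; rfl
  have f3 : f (of 3) = f₂ ⟨of 3, sc3⟩ := by simp only [f]; rw [FreeGroup.lift_apply_of]; rfl
  refine ⟨f, ?_, ?_⟩
  · rintro ⟨x, hx⟩
    show f x = f₁ ⟨x, hx⟩
    have hx2 : x ∈ Subgroup.closure ({of 0, of 1, of 2} : Set F4) := hx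
    induction hx2 using Subgroup.closure_induction with
    | mem y hy =>
      rcases hy with rfl | rfl | rfl
      · exact f0
      · exact f1
      · exact f2
    | one => rw [map_one]; exact (map_one f₁).symm
    | mul y z hy hz ihy ihz =>
      rw [map_mul, ihy hy, ihz hz]
      exact (map_mul f₁ ⟨y, hy⟩ ⟨z, hz⟩).symm
    | inv y hy ihy =>
      rw [map_inv, ihy hy]
      exact (map_inv f₁ ⟨y, hy⟩).symm
  · rintro ⟨x, hx⟩
    show f x = f₂ ⟨x, hx⟩
    have hx2 : x ∈ Subgroup.closure ({of 2, of 3} : Set F4) := hx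
    induction hx2 using Subgroup.closure_induction with
    | mem y hy =>
      rcases hy with rfl | rfl
      · rw [f2]
        exact h _ sa2 sc2
      · exact f3
    | one => rw [map_one]; exact (map_one f₂).symm
    | mul y z hy hz ihy ihz =>
      rw [map_mul, ihy hy, ihz hz]
      exact (map_mul f₂ ⟨y, hy⟩ ⟨z, hz⟩).symm
    | inv y hy ihy =>
      rw [map_inv, ihy hy]
      exact (map_inv f₂ ⟨y, hy⟩).symm

lemma sa_sup_sc : SA ⊔ SC = ⊤ := by
  rw [eq_top_iff, ← FreeGroup.closure_range_of, Subgroup.closure_le]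
  rintro _ ⟨i, rfl⟩
  fin_cases i
  · exact Subgroup.mem_sup_left sa0
  · exact Subgroup.mem_sup_left sa1
  · exact Subgroup.mem_sup_left sa2
  · exact Subgroup.mem_sup_right sc3

lemma sa_inf_sc : SA ⊓ SC = Subgroup.zpowers (of 2) := by
  apply le_antisymm
  · rintro x ⟨hA, hC⟩
    let r : F4 →* F4 := FreeGroup.lift ![of 0, of 1, of 2, 1]
    have r0 : r (of 0) = of 0 := by simp only [r]; rw [FreeGroup.lift_apply_of]; rfl
    have r1 : r (of 1) = of 1 := by simp only [r]; rw [FreeGroup.lift_apply_of]; rfl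
    have r2 : r (of 2) = of 2 := by simp only [r]; rw [FreeGroup.lift_apply_of]; rfl
    have r3 : r (of 3) = 1 := by simp only [r]; rw [FreeGroup.lift_apply_of]; rfl
    have h1 : SA ≤ MonoidHom.eqLocus r (MonoidHom.id _) := by
      unfold SA
      rw [Subgroup.closure_le]
      rintro y (rfl | rfl | rfl)
      · exact r0
      · exact r1
      · exact r2
    have h2 : SC ≤ (Subgroup.zpowers (of 2)).comap r := by
      unfold SC
      rw [Subgroup.closure_le]
      rintro y (rfl | rfl)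
      · show r (of 2) ∈ Subgroup.zpowers (of 2)
        rw [r2]; exact Subgroup.mem_zpowers _
      · show r (of 3) ∈ Subgroup.zpowers (of 2)
        rw [r3]; exact Subgroup.one_mem _
    have h3 : r x = x := h1 hA
    have h4 : r x ∈ Subgroup.zpowers (of 2) := h2 hC
    rwa [h3] at h4
  · rw [Subgroup.zpowers_le]
    exact ⟨sa2, sc2⟩

lemma not_comm23 : (of 2 : F4) * of 3 ≠ of 3 * of 2 := by decide

lemma sc_not_cyclic : ¬ IsCyclic SC := by
  intro h
  obtain ⟨r, hr⟩ := (Subgroup.isCyclic_iff_exists_zpowers_eq_top SC).mp h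
  have h2 := sc2
  have h3 := sc3
  rw [← hr] at h2 h3
  obtain ⟨i, hi⟩ := h2
  obtain ⟨j, hj⟩ := h3
  have hi' : r ^ i = of 2 := hi
  have hj' : r ^ j = of 3 := hj
  apply not_comm23
  rw [← hi', ← hj', ← zpow_add, ← zpow_add, add_comm]

instance : DecidableEq (Multiplicative (ZMod 2)) := inferInstanceAs (DecidableEq (ZMod 2))

/-- the mapping torus of the partial conjugation is not LERF -/
theorem not_lerf_th {m k : ℤ} (hm : m ≠ 0) : ¬ LERF (MT (th m k)) := by
  intro hG
  -- a retraction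
  let κ : F4 →* F2 := FreeGroup.lift ![of 0, of 1, 1, 1]
  have k0 : κ (of 0) = of 0 := by simp only [κ]; rw [FreeGroup.lift_apply_of]; rfl
  have k1 : κ (of 1) = of 1 := by simp only [κ]; rw [FreeGroup.lift_apply_of]; rfl
  have k2 : κ (of 2) = 1 := by simp only [κ]; rw [FreeGroup.lift_apply_of]; rfl
  have k3 : κ (of 3) = 1 := by simp only [κ]; rw [FreeGroup.lift_apply_of]; rfl
  have hκ : ∀ x, ((of 1 : F2) ^ (-m)) * κ x * ((of 1 : F2) ^ (-m))⁻¹ = κ (th m k x) := by
    have h1 : ((MulAut.conj ((of 1 : F2) ^ (-m))).toMonoidHom).comp κ = κ.comp (thf m k) := by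
      apply hom4_ext
      · show (of 1 : F2) ^ (-m) * κ (of 0) * ((of 1 : F2) ^ (-m))⁻¹ = κ (thf m k (of 0))
        rw [thf0, map_mul, map_mul, map_zpow, map_zpow, k0, k1]
        group
      · show (of 1 : F2) ^ (-m) * κ (of 1) * ((of 1 : F2) ^ (-m))⁻¹ = κ (thf m k (of 1))
        rw [thf1, k1]
        group
      · show (of 1 : F2) ^ (-m) * κ (of 2) * ((of 1 : F2) ^ (-m))⁻¹ = κ (thf m k (of 2))
        rw [thf2, k2]
        group
      · show (of 1 : F2) ^ (-m) * κ (of 3) * ((of 1 : F2) ^ (-m))⁻¹ = κ (thf m k (of 3))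
        rw [thf3, map_mul, map_mul, map_zpow, map_zpow, k3, k2]
        group
    exact fun x => DFunLike.congr_fun h1 x
  let R : MT (th m k) →* F2 := mtmap κ ((of 1 : F2) ^ (-m)) hκ
  -- the virtual homomorphism of the free group of rank two
  let π : F2 →* Multiplicative (ZMod 2) := FreeGroup.lift ![Multiplicative.ofAdd 1, 1]
  have p0 : π (of 0) = Multiplicative.ofAdd 1 := by
    simp only [π]; rw [FreeGroup.lift_apply_of]; rfl
  have p1 : π (of 1) = 1 := by
    simp only [π]; rw [FreeGroup.lift_apply_of]; rfl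
  have hfin : Finite (Multiplicative (ZMod 2)) := inferInstanceAs (Finite (ZMod 2))
  have hK : π.ker.FiniteIndex := inferInstance
  have hhom : ∀ q, HomOn π.ker (fun x => cnt π 1 x q) := fun q a ha b _ => cnt_ker π 1 ha q
  obtain ⟨F, hF, hF'⟩ := exists_vf hK (hhom 1)
  have hb : (of 1 : F2) ∈ π.ker := p1
  have hcb : ∀ q, cnt π 1 ((of 1 : F2) ^ (-m)) q = (-m) * cnt π 1 (of 1) q := fun q =>
    (hhom q).zpow hb (-m)
  have e1 : F ((of 1 : F2) ^ (-m)) = -m := by
    have h1 := hF' ((of 1 : F2) ^ (-m)) 1 (by rw [zpow_one]; exact π.ker.zpow_mem hb _)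
    rw [zpow_one, hcb, cnt_of, if_pos rfl] at h1
    push_cast at h1
    linarith
  have e2 : F (of 0 * (of 1 : F2) ^ (-m) * (of 0)⁻¹) = 0 := by
    have h1 := hF' (of 0 * (of 1 : F2) ^ (-m) * (of 0)⁻¹) 1 (by
      rw [zpow_one]
      exact Subgroup.Normal.conj_mem inferInstance _ (π.ker.zpow_mem hb _) _)
    rw [zpow_one, cnt_conj π 1 (π.ker.zpow_mem hb _), hcb, cnt_of, if_neg] at h1
    · push_cast at h1
      linarith
    · rw [one_mul, p0]
      decide
  -- apply rigidity
  let f : HH SA (th_sa m k) → ℚ := fun g => F (R (g : MT (th m k)))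
  have hf : f ∈ VF (HH SA (th_sa m k)) := vf_comp (R.comp (HH SA (th_sa m k)).subtype) hF
  have hF1 : F 1 = 0 := by
    have h1 := vf_zpow hF 1 0
    rw [zpow_zero] at h1
    rw [h1]
    norm_num
  have hR : ∀ l, l ∈ SA → l ∈ SC → R (SemidirectProduct.inl l) = 1 := by
    intro l h1 h2
    have h3 : l ∈ SA ⊓ SC := ⟨h1, h2⟩
    rw [sa_inf_sc] at h3
    obtain ⟨k, hk⟩ := h3
    have hk' : (of 2 : F4) ^ k = l := hk
    rw [mtmap_inl, ← hk', map_zpow, k2, one_zpow]
  have hrig := rigid_mt (th_sa m k) (th_sc m k) hG sa_sup_sc up_sa_sc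
    ⟨{of 0, of 1, of 2}, by
      unfold SA
      congr 1
      simp⟩
    ⟨{of 2, of 3}, by
      unfold SC
      congr 1
      simp⟩
    (by rw [sa_inf_sc, Subgroup.zpowers_eq_closure]; exact ⟨{of 2}, by simp⟩)
    (relIndex_of_not_cyclic (by rw [sa_inf_sc]; infer_instance) sc_not_cyclic)
    (of 0) sa0 f hf
    (by
      intro l hl hl'
      show F (R (SemidirectProduct.inl l)) = 0
      rw [hR l hl hl', hF1])
    (by
      intro l hl hl'
      show F (R (SemidirectProduct.inl (of 0) * SemidirectProduct.inl l *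
        (SemidirectProduct.inl (of 0))⁻¹)) = 0
      rw [map_mul, map_mul, map_inv, hR l hl hl', mul_one, mul_inv_cancel, hF1])
  have h1 : F (R (tt (th m k))) = F (R (SemidirectProduct.inl (of 0) * tt (th m k) *
    (SemidirectProduct.inl (of 0))⁻¹)) := hrig
  rw [map_mul, map_mul, map_inv, mtmap_tt, mtmap_inl, k0, e1, e2] at h1
  have : (m : ℚ) = 0 := by linarith
  exact hm (by exact_mod_cast this)

/-! ### embedding into the mapping torus of a Dehn twist -/

/-- the conjugates -/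
def jj : F4 →* F2 :=
  FreeGroup.lift ![of 0, of 1 * of 0 * (of 1)⁻¹, of 1 * of 1 * of 0 * (of 1)⁻¹ * (of 1)⁻¹,
    of 1 * of 1 * of 1 * of 0 * (of 1)⁻¹ * (of 1)⁻¹ * (of 1)⁻¹]

lemma jj0 : jj (of 0) = of 0 := by
  unfold jj; rw [FreeGroup.lift_apply_of]; rfl
lemma jj1 : jj (of 1) = of 1 * of 0 * (of 1)⁻¹ := by
  unfold jj; rw [FreeGroup.lift_apply_of]; rfl
lemma jj2 : jj (of 2) = of 1 * of 1 * of 0 * (of 1)⁻¹ * (of 1)⁻¹ := by
  unfold jj; rw [FreeGroup.lift_apply_of]; rfl
lemma jj3 : jj (of 3) = of 1 * of 1 * of 1 * of 0 * (of 1)⁻¹ * (of 1)⁻¹ * (of 1)⁻¹ := by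
  unfold jj; rw [FreeGroup.lift_apply_of]; rfl

/-- the shift -/
def shft : MulAut (FreeGroup ℤ) := FreeGroup.freeGroupCongr (Equiv.addRight (1 : ℤ))

lemma shft_of (k : ℤ) : shft (of k) = of (k + 1) := by
  unfold shft
  rw [FreeGroup.freeGroupCongr_apply, FreeGroup.map.of]
  rfl

lemma jj_inj : Function.Injective jj := by
  let κ : F2 →* MT shft := FreeGroup.lift ![SemidirectProduct.inl (of 0), tt shft]
  have k0 : κ (of 0) = SemidirectProduct.inl (of 0) := by
    simp only [κ]; rw [FreeGroup.lift_apply_of]; rfl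
  have k1 : κ (of 1) = tt shft := by
    simp only [κ]; rw [FreeGroup.lift_apply_of]; rfl
  have hstep : ∀ k : ℤ, tt shft * SemidirectProduct.inl (of k) * (tt shft)⁻¹ =
      SemidirectProduct.inl (of (k + 1)) := by
    intro k
    have h1 := tt_conj shft 1 (of k)
    rwa [zpow_one, zpow_one, shft_of] at h1
  have hcomp : κ.comp jj = (SemidirectProduct.inl : FreeGroup ℤ →* MT shft).comp
      (FreeGroup.map (fun i : Fin 4 => ((i : ℕ) : ℤ))) := by
    apply hom4_ext
    · show κ (jj (of 0)) = SemidirectProduct.inl (FreeGroup.map _ (of 0))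
      rw [jj0, k0, FreeGroup.map.of]
      rfl
    · show κ (jj (of 1)) = SemidirectProduct.inl (FreeGroup.map _ (of 1))
      rw [jj1, map_mul, map_mul, map_inv, k0, k1, FreeGroup.map.of, hstep]
      rfl
    · show κ (jj (of 2)) = SemidirectProduct.inl (FreeGroup.map _ (of 2))
      rw [jj2, FreeGroup.map.of]
      simp only [map_mul, map_inv, k0, k1]
      have e : tt shft * tt shft * SemidirectProduct.inl (of 0) * (tt shft)⁻¹ * (tt shft)⁻¹ =
          tt shft * (tt shft * SemidirectProduct.inl (of 0) * (tt shft)⁻¹) * (tt shft)⁻¹ := by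
        group
      rw [e, hstep, hstep]
      rfl
    · show κ (jj (of 3)) = SemidirectProduct.inl (FreeGroup.map _ (of 3))
      rw [jj3, FreeGroup.map.of]
      simp only [map_mul, map_inv, k0, k1]
      have e : tt shft * tt shft * tt shft * SemidirectProduct.inl (of 0) * (tt shft)⁻¹ *
          (tt shft)⁻¹ * (tt shft)⁻¹ =
          tt shft * (tt shft * (tt shft * SemidirectProduct.inl (of 0) * (tt shft)⁻¹) *
            (tt shft)⁻¹) * (tt shft)⁻¹ := by
        group
      rw [e, hstep, hstep, hstep]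
      rfl
  have hinj : Function.Injective (κ.comp jj) := by
    rw [hcomp]
    apply SemidirectProduct.inl_injective.comp
    apply FreeGroup.map_injective
    intro a b hab
    have : ((a : ℕ) : ℤ) = ((b : ℕ) : ℤ) := hab
    apply Fin.ext
    exact_mod_cast this
  exact Function.Injective.of_comp hinj

/-- **Burns–Karrass–Solitar.** The mapping torus of a Dehn twist is not LERF. -/
theorem not_lerf_la {m : ℤ} (hm : m ≠ 0) : ¬ LERF (MT (la ^ m)) := by
  intro hG
  let s : MT (la ^ m) := SemidirectProduct.inl ((of 1 * of 0 * (of 1)⁻¹) ^ (-m)) * tt (la ^ m)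
  let f : F4 →* MT (la ^ m) := (SemidirectProduct.inl : F2 →* MT (la ^ m)).comp jj
  have hst : ∀ x : F2, s * SemidirectProduct.inl x * s⁻¹ = SemidirectProduct.inl
      ((of 1 * of 0 * (of 1)⁻¹) ^ (-m) * (la ^ m) x * ((of 1 * of 0 * (of 1)⁻¹) ^ (-m))⁻¹) := by
    intro x
    have h1 := tt_conj (la ^ m) 1 x
    rw [zpow_one, zpow_one] at h1
    rw [map_mul, map_mul, map_inv, ← h1]
    show SemidirectProduct.inl ((of 1 * of 0 * (of 1)⁻¹) ^ (-m)) * tt (la ^ m) *
      SemidirectProduct.inl x * (SemidirectProduct.inl ((of 1 * of 0 * (of 1)⁻¹) ^ (-m)) *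
      tt (la ^ m))⁻¹ = _
    group
  have hs : ∀ x, s * f x * s⁻¹ = f (th m m x) := by
    let g : F2 →* F2 := (MulAut.conj ((of 1 * of 0 * (of 1)⁻¹ : F2) ^ (-m))).toMonoidHom.comp
      (la ^ m).toMonoidHom
    have hg : ∀ x, g x = (of 1 * of 0 * (of 1)⁻¹) ^ (-m) * (la ^ m) x *
      ((of 1 * of 0 * (of 1)⁻¹) ^ (-m))⁻¹ := fun x => rfl
    have hD0 := la_zpow0 m
    have hD1 := la_zpow1 m
    have h1 : g.comp jj = jj.comp (thf m m) := by
      apply hom4_ext
      · show g (jj (of 0)) = jj (thf m m (of 0))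
        rw [hg, thf0, map_mul, map_mul, map_zpow, map_zpow, jj0, jj1, hD0]
        group
      · show g (jj (of 1)) = jj (thf m m (of 1))
        rw [hg, thf1, jj1, map_mul, map_mul, map_inv, hD0, hD1, conj_zpow]
        group
      · show g (jj (of 2)) = jj (thf m m (of 2))
        rw [hg, thf2, jj2]
        simp only [map_mul, map_inv, hD0, hD1]
        rw [conj_zpow]
        group
      · show g (jj (of 3)) = jj (thf m m (of 3))
        rw [hg, thf3, map_mul, map_mul, map_zpow, map_zpow, jj2, jj3]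
        simp only [map_mul, map_inv, hD0, hD1]
        have e : (of 1 * of 1 * of 0 * (of 1)⁻¹ * (of 1)⁻¹ : F2) =
            (of 1 * of 1) * of 0 * (of 1 * of 1)⁻¹ := by group
        rw [e, conj_zpow, conj_zpow, conj_zpow]
        group
    intro x
    show s * SemidirectProduct.inl (jj x) * s⁻¹ = SemidirectProduct.inl (jj (th m m x))
    rw [hst, ← hg]
    congr 1
    exact DFunLike.congr_fun h1 x
  apply not_lerf_th hm
  apply lerf_inj hG (mtmap f s hs)
  apply mtmap_inj f s hs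
  · exact SemidirectProduct.inl_injective.comp jj_inj
  · intro x; rfl
  · have : chi (la ^ m) s = 1 := rfl
    rw [this]
    exact one_ne_zero

end Run7.h574
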