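import Pool.Agent.Run7.h574.Comb

/-!
# The intersection of two finitely generated subgroups of a free group is finitely generated
-/

set_option autoImplicit false
set_option linter.unusedSectionVars false
set_option linter.dupNamespace false

namespace Run7.h574

open Pool.Agent.Helper180.FreeMetric Pool.Agent.Helper180.BigPowers

variable {α : Type}

/-- Howson's theorem -/
theorem howson [Finite α] {A C : Subgroup (FreeGroup α)} (hA : A.FG) (hC : C.FG) : (A ⊓ C).FG := by
  classical
  obtain ⟨Q, hQ, hQ'⟩ := inter_finite hA hC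
  -- the generators
  let B : Set (FreeGroup α) := {x | x.norm ≤ 1}
  let S : Set (FreeGroup α) := (Set.image2 (fun b q => b * q) B Q) ∪ B
  have hB : B.Finite := finite_ball 1
  let S₀ : Set (FreeGroup α) := Set.image2 (fun q s => q * s) (insert 1 Q)
    (Set.image2 (fun b q => b * q⁻¹) B (insert 1 Q))
  have hS₀ : S₀.Finite := (hQ.insert 1).image2 _ (hB.image2 _ (hQ.insert 1))
  let S₁ : Set (FreeGroup α) := S₀ ∩ ((A ⊓ C : Subgroup (FreeGroup α)) : Set (FreeGroup α))
  have hS₁ : S₁.Finite := hS₀.inter_of_left _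
  -- points of the intersection of the hulls
  have key : ∀ k : ℕ, ∀ x ∈ hull A, x ∈ hull C → ds 1 x = k → ∀ q ∈ insert 1 Q,
      x * q⁻¹ ∈ A ⊓ C → x * q⁻¹ ∈ Subgroup.closure S₁ := by
    intro k
    induction k with
    | zero =>
      intro x _ _ hx q hq hxq
      have h1 : 1 = x := ds_eq_zero hx
      subst h1
      apply Subgroup.subset_closure
      refine ⟨⟨1, Or.inl rfl, 1 * q⁻¹, ⟨1, ?_, q, hq, rfl⟩, by simp⟩, hxq⟩
      show (1 : FreeGroup α).norm ≤ 1
      rw [FreeGroup.norm_one]
      exact Nat.zero_le 1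
    | succ k ih =>
      intro x hxA hxC hx q hq hxq
      obtain ⟨z, hz1, hz2⟩ := ds_geod 1 x k (by omega) (by omega)
      have hzx : ds 1 z + ds z x = ds 1 x := by omega
      have hzA := hull_prefix hxA hzx
      have hzC := hull_prefix hxC hzx
      obtain ⟨q', hq', hzq⟩ := hQ' z hzA hzC
      have h1 := ih z hzA hzC hz1 q' (Or.inr hq') hzq
      have e : x * q⁻¹ = (z * q'⁻¹) * (q' * ((z⁻¹ * x) * q⁻¹)) := by group
      rw [e]
      apply Subgroup.mul_mem _ h1
      apply Subgroup.subset_closure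
      refine ⟨⟨q', Or.inr hq', (z⁻¹ * x) * q⁻¹, ⟨z⁻¹ * x, ?_, q, hq, rfl⟩, rfl⟩, ?_⟩
      · have h2 : ((z⁻¹ * x).norm : ℤ) = 1 := by
          have : ds z x = 1 := by push_cast at hx; omega
          exact this
        show (z⁻¹ * x).norm ≤ 1
        omega
      · have e2 : q' * ((z⁻¹ * x) * q⁻¹) = (z * q'⁻¹)⁻¹ * (x * q⁻¹) := by group
        rw [SetLike.mem_coe, e2]
        exact (A ⊓ C).mul_mem ((A ⊓ C).inv_mem hzq) hxq
  refine ⟨hS₁.toFinset, ?_⟩
  rw [Set.Finite.coe_toFinset]
  apply le_antisymm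
  · rw [Subgroup.closure_le]
    exact fun x hx => hx.2
  · intro x hx
    have h1 := key (ds 1 x).toNat x (mem_hull_self hx.1) (mem_hull_self hx.2)
      (Int.toNat_of_nonneg (ds_nonneg 1 x)).symm 1 (Or.inl rfl) (by
        rw [inv_one, mul_one]; exact hx)
    rwa [inv_one, mul_one] at h1

end Run7.h574
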