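import Pool.Agent.Run7.h574.PairG
import Pool.Agent.Run7.h574.Howson

/-!
# Homological rigidity for pairs of invariant subgroups
-/

set_option autoImplicit false
set_option linter.unusedSectionVars false
set_option linter.dupNamespace false

namespace Run7.h574

section

variable {α : Type} {φ : MulAut (FreeGroup α)}

/-- the group generated by a subgroup of the fibre and an element -/
abbrev RG (φ : MulAut (FreeGroup α)) (A : Subgroup (FreeGroup α)) (u : MT φ) : Subgroup (MT φ) :=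
  Subgroup.closure (insert u (SemidirectProduct.inl '' (A : Set (FreeGroup α))) : Set (MT φ))

lemma mem_RG_u (A : Subgroup (FreeGroup α)) (u : MT φ) : u ∈ RG φ A u :=
  Subgroup.subset_closure (Or.inl rfl)

lemma mem_RG_inl {A : Subgroup (FreeGroup α)} (u : MT φ) {a : FreeGroup α} (ha : a ∈ A) :
    (SemidirectProduct.inl a : MT φ) ∈ RG φ A u :=
  Subgroup.subset_closure (Or.inr ⟨a, ha, rfl⟩)

/-- **Homological rigidity for pairs.** -/
theorem rigid_pair [Finite α] (hG : LERF (MT φ)) {A C : Subgroup (FreeGroup α)} (hA : A.FG)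
    (hC : C.FG) {u : MT φ} (hu : chi φ u ≠ 0) (hAu : ∀ x, cj φ u x ∈ A ↔ x ∈ A)
    (hCu : ∀ x, cj φ u x ∈ C ↔ x ∈ C) (hidx : (A ⊓ C).relIndex C = 0) :
    ∃ K : Subgroup (FreeGroup α), K.FiniteIndex ∧ A ⊓ C ≤ K ∧ ∀ x (hxA : x ∈ A), x ∈ K →
      ∀ f ∈ VF (RG φ A u),
        (∀ l (hl : l ∈ A ⊓ C), f ⟨SemidirectProduct.inl l, mem_RG_inl u hl.1⟩ = 0) →
        (∀ l (hl : l ∈ A ⊓ C), f (⟨SemidirectProduct.inl x, mem_RG_inl u hxA⟩ *
          ⟨SemidirectProduct.inl l, mem_RG_inl u hl.1⟩ *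
            (⟨SemidirectProduct.inl x, mem_RG_inl u hxA⟩ : RG φ A u)⁻¹) = 0) →
        f ⟨u, mem_RG_u A u⟩ = f (⟨SemidirectProduct.inl x, mem_RG_inl u hxA⟩ * ⟨u, mem_RG_u A u⟩ *
            (⟨SemidirectProduct.inl x, mem_RG_inl u hxA⟩ : RG φ A u)⁻¹) := by
  have hLfg := howson hA hC
  obtain ⟨K, k, hK, hk, hLK, ham, hAk, hCk, hKk⟩ := deep hG hA hC hLfg u hAu hCu
  refine ⟨K, hK, hLK, ?_⟩
  intro x hxA hxK f hf hf1 hf2
  have hinf : (A ⊓ K) ⊓ (C ⊓ K) = A ⊓ C := by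
    apply le_antisymm
    · intro x hx
      exact ⟨hx.1.1, hx.2.1⟩
    · intro x hx
      exact ⟨⟨hx.1, hLK hx⟩, ⟨hx.2, hLK hx⟩⟩
  have hAK : ∀ x, cj φ (u ^ k) x ∈ A ⊓ K ↔ x ∈ A ⊓ K := fun x => by
    rw [Subgroup.mem_inf, Subgroup.mem_inf, hAk, hKk]
  have hCK : ∀ x, cj φ (u ^ k) x ∈ C ⊓ K ↔ x ∈ C ⊓ K := fun x => by
    rw [Subgroup.mem_inf, Subgroup.mem_inf, hCk, hKk]
  have huk : chi φ (u ^ k) ≠ 0 := by rw [chi_zpow]; exact mul_ne_zero hk.ne' hu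
  let P : Subgroup (FreeGroup α) := (A ⊓ K) ⊔ (C ⊓ K)
  have hAP : A ⊓ K ≤ P := le_sup_left
  have hCP : C ⊓ K ≤ P := le_sup_right
  have hP := sup_inv hAK hCK
  let ψ := restr (cj φ (u ^ k)) P hP
  have hA' : ∀ x, ψ x ∈ (A ⊓ K).subgroupOf P ↔ x ∈ (A ⊓ K).subgroupOf P := fun x => hAK x
  have hC' : ∀ x, ψ x ∈ (C ⊓ K).subgroupOf P ↔ x ∈ (C ⊓ K).subgroupOf P := fun x => hCK x
  have hinj := emb_inj φ (u ^ k) huk P hP
  have hfg : ∀ B : Subgroup (FreeGroup α), B ≤ P → B.FG → (B.subgroupOf P).FG := by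
    intro B hB hBfg
    apply fg_of_map P.subtype P.subtype_injective
    rw [Subgroup.subgroupOf_map_subtype, inf_eq_left.mpr hB]
    exact hBfg
  have hinfP : (A ⊓ K).subgroupOf P ⊓ (C ⊓ K).subgroupOf P = ((A ⊓ K) ⊓ (C ⊓ K)).subgroupOf P := rfl
  have hmem : ∀ g : HH ((A ⊓ K).subgroupOf P) hA', emb φ (u ^ k) P hP g ∈ RG φ A u := by
    intro g
    rw [emb_apply]
    refine Subgroup.mul_mem _ (mem_RG_inl u g.2.1) (Subgroup.zpow_mem _ ?_ _)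
    exact Subgroup.zpow_mem _ (mem_RG_u A u) k
  let e : HH ((A ⊓ K).subgroupOf P) hA' →* RG φ A u :=
    ((emb φ (u ^ k) P hP).comp (HH ((A ⊓ K).subgroupOf P) hA').subtype).codRestrict (RG φ A u) hmem
  have he_inl : ∀ (y : FreeGroup α) (hy : y ∈ A ⊓ K), e ⟨SemidirectProduct.inl ⟨y, hAP hy⟩, hy⟩ =
      ⟨SemidirectProduct.inl y, mem_RG_inl u hy.1⟩ := by
    intro y hy
    apply Subtype.ext
    show emb φ (u ^ k) P hP (SemidirectProduct.inl ⟨y, hAP hy⟩) = _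
    rw [emb_apply, chi_inl, zpow_zero, mul_one]
    rfl
  have he_tt : e ⟨tt ψ, tt_mem _ hA'⟩ = (⟨u, mem_RG_u A u⟩ : RG φ A u) ^ k := by
    apply Subtype.ext
    show emb φ (u ^ k) P hP (tt ψ) = _
    rw [emb_apply, chi_tt, zpow_one, SubgroupClass.coe_zpow]
    show SemidirectProduct.inl ((1 : P) : FreeGroup α) * u ^ k = u ^ k
    rw [OneMemClass.coe_one, map_one, one_mul]
  have h3 := rigid_mt hA' hC' (lerf_inj hG _ hinj) (by
    rw [← Subgroup.subgroupOf_sup hAP hCP]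
    show P.subgroupOf P = ⊤
    simp) (up_of_amalgam ham) (hfg (A ⊓ K) hAP (fg_inf' hA hK)) (hfg (C ⊓ K) hCP (fg_inf' hC hK))
    (by
      rw [hinfP, hinf]
      exact hfg _ (by rw [← hinf]; exact inf_le_left.trans hAP) hLfg)
    (by
      rw [hinfP, Subgroup.relIndex_subgroupOf hCP, hinf]
      exact relIndex_deep hK inf_le_right hLK hidx) ⟨x, hAP ⟨hxA, hxK⟩⟩ ⟨hxA, hxK⟩
      (fun g => f (e g)) (vf_comp e hf)
    (by
      rintro ⟨l, hlP⟩ hl hl'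
      have hl'' : l ∈ A ⊓ C := by rw [← hinf]; exact ⟨hl, hl'⟩
      show f (e ⟨SemidirectProduct.inl ⟨l, hAP hl⟩, hl⟩) = 0
      rw [he_inl]
      exact hf1 l hl'')
    (by
      rintro ⟨l, hlP⟩ hl hl'
      have hl'' : l ∈ A ⊓ C := by rw [← hinf]; exact ⟨hl, hl'⟩
      show f (e (⟨SemidirectProduct.inl ⟨x, hAP ⟨hxA, hxK⟩⟩, ⟨hxA, hxK⟩⟩ *
        ⟨SemidirectProduct.inl ⟨l, hAP hl⟩, hl⟩ *
        (⟨SemidirectProduct.inl ⟨x, hAP ⟨hxA, hxK⟩⟩, ⟨hxA, hxK⟩⟩ :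
          HH ((A ⊓ K).subgroupOf P) hA')⁻¹)) = 0
      rw [map_mul, map_mul, map_inv, he_inl, he_inl]
      exact hf2 l hl'')
  have h4 : f (e ⟨tt ψ, tt_mem _ hA'⟩) = f (e (⟨SemidirectProduct.inl ⟨x, hAP ⟨hxA, hxK⟩⟩, ⟨hxA, hxK⟩⟩ *
      ⟨tt ψ, tt_mem _ hA'⟩ *
        (⟨SemidirectProduct.inl ⟨x, hAP ⟨hxA, hxK⟩⟩, ⟨hxA, hxK⟩⟩ :
          HH ((A ⊓ K).subgroupOf P) hA')⁻¹)) := h3
  rw [map_mul, map_mul, map_inv, he_inl, he_tt, ← conj_zpow, vf_zpow hf, vf_zpow hf] at h4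
  exact mul_left_cancel₀ (by exact_mod_cast hk.ne') h4

end

section

variable {G : Type} [Group G] (χ : G →* Multiplicative ℤ)

/-- **Homological rigidity for pairs**, abstract version. -/
theorem rigid_pair_group {α : Type} [Finite α] (e : χ.ker ≃* FreeGroup α) (hG : LERF G)
    {A C : Subgroup G} (hAk : A ≤ χ.ker) (hCk : C ≤ χ.ker) (hA : A.FG) (hC : C.FG) {u : G}
    (hu : χ u ≠ 1) (hAu : ∀ x, x ∈ A ↔ u * x * u⁻¹ ∈ A) (hCu : ∀ x, x ∈ C ↔ u * x * u⁻¹ ∈ C)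
    (hidx : (A ⊓ C).relIndex C = 0) :
    ∃ A₀ : Subgroup G, A₀ ≤ A ∧ A ⊓ C ≤ A₀ ∧ A₀.relIndex A ≠ 0 ∧ ∀ x ∈ A₀, ∀ D : Subgroup G,
      D ≤ A ⊔ Subgroup.zpowers u → D.relIndex (A ⊔ Subgroup.zpowers u) ≠ 0 →
      ∀ β : D →* Multiplicative ℤ, (∀ l (h : l ∈ D), l ∈ A ⊓ C → β ⟨l, h⟩ = 1) →
        (∀ l ∈ A ⊓ C, ∀ h : x * l * x⁻¹ ∈ D, β ⟨x * l * x⁻¹, h⟩ = 1) →
        ∀ (m : ℤ) (h1 : u ^ m ∈ D) (h2 : x * u ^ m * x⁻¹ ∈ D),
          β ⟨u ^ m, h1⟩ = β ⟨x * u ^ m * x⁻¹, h2⟩ := by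
  classical
  obtain ⟨ψ, E, d, hd, hE, hχE⟩ := exists_mt χ e ⟨u, hu⟩
  let f : FreeGroup α →* G := E.toMonoidHom.comp SemidirectProduct.inl
  have hf : ∀ x, f x = (e.symm x : G) := hE
  have hfE : ∀ x, f x = E (SemidirectProduct.inl x) := fun _ => rfl
  have hfinj : Function.Injective f := E.injective.comp SemidirectProduct.inl_injective
  have hfr : ∀ B : Subgroup G, B ≤ χ.ker → (B.comap f).map f = B := by
    intro B hB
    rw [Subgroup.map_comap_eq]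
    apply inf_eq_right.mpr
    intro x hx
    exact ⟨e ⟨x, hB hx⟩, by rw [hf, MulEquiv.symm_apply_apply]⟩
  have hfg : ∀ B : Subgroup G, B ≤ χ.ker → B.FG → (B.comap f).FG := by
    intro B hB hBfg
    apply fg_of_map f hfinj
    rw [hfr B hB]
    exact hBfg
  set u' : MT ψ := E.symm u with hu'
  have hEu : E u' = u := MulEquiv.apply_symm_apply E u
  have hchi : chi ψ u' ≠ 0 := by
    intro h3
    have h1 := hχE u'
    rw [h3, mul_zero, hEu] at h1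
    exact hu (Multiplicative.toAdd.injective h1)
  have hfcj : ∀ x, f (cj ψ u' x) = u * f x * u⁻¹ := by
    intro x
    show E (SemidirectProduct.inl (cj ψ u' x)) = u * E (SemidirectProduct.inl x) * u⁻¹
    rw [← cj_spec, map_mul, map_mul, map_inv, hEu]
  have hinv : ∀ B : Subgroup G, (∀ x, x ∈ B ↔ u * x * u⁻¹ ∈ B) →
      ∀ x, cj ψ u' x ∈ B.comap f ↔ x ∈ B.comap f := by
    intro B hB x
    rw [Subgroup.mem_comap, Subgroup.mem_comap, hfcj, ← hB]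
  have hrel : (A.comap f ⊓ C.comap f).relIndex (C.comap f) = 0 := by
    rw [← Subgroup.comap_inf, Subgroup.relIndex_comap, hfr C hCk]
    exact hidx
  obtain ⟨K, hK, hLK, H⟩ := rigid_pair (lerf_equiv hG E) (hfg A hAk hA) (hfg C hCk hC) hchi
    (hinv A hAu) (hinv C hCu) hrel
  have hmemRG : ∀ g ∈ RG ψ (A.comap f) u', E g ∈ A ⊔ Subgroup.zpowers u := by
    intro g hg
    have h1 : RG ψ (A.comap f) u' ≤ (A ⊔ Subgroup.zpowers u).comap E.toMonoidHom := by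
      rw [Subgroup.closure_le]
      rintro g (rfl | ⟨x, hx, rfl⟩)
      · show E u' ∈ A ⊔ Subgroup.zpowers u
        rw [hEu]
        exact Subgroup.mem_sup_right (Subgroup.mem_zpowers u)
      · exact Subgroup.mem_sup_left hx
    exact h1 hg
  refine ⟨(A.comap f ⊓ K).map f, ?_, ?_, ?_, ?_⟩
  · rintro _ ⟨x, hx, rfl⟩
    exact hx.1
  · intro x hx
    have hx' := hx.1
    rw [← hfr A hAk] at hx'
    obtain ⟨y, hy, rfl⟩ := hx'
    exact ⟨y, ⟨hy, hLK ⟨hy, hx.2⟩⟩, rfl⟩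
  · have h1 : ((A.comap f ⊓ K).map f).relIndex ((A.comap f).map f) ≠ 0 := by
      rw [Subgroup.relIndex_map_map_of_injective _ _ hfinj, Subgroup.inf_relIndex_left]
      exact (inferInstance : (K.subgroupOf (A.comap f)).FiniteIndex).index_ne_zero
    rwa [hfr A hAk] at h1
  rintro _ ⟨x, hx, rfl⟩ D hD hDi β hβ1 hβ2 m h1 h2
  -- the virtual homomorphism
  let R := RG ψ (A.comap f) u'
  let κ₀ : R →* G := E.toMonoidHom.comp R.subtype
  let K' : Subgroup R := D.comap κ₀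
  have hK' : K'.FiniteIndex := by
    let κ : R →* (A ⊔ Subgroup.zpowers u : Subgroup G) :=
      { toFun := fun g => ⟨E g, hmemRG g g.2⟩
        map_one' := Subtype.ext (map_one E)
        map_mul' := fun a b => Subtype.ext (map_mul E _ _) }
    have hDf : (D.subgroupOf (A ⊔ Subgroup.zpowers u)).FiniteIndex := ⟨hDi⟩
    exact fi_comap hDf κ
  let β' : R → ℤ := fun g => if h : κ₀ g ∈ D then Multiplicative.toAdd (β ⟨κ₀ g, h⟩) else 0
  have hβ' : ∀ (g : R) (y : G) (h : y ∈ D), κ₀ g = y → β' g = Multiplicative.toAdd (β ⟨y, h⟩) := by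
    rintro g y h rfl
    exact dif_pos h
  have hhom : HomOn K' β' := by
    intro a ha b hb
    have ha' : κ₀ a ∈ D := ha
    have hb' : κ₀ b ∈ D := hb
    have h3 : β ⟨κ₀ a * κ₀ b, D.mul_mem ha' hb'⟩ = β ⟨κ₀ a, ha'⟩ * β ⟨κ₀ b, hb'⟩ :=
      map_mul β ⟨κ₀ a, ha'⟩ ⟨κ₀ b, hb'⟩
    rw [hβ' (a * b) (κ₀ a * κ₀ b) (D.mul_mem ha' hb') (map_mul κ₀ a b), hβ' a _ ha' rfl,
      hβ' b _ hb' rfl, ← toAdd_mul, h3]
  obtain ⟨F, hF, hF'⟩ := exists_vf hK' hhom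
  have hv0 : ∀ g : R, (∀ n : ℤ, ∀ h : (κ₀ g) ^ n ∈ D, β ⟨(κ₀ g) ^ n, h⟩ = 1) → F g = 0 := by
    intro g hg
    obtain ⟨n, hn, hn'⟩ := exists_pow_mem K' g
    have h0 : (κ₀ g) ^ n ∈ D := by
      rw [← map_zpow]
      exact hn'
    have h3 := hF' g n hn'
    rw [hβ' _ _ h0 (map_zpow κ₀ g n), hg n h0, toAdd_one] at h3
    have h4 : (n : ℚ) * F g = 0 := by rw [← h3]; norm_num
    exact (mul_eq_zero.mp h4).resolve_left (by exact_mod_cast hn.ne')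
  have hxA : x ∈ A.comap f := hx.1
  let xR : R := ⟨SemidirectProduct.inl x, mem_RG_inl u' hxA⟩
  let uR : R := ⟨u', mem_RG_u _ u'⟩
  have hκx : κ₀ xR = f x := rfl
  have hκu : κ₀ uR = u := hEu
  have key : F uR = F (xR * uR * xR⁻¹) := by
    apply H x hxA hx.2 F hF
    · intro l hl
      apply hv0
      intro n h
      exact hβ1 _ h ((A ⊓ C).zpow_mem (show f l ∈ A ⊓ C from hl) n)
    · intro l hl
      let lR : R := ⟨SemidirectProduct.inl l, mem_RG_inl u' hl.1⟩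
      have hκl : κ₀ lR = f l := rfl
      show F (xR * lR * xR⁻¹) = 0
      apply hv0
      intro n h
      have e1 : κ₀ (xR * lR * xR⁻¹) ^ n = f x * f l ^ n * (f x)⁻¹ := by
        rw [map_mul, map_mul, map_inv, hκx, hκl, conj_zpow]
      have h6 : f x * f l ^ n * (f x)⁻¹ ∈ D := by rw [← e1]; exact h
      have h5 := hβ2 (f l ^ n) ((A ⊓ C).zpow_mem (show f l ∈ A ⊓ C from hl) n) h6
      rw [← h5]
      congr 1
      exact Subtype.ext e1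
  have e2 : κ₀ (uR ^ m) = u ^ m := by rw [map_zpow, hκu]
  have e3 : κ₀ ((xR * uR * xR⁻¹) ^ m) = f x * u ^ m * (f x)⁻¹ := by
    rw [map_zpow, map_mul, map_mul, map_inv, hκx, hκu, conj_zpow]
  have m2 : uR ^ m ∈ K' := by
    show κ₀ (uR ^ m) ∈ D
    rw [e2]; exact h1
  have m3 : (xR * uR * xR⁻¹) ^ m ∈ K' := by
    show κ₀ ((xR * uR * xR⁻¹) ^ m) ∈ D
    rw [e3]; exact h2
  have h5 := hF' _ m m2
  have h6 := hF' _ m m3
  rw [← key, ← h5, hβ' _ _ h1 e2, hβ' _ _ h2 e3] at h6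
  have h7 : Multiplicative.toAdd (β ⟨_, h2⟩) = Multiplicative.toAdd (β ⟨_, h1⟩) := by
    exact_mod_cast h6
  exact (Multiplicative.toAdd.injective h7).symm

end

end Run7.h574
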