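import Pool.Agent.Run7.h574.AbstractG

/-!
# Vertex groups of cyclic actions of LERF free-by-cyclic groups
-/

set_option autoImplicit false
set_option linter.unusedSectionVars false
set_option linter.dupNamespace false

namespace Run7.h574

section

variable {G : Type} [Group G] (χ : G →* Multiplicative ℤ)

/-- the local theorem for abstract free-by-cyclic groups -/
theorem vertex_group {α : Type} (e : χ.ker ≃* FreeGroup α) (hne : ∃ g, χ g ≠ 1)
    (hG : LERF G) {V : Type} [MulAction G V] {T : SimpleGraph V} (hT : T.IsTree)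
    (hact : ∀ (g : G) (x y : V), T.Adj x y → T.Adj (g • x) (g • y))
    (hcyc : ∀ x y : V, T.Adj x y → IsCyclic (χ.ker ⊓ MulAction.stabilizer G x ⊓
      MulAction.stabilizer G y : Subgroup G))
    (hedge : ∀ x y : V, T.Adj x y → ∃ u : G, u • x = x ∧ u • y = y ∧ χ u ≠ 1)
    (hfg : ∀ x : V, (χ.ker ⊓ MulAction.stabilizer G x).FG)
    (hnofix : ∀ x : V, ∃ g ∈ χ.ker, g • x ≠ x)
    (v : V) (hncyc : ¬ IsCyclic (χ.ker ⊓ MulAction.stabilizer G v : Subgroup G))
    (hv : HSep (MulAction.stabilizer G v) ∨
        Nonempty ((χ.ker ⊓ MulAction.stabilizer G v : Subgroup G) ≃* F2)) :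
    ∃ g : G, g • v = v ∧ χ g ≠ 1 ∧ ∀ x ∈ χ.ker, x • v = v → Commute g x := by
  obtain ⟨ψ, E, d, hd, hE, hχE⟩ := exists_mt χ e hne
  let _ : MulAction (MT ψ) V := MulAction.compHom V E.toMonoidHom
  have hsm : ∀ (g : MT ψ) (v : V), g • v = E g • v := fun _ _ => rfl
  have hmem : ∀ (v : V) (x : FreeGroup α), x ∈ fst ψ v ↔ (e.symm x : G) • v = v := by
    intro v x
    rw [mem_fst, hsm, hE]
  have hmemE : ∀ (v : V) (g : G) (hg : g ∈ χ.ker), e ⟨g, hg⟩ ∈ fst ψ v ↔ g • v = v := by
    intro v g hg
    rw [hmem, MulEquiv.symm_apply_apply]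
  have hchi : ∀ g : MT ψ, chi ψ g ≠ 0 ↔ χ (E g) ≠ 1 := by
    intro g
    have h1 := hχE g
    constructor
    · intro h2 h3
      rw [h3, toAdd_one] at h1
      exact h2 ((mul_eq_zero.mp h1.symm).resolve_left hd)
    · intro h2 h3
      rw [h3, mul_zero] at h1
      exact h2 (Multiplicative.toAdd.injective h1)
  -- the fibre stabilizers
  have hstab : ∀ v : V, Nonempty (fst ψ v ≃* (χ.ker ⊓ MulAction.stabilizer G v : Subgroup G)) := by
    intro v
    refine ⟨MulEquiv.ofBijective
      ({ toFun := fun x => ⟨(e.symm (x : FreeGroup α) : G), (e.symm (x : FreeGroup α)).2,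
            (hmem v x).mp x.2⟩
         map_one' := Subtype.ext (by
          show ((e.symm ((1 : fst ψ v) : FreeGroup α) : χ.ker) : G) = 1
          rw [OneMemClass.coe_one, map_one, OneMemClass.coe_one])
         map_mul' := fun a b => Subtype.ext (by
          show ((e.symm ((a * b : fst ψ v) : FreeGroup α) : χ.ker) : G) =
            (e.symm (a : FreeGroup α) : G) * (e.symm (b : FreeGroup α) : G)
          rw [Subgroup.coe_mul, map_mul, Subgroup.coe_mul]) } :
        fst ψ v →* (χ.ker ⊓ MulAction.stabilizer G v : Subgroup G)) ⟨?_, ?_⟩⟩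
    · intro a b hab
      have h1 := congrArg Subtype.val hab
      exact Subtype.ext (e.symm.injective (Subtype.ext h1))
    · rintro ⟨g, hg1, hg2⟩
      refine ⟨⟨e ⟨g, hg1⟩, (hmemE v g hg1).mpr hg2⟩, ?_⟩
      apply Subtype.ext
      show ((e.symm (e ⟨g, hg1⟩) : χ.ker) : G) = g
      rw [MulEquiv.symm_apply_apply]
  have hCT : CT ψ T := by
    refine ⟨hT, fun g x y h => hact _ x y h, ?_, ?_, ?_, ?_⟩
    · intro x y hxy
      have := hcyc x y hxy
      let f : (fst ψ x ⊓ fst ψ y : Subgroup (FreeGroup α)) →*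
          (χ.ker ⊓ MulAction.stabilizer G x ⊓ MulAction.stabilizer G y : Subgroup G) :=
        { toFun := fun a => ⟨(e.symm (a : FreeGroup α) : G), ⟨(e.symm (a : FreeGroup α)).2,
            (hmem x a).mp a.2.1⟩, (hmem y a).mp a.2.2⟩
          map_one' := Subtype.ext (by
            show ((e.symm ((1 : (fst ψ x ⊓ fst ψ y : Subgroup (FreeGroup α))) : FreeGroup α) : χ.ker) : G) = 1
            rw [OneMemClass.coe_one, map_one, OneMemClass.coe_one])
          map_mul' := fun a b => Subtype.ext (by
            show ((e.symm ((a * b : (fst ψ x ⊓ fst ψ y : Subgroup (FreeGroup α))) : FreeGroup α) : χ.ker) : G) =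
              (e.symm (a : FreeGroup α) : G) * (e.symm (b : FreeGroup α) : G)
            rw [Subgroup.coe_mul, map_mul, Subgroup.coe_mul]) }
      refine isCyclic_of_injective f ?_
      intro a b hab
      have h1 := congrArg Subtype.val hab
      exact Subtype.ext (e.symm.injective (Subtype.ext h1))
    · intro x y hxy
      obtain ⟨u, hux, huy, hu⟩ := hedge x y hxy
      refine ⟨E.symm u, ?_, ?_, ?_⟩
      · rw [hsm, MulEquiv.apply_symm_apply, hux]
      · rw [hsm, MulEquiv.apply_symm_apply, huy]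
      · rw [hchi, MulEquiv.apply_symm_apply]
        exact hu
    · intro v
      obtain ⟨i⟩ := hstab v
      have h1 : Group.FG (χ.ker ⊓ MulAction.stabilizer G v : Subgroup G) :=
        (Group.fg_iff_subgroup_fg _).mpr (hfg v)
      have h2 : Group.FG (fst ψ v) :=
        Group.fg_of_surjective (f := i.symm.toMonoidHom) i.symm.surjective
      exact (Group.fg_iff_subgroup_fg _).mp h2
    · intro v hcon
      obtain ⟨g, hg, hgv⟩ := hnofix v
      apply hgv
      rw [← hmemE v g hg, hcon]
      trivial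
  obtain ⟨i⟩ := hstab v
  have hgood : Good2 ψ v := by
    rcases hv with h2 | h2
    · apply good2_of_hsep (lerf_equiv hG E) (hCT.fg v)
      let f : MulAction.stabilizer (MT ψ) v →* MulAction.stabilizer G v :=
        { toFun := fun g => ⟨E g, g.2⟩
          map_one' := Subtype.ext (map_one E)
          map_mul' := fun a b => Subtype.ext (map_mul E _ _) }
      apply hsep_inj h2 f
      intro a b hab
      exact Subtype.ext (E.injective (congrArg Subtype.val hab))
    · obtain ⟨j⟩ := h2
      exact good2_of_rank2 (lerf_equiv hG E) (i.trans j)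
  obtain ⟨g, hgv, hg, hcom⟩ := centralize hCT (fun h => hncyc
    (isCyclic_of_injective i.symm.toMonoidHom i.symm.injective)) (good_of_good2 hgood)
  refine ⟨E g, hgv, (hchi g).mp hg, ?_⟩
  intro x hx hxv
  have h1 := hcom (e ⟨x, hx⟩) ((hmemE v x hx).mpr hxv)
  have h2 := h1.map E.toMonoidHom
  have h3 : E.toMonoidHom (SemidirectProduct.inl (e ⟨x, hx⟩)) = x := by
    show E (SemidirectProduct.inl (e ⟨x, hx⟩)) = x
    rw [hE, MulEquiv.symm_apply_apply]
  rw [h3] at h2
  exact h2

end

end Run7.h574
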