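import Pool.Agent.Run7.h574.HierSep
import Pool.Agent.Run7.h574.RigidPair
import Pool.Agent.Run7.h574.VertexG

/-!
# Final forms of the theorems
-/

set_option autoImplicit false
set_option linter.unusedSectionVars false
set_option linter.dupNamespace false

namespace Run7.h574

open Spec

section

variable {G : Type} [Group G] (χ : G →* Multiplicative ℤ)

lemma vertex_ok {α : Type} [Finite α] (e : χ.ker ≃* FreeGroup α) (hG : Run7.h574.LERF G) {V : Type}
    [MulAction G V] {T : SimpleGraph V} (hT : CyclicAction χ T) (v : V)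
    (hv : Hierarchy (MulAction.stabilizer G v) (χ.comp (MulAction.stabilizer G v).subtype)) :
    HSep (MulAction.stabilizer G v) ∨
      Nonempty ((χ.ker ⊓ MulAction.stabilizer G v : Subgroup G) ≃* F2) := by
  obtain ⟨β, hβ, hi, ⟨j⟩⟩ := exists_free_ker χ e (MulAction.stabilizer G v) (hT.fg v)
  have hne' : ∃ g : MulAction.stabilizer G v,
      (χ.comp (MulAction.stabilizer G v).subtype) g ≠ 1 := by
    obtain ⟨f, -, hfv⟩ := hT.noFixed v
    obtain ⟨w, hw, -⟩ := exists_closer hT.tree (v := f • v) (x := v) hfv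
    obtain ⟨u, huv, -, hu⟩ := hT.transverse v w hw
    exact ⟨⟨u, huv⟩, hu⟩
  rcases hierarchy_sep hv (lerf_inj hG (MulAction.stabilizer G v).subtype
    (Subgroup.subtype_injective _)) ⟨β, hβ, hi⟩ hne' with h1 | h1
  · exact Or.inl h1
  · exact Or.inr (h1.map fun k => j.symm.trans k)

/-- the local theorem -/
theorem vertex_final {α : Type} [Finite α] (e : χ.ker ≃* FreeGroup α) (hne : ∃ g, χ g ≠ 1)
    (hG : Run7.h574.LERF G) {V : Type} [MulAction G V] {T : SimpleGraph V} (hT : CyclicAction χ T)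
    (v : V) (hcyc : ¬ IsCyclic (χ.ker ⊓ MulAction.stabilizer G v : Subgroup G))
    (hv : Hierarchy (MulAction.stabilizer G v) (χ.comp (MulAction.stabilizer G v).subtype)) :
    ∃ g : G, g • v = v ∧ χ g ≠ 1 ∧ ∀ x ∈ χ.ker, x • v = v → g * x = x * g := by
  obtain ⟨g, h1, h2, h3⟩ := vertex_group χ e hne hG hT.tree hT.adj hT.cyclic hT.transverse
    hT.fg hT.noFixed v hcyc (vertex_ok χ e hG hT v hv)
  exact ⟨g, h1, h2, fun x hx hxv => h3 x hx hxv⟩

/-- the global theorem -/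
theorem tree_final {α : Type} [Finite α] (e : χ.ker ≃* FreeGroup α) (hne : ∃ g, χ g ≠ 1)
    (hG : Run7.h574.LERF G) {V : Type} [MulAction G V] {T : SimpleGraph V} (hT : CyclicAction χ T)
    (hv : ∀ v : V, ¬ IsCyclic (χ.ker ⊓ MulAction.stabilizer G v : Subgroup G) →
      Hierarchy (MulAction.stabilizer G v) (χ.comp (MulAction.stabilizer G v).subtype)) :
    ∃ g : G, χ g ≠ 1 ∧ ∀ x ∈ χ.ker, g * x = x * g := by
  obtain ⟨g, h1, h2⟩ := classify_group χ e hne hG hT.tree hT.adj hT.cyclic hT.transverse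
    hT.fg hT.noFixed (fun v hcyc => vertex_ok χ e hG hT v (hv v hcyc))
  exact ⟨g, h1, fun x hx => h2 x hx⟩

lemma chi_pow {g : G} (hg : χ g ≠ 1) {n : ℤ} (hn : n ≠ 0) : χ (g ^ n) ≠ 1 := by
  rw [map_zpow]
  intro h1
  have h2 := congrArg Multiplicative.toAdd h1
  rw [toAdd_zpow, toAdd_one, smul_eq_mul] at h2
  rcases mul_eq_zero.mp h2 with h3 | h3
  · exact hn h3
  · exact hg (Multiplicative.toAdd.injective h3)

/-- the global theorem for a subgroup of finite index -/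
theorem tree_final_fi {α : Type} [Finite α] (e : χ.ker ≃* FreeGroup α) (hne : ∃ g, χ g ≠ 1)
    (hG : Run7.h574.LERF G) (K : Subgroup G) (hK : K.FiniteIndex) {V : Type} [MulAction K V]
    {T : SimpleGraph V} (hT : CyclicAction (χ.comp K.subtype) T)
    (hv : ∀ v : V, ¬ IsCyclic ((χ.comp K.subtype).ker ⊓ MulAction.stabilizer K v : Subgroup K) →
      Hierarchy (MulAction.stabilizer K v)
        ((χ.comp K.subtype).comp (MulAction.stabilizer K v).subtype)) :
    ∃ g : G, χ g ≠ 1 ∧ ∀ x ∈ χ.ker, g * x = x * g := by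
  have hkfg : χ.ker.FG := by
    have h1 : Group.FG χ.ker := Group.fg_of_surjective (f := e.symm.toMonoidHom) e.symm.surjective
    exact (Group.fg_iff_subgroup_fg _).mp h1
  obtain ⟨β, hβ, ⟨i⟩, ⟨j⟩⟩ := exists_free_ker χ e K (fg_inf hkfg)
  have hneK : ∃ g : K, (χ.comp K.subtype) g ≠ 1 := by
    obtain ⟨g, hg⟩ := hne
    obtain ⟨n, hn, hn'⟩ := exists_pow_mem K g
    exact ⟨⟨g ^ n, hn'⟩, chi_pow χ hg hn.ne'⟩
  obtain ⟨g, hg, hcom⟩ := tree_final (χ.comp K.subtype) i hneK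
    (lerf_inj hG K.subtype (Subgroup.subtype_injective _)) hT hv
  refine ⟨g, hg, ?_⟩
  intro x hx
  obtain ⟨n, hn, hn'⟩ := exists_pow_mem K x
  have h1 := congrArg Subtype.val (hcom ⟨x ^ n, hn'⟩ (by
    rw [MonoidHom.mem_ker]
    show χ (x ^ n) = 1
    rw [map_zpow, MonoidHom.mem_ker.mp hx, one_zpow]))
  have h2 : (g : G) * x ^ n = x ^ n * (g : G) := h1
  have h3 : (g : G) * x * (g : G)⁻¹ ∈ χ.ker := Subgroup.Normal.conj_mem inferInstance x hx _
  have h4 : ((g : G) * x * (g : G)⁻¹) ^ n = x ^ n := by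
    rw [conj_zpow, h2, mul_inv_cancel_right]
  have h5 : (e ⟨_, h3⟩) ^ n = (e ⟨x, hx⟩) ^ n := by
    rw [← map_zpow, ← map_zpow]
    congr 1
    exact Subtype.ext h4
  have h6 := e.injective (zpow_inj hn.ne' h5)
  have h7 : (g : G) * x * (g : G)⁻¹ = x := congrArg Subtype.val h6
  rw [mul_inv_eq_iff_eq_mul] at h7
  exact h7

/-- the tameness condition from the hierarchy -/
lemma pair_ok {α : Type} [Finite α] (e : χ.ker ≃* FreeGroup α) (hG : Run7.h574.LERF G)
    {A : Subgroup G} (hAk : A ≤ χ.ker) (hA : A.FG) {u : G} (hu : χ u ≠ 1)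
    (hAu : ∀ x, x ∈ A ↔ u * x * u⁻¹ ∈ A)
    (hT : ¬ IsCyclic A → Hierarchy (A ⊔ Subgroup.zpowers u : Subgroup G)
      (χ.comp (A ⊔ Subgroup.zpowers u).subtype)) :
    IsCyclic A ∨ HSep (A ⊔ Subgroup.zpowers u : Subgroup G) ∨ Nonempty (A ≃* F2) := by
  by_cases hcyc : IsCyclic A
  · exact Or.inl hcyc
  right
  have hker := ker_sup χ hAk hu hAu
  obtain ⟨β, hβ, hi, ⟨j⟩⟩ := exists_free_ker χ e (A ⊔ Subgroup.zpowers u) (by rw [hker]; exact hA)
  have hne : ∃ g : (A ⊔ Subgroup.zpowers u : Subgroup G),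
      (χ.comp (A ⊔ Subgroup.zpowers u).subtype) g ≠ 1 :=
    ⟨⟨u, Subgroup.mem_sup_right (Subgroup.mem_zpowers u)⟩, hu⟩
  rcases hierarchy_sep (hT hcyc) (lerf_inj hG (A ⊔ Subgroup.zpowers u).subtype
    (Subgroup.subtype_injective _)) ⟨β, hβ, hi⟩ hne with h1 | h1
  · exact Or.inl h1
  · obtain ⟨k⟩ := h1
    exact Or.inr ⟨((MulEquiv.subgroupCongr hker.symm).trans j.symm).trans k⟩

end

end Run7.h574
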