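import Pool.Agent.Run7.h574.HSepFree
import Pool.Agent.H599R3.RF

/-!
# Separation by virtual homomorphisms in right-angled Artin groups
-/

set_option autoImplicit false
set_option linter.unusedSectionVars false
set_option linter.dupNamespace false

namespace Run7.h574

open Pool.Agent.H599R3
open Pool.Agent.Helper180.FreeMetric

section semi

variable {Y F : Type} [Group F] (β : F →* Equiv.Perm Y)

/-- the semidirect product of a free group with a group permuting the basis -/
abbrev FS : Type := FreeGroup Y ⋊[(fperm Y).comp β] F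

lemma fs_inl {z : FS β} (hz : z.right = 1) : z = SemidirectProduct.inl z.left :=
  SemidirectProduct.ext rfl hz

lemma hsep_fs [Finite F] : HSep (FS β) := by
  have h1 : (SemidirectProduct.rightHom : FS β →* F).ker.FiniteIndex := inferInstance
  apply hsep_fi _ h1
  let f : (SemidirectProduct.rightHom : FS β →* F).ker →* FreeGroup Y :=
    { toFun := fun z => z.1.left
      map_one' := rfl
      map_mul' := by
        rintro ⟨a, ha⟩ ⟨b, hb⟩
        have ha' : a.right = 1 := ha
        show a.left * ((fperm Y).comp β) a.right b.left = a.left * b.left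
        rw [ha', map_one, MulAut.one_apply] }
  apply hsep_inj (hsep_free Y) f
  rintro ⟨a, ha⟩ ⟨b, hb⟩ hab
  apply Subtype.ext
  have ha' : a.right = 1 := ha
  have hb' : b.right = 1 := hb
  exact SemidirectProduct.ext hab (ha'.trans hb'.symm)

lemma claimB [Finite F] {t y : FS β} (hr : t.right = y.right) (hty : t ≠ y)
    (ht : ∀ N : ℤ, 0 < N → t ^ N ≠ 1) : ∀ N : ℤ, 0 < N → t ^ N ≠ y ^ N := by
  intro N hN hNe
  obtain ⟨n, hn, hn'⟩ := exists_pow_mem (⊥ : Subgroup F) t.right
  have hn'' : t.right ^ n = 1 := hn'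
  set g : FS β := t ^ (N * n) with hg
  have hgy : g = y ^ (N * n) := by rw [hg, zpow_mul, hNe, ← zpow_mul]
  have hgr : g.right = 1 := by
    have : g.right = SemidirectProduct.rightHom g := rfl
    rw [this, hg, map_zpow]
    show t.right ^ (N * n) = 1
    rw [mul_comm, zpow_mul, hn'', one_zpow]
  set δ : FS β := t * y⁻¹ with hδ
  have hδr : δ.right = 1 := by
    have : δ.right = SemidirectProduct.rightHom δ := rfl
    rw [this, hδ, map_mul, map_inv]
    show t.right * y.right⁻¹ = 1
    rw [hr, mul_inv_cancel]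
  have hg1 : g ≠ 1 := ht _ (mul_pos hN hn)
  have hδ1 : δ ≠ 1 := by
    intro h
    exact hty (mul_inv_eq_one.mp h)
  have e1 := fs_inl β hgr
  have e2 := fs_inl β hδr
  set g₀ := g.left with hg₀
  set δ₀ := δ.left with hδ₀
  have hg₀1 : g₀ ≠ 1 := by
    intro h
    apply hg1
    rw [e1, h, map_one]
  have hδ₀1 : δ₀ ≠ 1 := by
    intro h
    apply hδ1
    rw [e2, h, map_one]
  have hyg : Commute y g := by
    rw [hgy]
    exact (Commute.refl y).zpow_right _
  have htg : Commute t g := by
    rw [hg]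
    exact (Commute.refl t).zpow_right _
  have hδg : Commute δ g := htg.mul_left hyg.inv_left
  have hδg₀ : δ₀ * g₀ = g₀ * δ₀ := by
    apply SemidirectProduct.inl_injective (φ := (fperm Y).comp β)
    rw [map_mul, map_mul, ← e1, ← e2]
    exact hδg.eq
  obtain ⟨r, -, hrc⟩ := centralizer_cyclic g₀ hg₀1
  obtain ⟨i, hi⟩ := hrc δ₀ hδg₀
  obtain ⟨j, hj⟩ := hrc g₀ rfl
  have hj0 : j ≠ 0 := by
    rintro rfl
    rw [zpow_zero] at hj
    exact hg₀1 hj
  have hpow : δ ^ j = g ^ i := by
    rw [e1, e2, ← map_zpow, ← map_zpow]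
    congr 1
    rw [hi]
    conv_rhs => rw [hj]
    rw [← zpow_mul, ← zpow_mul, mul_comm]
  have hyδ : y * δ * y⁻¹ = δ := by
    have h1 : (y * δ * y⁻¹).right = 1 := by
      have : (y * δ * y⁻¹).right = SemidirectProduct.rightHom (y * δ * y⁻¹) := rfl
      rw [this, map_mul, map_mul, map_inv]
      show y.right * δ.right * y.right⁻¹ = 1
      rw [hδr]; group
    have h3 : (y * δ * y⁻¹) ^ j = δ ^ j := by
      rw [conj_zpow, hpow]
      have : Commute y (g ^ i) := hyg.zpow_right i
      rw [this.eq, mul_inv_cancel_right]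
    generalize y * δ * y⁻¹ = w at h1 h3
    have h2 := fs_inl β h1
    have h4 : w.left ^ j = δ₀ ^ j := by
      apply SemidirectProduct.inl_injective (φ := (fperm Y).comp β)
      rw [map_zpow, map_zpow, ← h2, ← e2]
      exact h3
    rw [h2, zpow_inj hj0 h4, ← e2]
  have hcyδ : Commute δ y := by
    have : y * δ = δ * y := mul_inv_eq_iff_eq_mul.mp hyδ
    exact this.symm
  have ht' : t = δ * y := by rw [hδ, inv_mul_cancel_right]
  have h6 : δ ^ N = 1 := by
    have h7 : t ^ N = δ ^ N * y ^ N := by rw [ht', hcyδ.mul_zpow]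
    rw [hNe] at h7
    exact (mul_eq_right.mp h7.symm)
  rw [e2, ← map_zpow] at h6
  have h7 : δ₀ ^ N = 1 ^ N := by
    rw [one_zpow]
    apply SemidirectProduct.inl_injective (φ := (fperm Y).comp β)
    rw [h6, map_one]
  exact hδ₀1 (zpow_inj hN.ne' h7)

end semi

/-! ### finite data -/

/-- a finite quotient of a group together with an equivariant map from a coset space -/
structure Dat {H : Type} [Group H] (K : Subgroup H) where
  F : Type
  gF : Group F
  fF : Finite F
  θ : H →* F
  Y : Type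
  β : F →* Equiv.Perm Y
  π : H ⧸ K → Y
  eqv : ∀ (h : H) (x : H ⧸ K), π (h • x) = β (θ h) (π x)

attribute [instance] Dat.gF Dat.fF

section dat

variable {H : Type} [Group H] {K : Subgroup H}

/-- the semidirect product over a coset space -/
abbrev FX (K : Subgroup H) : Type :=
  FreeGroup (H ⧸ K) ⋊[(fperm _).comp (MulAction.toPermHom H (H ⧸ K))] H

/-- the homomorphism given by finite data -/
noncomputable def Dat.hom (D : Dat K) : FX K →* FS D.β :=
  SemidirectProduct.map (FreeGroup.map D.π) D.θ (by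
    intro g
    ext x
    show FreeGroup.map D.π (fperm _ (MulAction.toPermHom H (H ⧸ K) g) (FreeGroup.of x)) =
      fperm _ (D.β (D.θ g)) (FreeGroup.map D.π (FreeGroup.of x))
    rw [fperm_of, FreeGroup.map.of, FreeGroup.map.of, fperm_of]
    congr 1
    exact D.eqv g x)

lemma Dat.hom_left (D : Dat K) (z : FX K) : (D.hom z).left = FreeGroup.map D.π z.left := rfl

lemma Dat.hom_right (D : Dat K) (z : FX K) : (D.hom z).right = D.θ z.right := rfl

/-- pull back along an endomorphism -/
def Dat.pull (D : Dat K) (e : H →* H) (he : ∀ k ∈ K, e k ∈ K) : Dat K where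
  F := D.F
  gF := D.gF
  fF := D.fF
  θ := D.θ.comp e
  Y := D.Y
  β := D.β
  π := fun x => D.π (Quotient.map' e (by
    intro a b hab
    rw [QuotientGroup.leftRel_apply] at hab ⊢
    rw [← map_inv, ← map_mul]
    exact he _ hab) x)
  eqv := by
    intro h x
    induction x using QuotientGroup.induction_on with
    | H x =>
      show D.π (QuotientGroup.mk (e (h * x))) = D.β (D.θ (e h)) (D.π (QuotientGroup.mk (e x)))
      rw [map_mul, ← D.eqv]
      rfl

/-- product of data -/
def Dat.prod (D D' : Dat K) : Dat K where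
  F := D.F × D'.F
  gF := inferInstance
  fF := inferInstance
  θ := D.θ.prod D'.θ
  Y := D.Y × D'.Y
  β :=
    { toFun := fun f => Equiv.prodCongr (D.β f.1) (D'.β f.2)
      map_one' := by
        ext y <;> simp
      map_mul' := by
        intro f g
        ext y <;> simp }
  π := fun x => (D.π x, D'.π x)
  eqv := by
    intro h x
    show (D.π (h • x), D'.π (h • x)) = (D.β (D.θ h) (D.π x), D'.β (D'.θ h) (D'.π x))
    rw [D.eqv, D'.eqv]

lemma Dat.prod_eq (D D' : Dat K) {z z' : FX K} (h : (D.prod D').hom z = (D.prod D').hom z') :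
    D.hom z = D.hom z' ∧ D'.hom z = D'.hom z' := by
  have h1 : FreeGroup.map (D.prod D').π z.left = FreeGroup.map (D.prod D').π z'.left :=
    congrArg SemidirectProduct.left h
  have h2 : (D.prod D').θ z.right = (D.prod D').θ z'.right := congrArg SemidirectProduct.right h
  have k1 : ∀ κ, FreeGroup.map D.π κ = FreeGroup.map (Prod.fst : D.Y × D'.Y → D.Y)
      (FreeGroup.map (fun x => (D.π x, D'.π x)) κ) := fun κ => by
    rw [FreeGroup.map.comp]; rfl
  have k2 : ∀ κ, FreeGroup.map D'.π κ = FreeGroup.map (Prod.snd : D.Y × D'.Y → D'.Y)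
      (FreeGroup.map (fun x => (D.π x, D'.π x)) κ) := fun κ => by
    rw [FreeGroup.map.comp]; rfl
  have h1' : FreeGroup.map (fun x => (D.π x, D'.π x)) z.left =
    FreeGroup.map (fun x => (D.π x, D'.π x)) z'.left := h1
  constructor
  · apply SemidirectProduct.ext
    · rw [D.hom_left, D.hom_left, k1, k1, h1']
    · exact congrArg Prod.fst h2
  · apply SemidirectProduct.ext
    · rw [D'.hom_left, D'.hom_left, k2, k2, h1']
    · exact congrArg Prod.snd h2

/-- existence of data separating finitely many cosets; compare `rfin_retract` -/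
theorem exists_dat (hH : RFin H) (ρ : H →* H)
    (T : Finset (H ⧸ (MonoidHom.eqLocus ρ (MonoidHom.id H)))) :
    ∃ D : Dat (MonoidHom.eqLocus ρ (MonoidHom.id H)), Set.InjOn D.π (T : Set _) := by
  classical
  let K := MonoidHom.eqLocus ρ (MonoidHom.id H)
  let S : Finset H := ((T ×ˢ T).filter (fun p => p.1 ≠ p.2)).image
    (fun p => (p.1.out⁻¹ * p.2.out)⁻¹ * ρ (p.1.out⁻¹ * p.2.out))
  have hS : ∀ s ∈ S, s ≠ 1 := by
    intro s hs h1
    simp only [S, Finset.mem_image, Finset.mem_filter, Finset.mem_product] at hs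
    obtain ⟨p, ⟨hp, hne⟩, rfl⟩ := hs
    apply hne
    rw [inv_mul_eq_one] at h1
    have h2 : p.1.out⁻¹ * p.2.out ∈ K := h1.symm
    have h3 := (QuotientGroup.eq (s := K)).2 h2
    simpa using h3
  obtain ⟨Q, i1, i2, q, hq⟩ := rfin_finset hH S hS
  let π : H ⧸ K → Q := Quotient.lift (fun h => q h * (q (ρ h))⁻¹) (by
    intro a b hab
    have h1 : a⁻¹ * b ∈ K := QuotientGroup.leftRel_apply.1 hab
    have h2 : ρ (a⁻¹ * b) = a⁻¹ * b := h1
    obtain ⟨c, rfl⟩ : ∃ c, b = a * c := ⟨a⁻¹ * b, by group⟩
    rw [inv_mul_cancel_left] at h2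
    show q a * (q (ρ a))⁻¹ = q (a * c) * (q (ρ (a * c)))⁻¹
    rw [map_mul ρ, h2, map_mul, map_mul]
    group)
  have hπ : ∀ h : H, π (QuotientGroup.mk h) = q h * (q (ρ h))⁻¹ := fun h => rfl
  refine ⟨⟨Q × Q, inferInstance, inferInstance, q.prod (q.comp ρ), Q, two Q, π, ?_⟩, ?_⟩
  · intro h x
    induction x using QuotientGroup.induction_on with
    | H x =>
      show π (QuotientGroup.mk (h * x)) = q h * (π (QuotientGroup.mk x)) * (q (ρ h))⁻¹
      rw [hπ, hπ, map_mul, map_mul, map_mul]
      group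
  · intro x hx y hy hxy
    by_contra hne
    have h1 : (x.out⁻¹ * y.out)⁻¹ * ρ (x.out⁻¹ * y.out) ∈ S := by
      simp only [S, Finset.mem_image, Finset.mem_filter, Finset.mem_product]
      exact ⟨(x, y), ⟨⟨hx, hy⟩, hne⟩, rfl⟩
    apply hq _ h1
    have hxy' : π x = π y := hxy
    have h2 : π (QuotientGroup.mk x.out) = π (QuotientGroup.mk y.out) := by simpa using hxy'
    rw [hπ, hπ] at h2
    have h3 : q y.out * (q (ρ y.out))⁻¹ * (q (ρ x.out) * (q x.out)⁻¹) = 1 := by
      rw [← h2]; group
    rw [map_mul, map_inv, map_mul, map_inv, map_mul, map_inv, map_mul, map_inv]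
    have h4 : q x.out = q y.out * (q (ρ y.out))⁻¹ * q (ρ x.out) := by
      rw [eq_comm, ← mul_inv_eq_one]
      rw [← h3]; group
    rw [h4]
    group

lemma map_ne_one {X Y : Type} [DecidableEq X] (π : X → Y) (κ : FreeGroup X) (hκ : κ ≠ 1)
    (hinj : Set.InjOn π ((κ.toWord.map Prod.fst).toFinset : Set X)) : FreeGroup.map π κ ≠ 1 := by
  intro h4
  obtain hX | hX := isEmpty_or_nonempty X
  · exact hκ (Subsingleton.elim _ _)
  · have h5 : FreeGroup.map (Function.invFunOn π ((κ.toWord.map Prod.fst).toFinset : Set X))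
        (FreeGroup.map π κ) = κ := by
      rw [FreeGroup.map.comp]
      apply map_fix
      intro p hp
      show Function.invFunOn π _ (π p.1) = p.1
      have h6 : p.1 ∈ ((κ.toWord.map Prod.fst).toFinset : Set X) := by
        simp only [List.coe_toFinset, Set.mem_ofPred_eq, List.mem_map]
        exact ⟨p, hp, rfl⟩
      exact hinj.leftInvOn_invFunOn h6
    rw [h4, map_one] at h5
    exact hκ h5.symm

end dat

/-! ### right-angled Artin groups -/

section raag

variable {V : Type} (Γ : SimpleGraph V)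

open Classical in
/-- the retraction to the subgroup of a set of vertices -/
noncomputable def ret (S : Set V) : AG Γ →* AG Γ :=
  aglift Γ (fun v => if v ∈ S then PresentedGroup.of v else 1) (by
    intro s t hst
    by_cases h1 : s ∈ S <;> by_cases h2 : t ∈ S <;> simp [h1, h2]
    exact ag_comm hst)

lemma ret_of {S : Set V} {v : V} (h : v ∈ S) :
    ret Γ S (PresentedGroup.of v) = PresentedGroup.of v := by
  unfold ret
  rw [aglift_of, if_pos h]

lemma ret_of' {S : Set V} {v : V} (h : v ∉ S) : ret Γ S (PresentedGroup.of v) = 1 := by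
  unfold ret
  rw [aglift_of, if_neg h]

lemma ret_ret (S T : Set V) (g : AG Γ) : ret Γ S (ret Γ T g) = ret Γ (S ∩ T) g := by
  have : (ret Γ S).comp (ret Γ T) = ret Γ (S ∩ T) := by
    apply aghom_ext
    intro v
    rw [MonoidHom.comp_apply]
    by_cases h1 : v ∈ T
    · rw [ret_of Γ h1]
      by_cases h2 : v ∈ S
      · rw [ret_of Γ h2, ret_of Γ (show v ∈ S ∩ T from ⟨h2, h1⟩)]
      · rw [ret_of' Γ h2, ret_of' Γ (show v ∉ S ∩ T from fun h => h2 h.1)]
    · rw [ret_of' Γ h1, map_one, ret_of' Γ (show v ∉ S ∩ T from fun h => h1 h.2)]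
  exact DFunLike.congr_fun this g

lemma ret_univ (g : AG Γ) : ret Γ Set.univ g = g := by
  have : ret Γ Set.univ = MonoidHom.id _ := by
    apply aghom_ext
    intro v
    rw [ret_of Γ (Set.mem_univ v)]
    rfl
  exact DFunLike.congr_fun this g

lemma ret_empty (g : AG Γ) : ret Γ ∅ g = 1 := by
  have : ret Γ ∅ = 1 := by
    apply aghom_ext
    intro v
    rw [ret_of' Γ (Set.notMem_empty v)]
    rfl
  exact DFunLike.congr_fun this g

/-- the subgroup of the link of a vertex -/
noncomputable abbrev KL (v : V) : Subgroup (AG Γ) :=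
  MonoidHom.eqLocus (ret Γ {u | Γ.Adj v u}) (MonoidHom.id _)

lemma fx_conj {H : Type} [Group H] {K : Subgroup H} (g : H) (x : H ⧸ K) :
    (SemidirectProduct.inr g : FX K) * SemidirectProduct.inl (FreeGroup.of x) =
      SemidirectProduct.inl (FreeGroup.of (g • x)) * SemidirectProduct.inr g := by
  have h1 := SemidirectProduct.inl_aut (φ := (fperm _).comp
    (MulAction.toPermHom H (H ⧸ K))) g (FreeGroup.of x)
  have h2 : ((fperm _).comp (MulAction.toPermHom H (H ⧸ K))) g
      (FreeGroup.of x) = FreeGroup.of (g • x) := fperm_of _ _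
  rw [h2] at h1
  rw [h1]
  simp

open Classical in
/-- the map to the semidirect product -/
noncomputable def phi (v : V) : AG Γ →* FX (KL Γ v) :=
  aglift Γ (fun s => if s = v then
      SemidirectProduct.inl (FreeGroup.of (QuotientGroup.mk (1 : AG Γ)))
    else SemidirectProduct.inr (PresentedGroup.of s)) (by
    have key : ∀ s : V, Γ.Adj v s →
        (SemidirectProduct.inr (PresentedGroup.of s) : FX (KL Γ v)) *
          SemidirectProduct.inl (FreeGroup.of (QuotientGroup.mk (1 : AG Γ))) =
        SemidirectProduct.inl (FreeGroup.of (QuotientGroup.mk (1 : AG Γ))) *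
          SemidirectProduct.inr (PresentedGroup.of s) := by
      intro s hs
      rw [fx_conj]
      congr 3
      show (QuotientGroup.mk (PresentedGroup.of s * 1) : AG Γ ⧸ KL Γ v) = QuotientGroup.mk 1
      rw [mul_one, QuotientGroup.eq, mul_one, inv_mem_iff]
      exact ret_of Γ (show s ∈ {u | Γ.Adj v u} from hs)
    intro s t hst
    by_cases h1 : s = v <;> by_cases h2 : t = v
    · rw [h1, h2] at hst
      exact absurd hst Γ.irrefl
    · rw [if_pos h1, if_neg h2]
      rw [h1] at hst
      exact (key t hst).symm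
    · rw [if_neg h1, if_pos h2]
      rw [h2] at hst
      exact key s hst.symm
    · rw [if_neg h1, if_neg h2, ← map_mul, ← map_mul]
      congr 1
      exact ag_comm hst)

lemma phi_self (v : V) : phi Γ v (PresentedGroup.of v) =
    SemidirectProduct.inl (FreeGroup.of (QuotientGroup.mk (1 : AG Γ))) := by
  unfold phi
  rw [aglift_of, if_pos rfl]

lemma phi_ne {v s : V} (h : s ≠ v) : phi Γ v (PresentedGroup.of s) =
    SemidirectProduct.inr (PresentedGroup.of s) := by
  unfold phi
  rw [aglift_of, if_neg h]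

lemma phi_right (v : V) (g : AG Γ) : (phi Γ v g).right = ret Γ {u | u ≠ v} g := by
  have : (SemidirectProduct.rightHom).comp (phi Γ v) = ret Γ {u | u ≠ v} := by
    apply aghom_ext
    intro s
    rw [MonoidHom.comp_apply]
    by_cases h : s = v
    · subst h
      rw [phi_self, SemidirectProduct.rightHom_inl, ret_of' Γ (show s ∉ {u | u ≠ s} from fun h => h rfl)]
    · rw [phi_ne Γ h, SemidirectProduct.rightHom_inr, ret_of Γ (show s ∈ {u | u ≠ v} from h)]
  exact DFunLike.congr_fun this g

lemma link_comm (v : V) (k : AG Γ) (hk : k ∈ KL Γ v) : k * ag Γ v = ag Γ v * k := by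
  have h1 : (MulAut.conj (ag Γ v)).toMonoidHom.comp (ret Γ {u | Γ.Adj v u}) =
      ret Γ {u | Γ.Adj v u} := by
    apply aghom_ext
    intro s
    by_cases hs : Γ.Adj v s
    · simp only [MonoidHom.comp_apply, ret_of Γ (show s ∈ {u | Γ.Adj v u} from hs)]
      show ag Γ v * ag Γ s * (ag Γ v)⁻¹ = ag Γ s
      rw [ag_comm hs]; group
    · simp only [MonoidHom.comp_apply, ret_of' Γ (show s ∉ {u | Γ.Adj v u} from hs), map_one]
  have h3 := DFunLike.congr_fun h1 k
  have hk' : ret Γ {u | Γ.Adj v u} k = k := hk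
  have h4 : ag Γ v * ret Γ {u | Γ.Adj v u} k * (ag Γ v)⁻¹ = ret Γ {u | Γ.Adj v u} k := h3
  rw [hk', mul_inv_eq_iff_eq_mul] at h4
  exact h4.symm

/-- the free part of the inverse map -/
noncomputable def bk (v : V) : FreeGroup (AG Γ ⧸ KL Γ v) →* AG Γ :=
  FreeGroup.lift (fun x => x.out * ag Γ v * (x.out)⁻¹)

lemma bk_of (v : V) (h : AG Γ) : bk Γ v (FreeGroup.of (QuotientGroup.mk h)) =
    h * ag Γ v * h⁻¹ := by
  unfold bk
  rw [FreeGroup.lift_apply_of]
  obtain ⟨k, hk⟩ := QuotientGroup.mk_out_eq_mul (KL Γ v) h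
  rw [hk]
  have h2 := link_comm Γ v k.1 k.2
  have h3 : h * k.1 * ag Γ v * (h * k.1)⁻¹ = h * (k.1 * ag Γ v) * (k.1)⁻¹ * h⁻¹ := by group
  rw [h3, h2]
  group

/-- the inverse map -/
noncomputable def bks (v : V) : FX (KL Γ v) →* AG Γ :=
  SemidirectProduct.lift (bk Γ v) (MonoidHom.id _) (by
    intro g
    ext x
    induction x using QuotientGroup.induction_on with
    | H x =>
      show bk Γ v (fperm _ (MulAction.toPermHom (AG Γ) (AG Γ ⧸ KL Γ v) g)
        (FreeGroup.of (QuotientGroup.mk x))) =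
        g * bk Γ v (FreeGroup.of (QuotientGroup.mk x)) * g⁻¹
      rw [fperm_of]
      show bk Γ v (FreeGroup.of (QuotientGroup.mk (g * x))) = _
      rw [bk_of, bk_of]
      group)

lemma bks_phi (v : V) (g : AG Γ) : bks Γ v (phi Γ v g) = g := by
  have h1 : (bks Γ v).comp (phi Γ v) = MonoidHom.id _ := by
    apply aghom_ext
    intro s
    rw [MonoidHom.comp_apply]
    by_cases hs : s = v
    · subst hs
      rw [phi_self]
      unfold bks
      rw [SemidirectProduct.lift_inl, bk_of]
      simp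
    · rw [phi_ne Γ hs]
      unfold bks
      rw [SemidirectProduct.lift_inr]
  exact DFunLike.congr_fun h1 g

lemma phi_inj (v : V) : Function.Injective (phi Γ v) := by
  intro a b hab
  rw [← bks_phi Γ v a, ← bks_phi Γ v b, hab]

lemma ret_KL (S : Set V) (v : V) : ∀ k ∈ KL Γ v, ret Γ S k ∈ KL Γ v := by
  intro k hk
  have hk' : ret Γ {u | Γ.Adj v u} k = k := hk
  show ret Γ {u | Γ.Adj v u} (ret Γ S k) = ret Γ S k
  rw [ret_ret, Set.inter_comm, ← ret_ret, hk']

lemma pull_phi {v : V} (D : Dat (KL Γ v)) {S : Set V} (hv : v ∈ S) (g : AG Γ) :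
    (D.pull (ret Γ S) (ret_KL Γ S v)).hom (phi Γ v g) = D.hom (phi Γ v (ret Γ S g)) := by
  have h1 : ((D.pull (ret Γ S) (ret_KL Γ S v)).hom.comp (phi Γ v) : AG Γ →* FS D.β) =
      (D.hom.comp (phi Γ v)).comp (ret Γ S) := by
    apply aghom_ext
    intro s
    show (D.pull (ret Γ S) (ret_KL Γ S v)).hom (phi Γ v (PresentedGroup.of s)) =
      D.hom (phi Γ v (ret Γ S (PresentedGroup.of s)))
    by_cases hs : s = v
    · subst hs
      rw [ret_of Γ hv, phi_self]
      apply SemidirectProduct.ext
      · show FreeGroup.map _ (FreeGroup.of _) = FreeGroup.map _ (FreeGroup.of _)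
        rw [FreeGroup.map.of, FreeGroup.map.of]
        congr 1
      · show D.θ (ret Γ S 1) = D.θ 1
        rw [map_one]
    · by_cases hsS : s ∈ S
      · rw [ret_of Γ hsS, phi_ne Γ hs]
        apply SemidirectProduct.ext
        · show FreeGroup.map _ 1 = FreeGroup.map _ 1
          rw [map_one, map_one]
        · show D.θ (ret Γ S (PresentedGroup.of s)) = D.θ (PresentedGroup.of s)
          rw [ret_of Γ hsS]
      · rw [ret_of' Γ hsS, phi_ne Γ hs, map_one, map_one]
        apply SemidirectProduct.ext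
        · show FreeGroup.map _ 1 = 1
          rw [map_one]
        · show D.θ (ret Γ S (PresentedGroup.of s)) = 1
          rw [ret_of' Γ hsS, map_one]
  exact DFunLike.congr_fun h1 g

/-- minimal sets of vertices -/
lemma exists_min [Finite V] (P : Set V → Prop) (h : P Set.univ) :
    ∃ S, P S ∧ ∀ T, T ⊆ S → P T → T = S := by
  classical
  obtain ⟨S, hS, hmin⟩ := Set.Finite.exists_minimal (s := {S : Set V | P S})
    (Set.toFinite _) ⟨Set.univ, h⟩
  exact ⟨S, hS, fun T hT hPT => le_antisymm hT (hmin hPT hT)⟩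

theorem hsep_raag [Finite V] : HSep (AG Γ) := by
  classical
  -- the main case
  have main : ∀ t y : AG Γ, t ≠ y → ∀ S : Set V, ret Γ S t ≠ ret Γ S y →
      (∀ T, T ⊆ S → ret Γ T t ≠ ret Γ T y → T = S) → ret Γ S t ≠ 1 →
      ∃ (v : V) (D : Dat (KL Γ v)), ∀ N : ℤ, 0 < N →
        (D.hom (phi Γ v (ret Γ S t))) ^ N ≠ (D.hom (phi Γ v (ret Γ S y))) ^ N := by
    intro t y hty S hS hmin ht1
    obtain ⟨S', hS', hmin'⟩ := exists_min (fun T => ret Γ T (ret Γ S t) ≠ 1)
      (by show ret Γ Set.univ (ret Γ S t) ≠ 1; rw [ret_univ]; exact ht1)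
    have hS'S : S' ⊆ S := by
      have : S' ∩ S = S' := by
        apply hmin' _ Set.inter_subset_left
        show ret Γ (S' ∩ S) (ret Γ S t) ≠ 1
        rw [← ret_ret, ret_ret Γ S S, Set.inter_self]
        exact hS'
      rw [← this]
      exact Set.inter_subset_right
    obtain ⟨v, hv⟩ : S'.Nonempty := by
      rw [Set.nonempty_iff_ne_empty]
      rintro rfl
      exact hS' (ret_empty Γ _)
    have hvS : v ∈ S := hS'S hv
    set t₁ := ret Γ S t with ht₁
    set y₁ := ret Γ S y with hy₁
    set κt := (phi Γ v t₁).left with hκt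
    set κy := (phi Γ v y₁).left with hκy
    have hright : (phi Γ v t₁).right = (phi Γ v y₁).right := by
      rw [phi_right, phi_right, ht₁, hy₁, ret_ret, ret_ret]
      by_contra hne
      have := hmin _ Set.inter_subset_right hne
      have h1 : v ∈ {u | u ≠ v} ∩ S := by rw [this]; exact hvS
      exact h1.1 rfl
    have hκ : κt ≠ κy := by
      intro h
      exact hS (phi_inj Γ v (SemidirectProduct.ext h hright))
    set t₂ := ret Γ S' t₁ with ht₂
    have ht₂1 : t₂ ≠ 1 := hS'
    have ht₂r : (phi Γ v t₂).right = 1 := by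
      rw [phi_right, ht₂, ret_ret]
      by_contra hne
      have := hmin' _ Set.inter_subset_right hne
      have h1 : v ∈ {u | u ≠ v} ∩ S' := by rw [this]; exact hv
      exact h1.1 rfl
    set κ₂ := (phi Γ v t₂).left with hκ₂
    have hκ₂1 : κ₂ ≠ 1 := by
      intro h
      apply ht₂1
      apply phi_inj Γ v
      rw [map_one]
      exact SemidirectProduct.ext h ht₂r
    have hκ3 : κt⁻¹ * κy ≠ 1 := fun h => hκ (inv_mul_eq_one.mp h)
    obtain ⟨D, hD⟩ := exists_dat (rfin_raag Γ) (ret Γ {u | Γ.Adj v u}) (((κt⁻¹ * κy).toWord.map Prod.fst).toFinset ∪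
        (κ₂.toWord.map Prod.fst).toFinset)
    have hD1 : FreeGroup.map D.π (κt⁻¹ * κy) ≠ 1 := map_ne_one D.π _ hκ3
      (hD.mono (by rw [Finset.coe_union]; exact Set.subset_union_left))
    have hD2 : FreeGroup.map D.π κ₂ ≠ 1 := map_ne_one D.π _ hκ₂1
      (hD.mono (by rw [Finset.coe_union]; exact Set.subset_union_right))
    let D' := D.pull (ret Γ S') (ret_KL Γ S' v)
    refine ⟨v, D.prod D', ?_⟩
    apply claimB
    · rw [Dat.hom_right, Dat.hom_right, hright]
    · intro h
      have h1 := (Dat.prod_eq D D' h).1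
      have h2 : FreeGroup.map D.π κt = FreeGroup.map D.π κy := congrArg SemidirectProduct.left h1
      apply hD1
      rw [map_mul, map_inv, h2, inv_mul_cancel]
    · intro N hN h
      rw [← map_zpow, ← map_one (D.prod D').hom] at h
      have h1 := (Dat.prod_eq D D' h).2
      rw [map_zpow, map_one] at h1
      have h2 : D'.hom (phi Γ v t₁) = D.hom (phi Γ v t₂) := pull_phi Γ D hv t₁
      have h3 : (D.hom (phi Γ v t₂)) ^ N = 1 := by
        rw [← h2]
        exact h1
      have h4 : D.hom (phi Γ v t₂) = SemidirectProduct.inl (FreeGroup.map D.π κ₂) := by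
        apply SemidirectProduct.ext
        · rfl
        · show D.θ (phi Γ v t₂).right = 1
          rw [ht₂r, map_one]
      rw [h4, ← map_zpow] at h3
      have h5 : (FreeGroup.map D.π κ₂) ^ N = 1 ^ N := by
        rw [one_zpow]
        apply SemidirectProduct.inl_injective (φ := (fperm D.Y).comp D.β)
        rw [h3, map_one]
      exact hD2 (zpow_inj hN.ne' h5)
  intro t y h
  have hty : t ≠ y := by
    have := h 1 one_pos
    rwa [zpow_one, zpow_one] at this
  obtain ⟨S, hS, hmin⟩ := exists_min (fun T => ret Γ T t ≠ ret Γ T y)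
    (by show ret Γ Set.univ t ≠ ret Γ Set.univ y; rw [ret_univ, ret_univ]; exact hty)
  by_cases ht1 : ret Γ S t = 1
  · have hy1 : ret Γ S y ≠ 1 := fun h => hS (ht1.trans h.symm)
    obtain ⟨v, D, hN⟩ := main y t hty.symm S hS.symm (fun T hT hne => hmin T hT hne.symm) hy1
    exact hsep_pull (hsep_fs D.β) ((D.hom.comp (phi Γ v)).comp (ret Γ S)) t y
      (fun N hN' he => hN N hN' he.symm)
  · obtain ⟨v, D, hN⟩ := main t y hty S hS hmin ht1
    exact hsep_pull (hsep_fs D.β) ((D.hom.comp (phi Γ v)).comp (ret Γ S)) t y hN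

end raag

end Run7.h574
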