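import Pool.Agent.Run7.h574.Amalg
import Pool.Agent.Run7.h574.FreeAlg

/-!
# LERF mapping tori of amalgams over cyclic groups
-/

set_option autoImplicit false
set_option linter.unusedSectionVars false
set_option linter.dupNamespace false

namespace Run7.h574

open Pool.Agent.Helper180.FreeMetric

section

variable {P : Type} [Group P] {ψ : MulAut P}

lemma iterate_conj {w x : P} {n a b : ℤ} (hw : (ψ ^ n) w = w)
    (hx : (ψ ^ n) x = w ^ (-a) * x * w ^ b) (k : ℤ) :
    (ψ ^ (n * k)) x = w ^ (-(a * k)) * x * w ^ (b * k) ∧ (ψ ^ (n * k)) w = w := by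
  have hw' : (ψ ^ n)⁻¹ w = w := by
    have : (ψ ^ n)⁻¹ ((ψ ^ n) w) = w := MulAut.inv_apply_self _ _ _
    rwa [hw] at this
  have hx' : (ψ ^ n)⁻¹ x = w ^ a * x * w ^ (-b) := by
    have h1 : x = w ^ a * (ψ ^ n) x * w ^ (-b) := by rw [hx, zpow_neg, zpow_neg]; group
    have h2 : (ψ ^ n)⁻¹ x = (ψ ^ n)⁻¹ (w ^ a * (ψ ^ n) x * w ^ (-b)) := by rw [← h1]
    rw [h2, map_mul, map_mul, map_zpow, map_zpow, hw', MulAut.inv_apply_self]
  rw [zpow_mul]
  generalize ψ ^ n = θ at hw hx hw' hx'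
  induction k using Int.induction_on with
  | zero => simp
  | succ k ih =>
    obtain ⟨h1, h2⟩ := ih
    rw [zpow_add_one, MulAut.mul_apply, MulAut.mul_apply, hw, h2, hx, map_mul, map_mul, map_zpow,
      map_zpow, h1, h2]
    refine ⟨?_, rfl⟩
    have e1 : w ^ (-(a * (k + 1 : ℤ))) = w ^ (-a) * w ^ (-(a * (k : ℤ))) := by
      rw [← zpow_add]; congr 1; ring
    have e2 : w ^ (b * (k + 1 : ℤ)) = w ^ (b * (k : ℤ)) * w ^ b := by
      rw [← zpow_add]; congr 1; ring
    rw [e1, e2]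
    group
  | pred k ih =>
    obtain ⟨h1, h2⟩ := ih
    rw [zpow_sub_one, MulAut.mul_apply, MulAut.mul_apply, hw', h2, hx', map_mul, map_mul, map_zpow,
      map_zpow, h1, h2]
    refine ⟨?_, rfl⟩
    have e1 : w ^ (-(a * (-(k : ℤ) - 1))) = w ^ a * w ^ (-(a * (-(k : ℤ)))) := by
      rw [← zpow_add]; congr 1; ring
    have e2 : w ^ (b * (-(k : ℤ) - 1)) = w ^ (b * (-(k : ℤ))) * w ^ (-b) := by
      rw [← zpow_add]; congr 1; ring
    rw [e1, e2]
    group

/-- if every element of `A` is moved by a power of `ψ` by left and right multiplication by powers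
of `w` then a power of `ψ` is a conjugation by a power of `w` on `A`. -/
theorem uniform {α : Type} (j : P →* FreeGroup α) (hj : Function.Injective j) (A : Subgroup P)
    (hAfg : A.FG) (w : P)
    (H : ∀ x ∈ A, ∃ n a b : ℤ, 0 < n ∧ (ψ ^ n) w = w ∧ (ψ ^ n) x = w ^ (-a) * x * w ^ b)
    (hw2 : (ψ ^ (2 : ℤ)) w = w) :
    ∃ J c : ℤ, 0 < J ∧ (ψ ^ J) w = w ∧ ∀ x ∈ A, (ψ ^ J) x = w ^ (-c) * x * w ^ c := by
  classical
  -- the first claim
  have c1 : ∀ x ∈ A, ∃ n a : ℤ, 0 < n ∧ (ψ ^ n) w = w ∧ (ψ ^ n) x = w ^ (-a) * x * w ^ a ∧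
      (w * x = x * w → (ψ ^ n) x = x) := by
    intro x hx
    obtain ⟨n, a, b, hn, hnw, hnx⟩ := H x hx
    by_cases hw1 : w = 1
    · refine ⟨n, 0, hn, hnw, ?_, fun _ => ?_⟩
      · rw [hnx, hw1]; simp
      · rw [hnx, hw1]; simp
    have hjw : j w ≠ 1 := fun h => hw1 (hj (h.trans (map_one j).symm))
    by_cases hc : w * x = x * w
    · -- x and w are powers of a common element
      have hjc : j x * j w = j w * j x := by rw [← map_mul, ← map_mul, hc]
      obtain ⟨r, -, hr⟩ := centralizer_cyclic (j w) hjw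
      obtain ⟨p, hp⟩ := hr _ hjc
      obtain ⟨q, hq⟩ := hr _ rfl
      have hq0 : q ≠ 0 := by
        rintro rfl
        rw [zpow_zero] at hq
        exact hjw hq
      have h1 : x ^ q = w ^ p := by
        apply hj
        rw [map_zpow, map_zpow, hp]
        conv_rhs => rw [hq]
        rw [← zpow_mul, ← zpow_mul, mul_comm]
      have h2 : (j ((ψ ^ n) x)) ^ q = (j x) ^ q := by
        rw [← map_zpow, ← map_zpow, ← map_zpow, h1, map_zpow (ψ ^ n), hnw]
      have h3 : (ψ ^ n) x = x := hj (zpow_inj hq0 h2)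
      refine ⟨n, 0, hn, hnw, ?_, fun _ => h3⟩
      rw [h3]; simp
    · obtain ⟨n', a', b', hn', hnw', hnx'⟩ := H (x * x) (A.mul_mem hx hx)
      have h1 : b * n' = a * n' := by
        by_contra hne
        rcases three (w := j w) (x := j x) (y := j x) hjw (a := a * n') (b := b * n')
          (a' := a * n') (b' := b * n') (a'' := a' * n) (b'' := b' * n) hne (by
            intro m
            have e1 := (iterate_conj hnw hnx (n' * m)).1
            have e2 := (iterate_conj hnw' hnx' (n * m)).1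
            have e3 : n * (n' * m) = n' * (n * m) := by ring
            rw [← e3, map_mul, e1] at e2
            have e4 := congrArg j e2
            simp only [map_mul, map_zpow] at e4
            simp only [mul_assoc] at e4 ⊢
            exact e4) with h | h
        · apply hc
          apply hj
          rw [map_mul, map_mul]
          exact h
        · apply hc
          apply hj
          rw [map_mul, map_mul]
          exact h
      have h2 : b = a := mul_right_cancel₀ hn'.ne' h1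
      rw [h2] at hnx
      exact ⟨n, a, hn, hnw, hnx, fun h => absurd h hc⟩
  -- the common slope
  obtain ⟨n₀, a₀, hn₀, hnw₀, hcom⟩ : ∃ n₀ a₀ : ℤ, 0 < n₀ ∧ (ψ ^ n₀) w = w ∧ ∀ x ∈ A, ∃ k : ℤ,
      0 < k ∧ (ψ ^ (n₀ * k)) x = w ^ (-(a₀ * k)) * x * w ^ (a₀ * k) := by
    by_cases hall : ∀ x ∈ A, w * x = x * w
    · refine ⟨2, 0, by norm_num, hw2, fun x hx => ?_⟩
      obtain ⟨n, a, hn, hnw, hnx, hfix⟩ := c1 x hx
      have h1 := hfix (hall x hx)
      refine ⟨n, hn, ?_⟩
      have h2 : (ψ ^ n) x = w ^ (-(0 : ℤ)) * x * w ^ (0 : ℤ) := by rw [h1]; simp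
      have h3 := (iterate_conj hnw h2 2).1
      rw [mul_comm 2 n, h3]
      simp
    · push Not at hall
      obtain ⟨x₀, hx₀, hx₀w⟩ := hall
      obtain ⟨n₀, a₀, hn₀, hnw₀, hnx₀, -⟩ := c1 x₀ hx₀
      refine ⟨n₀, a₀, hn₀, hnw₀, fun x hx => ?_⟩
      obtain ⟨n, a, hn, hnw, hnx, hfix⟩ := c1 x hx
      refine ⟨n, hn, ?_⟩
      by_cases hc : w * x = x * w
      · have h1 := hfix hc
        have h2 : (ψ ^ n) x = w ^ (-(0 : ℤ)) * x * w ^ (0 : ℤ) := by rw [h1]; simp
        have h3 := (iterate_conj hnw h2 n₀).1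
        rw [mul_comm n₀ n, h3]
        have hcm : Commute w x := hc
        have h4 : w ^ (-(a₀ * n)) * x = x * w ^ (-(a₀ * n)) := (hcm.zpow_left _).eq
        have h5 : w ^ (-(0 * n₀)) * x * w ^ (0 * n₀) = x := by simp
        rw [h5, h4, zpow_neg, inv_mul_cancel_right]
      · -- equality of slopes
        have hw1 : w ≠ 1 := by
          rintro rfl
          exact hc (by simp)
        have hjw : j w ≠ 1 := fun h => hw1 (hj (h.trans (map_one j).symm))
        obtain ⟨n', a', hn', hnw', hnx', -⟩ := c1 (x₀ * x) (A.mul_mem hx₀ hx)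
        have h1 : a₀ * n * n' = a * n₀ * n' := by
          by_contra hne
          rcases three (w := j w) (x := j x₀) (y := j x) hjw (a := a₀ * n * n') (b := a₀ * n * n')
            (a' := a * n₀ * n') (b' := a * n₀ * n') (a'' := a' * n₀ * n) (b'' := a' * n₀ * n)
            hne (by
              intro m
              have e1 := (iterate_conj hnw₀ hnx₀ (n * n' * m)).1
              have e2 := (iterate_conj hnw hnx (n₀ * n' * m)).1
              have e3 := (iterate_conj hnw' hnx' (n₀ * n * m)).1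
              have f1 : n * (n₀ * n' * m) = n₀ * (n * n' * m) := by ring
              have f2 : n' * (n₀ * n * m) = n₀ * (n * n' * m) := by ring
              have f3 : a₀ * (n * n' * m) = a₀ * n * n' * m := by ring
              have f4 : a * (n₀ * n' * m) = a * n₀ * n' * m := by ring
              have f5 : a' * (n₀ * n * m) = a' * n₀ * n * m := by ring
              rw [f1, f4] at e2
              rw [f2, f5, map_mul, e1, e2, f3] at e3
              have e4 := congrArg j e3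
              simp only [map_mul, map_zpow] at e4
              simp only [mul_assoc] at e4 ⊢
              exact e4) with h | h
          · apply hx₀w
            apply hj
            rw [map_mul, map_mul]
            exact h
          · apply hc
            apply hj
            rw [map_mul, map_mul]
            exact h
        have h2 : a₀ * n = a * n₀ := mul_right_cancel₀ hn'.ne' h1
        have h3 := (iterate_conj hnw hnx n₀).1
        rw [mul_comm n₀ n, h3, h2]
  -- finite generation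
  obtain ⟨S, hS⟩ := hAfg
  have hSA : ∀ s ∈ S, s ∈ A := fun s hs => by
    rw [← hS]; exact Subgroup.subset_closure hs
  have hk : ∀ s : P, ∃ k : ℤ, 0 < k ∧
      (s ∈ S → (ψ ^ (n₀ * k)) s = w ^ (-(a₀ * k)) * s * w ^ (a₀ * k)) := by
    intro s
    by_cases hs : s ∈ S
    · obtain ⟨k, hk, h⟩ := hcom s (hSA s hs)
      exact ⟨k, hk, fun _ => h⟩
    · exact ⟨1, one_pos, fun h => absurd h hs⟩
  choose k hk0 hk using hk
  let K : ℤ := ∏ s ∈ S, k s
  have hK : 0 < K := Finset.prod_pos (fun s _ => hk0 s)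
  have hwK := (iterate_conj (x := w) (a := 0) (b := 0) hnw₀ (by rw [hnw₀]; simp) K).2
  refine ⟨n₀ * K, a₀ * K, mul_pos hn₀ hK, hwK, ?_⟩
  let B : Subgroup P :=
    { carrier := {x | (ψ ^ (n₀ * K)) x = w ^ (-(a₀ * K)) * x * w ^ (a₀ * K)}
      mul_mem' := by
        intro x y hx hy
        show (ψ ^ (n₀ * K)) (x * y) = _
        rw [map_mul, show (ψ ^ (n₀ * K)) x = _ from hx, show (ψ ^ (n₀ * K)) y = _ from hy]
        group
      one_mem' := by
        show (ψ ^ (n₀ * K)) 1 = _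
        rw [map_one]
        group
      inv_mem' := by
        intro x hx
        show (ψ ^ (n₀ * K)) x⁻¹ = _
        rw [map_inv, show (ψ ^ (n₀ * K)) x = _ from hx]
        group }
  have hB : A ≤ B := by
    rw [← hS, Subgroup.closure_le]
    intro s hs
    show (ψ ^ (n₀ * K)) s = w ^ (-(a₀ * K)) * s * w ^ (a₀ * K)
    obtain ⟨m, hm⟩ : k s ∣ K := Finset.dvd_prod_of_mem k hs
    have hwk := (iterate_conj (x := w) (a := 0) (b := 0) hnw₀ (by rw [hnw₀]; simp) (k s)).2
    have h1 := (iterate_conj hwk (hk s hs) m).1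
    have e1 : n₀ * k s * m = n₀ * K := by rw [mul_assoc, ← hm]
    have e2 : a₀ * k s * m = a₀ * K := by rw [mul_assoc, ← hm]
    rw [e1, e2] at h1
    exact h1
  exact fun x hx => hB hx

/-- **Invariant amalgams over cyclic groups.** -/
theorem v2 {α : Type} (j : P →* FreeGroup α) (hj : Function.Injective j)
    {A C : Subgroup P} (hA : ∀ x, ψ x ∈ A ↔ x ∈ A) (hC : ∀ x, ψ x ∈ C ↔ x ∈ C)
    (hΓ : LERF (MT ψ)) (htop : A ⊔ C = ⊤) (hup : UP A C) (hAfg : A.FG) (hCfg : C.FG)
    (hidx : (A ⊓ C).relIndex C = 0) (w : P) (hw : A ⊓ C = Subgroup.zpowers w)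
    (hsep : HSep (HH A hA)) :
    ∃ J c : ℤ, 0 < J ∧ (ψ ^ J) w = w ∧ ∀ x ∈ A, (ψ ^ J) x = w ^ (-c) * x * w ^ c := by
  have hwAC : w ∈ A ⊓ C := by rw [hw]; exact Subgroup.mem_zpowers w
  have hLfg : (A ⊓ C).FG := by
    rw [hw, Subgroup.zpowers_eq_closure]
    exact ⟨{w}, by simp⟩
  -- the square fixes w
  have hw2 : (ψ ^ (2 : ℤ)) w = w := by
    by_cases hw1 : w = 1
    · rw [hw1, map_one]
    have hjw : j w ≠ 1 := fun h => hw1 (hj (h.trans (map_one j).symm))
    have h1 : ψ w ∈ A ⊓ C := ⟨(hA w).mpr hwAC.1, (hC w).mpr hwAC.2⟩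
    have h2 : ψ⁻¹ w ∈ A ⊓ C := by
      have e : ψ (ψ⁻¹ w) = w := MulAut.apply_inv_self _ ψ w
      refine ⟨(hA _).mp ?_, (hC _).mp ?_⟩
      · rw [e]; exact hwAC.1
      · rw [e]; exact hwAC.2
    rw [hw] at h1 h2
    obtain ⟨k, hk⟩ := h1
    obtain ⟨l, hl⟩ := h2
    have hk' : w ^ k = ψ w := hk
    have hl' : w ^ l = ψ⁻¹ w := hl
    have h3 : w ^ (k * l) = w := by
      have e1 : ψ (w ^ l) = w := by rw [hl']; exact MulAut.apply_inv_self _ ψ w
      rw [map_zpow, ← hk', ← zpow_mul] at e1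
      exact e1
    have h4 : k * l = 1 := by
      by_contra hne
      have h5 : (j w) ^ (k * l - 1) = 1 ^ (k * l - 1) := by
        rw [one_zpow, ← map_zpow, zpow_sub_one, h3, mul_inv_cancel, map_one]
      exact hjw (zpow_inj (by omega) h5)
    have h5 : k * k = 1 := by
      rcases Int.eq_one_or_neg_one_of_mul_eq_one h4 with rfl | rfl <;> norm_num
    rw [zpow_ofNat, pow_two, MulAut.mul_apply, ← hk', map_zpow, ← hk', ← zpow_mul, h5, zpow_one]
  apply uniform j hj A hAfg w _ hw2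
  intro x hx
  -- the elements
  let t : HH A hA := ⟨tt ψ, tt_mem A hA⟩
  let x' : HH A hA := ⟨SemidirectProduct.inl x, hx⟩
  let w' : HH A hA := ⟨SemidirectProduct.inl w, hwAC.1⟩
  have hzw : ∀ n : ℤ, w' ^ n = (⟨SemidirectProduct.inl (w ^ n), A.zpow_mem hwAC.1 n⟩ : HH A hA) := by
    intro n
    apply Subtype.ext
    show (SemidirectProduct.inl w : MT ψ) ^ n = SemidirectProduct.inl (w ^ n)
    rw [map_zpow]
  obtain ⟨i, a, b, hi, hab⟩ := duality hsep (t := t ^ (2 : ℤ)) (w := w') (x := x') (by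
    apply Subtype.ext
    show (tt ψ) ^ (2 : ℤ) * SemidirectProduct.inl w = SemidirectProduct.inl w * (tt ψ) ^ (2 : ℤ)
    have := tt_conj ψ 2 w
    rw [hw2, mul_inv_eq_iff_eq_mul] at this
    exact this) (by
    intro f hf h1 h2
    have h3 := rigid_mt hA hC hΓ htop hup hAfg hCfg hLfg hidx x hx f hf (by
      intro l hl hlC
      have hl' : l ∈ A ⊓ C := ⟨hl, hlC⟩
      rw [hw] at hl'
      obtain ⟨n, hn⟩ := hl'
      have hn' : w ^ n = l := hn
      subst hn'
      rw [← hzw, vf_zpow hf, h1, mul_zero]) (by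
      intro l hl hlC
      have hl' : l ∈ A ⊓ C := ⟨hl, hlC⟩
      rw [hw] at hl'
      obtain ⟨n, hn⟩ := hl'
      have hn' : w ^ n = l := hn
      subst hn'
      rw [← hzw, ← conj_zpow, vf_zpow hf]
      show (n : ℚ) * f (x' * w' * x'⁻¹) = 0
      rw [h2, mul_zero])
    rw [← conj_zpow, vf_zpow hf, vf_zpow hf]
    show ((2 : ℤ) : ℚ) * f ⟨tt ψ, tt_mem A hA⟩ = ((2 : ℤ) : ℚ) * f (x' * t * x'⁻¹)
    rw [h3])
  have hw2i : (ψ ^ (2 * i)) w = w :=
    (iterate_conj (x := w) (a := 0) (b := 0) hw2 (by rw [hw2]; simp) i).2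
  refine ⟨2 * i, a, b, by omega, hw2i, ?_⟩
  have h1 := congrArg Subtype.val hab
  rw [← zpow_mul] at h1
  have h2 : (tt ψ) ^ (2 * i) * (SemidirectProduct.inl w) ^ a =
      SemidirectProduct.inl x * ((tt ψ) ^ (2 * i) * (SemidirectProduct.inl w) ^ b) *
        (SemidirectProduct.inl x)⁻¹ := h1
  have h3 : SemidirectProduct.inl ((ψ ^ (2 * i)) (w ^ a)) * (tt ψ) ^ (2 * i) =
      SemidirectProduct.inl x * (SemidirectProduct.inl ((ψ ^ (2 * i)) (w ^ b * x⁻¹)) *
        (tt ψ) ^ (2 * i)) := by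
    rw [← tt_conj, ← tt_conj, inv_mul_cancel_right, inv_mul_cancel_right, map_zpow, map_mul,
      map_zpow, h2, map_inv]
    group
  rw [← mul_assoc] at h3
  have h4 := mul_right_cancel h3
  rw [← map_mul] at h4
  have h5 := SemidirectProduct.inl_injective h4
  rw [map_mul, map_zpow, map_zpow, map_inv, hw2i] at h5
  have h6 : (ψ ^ (2 * i)) x = (w ^ a)⁻¹ * (x * (w ^ b * ((ψ ^ (2 * i)) x)⁻¹)) * (ψ ^ (2 * i)) x := by
    rw [← h5]; group
  rw [h6, zpow_neg]
  group

end

end Run7.h574
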