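import Pool.Agent.Run7.h574.Transfer
import Pool.Agent.Run7.h574.Main1
import Pool.Agent.Run7.h574.HSepRaag

/-!
# LERF free-by-cyclic groups and invariant cyclic splittings
-/

set_option autoImplicit false
set_option linter.unusedSectionVars false
set_option linter.dupNamespace false

namespace Run7.h574

open Pool.Agent.H599R3

/-- A subgroup of finite index embeds into a right-angled Artin group on a finite graph. -/
def VRaag (R : Type) [Group R] : Prop :=
  ∃ (K : Subgroup R) (V : Type) (_ : Finite V) (Γ : SimpleGraph V) (f : K →* AG Γ),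
    K.FiniteIndex ∧ Function.Injective f

lemma hsep_vraag {R : Type} [Group R] (h : VRaag R) : HSep R := by
  obtain ⟨K, V, hV, Γ, f, hK, hf⟩ := h
  exact hsep_fi K hK (hsep_inj (hsep_raag Γ) f hf)

section

variable {α : Type} (φ : MulAut (FreeGroup α))

lemma norm_iff {A : Subgroup (FreeGroup α)} {u : MT φ}
    (h : u ∈ Subgroup.normalizer (A.map (SemidirectProduct.inl : _ →* MT φ) : Set (MT φ))) :
    ∀ x, cj φ u x ∈ A ↔ x ∈ A := by
  intro x
  have h1 := (Subgroup.mem_normalizer_iff.mp h) (SemidirectProduct.inl x)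
  rw [cj_spec, Subgroup.mem_map_iff_mem SemidirectProduct.inl_injective,
    Subgroup.mem_map_iff_mem SemidirectProduct.inl_injective] at h1
  exact h1.symm

lemma sup_inv {F : Type} [Group F] {Ψ : MulAut F} {A C : Subgroup F} (hA : ∀ x, Ψ x ∈ A ↔ x ∈ A)
    (hC : ∀ x, Ψ x ∈ C ↔ x ∈ C) : ∀ x, Ψ x ∈ A ⊔ C ↔ x ∈ A ⊔ C := by
  have key : ∀ {Θ : MulAut F}, (∀ x, Θ x ∈ A ↔ x ∈ A) → (∀ x, Θ x ∈ C ↔ x ∈ C) →
      ∀ x, x ∈ A ⊔ C → Θ x ∈ A ⊔ C := by
    intro Θ h1 h2 x hx
    have h3 : A ⊔ C ≤ (A ⊔ C).comap Θ.toMonoidHom := by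
      rw [sup_le_iff]
      exact ⟨fun a ha => Subgroup.mem_sup_left ((h1 a).mpr ha),
        fun a ha => Subgroup.mem_sup_right ((h2 a).mpr ha)⟩
    exact h3 hx
  intro x
  constructor
  · intro h
    have h1 := key (Θ := Ψ⁻¹) (fun y => by
      rw [← hA, show Ψ (Ψ⁻¹ y) = y from MulAut.apply_inv_self _ Ψ y]) (fun y => by
      rw [← hC, show Ψ (Ψ⁻¹ y) = y from MulAut.apply_inv_self _ Ψ y]) _ h
    rwa [show Ψ⁻¹ (Ψ x) = x from MulAut.inv_apply_self _ Ψ x] at h1
  · exact key hA hC x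

/-- separation for the mapping torus of the first piece -/
theorem piece (hG : LERF (MT φ)) (A C : Subgroup (FreeGroup α)) (hAfg : A.FG) (hCfg : C.FG)
    (u : MT φ) (hu : chi φ u ≠ 0) (hA : ∀ x, cj φ u x ∈ A ↔ x ∈ A) (hC : ∀ x, cj φ u x ∈ C ↔ x ∈ C)
    (w : FreeGroup α) (hw : A ⊓ C = Subgroup.zpowers w) (hidx : (A ⊓ C).relIndex C = 0)
    (ham : IsAmalgam A C)
    (hS : HSep (Subgroup.closure (insert u (SemidirectProduct.inl '' (A : Set (FreeGroup α))) :
      Set (MT φ)))) :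
    ∃ J c : ℤ, 0 < J ∧ (∀ x ∈ A, u ^ J * SemidirectProduct.inl x * (u ^ J)⁻¹ =
      SemidirectProduct.inl (w ^ (-c) * x * w ^ c)) ∧
      u ^ J * SemidirectProduct.inl w * (u ^ J)⁻¹ = SemidirectProduct.inl w := by
  let P : Subgroup (FreeGroup α) := A ⊔ C
  have hAP : A ≤ P := le_sup_left
  have hCP : C ≤ P := le_sup_right
  have hP := sup_inv hA hC
  let ψ := restr (cj φ u) P hP
  have hA' : ∀ x, ψ x ∈ A.subgroupOf P ↔ x ∈ A.subgroupOf P := fun x => hA x
  have hC' : ∀ x, ψ x ∈ C.subgroupOf P ↔ x ∈ C.subgroupOf P := fun x => hC x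
  have hwAC : w ∈ A ⊓ C := by rw [hw]; exact Subgroup.mem_zpowers w
  let w' : P := ⟨w, hAP hwAC.1⟩
  have hinj := emb_inj φ u hu P hP
  have hfg : ∀ B : Subgroup (FreeGroup α), B ≤ P → B.FG → (B.subgroupOf P).FG := by
    intro B hB hBfg
    apply fg_of_map P.subtype P.subtype_injective
    rw [Subgroup.subgroupOf_map_subtype, inf_eq_left.mpr hB]
    exact hBfg
  -- the subgroup
  let D : Subgroup (MT φ) := Subgroup.closure
    (insert u (SemidirectProduct.inl '' (A : Set (FreeGroup α))) : Set (MT φ))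
  have hmem : ∀ g : HH (A.subgroupOf P) hA', emb φ u P hP g ∈ D := by
    intro g
    rw [emb_apply]
    refine D.mul_mem (Subgroup.subset_closure (Or.inr ⟨_, g.2, rfl⟩)) (D.zpow_mem ?_ _)
    exact Subgroup.subset_closure (Or.inl rfl)
  let e : HH (A.subgroupOf P) hA' →* D :=
    ((emb φ u P hP).comp (HH (A.subgroupOf P) hA').subtype).codRestrict D hmem
  have he : Function.Injective e := by
    intro a b hab
    apply Subtype.ext
    exact hinj (congrArg Subtype.val hab)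
  obtain ⟨J, c, hJ, hJw, hJx⟩ := v2 (ψ := ψ) P.subtype P.subtype_injective hA' hC'
    (lerf_inj hG _ hinj) (by
      rw [← Subgroup.subgroupOf_sup hAP hCP]
      show P.subgroupOf P = ⊤
      simp) (up_of_amalgam ham) (hfg A hAP hAfg) (hfg C hCP hCfg) (by
      have h1 : A.subgroupOf P ⊓ C.subgroupOf P = (A ⊓ C).subgroupOf P := rfl
      rw [h1, Subgroup.relIndex_subgroupOf hCP]
      exact hidx) w' (by
      ext x
      have h1 : (x : FreeGroup α) ∈ A ⊓ C ↔ (x : FreeGroup α) ∈ Subgroup.zpowers w := by rw [hw]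
      constructor
      · intro hx
        obtain ⟨n, hn⟩ := h1.mp hx
        exact ⟨n, Subtype.ext hn⟩
      · rintro ⟨n, hn⟩
        exact h1.mpr ⟨n, congrArg Subtype.val hn⟩) (hsep_inj hS e he)
  refine ⟨J, c, hJ, ?_, ?_⟩
  · intro x hx
    rw [cj_zpow]
    congr 1
    have h1 := congrArg Subtype.val (hJx ⟨x, hAP hx⟩ hx)
    rw [restr_zpow] at h1
    exact h1
  · rw [cj_zpow]
    congr 1
    have h1 := congrArg Subtype.val hJw
    rw [restr_zpow] at h1
    exact h1

end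

end Run7.h574
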