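import Mathlib

/-!
# Amalgamation of actions

Two groups `H₁`, `H₂` with a common subgroup `E`, an action of `H₁` on `X₁` and of `H₂` on `X₂`, and
points `p₁ d` of `X₁`, `p₂ d` of `X₂` such that the unions of the `E`-orbits of these points
correspond. Then both actions extend to larger sets such that the extensions agree on `E`, and such
that `p₁ d` and `p₂ d` become the same point.
-/

set_option autoImplicit false
set_option linter.unusedSectionVars false
set_option linter.dupNamespace false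

namespace Run7.h574

/-- equivariant gluing of transversals -/
theorem equiv_of_transversal {E Y₁ Y₂ Q : Type} [Group E] (a₁ : E →* Equiv.Perm Y₁)
    (a₂ : E →* Equiv.Perm Y₂) (r₁ : Q → Y₁) (r₂ : Q → Y₂)
    (h₁ : ∀ y, ∃ e q, y = a₁ e (r₁ q)) (h₂ : ∀ y, ∃ e q, y = a₂ e (r₂ q))
    (h : ∀ e e' q q', a₁ e (r₁ q) = a₁ e' (r₁ q') ↔ a₂ e (r₂ q) = a₂ e' (r₂ q')) :
    ∃ f : Y₁ ≃ Y₂, ∀ e q, f (a₁ e (r₁ q)) = a₂ e (r₂ q) := by
  classical
  choose e₁ q₁ h₁ using h₁
  choose e₂ q₂ h₂ using h₂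
  refine ⟨⟨fun y => a₂ (e₁ y) (r₂ (q₁ y)), fun y => a₁ (e₂ y) (r₁ (q₂ y)), fun y => ?_,
    fun y => ?_⟩, fun e q => ?_⟩
  · show a₁ (e₂ (a₂ (e₁ y) (r₂ (q₁ y)))) (r₁ (q₂ (a₂ (e₁ y) (r₂ (q₁ y))))) = y
    conv_rhs => rw [h₁ y]
    rw [h]
    exact (h₂ _).symm
  · show a₂ (e₁ (a₁ (e₂ y) (r₁ (q₂ y)))) (r₂ (q₁ (a₁ (e₂ y) (r₁ (q₂ y))))) = y
    conv_rhs => rw [h₂ y]
    rw [← h]
    exact (h₁ _).symm
  · show a₂ (e₁ (a₁ e (r₁ q))) (r₂ (q₁ (a₁ e (r₁ q)))) = a₂ e (r₂ q)
    rw [← h]
    exact (h₁ _).symm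

/-- a transversal with prescribed stabilizers -/
theorem exists_transversal {E Y D I : Type} [Group E] (a : E →* Equiv.Perm Y) (p : D → Y)
    [Infinite I] (emb : Y → I) (hemb : Function.Injective emb)
    (base : I × Subgroup E → Y)
    (hb1 : ∀ k e, a e (base k) = base k ↔ e ∈ k.2)
    (hb2 : ∀ k k' e, a e (base k) = base k' → k = k')
    (hb3 : ∀ k d e, a e (p d) ≠ base k) :
    ∃ r : I × Subgroup E → Y,
      (∀ k e, a e (r k) = r k ↔ e ∈ k.2) ∧
      (∀ k k' e, a e (r k) = r k' → k = k') ∧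
      (∀ k d e, a e (p d) ≠ r k) ∧
      (∀ y, (∃ e d, y = a e (p d)) ∨ ∃ e k, y = a e (r k)) := by
  classical
  let st : Setoid Y :=
    { r := fun y y' => ∃ e, a e y = y'
      iseqv := ⟨fun y => ⟨1, by simp⟩, fun {y y'} ⟨e, he⟩ => ⟨e⁻¹, by rw [← he]; simp⟩,
        fun {y y' y''} ⟨e, he⟩ ⟨e', he'⟩ => ⟨e' * e, by rw [← he', ← he]; simp⟩⟩ }
  let O := Quotient st
  let cl : Y → O := fun y => Quotient.mk st y
  have hcl : ∀ y y', cl y = cl y' ↔ ∃ e, a e y = y' := fun y y' => Quotient.eq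
  have hcla : ∀ e y, cl (a e y) = cl y := fun e y => ((hcl _ _).mpr ⟨e, rfl⟩).symm
  -- representatives
  have hrep : ∀ o : O, ∃ y, cl y = o ∧ ((∃ k, cl (base k) = o) → ∃ k, y = base k) := by
    intro o
    by_cases ho : ∃ k, cl (base k) = o
    · obtain ⟨k, hk⟩ := ho
      exact ⟨base k, hk, fun _ => ⟨k, rfl⟩⟩
    · obtain ⟨y, hy⟩ := Quotient.exists_rep o
      exact ⟨y, hy, fun h => absurd h ho⟩
  choose rep hrep1 hrep2 using hrep
  let ty : O → Subgroup E := fun o =>
    { carrier := {e | a e (rep o) = rep o}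
      mul_mem' := by
        intro x y hx hy
        show a (x * y) (rep o) = rep o
        rw [map_mul, Equiv.Perm.mul_apply, show a y (rep o) = rep o from hy]
        exact hx
      one_mem' := by
        show a 1 (rep o) = rep o
        simp
      inv_mem' := by
        intro x hx
        show a x⁻¹ (rep o) = rep o
        rw [map_inv, Equiv.Perm.inv_eq_iff_eq]
        exact (show a x (rep o) = rep o from hx).symm }
  have hty : ∀ o e, e ∈ ty o ↔ a e (rep o) = rep o := fun o e => Iff.rfl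
  have hrepbase : ∀ k, rep (cl (base k)) = base k := by
    intro k
    obtain ⟨k', hk'⟩ := hrep2 (cl (base k)) ⟨k, rfl⟩
    have h1 := hrep1 (cl (base k))
    rw [hk'] at h1
    obtain ⟨e, he⟩ := (hcl _ _).mp h1
    rw [hk', hb2 _ _ _ he]
  have htybase : ∀ k, ty (cl (base k)) = k.2 := by
    intro k
    ext e
    rw [hty, hrepbase, hb1]
  let N : Subgroup E → Set O := fun S => {o | (∀ d, cl (p d) ≠ o) ∧ ty o = S}
  have hN : ∀ S, Nonempty (I ≃ N S) := by
    intro S
    let f : I → N S := fun i => ⟨cl (base (i, S)), fun d hd => by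
      obtain ⟨e, he⟩ := (hcl _ _).mp hd
      exact hb3 _ _ _ he, htybase _⟩
    have hf : Function.Injective f := by
      intro i j hij
      have h1 : cl (base (i, S)) = cl (base (j, S)) := congrArg Subtype.val hij
      obtain ⟨e, he⟩ := (hcl _ _).mp h1
      exact congrArg Prod.fst (hb2 _ _ _ he)
    let g : N S → I := fun o => emb (rep o.1)
    have hg : Function.Injective g := by
      intro o o' hoo
      have h1 := hemb hoo
      apply Subtype.ext
      rw [← hrep1 o.1, ← hrep1 o'.1, h1]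
    obtain ⟨h, hh⟩ := Function.Embedding.schroeder_bernstein hf hg
    exact ⟨Equiv.ofBijective h hh⟩
  let eq : ∀ S : Subgroup E, I ≃ N S := fun S => (hN S).some
  let r : I × Subgroup E → Y := fun k => rep (eq k.2 k.1).1
  have hr0 : ∀ k, cl (r k) = (eq k.2 k.1).1 := fun k => hrep1 _
  refine ⟨r, fun k e => ?_, fun k k' e he => ?_, fun k d e he => ?_, fun y => ?_⟩
  · have h1 : ty (eq k.2 k.1).1 = k.2 := (eq k.2 k.1).2.2
    rw [← hty, h1]
  · have h1 : cl (r k) = cl (r k') := by rw [← he, hcla]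
    rw [hr0, hr0] at h1
    have h2 : k.2 = k'.2 := by
      rw [← (eq k.2 k.1).2.2, ← (eq k'.2 k'.1).2.2, h1]
    obtain ⟨i, S⟩ := k
    obtain ⟨i', S'⟩ := k'
    simp only at h2
    subst h2
    have h3 : eq S i = eq S i' := Subtype.ext h1
    rw [(eq S).injective h3]
  · have h1 : cl (p d) = cl (r k) := by rw [← he, hcla]
    rw [hr0] at h1
    exact (eq k.2 k.1).2.1 d h1
  · by_cases hy : ∃ d, cl (p d) = cl y
    · obtain ⟨d, hd⟩ := hy
      obtain ⟨e, he⟩ := (hcl _ _).mp hd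
      exact Or.inl ⟨e, d, he.symm⟩
    · right
      have hy' : cl y ∈ N (ty (cl y)) := ⟨fun d hd => hy ⟨d, hd⟩, rfl⟩
      obtain ⟨i, hi⟩ := (eq (ty (cl y))).surjective ⟨cl y, hy'⟩
      have h1 : cl (r (i, ty (cl y))) = cl y := by
        rw [hr0]
        show ((eq (ty (cl y)) i).1) = _
        rw [hi]
      obtain ⟨e, he⟩ := (hcl _ _).mp h1
      exact ⟨e, _, he.symm⟩

/-- **Amalgamation of actions.** -/
theorem amalgamate {H₁ H₂ E : Type} [Group H₁] [Group H₂] [Group E] (i₁ : E →* H₁) (i₂ : E →* H₂)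
    (hi₁ : Function.Injective i₁) (hi₂ : Function.Injective i₂) {X₁ X₂ D : Type}
    [MulAction H₁ X₁] [MulAction H₂ X₂] (p₁ : D → X₁) (p₂ : D → X₂)
    (hp : ∀ e e' d d', i₁ e • p₁ d = i₁ e' • p₁ d' ↔ i₂ e • p₂ d = i₂ e' • p₂ d') :
    ∃ (Ω : Type) (ρ₁ : H₁ →* Equiv.Perm Ω) (ρ₂ : H₂ →* Equiv.Perm Ω) (j₁ : X₁ → Ω) (j₂ : X₂ → Ω),
      Function.Injective j₁ ∧ Function.Injective j₂ ∧ (∀ e, ρ₁ (i₁ e) = ρ₂ (i₂ e)) ∧
      (∀ h x, j₁ (h • x) = ρ₁ h (j₁ x)) ∧ (∀ h x, j₂ (h • x) = ρ₂ h (j₂ x)) ∧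
      ∀ d, j₁ (p₁ d) = j₂ (p₂ d) := by
  classical
  let Z := Option ((X₁ ⊕ X₂) ⊕ ((Subgroup E × H₁) ⊕ (Subgroup E × H₂)))
  let I := ℕ → Z
  have hZ : Nontrivial Z := ⟨none, some (Sum.inr (Sum.inl (⊥, 1))), by simp⟩
  have hI : Infinite I := inferInstance
  -- the general construction on one side
  have key : ∀ {H X : Type} [Group H] [MulAction H X] (i : E →* H) (hi : Function.Injective i)
      (p : D → X) (u : X → Z) (v : Subgroup E × H → Z) (hu : Function.Injective u)
      (hv : Function.Injective v) (huv : ∀ x y, u x ≠ v y),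
      ∃ (Y : Type) (_ : MulAction H Y) (j : X → Y) (r : I × Subgroup E → Y),
        Function.Injective j ∧ (∀ (h : H) x, j (h • x) = h • j x) ∧
        (∀ (k : I × Subgroup E) (e : E), i e • (r k) = r k ↔ e ∈ k.2) ∧
        (∀ (k k' : I × Subgroup E) (e : E), i e • (r k) = r k' → k = k') ∧
        (∀ (k : I × Subgroup E) (d : D) (e : E), i e • (j (p d)) ≠ r k) ∧
        (∀ y, (∃ (e : E) (d : D), y = i e • (j (p d))) ∨
          ∃ (e : E) (k : I × Subgroup E), y = i e • (r k)) := by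
    intro H X _ _ i hi p u v hu hv huv
    let V := Σ k : I × Subgroup E, H ⧸ (k.2.map i)
    let Y := X ⊕ V
    let a : E →* Equiv.Perm Y := (MulAction.toPermHom H Y).comp i
    have ha : ∀ e y, a e y = i e • y := fun e y => rfl
    let emb : Y → I := fun y => match y with
      | Sum.inl x => fun n => match n with
        | 0 => u x
        | _ => none
      | Sum.inr w => fun n => match n with
        | 0 => v (w.1.2, w.2.out)
        | (n+1) => w.1.1 n
    have hemb : Function.Injective emb := by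
      rintro (x | ⟨⟨f, S⟩, c⟩) (x' | ⟨⟨f', S'⟩, c'⟩) hxy
      · have h1 := congrFun hxy 0
        exact congrArg Sum.inl (hu h1)
      · have h1 := congrFun hxy 0
        exact absurd h1 (huv _ _)
      · have h1 := congrFun hxy 0
        exact absurd h1.symm (huv _ _)
      · have h1 := hv (congrFun hxy 0)
        have h2 : f = f' := by
          funext n
          exact congrFun hxy (n+1)
        have h3 : S = S' := congrArg Prod.fst h1
        have h4 : Quotient.out c = Quotient.out c' := congrArg Prod.snd h1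
        subst h2
        subst h3
        have h5 : c = c' := by rw [← Quotient.out_eq c, ← Quotient.out_eq c', h4]
        rw [h5]
    let base : I × Subgroup E → Y := fun k => Sum.inr ⟨k, ((1 : H) : H ⧸ (k.2.map i))⟩
    have hbase : ∀ k (h : H), h • base k = (Sum.inr (⟨k, (h : H ⧸ (k.2.map i))⟩ : V) : Y) := by
      intro k h
      show Sum.inr (⟨k, h • ((1 : H) : H ⧸ (k.2.map i))⟩ : V) = _
      rw [show h • ((1 : H) : H ⧸ (k.2.map i)) = ((h * 1 : H) : H ⧸ (k.2.map i)) from rfl, mul_one]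
    obtain ⟨r, h1, h2, h3, h4⟩ := exists_transversal a (fun d => (Sum.inl (p d) : Y)) emb hemb base
      (by
        intro k e
        rw [ha, hbase]
        constructor
        · intro h
          have h1 := Sum.inr.inj h
          have h2 := eq_of_heq (Sigma.mk.inj h1).2
          have h3 := QuotientGroup.eq.mp h2
          rw [mul_one] at h3
          obtain ⟨e', he', he''⟩ := h3
          rw [← map_inv] at he''
          rw [hi he''] at he'
          exact inv_mem_iff.mp he'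
        · intro h
          show Sum.inr (⟨k, ((i e : H) : H ⧸ (k.2.map i))⟩ : V) = Sum.inr ⟨k, _⟩
          congr 2
          rw [QuotientGroup.eq, mul_one]
          exact inv_mem (Subgroup.mem_map_of_mem i h))
      (by
        intro k k' e he
        rw [ha, hbase] at he
        exact (Sigma.mk.inj (Sum.inr.inj he)).1)
      (by
        intro k d e he
        rw [ha] at he
        exact Sum.inl_ne_inr he)
    exact ⟨Y, inferInstance, Sum.inl, r, Sum.inl_injective, fun h x => rfl, h1, h2, h3, h4⟩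
  obtain ⟨Y₁, act₁, j₁, r₁, hj₁, hj₁', b1, b2, b3, b4⟩ := key i₁ hi₁ p₁
    (fun x => some (Sum.inl (Sum.inl x))) (fun x => some (Sum.inr (Sum.inl x)))
    (fun x y h => Sum.inl.inj (Sum.inl.inj (Option.some.inj h)))
    (fun x y h => Sum.inl.inj (Sum.inr.inj (Option.some.inj h)))
    (fun x y h => Sum.inl_ne_inr (Option.some.inj h))
  obtain ⟨Y₂, act₂, j₂, r₂, hj₂, hj₂', c1, c2, c3, c4⟩ := key i₂ hi₂ p₂
    (fun x => some (Sum.inl (Sum.inr x))) (fun x => some (Sum.inr (Sum.inr x)))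
    (fun x y h => Sum.inr.inj (Sum.inl.inj (Option.some.inj h)))
    (fun x y h => Sum.inr.inj (Sum.inr.inj (Option.some.inj h)))
    (fun x y h => Sum.inl_ne_inr (Option.some.inj h))
  let a₁ : E →* Equiv.Perm Y₁ := (MulAction.toPermHom H₁ Y₁).comp i₁
  let a₂ : E →* Equiv.Perm Y₂ := (MulAction.toPermHom H₂ Y₂).comp i₂
  have ha₁ : ∀ e y, a₁ e y = i₁ e • y := fun e y => rfl
  have ha₂ : ∀ e y, a₂ e y = i₂ e • y := fun e y => rfl
  let R₁ : D ⊕ (I × Subgroup E) → Y₁ := Sum.elim (fun d => j₁ (p₁ d)) r₁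
  let R₂ : D ⊕ (I × Subgroup E) → Y₂ := Sum.elim (fun d => j₂ (p₂ d)) r₂
  obtain ⟨f, hf⟩ := equiv_of_transversal a₁ a₂ R₁ R₂
    (fun y => by
      rcases b4 y with ⟨e, d, h⟩ | ⟨e, k, h⟩
      · exact ⟨e, Sum.inl d, h⟩
      · exact ⟨e, Sum.inr k, h⟩)
    (fun y => by
      rcases c4 y with ⟨e, d, h⟩ | ⟨e, k, h⟩
      · exact ⟨e, Sum.inl d, h⟩
      · exact ⟨e, Sum.inr k, h⟩)
    (by
      rintro e e' (d | k) (d' | k')
      · show i₁ e • j₁ (p₁ d) = i₁ e' • j₁ (p₁ d') ↔ i₂ e • j₂ (p₂ d) = i₂ e' • j₂ (p₂ d')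
        rw [← hj₁', ← hj₁', ← hj₂', ← hj₂', hj₁.eq_iff, hj₂.eq_iff]
        exact hp e e' d d'
      · show i₁ e • j₁ (p₁ d) = i₁ e' • r₁ k' ↔ i₂ e • j₂ (p₂ d) = i₂ e' • r₂ k'
        constructor
        · intro h
          exfalso
          apply b3 k' d (e'⁻¹ * e)
          rw [map_mul, mul_smul, h, map_inv, inv_smul_smul]
        · intro h
          exfalso
          apply c3 k' d (e'⁻¹ * e)
          rw [map_mul, mul_smul, h, map_inv, inv_smul_smul]
      · show i₁ e • r₁ k = i₁ e' • j₁ (p₁ d') ↔ i₂ e • r₂ k = i₂ e' • j₂ (p₂ d')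
        constructor
        · intro h
          exfalso
          apply b3 k d' (e⁻¹ * e')
          rw [map_mul, mul_smul, ← h, map_inv, inv_smul_smul]
        · intro h
          exfalso
          apply c3 k d' (e⁻¹ * e')
          rw [map_mul, mul_smul, ← h, map_inv, inv_smul_smul]
      · show i₁ e • r₁ k = i₁ e' • r₁ k' ↔ i₂ e • r₂ k = i₂ e' • r₂ k'
        have e1 : i₁ e • r₁ k = i₁ e' • r₁ k' ↔ i₁ (e'⁻¹ * e) • r₁ k = r₁ k' := by
          rw [map_mul, mul_smul, map_inv, inv_smul_eq_iff]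
        have e2 : i₂ e • r₂ k = i₂ e' • r₂ k' ↔ i₂ (e'⁻¹ * e) • r₂ k = r₂ k' := by
          rw [map_mul, mul_smul, map_inv, inv_smul_eq_iff]
        rw [e1, e2]
        constructor
        · intro h
          have := b2 _ _ _ h
          subst this
          exact (c1 _ _).mpr ((b1 _ _).mp h)
        · intro h
          have := c2 _ _ _ h
          subst this
          exact (b1 _ _).mpr ((c1 _ _).mp h))
  refine ⟨Y₁, MulAction.toPermHom H₁ Y₁,
    (f.symm.permCongrHom.toMonoidHom).comp (MulAction.toPermHom H₂ Y₂), j₁, fun x => f.symm (j₂ x),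
    hj₁, f.symm.injective.comp hj₂, fun e => ?_, fun h x => hj₁' h x, fun h x => ?_, fun d => ?_⟩
  · ext y
    rcases b4 y with ⟨e', d, h⟩ | ⟨e', k, h⟩
    · have h1 := hf (e * e') (Sum.inl d)
      have h2 := hf e' (Sum.inl d)
      have h3 : f y = i₂ e' • j₂ (p₂ d) := by rw [h]; exact h2
      show i₁ e • y = f.symm (i₂ e • f y)
      rw [Equiv.eq_symm_apply, h3, h, smul_smul, smul_smul, ← map_mul, ← map_mul]
      exact h1
    · have h1 := hf (e * e') (Sum.inr k)
      have h2 := hf e' (Sum.inr k)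
      have h3 : f y = i₂ e' • r₂ k := by rw [h]; exact h2
      show i₁ e • y = f.symm (i₂ e • f y)
      rw [Equiv.eq_symm_apply, h3, h, smul_smul, smul_smul, ← map_mul, ← map_mul]
      exact h1
  · show f.symm (j₂ (h • x)) = f.symm (h • f (f.symm (j₂ x)))
    rw [Equiv.apply_symm_apply, hj₂']
  · show j₁ (p₁ d) = f.symm (j₂ (p₂ d))
    rw [Equiv.eq_symm_apply]
    have := hf 1 (Sum.inl d)
    rw [map_one, map_one] at this
    exact this

end Run7.h574
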