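import Pool.Agent.Run7.h574.Vfun
import Pool.Agent.Run7.h574.FreeAlg

/-!
# Separation by virtual homomorphisms in free groups

The completion of partial actions is Marshall Hall's argument; compare
`Pool/Agent/Run7/h181/Gersten/FreeCSS.lean`.
-/

set_option autoImplicit false
set_option linter.unusedSectionVars false
set_option linter.dupNamespace false

namespace Run7.h574

section closure

variable {R R' : Type} [Group R] [Group R']

lemma homOn_comap {K : Subgroup R'} {β : R' → ℤ} (hβ : HomOn K β) (f : R →* R') :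
    HomOn (K.comap f) (fun g => β (f g)) := by
  intro a ha b hb
  show β (f (a * b)) = _
  rw [map_mul]
  exact hβ _ ha _ hb

lemma fi_comap {K : Subgroup R'} (hK : K.FiniteIndex) (f : R →* R') : (K.comap f).FiniteIndex := by
  constructor
  rw [Subgroup.index_comap]
  exact (inferInstance : (K.subgroupOf f.range).FiniteIndex).index_ne_zero

lemma perm_inv_self {X : Type} (e : Equiv.Perm X) (x : X) : e⁻¹ (e x) = x := by
  rw [← Equiv.Perm.mul_apply, inv_mul_cancel, Equiv.Perm.one_apply]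

lemma perm_self_inv {X : Type} (e : Equiv.Perm X) (x : X) : e (e⁻¹ x) = x := by
  rw [← Equiv.Perm.mul_apply, mul_inv_cancel, Equiv.Perm.one_apply]

/-- separation passes through homomorphisms -/
lemma hsep_pull (hR' : HSep R') (f : R →* R') (t y : R)
    (h : ∀ N : ℤ, 0 < N → f t ^ N ≠ f y ^ N) :
    ∃ (K : Subgroup R) (β : R → ℤ) (N : ℤ), K.FiniteIndex ∧ HomOn K β ∧ 0 < N ∧ t ^ N ∈ K ∧
      y ^ N ∈ K ∧ β (t ^ N) ≠ β (y ^ N) := by
  obtain ⟨K, β, N, hK, hβ, hN, ht, hy, hty⟩ := hR' (f t) (f y) h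
  refine ⟨K.comap f, fun g => β (f g), N, fi_comap hK f, homOn_comap hβ f, hN, ?_, ?_, ?_⟩
  · rw [Subgroup.mem_comap, map_zpow]; exact ht
  · rw [Subgroup.mem_comap, map_zpow]; exact hy
  · show β (f (t ^ N)) ≠ β (f (y ^ N))
    rw [map_zpow, map_zpow]; exact hty

lemma hsep_inj (hR' : HSep R') (f : R →* R') (hf : Function.Injective f) : HSep R := by
  intro t y h
  apply hsep_pull hR' f
  intro N hN h1
  rw [← map_zpow, ← map_zpow] at h1
  exact h N hN (hf h1)

/-- separation passes to groups of finite index above -/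
lemma hsep_fi (K : Subgroup R) (hK : K.FiniteIndex) (h : HSep K) : HSep R := by
  classical
  intro t y hty
  obtain ⟨n, hn, hnt⟩ := exists_pow_mem K t
  obtain ⟨n', hn', hny⟩ := exists_pow_mem K y
  have ht : t ^ (n * n') ∈ K := by rw [zpow_mul]; exact K.zpow_mem hnt _
  have hy : y ^ (n * n') ∈ K := by rw [mul_comm, zpow_mul]; exact K.zpow_mem hny _
  have hnn : 0 < n * n' := mul_pos hn hn'
  obtain ⟨K', β, N, hK', hβ, hN, h1, h2, h3⟩ := h ⟨t ^ (n * n'), ht⟩ ⟨y ^ (n * n'), hy⟩ (by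
    intro N hN h1
    have h2 := congrArg Subtype.val h1
    have h3 : (t ^ (n * n')) ^ N = (y ^ (n * n')) ^ N := h2
    rw [← zpow_mul, ← zpow_mul] at h3
    exact hty _ (mul_pos hnn hN) h3)
  let β' : R → ℤ := fun g => if h : g ∈ K then β ⟨g, h⟩ else 0
  have hβ' : ∀ g : K, β' g = β g := fun g => dif_pos g.2
  refine ⟨K'.map K.subtype, β', n * n' * N, ?_, ?_, mul_pos hnn hN, ?_, ?_, ?_⟩
  · constructor
    rw [Subgroup.index_map_subtype]
    exact mul_ne_zero hK'.index_ne_zero hK.index_ne_zero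
  · rintro _ ⟨a, ha, rfl⟩ _ ⟨b, hb, rfl⟩
    have e1 := hβ' (a * b)
    have e2 := hβ' a
    have e3 := hβ' b
    rw [hβ a ha b hb, ← e2, ← e3] at e1
    exact e1
  · rw [zpow_mul]; exact ⟨_, h1, rfl⟩
  · rw [zpow_mul]; exact ⟨_, h2, rfl⟩
  · intro h4
    apply h3
    have e1 := hβ' (⟨t ^ (n * n'), ht⟩ ^ N)
    have e2 := hβ' (⟨y ^ (n * n'), hy⟩ ^ N)
    rw [← e1, ← e2]
    have e3 : ((⟨t ^ (n * n'), ht⟩ ^ N : K) : R) = t ^ (n * n' * N) := (zpow_mul t _ _).symm
    have e4 : ((⟨y ^ (n * n'), hy⟩ ^ N : K) : R) = y ^ (n * n' * N) := (zpow_mul y _ _).symm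
    rw [e3, e4]
    exact h4

end closure

section words

variable {α : Type}

/-- an action which agrees with a given one on the generators as long as one stays in a subset
agrees with it on words -/
theorem word_action {Z : Type} (Λ : FreeGroup α →* Equiv.Perm Z) (S : Set Z)
    (ψ : FreeGroup α →* Equiv.Perm S)
    (hψ : ∀ (a : α) (s : S) (h : Λ (FreeGroup.of a) s ∈ S),
        ψ (FreeGroup.of a) s = ⟨Λ (FreeGroup.of a) s, h⟩)
    (x : S) (L : List (α × Bool)) (hL : ∀ L' ∈ L.tails, Λ (FreeGroup.mk L') x ∈ S) :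
    ((ψ (FreeGroup.mk L) x : S) : Z) = Λ (FreeGroup.mk L) x := by
  induction L with
  | nil =>
    have h1 : (FreeGroup.mk ([] : List (α × Bool))) = 1 := rfl
    rw [h1]; simp
  | cons c L ih =>
    have hL' : ∀ L' ∈ L.tails, Λ (FreeGroup.mk L') x ∈ S := by
      intro L' h'
      apply hL
      simp only [List.tails, List.mem_cons]
      exact Or.inr h'
    have ih' := ih hL'
    have hmem : Λ (FreeGroup.mk L) x ∈ S := hL' L (by simp)
    have hmem2 : Λ (FreeGroup.mk (c :: L)) x ∈ S := hL _ (by simp)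
    have hval : ψ (FreeGroup.mk L) x = ⟨Λ (FreeGroup.mk L) x, hmem⟩ := Subtype.ext ih'
    obtain ⟨a, b⟩ := c
    cases b with
    | true =>
      have h1 : FreeGroup.mk ((a, true) :: L) = FreeGroup.of a * FreeGroup.mk L := by
        rw [FreeGroup.of, FreeGroup.mul_mk]; rfl
      rw [h1, map_mul, Equiv.Perm.mul_apply, hval]
      rw [hψ a ⟨Λ (FreeGroup.mk L) x, hmem⟩ (by
        show Λ (FreeGroup.of a) (Λ (FreeGroup.mk L) x) ∈ S
        rw [← Equiv.Perm.mul_apply, ← map_mul, ← h1]; exact hmem2)]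
      show Λ (FreeGroup.of a) (Λ (FreeGroup.mk L) x) = Λ (FreeGroup.of a * FreeGroup.mk L) x
      rw [← Equiv.Perm.mul_apply, ← map_mul]
    | false =>
      have h1 : FreeGroup.mk ((a, false) :: L) = (FreeGroup.of a)⁻¹ * FreeGroup.mk L := by
        rw [FreeGroup.of, FreeGroup.inv_mk, FreeGroup.mul_mk]; rfl
      rw [h1, map_mul, Equiv.Perm.mul_apply, hval, map_inv]
      have h2 : ψ (FreeGroup.of a) ⟨Λ (FreeGroup.mk ((a, false) :: L)) x, hmem2⟩ =
          ⟨Λ (FreeGroup.mk L) x, hmem⟩ := by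
        rw [hψ a ⟨Λ (FreeGroup.mk ((a, false) :: L)) x, hmem2⟩ (by
          show Λ (FreeGroup.of a) (Λ (FreeGroup.mk ((a, false) :: L)) x) ∈ S
          rw [← Equiv.Perm.mul_apply, ← map_mul, h1, mul_inv_cancel_left]; exact hmem)]
        apply Subtype.ext
        show Λ (FreeGroup.of a) (Λ (FreeGroup.mk ((a, false) :: L)) x) = _
        rw [← Equiv.Perm.mul_apply, ← map_mul, h1, mul_inv_cancel_left]
      rw [← h2, perm_inv_self]
      show Λ (FreeGroup.mk ((a, false) :: L)) x = _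
      rw [h1]

/-- A homomorphism to the integers on a subgroup of a free group extends, with prescribed values on
two elements, to a subgroup of finite index. -/
theorem extend_hom (J : Subgroup (FreeGroup α)) (γ : J →* Multiplicative ℤ) (t y : J) :
    ∃ (K : Subgroup (FreeGroup α)) (β : FreeGroup α → ℤ), K.FiniteIndex ∧ HomOn K β ∧
      (t : FreeGroup α) ∈ K ∧ (y : FreeGroup α) ∈ K ∧ β t = (γ t).toAdd ∧ β y = (γ y).toAdd := by
  classical
  let X := FreeGroup α ⧸ J
  have hj : ∀ (f : FreeGroup α) (x : X), (f • x).out⁻¹ * (f * x.out) ∈ J := by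
    intro f x
    rw [← QuotientGroup.eq, QuotientGroup.out_eq']
    show f • x = ((f * x.out : FreeGroup α) : X)
    conv_lhs => rw [← QuotientGroup.out_eq' x]
    rfl
  let c : FreeGroup α → X → ℤ := fun f x => (γ ⟨_, hj f x⟩).toAdd
  have hc : ∀ f g x, c (f * g) x = c g x + c f (g • x) := by
    intro f g x
    show (γ ⟨_, hj (f * g) x⟩).toAdd = (γ ⟨_, hj g x⟩).toAdd + (γ ⟨_, hj f (g • x)⟩).toAdd
    rw [add_comm, ← toAdd_mul, ← map_mul]
    congr 2
    apply Subtype.ext
    show ((f * g) • x).out⁻¹ * (f * g * x.out) =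
      (f • g • x).out⁻¹ * (f * (g • x).out) * ((g • x).out⁻¹ * (g * x.out))
    rw [mul_smul]
    group
  have hc1 : ∀ x, c 1 x = 0 := by
    intro x
    have := hc 1 1 x
    rw [mul_one, one_smul] at this
    omega
  let Z := X × ℤ
  let Λ : FreeGroup α →* Equiv.Perm Z := MonoidHom.toHomPerm
    { toFun := fun f z => (f • z.1, z.2 + c f z.1)
      map_one' := by
        funext z
        show ((1 : FreeGroup α) • z.1, z.2 + c 1 z.1) = z
        rw [one_smul, hc1, add_zero]
      map_mul' := by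
        intro f g
        funext z
        show ((f * g) • z.1, z.2 + c (f * g) z.1) =
          (f • g • z.1, z.2 + c g z.1 + c f (g • z.1))
        rw [mul_smul, hc, add_assoc] }
  have hΛ : ∀ f z, Λ f z = (f • z.1, z.2 + c f z.1) := fun f z => rfl
  let x0 : X := ((1 : FreeGroup α) : X)
  let S : Finset X := (((t : FreeGroup α).toWord.tails ++ (y : FreeGroup α).toWord.tails).map
    (fun L => FreeGroup.mk L • x0)).toFinset
  have hS : ∀ L, L ∈ (t : FreeGroup α).toWord.tails ∨ L ∈ (y : FreeGroup α).toWord.tails →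
      FreeGroup.mk L • x0 ∈ S := by
    intro L hL
    simp only [S, List.mem_toFinset, List.mem_map, List.mem_append]
    exact ⟨L, hL, rfl⟩
  have hx0 : x0 ∈ S := by
    have := hS [] (Or.inl (by simp))
    have h1 : (FreeGroup.mk ([] : List (α × Bool))) = 1 := rfl
    rwa [h1, one_smul] at this
  have key : ∀ a : α, ∃ p : Equiv.Perm S, ∀ (s : S) (h : FreeGroup.of a • (s : X) ∈ S),
      p s = ⟨FreeGroup.of a • (s : X), h⟩ := by
    intro a
    let e : {s : S // FreeGroup.of a • (s : X) ∈ S} ≃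
        {s : S // (FreeGroup.of a)⁻¹ • (s : X) ∈ S} :=
      { toFun := fun s => ⟨⟨FreeGroup.of a • (s.1 : X), s.2⟩, by simp⟩
        invFun := fun s => ⟨⟨(FreeGroup.of a)⁻¹ • (s.1 : X), s.2⟩, by simp⟩
        left_inv := fun s => by ext; simp
        right_inv := fun s => by ext; simp }
    refine ⟨e.extendSubtype, fun s h => ?_⟩
    rw [Equiv.extendSubtype_apply_of_mem e s h]; rfl
  choose p hp using key
  let φ : FreeGroup α →* Equiv.Perm S := FreeGroup.lift p
  let S' : Set Z := {z | z.1 ∈ S}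
  let q : α → Equiv.Perm S' := fun a =>
    { toFun := fun z => ⟨(p a ⟨z.1.1, z.2⟩, z.1.2 + c (FreeGroup.of a) z.1.1), (p a ⟨z.1.1, z.2⟩).2⟩
      invFun := fun z => ⟨((p a).symm ⟨z.1.1, z.2⟩,
        z.1.2 - c (FreeGroup.of a) ((p a).symm ⟨z.1.1, z.2⟩)), ((p a).symm ⟨z.1.1, z.2⟩).2⟩
      left_inv := by
        rintro ⟨⟨x, n⟩, hx⟩
        apply Subtype.ext
        simp
      right_inv := by
        rintro ⟨⟨x, n⟩, hx⟩
        apply Subtype.ext
        simp }
  let ψ : FreeGroup α →* Equiv.Perm S' := FreeGroup.lift q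
  -- compatibility with the projection and with translations
  have hproj : ∀ (f : FreeGroup α) (z : S'), (ψ f z).1.1 = (φ f ⟨z.1.1, z.2⟩ : S) := by
    intro f
    induction f using FreeGroup.induction_on with
    | C1 => intro z; simp
    | of a =>
      intro z
      show (FreeGroup.lift q (FreeGroup.of a) z).1.1 = (FreeGroup.lift p (FreeGroup.of a) _ : S)
      rw [FreeGroup.lift_apply_of, FreeGroup.lift_apply_of]
      rfl
    | inv_of a ih =>
      intro z
      rw [map_inv, map_inv]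
      have h1 := ih ((ψ (FreeGroup.of a))⁻¹ z)
      rw [perm_self_inv] at h1
      have h2 : (⟨z.1.1, z.2⟩ : S) =
          φ (FreeGroup.of a) ⟨((ψ (FreeGroup.of a))⁻¹ z).1.1, ((ψ (FreeGroup.of a))⁻¹ z).2⟩ :=
        Subtype.ext h1
      rw [h2, perm_inv_self]
    | mul f g hf hg =>
      intro z
      rw [map_mul, map_mul, Equiv.Perm.mul_apply, Equiv.Perm.mul_apply, hf]
      congr 2
      exact Subtype.ext (hg z)
  have htr : ∀ (f : FreeGroup α) (z : S') (m : ℤ),
      ψ f ⟨(z.1.1, z.1.2 + m), z.2⟩ = ⟨((ψ f z).1.1, (ψ f z).1.2 + m), (ψ f z).2⟩ := by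
    intro f
    induction f using FreeGroup.induction_on with
    | C1 => intro z m; simp
    | of a =>
      intro z m
      have h1 : ψ (FreeGroup.of a) = q a := FreeGroup.lift_apply_of
      rw [h1]
      apply Subtype.ext
      refine Prod.ext rfl ?_
      show z.1.2 + m + c (FreeGroup.of a) z.1.1 = z.1.2 + c (FreeGroup.of a) z.1.1 + m
      ring
    | inv_of a ih =>
      intro z m
      rw [map_inv]
      have h1 := ih ((ψ (FreeGroup.of a))⁻¹ z) m
      rw [Equiv.Perm.inv_eq_iff_eq, h1]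
      apply Subtype.ext
      refine Prod.ext ?_ ?_
      · show z.1.1 = (ψ (FreeGroup.of a) ((ψ (FreeGroup.of a))⁻¹ z)).1.1
        rw [perm_self_inv]
      · show z.1.2 + m = (ψ (FreeGroup.of a) ((ψ (FreeGroup.of a))⁻¹ z)).1.2 + m
        rw [perm_self_inv]
    | mul f g hf hg =>
      intro z m
      rw [map_mul, Equiv.Perm.mul_apply, hg, hf]
      rfl
  have hψ : ∀ (a : α) (s : S') (h : Λ (FreeGroup.of a) s ∈ S'),
        ψ (FreeGroup.of a) s = ⟨Λ (FreeGroup.of a) s, h⟩ := by
    intro a s h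
    have h1 : ψ (FreeGroup.of a) = q a := FreeGroup.lift_apply_of
    rw [h1]
    apply Subtype.ext
    refine Prod.ext ?_ rfl
    show ((p a ⟨s.1.1, s.2⟩ : S) : X) = FreeGroup.of a • s.1.1
    rw [hp a ⟨s.1.1, s.2⟩ h]
  let z0 : S' := ⟨(x0, 0), hx0⟩
  have hval : ∀ g : J, (g = t ∨ g = y) → ψ (g : FreeGroup α) z0 = ⟨(x0, (γ g).toAdd), hx0⟩ := by
    intro g hg
    have h1 := word_action Λ S' ψ hψ z0 (g : FreeGroup α).toWord (by
      intro L' hL'
      show FreeGroup.mk L' • x0 ∈ S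
      apply hS
      rcases hg with rfl | rfl
      · exact Or.inl hL'
      · exact Or.inr hL')
    rw [FreeGroup.mk_toWord] at h1
    apply Subtype.ext
    rw [h1, hΛ]
    show ((g : FreeGroup α) • x0, 0 + c g x0) = (x0, (γ g).toAdd)
    have h2 : (g : FreeGroup α) • x0 = x0 := by
      show (((g : FreeGroup α) * 1 : FreeGroup α) : X) = ((1 : FreeGroup α) : X)
      rw [QuotientGroup.eq]
      simp
    refine Prod.ext h2 ?_
    show 0 + c g x0 = (γ g).toAdd
    rw [zero_add]
    show (γ ⟨_, hj g x0⟩).toAdd = _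
    have h3 : x0.out ∈ J := by
      obtain ⟨k, hk⟩ := QuotientGroup.mk_out_eq_mul J (1 : FreeGroup α)
      show (((1 : FreeGroup α) : X)).out ∈ J
      rw [hk, one_mul]
      exact k.2
    have h4 : (⟨_, hj g x0⟩ : J) = (⟨x0.out, h3⟩ : J)⁻¹ * g * ⟨x0.out, h3⟩ := by
      apply Subtype.ext
      show ((g : FreeGroup α) • x0).out⁻¹ * ((g : FreeGroup α) * x0.out) =
        x0.out⁻¹ * (g : FreeGroup α) * x0.out
      rw [h2, mul_assoc]
    rw [h4, map_mul γ, map_mul γ, map_inv γ, toAdd_mul, toAdd_mul, toAdd_inv]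
    ring
  let K : Subgroup (FreeGroup α) :=
    (MulAction.stabilizer (Equiv.Perm S) (⟨x0, hx0⟩ : S)).comap φ
  have hKmem : ∀ f, f ∈ K ↔ φ f ⟨x0, hx0⟩ = ⟨x0, hx0⟩ := fun f => Iff.rfl
  have hK1 : ∀ f ∈ K, (ψ f z0).1.1 = x0 := by
    intro f hf
    rw [hproj]
    show ((φ f ⟨x0, hx0⟩ : S) : X) = x0
    rw [(hKmem f).mp hf]
  have hKt : ∀ g : J, (g = t ∨ g = y) → (g : FreeGroup α) ∈ K := by
    intro g hg
    rw [hKmem]
    apply Subtype.ext
    rw [← hproj g z0, hval g hg]
  refine ⟨K, fun f => (ψ f z0).1.2, ?_, ?_, hKt t (Or.inl rfl), hKt y (Or.inr rfl), ?_, ?_⟩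
  · have : Finite (Equiv.Perm S) := inferInstance
    exact fi_comap inferInstance φ
  · intro f hf g hg
    show (ψ (f * g) z0).1.2 = (ψ f z0).1.2 + (ψ g z0).1.2
    rw [map_mul, Equiv.Perm.mul_apply]
    have h1 : ψ g z0 = ⟨(z0.1.1, z0.1.2 + (ψ g z0).1.2), z0.2⟩ := by
      apply Subtype.ext
      refine Prod.ext ?_ ?_
      · exact hK1 g hg
      · show (ψ g z0).1.2 = 0 + (ψ g z0).1.2
        rw [zero_add]
    rw [h1, htr]
    show (ψ f z0).1.2 + (ψ g z0).1.2 = (ψ f z0).1.2 + (0 + (ψ g z0).1.2)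
    rw [zero_add]
  · show (ψ t z0).1.2 = _
    rw [hval t (Or.inl rfl)]
  · show (ψ y z0).1.2 = _
    rw [hval y (Or.inr rfl)]

end words

/-- two different elements of a free group generate a subgroup with a homomorphism to the integers
taking different values on them -/
theorem exists_hom {α : Type} (t y : FreeGroup α) (hty : t ≠ y) :
    ∃ (J : Subgroup (FreeGroup α)) (γ : J →* Multiplicative ℤ) (ht : t ∈ J) (hy : y ∈ J),
      γ ⟨t, ht⟩ ≠ γ ⟨y, hy⟩ := by
  classical
  let J := Subgroup.closure ({t, y} : Set (FreeGroup α))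
  have ht : t ∈ J := Subgroup.subset_closure (by simp)
  have hy : y ∈ J := Subgroup.subset_closure (by simp)
  let X := IsFreeGroup.Generators J
  let e : J ≃* FreeGroup X := IsFreeGroup.toFreeGroup J
  let c : X → J →* Multiplicative ℤ := fun i =>
    (FreeGroup.lift (fun k => if k = i then Multiplicative.ofAdd (1 : ℤ) else 1)).comp e.toMonoidHom
  have hc : ∀ i g, c i g = FreeGroup.lift (fun k => if k = i then Multiplicative.ofAdd (1 : ℤ) else 1)
      (e g) := fun i g => rfl
  have hc1 : ∀ i, c i (e.symm (FreeGroup.of i)) = Multiplicative.ofAdd 1 := by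
    intro i
    rw [hc, MulEquiv.apply_symm_apply, FreeGroup.lift_apply_of, if_pos rfl]
  have hc0 : ∀ i j, j ≠ i → c i (e.symm (FreeGroup.of j)) = 1 := by
    intro i j hij
    rw [hc, MulEquiv.apply_symm_apply, FreeGroup.lift_apply_of, if_neg hij]
  by_contra hcon
  push Not at hcon
  have heq : ∀ i, c i ⟨t, ht⟩ = c i ⟨y, hy⟩ := fun i => hcon J (c i) ht hy
  have hss : Subsingleton X := by
    constructor
    intro i j
    by_contra hij
    have key : ∀ g (hg : g ∈ J), ∃ n : ℤ, c i ⟨g, hg⟩ = c i ⟨t, ht⟩ ^ n ∧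
        c j ⟨g, hg⟩ = c j ⟨t, ht⟩ ^ n := by
      intro g hg
      induction hg using Subgroup.closure_induction with
      | mem g hg' =>
        rcases hg' with h | h
        · subst h
          exact ⟨1, by rw [zpow_one], by rw [zpow_one]⟩
        · have h' : g = y := h
          subst h'
          exact ⟨1, by rw [zpow_one, heq], by rw [zpow_one, heq]⟩
      | one => exact ⟨0, by rw [zpow_zero]; exact map_one (c i), by
          rw [zpow_zero]; exact map_one (c j)⟩
      | mul a b ha hb iha ihb =>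
        obtain ⟨n, h1, h2⟩ := iha
        obtain ⟨m, h3, h4⟩ := ihb
        refine ⟨n + m, ?_, ?_⟩
        · rw [zpow_add, ← h1, ← h3, ← map_mul]; rfl
        · rw [zpow_add, ← h2, ← h4, ← map_mul]; rfl
      | inv a ha iha =>
        obtain ⟨n, h1, h2⟩ := iha
        refine ⟨-n, ?_, ?_⟩
        · rw [zpow_neg, ← h1, ← map_inv]; rfl
        · rw [zpow_neg, ← h2, ← map_inv]; rfl
    obtain ⟨n, h1, h2⟩ := key _ (e.symm (FreeGroup.of i)).2
    obtain ⟨m, h3, h4⟩ := key _ (e.symm (FreeGroup.of j)).2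
    have h1' : Multiplicative.ofAdd (1 : ℤ) = c i ⟨t, ht⟩ ^ n := by rw [← h1]; exact (hc1 i).symm
    have h2' : (1 : Multiplicative ℤ) = c j ⟨t, ht⟩ ^ n := by rw [← h2]; exact (hc0 j i hij).symm
    have h4' : Multiplicative.ofAdd (1 : ℤ) = c j ⟨t, ht⟩ ^ m := by rw [← h4]; exact (hc1 j).symm
    have k1 : (1 : ℤ) = n * (c i ⟨t, ht⟩).toAdd := by
      have := congrArg Multiplicative.toAdd h1'
      rwa [toAdd_ofAdd, toAdd_zpow, zsmul_eq_mul] at this
    have k2 : (0 : ℤ) = n * (c j ⟨t, ht⟩).toAdd := by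
      have := congrArg Multiplicative.toAdd h2'
      rwa [toAdd_one, toAdd_zpow, zsmul_eq_mul] at this
    have k4 : (1 : ℤ) = m * (c j ⟨t, ht⟩).toAdd := by
      have := congrArg Multiplicative.toAdd h4'
      rwa [toAdd_ofAdd, toAdd_zpow, zsmul_eq_mul] at this
    rcases mul_eq_zero.mp k2.symm with h | h
    · rw [h, zero_mul] at k1
      exact one_ne_zero k1
    · rw [h, mul_zero] at k4
      exact one_ne_zero k4
  apply hty
  have : (⟨t, ht⟩ : J) = ⟨y, hy⟩ := by
    apply e.injective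
    rcases isEmpty_or_nonempty X with hX | ⟨⟨i⟩⟩
    · exact Subsingleton.elim _ _
    · obtain ⟨n, hn⟩ := Pool.Agent.Helper180.FreeMetric.zpow_of_subsingleton hss i (e ⟨t, ht⟩)
      obtain ⟨m, hm⟩ := Pool.Agent.Helper180.FreeMetric.zpow_of_subsingleton hss i (e ⟨y, hy⟩)
      have h1 := heq i
      rw [hc, hc, hn, hm, map_zpow, map_zpow, FreeGroup.lift_apply_of, if_pos rfl] at h1
      have h2 := congrArg Multiplicative.toAdd h1
      rw [toAdd_zpow, toAdd_zpow, toAdd_ofAdd, zsmul_eq_mul, zsmul_eq_mul, mul_one, mul_one] at h2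
      have h3 : n = m := by exact_mod_cast h2
      rw [hn, hm, h3]
  exact congrArg Subtype.val this

theorem hsep_free (α : Type) : HSep (FreeGroup α) := by
  intro t y h
  have hty : t ≠ y := by
    have := h 1 one_pos
    rwa [zpow_one, zpow_one] at this
  obtain ⟨J, γ, ht, hy, hne⟩ := exists_hom t y hty
  obtain ⟨K, β, hK, hβ, htK, hyK, h1, h2⟩ := extend_hom J γ ⟨t, ht⟩ ⟨y, hy⟩
  refine ⟨K, β, 1, hK, hβ, one_pos, by rwa [zpow_one], by rwa [zpow_one], ?_⟩
  rw [zpow_one, zpow_one]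
  intro h3
  apply hne
  apply Multiplicative.toAdd.injective
  rw [← h1, ← h2]
  exact h3

end Run7.h574
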