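import Pool.Agent.Run7.h574.Pair2

/-!
# Two invariant subgroups, abstract free-by-cyclic groups
-/

set_option autoImplicit false
set_option linter.unusedSectionVars false
set_option linter.dupNamespace false

namespace Run7.h574

section

variable {G : Type} [Group G] (χ : G →* Multiplicative ℤ)

lemma norm_zpow {A : Subgroup G} {u : G} (hu : ∀ x, x ∈ A ↔ u * x * u⁻¹ ∈ A) (k : ℤ) (x : G) :
    x ∈ A ↔ u ^ k * x * (u ^ k)⁻¹ ∈ A := by
  let S : Subgroup G :=
    { carrier := {g | ∀ x, x ∈ A ↔ g * x * g⁻¹ ∈ A}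
      mul_mem' := by
        intro a b ha hb x
        have e : a * b * x * (a * b)⁻¹ = a * (b * x * b⁻¹) * a⁻¹ := by group
        rw [e, ← ha, ← hb]
      one_mem' := by intro x; simp
      inv_mem' := by
        intro a ha x
        rw [ha (a⁻¹ * x * a⁻¹⁻¹)]
        have e : a * (a⁻¹ * x * a⁻¹⁻¹) * a⁻¹ = x := by group
        rw [e] }
  exact S.zpow_mem (show u ∈ S from hu) k x

lemma ker_sup {A : Subgroup G} (hA : A ≤ χ.ker) {u : G} (hu : χ u ≠ 1)
    (hn : ∀ x, x ∈ A ↔ u * x * u⁻¹ ∈ A) : χ.ker ⊓ (A ⊔ Subgroup.zpowers u) = A := by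
  let S : Subgroup G :=
    { carrier := {g | ∃ k : ℤ, g * (u ^ k)⁻¹ ∈ A}
      mul_mem' := by
        rintro a b ⟨k, hk⟩ ⟨l, hl⟩
        refine ⟨k + l, ?_⟩
        have e : a * b * (u ^ (k + l))⁻¹ = (a * (u ^ k)⁻¹) * (u ^ k * (b * (u ^ l)⁻¹) * (u ^ k)⁻¹) := by
          rw [add_comm, zpow_add]; group
        rw [e]
        exact A.mul_mem hk ((norm_zpow hn k _).mp hl)
      one_mem' := ⟨0, by simp⟩
      inv_mem' := by
        rintro a ⟨k, hk⟩
        refine ⟨-k, ?_⟩
        rw [norm_zpow hn k]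
        have e : u ^ k * (a⁻¹ * (u ^ (-k))⁻¹) * (u ^ k)⁻¹ = (a * (u ^ k)⁻¹)⁻¹ := by group
        rw [e]
        exact A.inv_mem hk }
  have hle : A ⊔ Subgroup.zpowers u ≤ S := by
    rw [sup_le_iff, Subgroup.zpowers_le]
    exact ⟨fun a ha => ⟨0, by simpa using ha⟩, ⟨1, by simp⟩⟩
  apply le_antisymm
  · rintro g ⟨hg1, hg2⟩
    obtain ⟨k, hk⟩ := hle hg2
    have h1 : χ (g * (u ^ k)⁻¹) = 1 := hA hk
    have h2 : χ g = 1 := hg1
    rw [map_mul, h2, one_mul, map_inv, inv_eq_one, map_zpow] at h1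
    have h3 := congrArg Multiplicative.toAdd h1
    rw [toAdd_zpow, toAdd_one, smul_eq_mul] at h3
    have h4 : k = 0 := by
      rcases mul_eq_zero.mp h3 with h5 | h5
      · exact h5
      · exact absurd (Multiplicative.toAdd.injective h5) hu
    rw [h4, zpow_zero, inv_one, mul_one] at hk
    exact hk
  · exact le_inf hA le_sup_left

/-- **Two invariant subgroups**, abstract version. -/
theorem pair_group {α : Type} [Finite α] (e : χ.ker ≃* FreeGroup α) (hG : LERF G)
    {A C : Subgroup G} (hAk : A ≤ χ.ker) (hCk : C ≤ χ.ker) (hA : A.FG) (hC : C.FG) {u : G}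
    (hu : χ u ≠ 1) (hAu : ∀ x, x ∈ A ↔ u * x * u⁻¹ ∈ A) (hCu : ∀ x, x ∈ C ↔ u * x * u⁻¹ ∈ C)
    (hcyc : IsCyclic (A ⊓ C : Subgroup G)) (hidxA : (A ⊓ C).relIndex A = 0)
    (hidxC : (A ⊓ C).relIndex C = 0)
    (hTA : IsCyclic A ∨ HSep (A ⊔ Subgroup.zpowers u : Subgroup G) ∨ Nonempty (A ≃* F2))
    (hTC : IsCyclic C ∨ HSep (C ⊔ Subgroup.zpowers u : Subgroup G) ∨ Nonempty (C ≃* F2)) :
    ∃ (J : ℤ) (z : G), J ≠ 0 ∧ z ∈ A ⊓ C ∧ (∀ y ∈ A, Commute (z * u ^ J) y) ∧
      ∀ y ∈ C, Commute (z * u ^ J) y := by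
  obtain ⟨ψ, E, d, hd, hE, hχE⟩ := exists_mt χ e ⟨u, hu⟩
  let f : FreeGroup α →* G := E.toMonoidHom.comp SemidirectProduct.inl
  have hf : ∀ x, f x = (e.symm x : G) := hE
  have hfinj : Function.Injective f := E.injective.comp SemidirectProduct.inl_injective
  have hfr : ∀ B : Subgroup G, B ≤ χ.ker → (B.comap f).map f = B := by
    intro B hB
    rw [Subgroup.map_comap_eq]
    apply inf_eq_right.mpr
    intro x hx
    exact ⟨e ⟨x, hB hx⟩, by rw [hf, MulEquiv.symm_apply_apply]⟩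
  have hfe : ∀ B : Subgroup G, B ≤ χ.ker → ∀ x ∈ B, ∃ y ∈ B.comap f, f y = x := by
    intro B hB x hx
    rw [← hfr B hB] at hx
    exact hx
  have hfg : ∀ B : Subgroup G, B ≤ χ.ker → B.FG → (B.comap f).FG := by
    intro B hB hBfg
    apply fg_of_map f hfinj
    rw [hfr B hB]
    exact hBfg
  have hiso : ∀ B : Subgroup G, B ≤ χ.ker → Nonempty ((B.comap f) ≃* B) := by
    intro B hB
    refine ⟨MulEquiv.ofBijective
      ({ toFun := fun x => ⟨f x, x.2⟩
         map_one' := Subtype.ext (map_one f)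
         map_mul' := fun a b => Subtype.ext (map_mul f _ _) } : B.comap f →* B) ⟨?_, ?_⟩⟩
    · intro a b hab
      exact Subtype.ext (hfinj (congrArg Subtype.val hab))
    · rintro ⟨x, hx⟩
      obtain ⟨y, hy, hyx⟩ := hfe B hB x hx
      exact ⟨⟨y, hy⟩, Subtype.ext hyx⟩
  set u' : MT ψ := E.symm u with hu'
  have hEu : E u' = u := MulEquiv.apply_symm_apply E u
  have hchi : chi ψ u' ≠ 0 := by
    intro h3
    have h1 := hχE u'
    rw [h3, mul_zero, hEu] at h1
    exact hu (Multiplicative.toAdd.injective h1)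
  have hfcj : ∀ x, f (cj ψ u' x) = u * f x * u⁻¹ := by
    intro x
    show E (SemidirectProduct.inl (cj ψ u' x)) = u * E (SemidirectProduct.inl x) * u⁻¹
    rw [← cj_spec, map_mul, map_mul, map_inv, hEu]
  have hinv : ∀ B : Subgroup G, (∀ x, x ∈ B ↔ u * x * u⁻¹ ∈ B) →
      ∀ x, cj ψ u' x ∈ B.comap f ↔ x ∈ B.comap f := by
    intro B hB x
    rw [Subgroup.mem_comap, Subgroup.mem_comap, hfcj, ← hB]
  have hrel : ∀ B : Subgroup G, B ≤ χ.ker → (A ⊓ C).relIndex B = 0 →
      (A.comap f ⊓ C.comap f).relIndex (B.comap f) = 0 := by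
    intro B hB h
    rw [← Subgroup.comap_inf, Subgroup.relIndex_comap, hfr B hB]
    exact h
  have hcyc' : IsCyclic (A.comap f ⊓ C.comap f : Subgroup (FreeGroup α)) := by
    let κ : (A.comap f ⊓ C.comap f : Subgroup (FreeGroup α)) →* (A ⊓ C : Subgroup G) :=
      { toFun := fun x => ⟨f x, x.2⟩
        map_one' := Subtype.ext (map_one f)
        map_mul' := fun a b => Subtype.ext (map_mul f _ _) }
    refine isCyclic_of_injective κ ?_
    intro a b hab
    exact Subtype.ext (hfinj (congrArg Subtype.val hab))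
  have htame : ∀ B : Subgroup G, B ≤ χ.ker →
      (IsCyclic B ∨ HSep (B ⊔ Subgroup.zpowers u : Subgroup G) ∨ Nonempty (B ≃* F2)) →
      TamePair ψ (B.comap f) u' := by
    intro B hB h
    obtain ⟨i⟩ := hiso B hB
    rcases h with h | h | h
    · exact Or.inl (isCyclic_of_injective i.toMonoidHom i.injective)
    · right; left
      have hm : ∀ g ∈ Subgroup.closure (insert u' (SemidirectProduct.inl ''
          ((B.comap f : Subgroup (FreeGroup α)) : Set (FreeGroup α))) : Set (MT ψ)),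
          E g ∈ B ⊔ Subgroup.zpowers u := by
        intro g hg
        have h1 : Subgroup.closure (insert u' (SemidirectProduct.inl ''
          ((B.comap f : Subgroup (FreeGroup α)) : Set (FreeGroup α))) : Set (MT ψ)) ≤
          (B ⊔ Subgroup.zpowers u).comap E.toMonoidHom := by
          rw [Subgroup.closure_le]
          rintro g (rfl | ⟨x, hx, rfl⟩)
          · show E u' ∈ B ⊔ Subgroup.zpowers u
            rw [hEu]
            exact Subgroup.mem_sup_right (Subgroup.mem_zpowers u)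
          · exact Subgroup.mem_sup_left hx
        exact h1 hg
      let κ : Subgroup.closure (insert u' (SemidirectProduct.inl ''
          ((B.comap f : Subgroup (FreeGroup α)) : Set (FreeGroup α))) : Set (MT ψ)) →*
          (B ⊔ Subgroup.zpowers u : Subgroup G) :=
        { toFun := fun g => ⟨E g, hm g g.2⟩
          map_one' := Subtype.ext (map_one E)
          map_mul' := fun a b => Subtype.ext (map_mul E _ _) }
      apply hsep_inj h κ
      intro a b hab
      exact Subtype.ext (E.injective (congrArg Subtype.val hab))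
    · exact Or.inr (Or.inr (h.map fun j => i.trans j))
  obtain ⟨J, z, hJ, hz, h1, h2⟩ := pair_both (lerf_equiv hG E) (hfg A hAk hA) (hfg C hCk hC) hchi
    (hinv A hAu) (hinv C hCu) hcyc' (hrel A hAk hidxA) (hrel C hCk hidxC) (htame A hAk hTA)
    (htame C hCk hTC)
  have hEz : E (SemidirectProduct.inl z * u' ^ J) = f z * u ^ J := by
    rw [map_mul, map_zpow, hEu]
    rfl
  refine ⟨J, f z, hJ, hz, ?_, ?_⟩
  · intro y hy
    obtain ⟨x, hx, rfl⟩ := hfe A hAk y hy
    have h3 := (h1 x hx).map E.toMonoidHom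
    rw [← hEz]
    exact h3
  · intro y hy
    obtain ⟨x, hx, rfl⟩ := hfe C hCk y hy
    have h3 := (h2 x hx).map E.toMonoidHom
    rw [← hEz]
    exact h3

end

end Run7.h574
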