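import Pool.Agent.Run7.h574.Spec
import Pool.Agent.Run7.h574.AbstractG
import Pool.Agent.Run7.h574.PairG

/-!
# LERF groups in the hierarchy have enough virtual homomorphisms
-/

set_option autoImplicit false
set_option linter.unusedSectionVars false
set_option linter.dupNamespace false

namespace Run7.h574

open Pool.Agent.Helper180.FreeMetric

/-- a free group with a subgroup of finite index which is free of rank two is free of rank two -/
theorem rank_two_of_fi {β : Type} [Finite β] (A' : Subgroup (FreeGroup β)) (hfi : A'.FiniteIndex)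
    (e : A' ≃* F2) : Nonempty (FreeGroup β ≃* F2) := by
  classical
  have := Fintype.ofFinite β
  -- the abelianization
  let ab : FreeGroup β →* Multiplicative (β → ℚ) :=
    FreeGroup.lift (fun b => Multiplicative.ofAdd (Pi.single b (1 : ℚ)))
  let vec : F2 → (β → ℚ) := fun x => Multiplicative.toAdd (ab (e.symm x : FreeGroup β))
  have hvmul : ∀ x y, vec (x * y) = vec x + vec y := by
    intro x y
    show Multiplicative.toAdd (ab ((e.symm (x * y) : A') : FreeGroup β)) = _
    rw [map_mul, Subgroup.coe_mul, map_mul, toAdd_mul]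
  have hv1 : vec 1 = 0 := by
    show Multiplicative.toAdd (ab ((e.symm 1 : A') : FreeGroup β)) = _
    rw [map_one, OneMemClass.coe_one, map_one, toAdd_one]
  have hvinv : ∀ x, vec x⁻¹ = - vec x := by
    intro x
    have := hvmul x x⁻¹
    rw [mul_inv_cancel, hv1] at this
    exact (neg_eq_of_add_eq_zero_right this.symm).symm
  let S : Submodule ℚ (β → ℚ) := Submodule.span ℚ (Set.range (fun i : Fin 2 => vec (FreeGroup.of i)))
  have hS : ∀ x : F2, vec x ∈ S := by
    intro x
    induction x using FreeGroup.induction_on with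
    | C1 => rw [hv1]; exact S.zero_mem
    | of a => exact Submodule.subset_span ⟨a, rfl⟩
    | inv_of a _ => rw [hvinv]; exact S.neg_mem (Submodule.subset_span ⟨a, rfl⟩)
    | mul a b ha hb => rw [hvmul]; exact S.add_mem ha hb
  have htop : S = ⊤ := by
    rw [eq_top_iff]
    have hb : ∀ b : β, Pi.single b (1 : ℚ) ∈ S := by
      intro b
      obtain ⟨n, hn, hn'⟩ := exists_pow_mem A' (FreeGroup.of b)
      have h1 := hS (e ⟨_, hn'⟩)
      have h2 : vec (e ⟨_, hn'⟩) = (n : ℚ) • (Pi.single b (1 : ℚ) : β → ℚ) := by
        show Multiplicative.toAdd (ab ((e.symm (e ⟨_, hn'⟩) : A') : FreeGroup β)) = _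
        rw [MulEquiv.symm_apply_apply]
        show Multiplicative.toAdd (ab ((FreeGroup.of b) ^ n)) = _
        rw [map_zpow, toAdd_zpow]
        have h3 : ab (FreeGroup.of b) = Multiplicative.ofAdd (Pi.single b (1 : ℚ)) := by
          simp only [ab]
          rw [FreeGroup.lift_apply_of]
        rw [h3, toAdd_ofAdd]
        ext i
        simp
      rw [h2] at h1
      have h3 := S.smul_mem ((n : ℚ)⁻¹) h1
      rwa [smul_smul, inv_mul_cancel₀ (by exact_mod_cast hn.ne'), one_smul] at h3
    intro v _
    have h1 : v = ∑ b, v b • (Pi.single b (1 : ℚ) : β → ℚ) := by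
      ext i
      simp [Finset.sum_apply, Pi.single_apply]
    rw [h1]
    exact S.sum_mem (fun b _ => S.smul_mem _ (hb b))
  have hcard : Fintype.card β ≤ 2 := by
    have h1 : Module.finrank ℚ S ≤ Fintype.card (Fin 2) := finrank_range_le_card _
    rw [htop, finrank_top, Module.finrank_fintype_fun_eq_card, Fintype.card_fin] at h1
    exact h1
  have hcard2 : ¬ Fintype.card β ≤ 1 := by
    intro h
    have hsub : Subsingleton β := Fintype.card_le_one_iff_subsingleton.mp h
    have hcommA : ∀ x y : FreeGroup β, x * y = y * x := by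
      rcases isEmpty_or_nonempty β with hE | ⟨⟨i⟩⟩
      · intro x y
        have : Subsingleton (FreeGroup β) := inferInstance
        exact Subsingleton.elim _ _
      · intro x y
        obtain ⟨a, rfl⟩ := zpow_of_subsingleton hsub i x
        obtain ⟨b, rfl⟩ := zpow_of_subsingleton hsub i y
        rw [← zpow_add, ← zpow_add, add_comm]
    have h1 : (e.symm (FreeGroup.of 0 * FreeGroup.of 1) : A') =
        e.symm (FreeGroup.of 1 * FreeGroup.of 0) := by
      apply Subtype.ext
      rw [map_mul, map_mul, Subgroup.coe_mul, Subgroup.coe_mul]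
      exact hcommA _ _
    have h2 := e.symm.injective h1
    have h3 : (FreeGroup.of (0 : Fin 2) * FreeGroup.of 1 : F2) ≠ FreeGroup.of 1 * FreeGroup.of 0 := by
      decide
    exact h3 h2
  have hcard3 : Fintype.card β = Fintype.card (Fin 2) := by
    rw [Fintype.card_fin]
    omega
  exact ⟨FreeGroup.freeGroupCongr (Fintype.equivOfCardEq hcard3)⟩

open Spec in
theorem hierarchy_sep {G : Type} [Group G] {χ : G →* Multiplicative ℤ} (h : Hierarchy G χ) :
    Run7.h574.LERF G → (∃ α : Type, Finite α ∧ Nonempty (χ.ker ≃* FreeGroup α)) →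
      (∃ g, χ g ≠ 1) → HSep G ∨ Nonempty (χ.ker ≃* F2) := by
  induction h with
  | special χ hs => exact fun _ _ _ => Or.inl (hsep_vraag hs)
  | rankTwo χ hr => exact fun _ _ _ => Or.inr hr
  | @finiteIndex G _ χ K hK _ ih =>
    rintro hG ⟨α, hα, ⟨e⟩⟩ ⟨g, hg⟩
    have hkfg : χ.ker.FG := by
      have h1 : Group.FG χ.ker := Group.fg_of_surjective (f := e.symm.toMonoidHom) e.symm.surjective
      exact (Group.fg_iff_subgroup_fg _).mp h1
    obtain ⟨β, hβ, hi, ⟨j⟩⟩ := exists_free_ker χ e K (fg_inf hkfg)
    have hne : ∃ g : K, (χ.comp K.subtype) g ≠ 1 := by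
      obtain ⟨n, hn, hn'⟩ := exists_pow_mem K g
      refine ⟨⟨g ^ n, hn'⟩, ?_⟩
      show χ (g ^ n) ≠ 1
      rw [map_zpow]
      intro h1
      have h2 := congrArg Multiplicative.toAdd h1
      rw [toAdd_zpow, toAdd_one, smul_eq_mul] at h2
      rcases mul_eq_zero.mp h2 with h3 | h3
      · exact hn.ne' h3
      · exact hg (Multiplicative.toAdd.injective h3)
    rcases ih (lerf_inj hG K.subtype (Subgroup.subtype_injective _)) ⟨β, hβ, hi⟩ hne with h1 | h1
    · exact Or.inl (hsep_fi K hK h1)
    · obtain ⟨i⟩ := h1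
      right
      -- the image in the free group
      let f : (χ.ker ⊓ K : Subgroup G) →* FreeGroup α :=
        e.toMonoidHom.comp (Subgroup.inclusion (inf_le_left : χ.ker ⊓ K ≤ χ.ker))
      have hf : Function.Injective f := e.injective.comp (Subgroup.inclusion_injective _)
      have hfi : f.range.FiniteIndex := by
        have h2 : f.range = (K.subgroupOf χ.ker).map e.toMonoidHom := by
          ext x
          constructor
          · rintro ⟨⟨y, hy1, hy2⟩, rfl⟩
            exact ⟨⟨y, hy1⟩, hy2, rfl⟩
          · rintro ⟨⟨y, hy1⟩, hy2, rfl⟩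
            exact ⟨⟨y, hy1, hy2⟩, rfl⟩
        have h4 : (K.subgroupOf χ.ker).FiniteIndex := inferInstance
        rw [h2]
        constructor
        rw [Subgroup.index_map_of_bijective e.bijective]
        exact h4.index_ne_zero
      obtain ⟨k⟩ := rank_two_of_fi f.range hfi
        (((MonoidHom.ofInjective hf).symm.trans j.symm).trans i)
      exact ⟨e.trans k⟩
  | @split G _ χ V _ T hT _ ih =>
    rintro hG ⟨α, hα, ⟨e⟩⟩ hne
    left
    obtain ⟨g, hg, hcom⟩ := classify_group χ e hne hG hT.tree hT.adj hT.cyclic hT.transverse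
      hT.fg hT.noFixed (by
        intro v hv
        obtain ⟨β, hβ, hi, ⟨j⟩⟩ := exists_free_ker χ e (MulAction.stabilizer G v) (hT.fg v)
        have hne' : ∃ g : MulAction.stabilizer G v,
            (χ.comp (MulAction.stabilizer G v).subtype) g ≠ 1 := by
          obtain ⟨f, -, hfv⟩ := hT.noFixed v
          obtain ⟨w, hw, -⟩ := exists_closer hT.tree (v := f • v) (x := v) hfv
          obtain ⟨u, huv, -, hu⟩ := hT.transverse v w hw
          exact ⟨⟨u, huv⟩, hu⟩
        rcases ih v hv (lerf_inj hG (MulAction.stabilizer G v).subtype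
          (Subgroup.subtype_injective _)) ⟨β, hβ, hi⟩ hne' with h1 | h1
        · exact Or.inl h1
        · exact Or.inr (h1.map fun k => j.symm.trans k))
    exact hsep_of_central χ e hg hcom

end Run7.h574
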