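import Pool.Agent.Run7.h574.PingPong
import Pool.Agent.Run7.h574.FinalSpecial

/-!
# LERF free-by-cyclic groups acting on trees with cyclic edge stabilizers in the fibre
-/

set_option autoImplicit false
set_option linter.unusedSectionVars false
set_option linter.dupNamespace false

namespace Run7.h574

section

variable {α : Type} (φ : MulAut (FreeGroup α)) {V : Type} [MulAction (MT φ) V]

/-- the stabilizer of a vertex in the fibre -/
def fst (v : V) : Subgroup (FreeGroup α) :=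
  (MulAction.stabilizer (MT φ) v).comap SemidirectProduct.inl

variable {φ}

lemma mem_fst {v : V} {x : FreeGroup α} :
    x ∈ fst φ v ↔ (SemidirectProduct.inl x : MT φ) • v = v := Iff.rfl

lemma chi_mul (a b : MT φ) : chi φ (a * b) = chi φ a + chi φ b := rfl

lemma chi_inv (a : MT φ) : chi φ a⁻¹ = - chi φ a := (chi_hom φ).inv trivial

lemma chi_zpow (a : MT φ) (n : ℤ) : chi φ (a ^ n) = n * chi φ a := (chi_hom φ).zpow trivial n

variable {T : SimpleGraph V}

lemma exists_u (S : Set (V × V)) (hS : S.Finite)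
    (hcof : ∀ x y, T.Adj x y → ∃ f : FreeGroup α,
      ((SemidirectProduct.inl f : MT φ) • x, (SemidirectProduct.inl f : MT φ) • y) ∈ S)
    (hact : ∀ (g : MT φ) (x y : V), T.Adj x y → T.Adj (g • x) (g • y))
    {v w : V} (hvw : T.Adj v w) : ∃ u : MT φ, u • v = v ∧ u • w = w ∧ chi φ u ≠ 0 := by
  have h1 : ∀ k : ℕ, ∃ f : FreeGroup α,
      ((SemidirectProduct.inl f : MT φ) • ((tt φ) ^ k • v),
        (SemidirectProduct.inl f : MT φ) • ((tt φ) ^ k • w)) ∈ S :=
    fun k => hcof _ _ (hact _ _ _ hvw)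
  choose f hf using h1
  have hfin : Finite S := hS
  obtain ⟨k, l, hkl, h⟩ := Finite.exists_ne_map_eq_of_infinite
    (fun k : ℕ => (⟨_, hf k⟩ : S))
  have h2 := congrArg Subtype.val h
  simp only [Prod.mk.injEq] at h2
  obtain ⟨h3, h4⟩ := h2
  refine ⟨(SemidirectProduct.inl (f k) * (tt φ) ^ k)⁻¹ * (SemidirectProduct.inl (f l) *
    (tt φ) ^ l), ?_, ?_, ?_⟩
  · rw [mul_smul, inv_smul_eq_iff, mul_smul, mul_smul]
    exact h3.symm
  · rw [mul_smul, inv_smul_eq_iff, mul_smul, mul_smul]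
    exact h4.symm
  · have e : ∀ k : ℕ, chi φ ((tt φ) ^ k) = k := by
      intro k
      have := chi_zpow (tt φ) (k : ℤ)
      rw [zpow_natCast, chi_tt, mul_one] at this
      exact this
    rw [chi_mul, chi_inv, chi_mul, chi_mul, chi_inl, chi_inl, e, e]
    omega

lemma cj_fst {u : MT φ} {v : V} (hu : u • v = v) : ∀ x, cj φ u x ∈ fst φ v ↔ x ∈ fst φ v := by
  intro x
  rw [mem_fst, mem_fst, ← cj_spec, mul_smul, mul_smul]
  have h1 : u⁻¹ • v = v := by rw [inv_smul_eq_iff, hu]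
  rw [h1, smul_eq_iff_eq_inv_smul, h1]

/-- the local theorem -/
theorem edge_thm (hG : LERF (MT φ)) (hT : T.IsTree)
    (hact : ∀ (g : MT φ) (x y : V), T.Adj x y → T.Adj (g • x) (g • y))
    {v w : V} (hvw : T.Adj v w) (u : MT φ) (huv : u • v = v) (huw : u • w = w)
    (hu : chi φ u ≠ 0) (hAfg : (fst φ v).FG) (hCfg : (fst φ w).FG)
    (hcyc : IsCyclic (fst φ v ⊓ fst φ w : Subgroup (FreeGroup α)))
    (hidx : (fst φ v ⊓ fst φ w).relIndex (fst φ w) = 0)
    (hS : HSep (MulAction.stabilizer (MT φ) v)) :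
    ∃ g : MT φ, g • v = v ∧ g • w = w ∧ chi φ g ≠ 0 ∧
      ∀ x ∈ fst φ v, Commute g (SemidirectProduct.inl x) := by
  let _ : MulAction (FreeGroup α) V := MulAction.compHom V (SemidirectProduct.inl : _ →* MT φ)
  have ham : IsAmalgam (fst φ v) (fst φ w) :=
    amalgam_of_tree (F := FreeGroup α) (fun g x y h => hact _ x y h) hT hvw
  obtain ⟨z, hz⟩ := (Subgroup.isCyclic_iff_exists_zpowers_eq_top (fst φ v ⊓ fst φ w)).mp hcyc
  have hzvw : z ∈ fst φ v ⊓ fst φ w := by rw [← hz]; exact Subgroup.mem_zpowers z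
  -- the subgroup
  let D : Subgroup (MT φ) := Subgroup.closure
    (insert u (SemidirectProduct.inl '' ((fst φ v : Subgroup (FreeGroup α)) : Set (FreeGroup α))) : Set (MT φ))
  have hD : D ≤ MulAction.stabilizer (MT φ) v := by
    rw [Subgroup.closure_le]
    rintro g (rfl | ⟨x, hx, rfl⟩)
    · exact huv
    · exact hx
  obtain ⟨J, c, hJ, hJx, hJz⟩ := piece φ hG (fst φ v) (fst φ w) hAfg hCfg u hu (cj_fst huv)
    (cj_fst huw) z hz.symm hidx ham (hsep_inj hS (Subgroup.inclusion hD)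
      (Subgroup.inclusion_injective hD))
  have hJv : ∀ x : V, u • x = x → (u ^ J) • x = x := by
    intro x hx
    have h1 : u ∈ MulAction.stabilizer (MT φ) x := hx
    exact (MulAction.stabilizer (MT φ) x).zpow_mem h1 J
  have hzc : ∀ x : V, (SemidirectProduct.inl z : MT φ) • x = x →
      (SemidirectProduct.inl (z ^ c) : MT φ) • x = x := by
    intro x hx
    have h1 : (SemidirectProduct.inl z : MT φ) ∈ MulAction.stabilizer (MT φ) x := hx
    rw [map_zpow]
    exact (MulAction.stabilizer (MT φ) x).zpow_mem h1 c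
  refine ⟨SemidirectProduct.inl (z ^ c) * u ^ J, ?_, ?_, ?_, ?_⟩
  · rw [mul_smul, hJv v huv, hzc v hzvw.1]
  · rw [mul_smul, hJv w huw, hzc w hzvw.2]
  · rw [chi_mul, chi_inl, chi_zpow, zero_add]
    exact mul_ne_zero hJ.ne' hu
  · intro x hx
    have h1 := hJx x hx
    show SemidirectProduct.inl (z ^ c) * u ^ J * SemidirectProduct.inl x =
      SemidirectProduct.inl x * (SemidirectProduct.inl (z ^ c) * u ^ J)
    rw [mul_inv_eq_iff_eq_mul] at h1
    rw [mul_assoc, h1, ← mul_assoc, ← map_mul, ← mul_assoc (SemidirectProduct.inl x), ← map_mul]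
    congr 2
    rw [zpow_neg]
    group

end

/-- The peripheral subgroups of a relatively hyperbolic group are proper, almost malnormal, and
contain, up to conjugation, every free abelian subgroup of rank two. -/
def HasPeripherals (G : Type) [Group G] : Prop :=
  ∃ Ps : Set (Subgroup G), (∀ P ∈ Ps, P ≠ ⊤) ∧
    (∀ P ∈ Ps, ∀ Q ∈ Ps, ∀ g : G,
      ((P ⊓ Q.map (MulAut.conj g).toMonoidHom : Subgroup G) : Set G).Infinite → P = Q ∧ g ∈ P) ∧
    ∀ a b : G, Commute a b → (∀ m n : ℤ, a ^ m * b ^ n = 1 → m = 0 ∧ n = 0) →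
      ∃ P ∈ Ps, ∃ g : G, g * a * g⁻¹ ∈ P ∧ g * b * g⁻¹ ∈ P

section

variable {G : Type} [Group G]

lemma inf_of_mem {H : Subgroup G} {y : G} (hy : y ∈ H) (ho : ∀ n : ℤ, y ^ n = 1 → n = 0) :
    (H : Set G).Infinite := by
  apply Set.infinite_of_injective_forall_mem (f := fun n : ℤ => y ^ n)
  · intro m n hmn
    have h1 : y ^ (m - n) = 1 := by
      rw [zpow_sub, mul_inv_eq_one]
      exact hmn
    have := ho _ h1
    omega
  · exact fun n => H.zpow_mem hy n

/-- conjugates of the members of a family -/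
def Par (Ps : Set (Subgroup G)) (P' : Subgroup G) : Prop :=
  ∃ P ∈ Ps, ∃ g : G, ∀ x, x ∈ P' ↔ g * x * g⁻¹ ∈ P

lemma Par.eq {Ps : Set (Subgroup G)}
    (h : ∀ P ∈ Ps, ∀ Q ∈ Ps, ∀ g : G,
      ((P ⊓ Q.map (MulAut.conj g).toMonoidHom : Subgroup G) : Set G).Infinite → P = Q ∧ g ∈ P)
    {P' Q' : Subgroup G} (hP : Par Ps P') (hQ : Par Ps Q') {y : G} (hyP : y ∈ P') (hyQ : y ∈ Q')
    (ho : ∀ n : ℤ, y ^ n = 1 → n = 0) : P' = Q' := by
  obtain ⟨P, hP, g, hg⟩ := hP
  obtain ⟨Q, hQ, k, hk⟩ := hQ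
  obtain ⟨rfl, h2⟩ := h P hP Q hQ (g * k⁻¹) (by
    apply inf_of_mem (y := g * y * g⁻¹)
    · refine ⟨(hg y).mp hyP, k * y * k⁻¹, (hk y).mp hyQ, ?_⟩
      show g * k⁻¹ * (k * y * k⁻¹) * (g * k⁻¹)⁻¹ = _
      group
    · intro n hn
      rw [conj_zpow] at hn
      apply ho
      have : y ^ n = g⁻¹ * (g * y ^ n * g⁻¹) * g := by group
      rw [this, hn]
      group)
  ext x
  rw [hg, hk]
  have e : g * x * g⁻¹ = (g * k⁻¹) * (k * x * k⁻¹) * (g * k⁻¹)⁻¹ := by group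
  rw [e]
  constructor
  · intro h3
    have h4 := P.mul_mem (P.mul_mem (P.inv_mem h2) h3) h2
    have e2 : (g * k⁻¹)⁻¹ * ((g * k⁻¹) * (k * x * k⁻¹) * (g * k⁻¹)⁻¹) * (g * k⁻¹) = k * x * k⁻¹ := by
      group
    rwa [e2] at h4
  · intro h3
    exact P.mul_mem (P.mul_mem h2 h3) (P.inv_mem h2)

lemma Par.mem {Ps : Set (Subgroup G)}
    (h : ∀ P ∈ Ps, ∀ Q ∈ Ps, ∀ g : G,
      ((P ⊓ Q.map (MulAut.conj g).toMonoidHom : Subgroup G) : Set G).Infinite → P = Q ∧ g ∈ P)
    {P' : Subgroup G} (hP : Par Ps P') {y γ : G} (hyP : y ∈ P') (hyQ : γ * y * γ⁻¹ ∈ P')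
    (ho : ∀ n : ℤ, y ^ n = 1 → n = 0) : γ ∈ P' := by
  obtain ⟨P, hP, g, hg⟩ := hP
  rw [hg]
  exact (h P hP P hP (g * γ * g⁻¹) (by
    apply inf_of_mem (y := g * (γ * y * γ⁻¹) * g⁻¹)
    · refine ⟨(hg _).mp hyQ, g * y * g⁻¹, (hg y).mp hyP, ?_⟩
      show g * γ * g⁻¹ * (g * y * g⁻¹) * (g * γ * g⁻¹)⁻¹ = _
      group
    · intro n hn
      rw [conj_zpow, conj_zpow] at hn
      apply ho
      have : y ^ n = γ⁻¹ * (g⁻¹ * (g * (γ * y ^ n * γ⁻¹) * g⁻¹) * g) * γ := by group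
      rw [this, hn]
      group)).2

end

section

variable {α : Type} {φ : MulAut (FreeGroup α)} {V : Type} [MulAction (MT φ) V]
  {T : SimpleGraph V}

lemma ord_inl {a : FreeGroup α} (ha : a ≠ 1) (n : ℤ) (h : (SemidirectProduct.inl a : MT φ) ^ n = 1) :
    n = 0 := by
  by_contra hn
  rw [← map_zpow] at h
  have h1 : a ^ n = 1 := SemidirectProduct.inl_injective (h.trans (map_one _).symm)
  exact ha (zpow_inj hn (h1.trans (one_zpow n).symm))

lemma ord_chi {g : MT φ} (hg : chi φ g ≠ 0) (n : ℤ) (h : g ^ n = 1) : n = 0 := by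
  have h1 := chi_zpow g n
  rw [h] at h1
  have h2 : chi φ (1 : MT φ) = 0 := rfl
  rw [h2] at h1
  exact (mul_eq_zero.mp h1.symm).resolve_right hg

/-- if the mapping tori of all vertex groups have large centralizers then the group is not
relatively hyperbolic -/
theorem no_peripherals (hT : T.IsTree)
    (hact : ∀ (g : MT φ) (x y : V), T.Adj x y → T.Adj (g • x) (g • y))
    {v₀ w₀ : V} (h₀ : T.Adj v₀ w₀) (hne : ∀ v : V, ∃ a ∈ fst φ v, a ≠ 1)
    (hcent : ∀ v w : V, T.Adj v w → ∃ g : MT φ, g • v = v ∧ g • w = w ∧ chi φ g ≠ 0 ∧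
      ∀ x ∈ fst φ v, Commute g (SemidirectProduct.inl x)) : ¬ HasPeripherals (MT φ) := by
  rintro ⟨Ps, hprop, hmal, hab⟩
  -- parabolic subgroups containing the vertex groups
  have h1 : ∀ v w, T.Adj v w → ∃ P', Par Ps P' ∧ (∀ x ∈ fst φ v, (SemidirectProduct.inl x : MT φ) ∈ P') ∧
      ∃ g ∈ P', g • v = v ∧ g • w = w ∧ chi φ g ≠ 0 := by
    intro v w hvw
    obtain ⟨g, hgv, hgw, hg, hcom⟩ := hcent v w hvw
    have h2 : ∀ a ∈ fst φ v, a ≠ 1 → ∃ P', Par Ps P' ∧ (SemidirectProduct.inl a : MT φ) ∈ P' ∧ g ∈ P' := by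
      intro a ha ha1
      obtain ⟨P, hP, k, hk1, hk2⟩ := hab (SemidirectProduct.inl a) g (hcom a ha).symm (by
        intro m n hmn
        have h3 : chi φ ((SemidirectProduct.inl a : MT φ) ^ m * g ^ n) = 0 := by rw [hmn]; rfl
        rw [chi_mul, chi_zpow, chi_zpow, chi_inl, mul_zero, zero_add] at h3
        have hn : n = 0 := (mul_eq_zero.mp h3).resolve_right hg
        rw [hn, zpow_zero, mul_one] at hmn
        exact ⟨ord_inl ha1 m hmn, hn⟩)
      refine ⟨P.comap (MulAut.conj k).toMonoidHom, ⟨P, hP, k, fun x => Iff.rfl⟩, hk1, hk2⟩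
    obtain ⟨a, ha, ha1⟩ := hne v
    obtain ⟨P', hP', haP, hgP⟩ := h2 a ha ha1
    refine ⟨P', hP', ?_, g, hgP, hgv, hgw, hg⟩
    intro x hx
    by_cases hx1 : x = 1
    · rw [hx1, map_one]; exact P'.one_mem
    · obtain ⟨Q', hQ', hxQ, hgQ⟩ := h2 x hx hx1
      rw [hP'.eq hmal hQ' hgP hgQ (ord_chi hg)]
      exact hxQ
  -- the two ends of an edge
  have h2 : ∀ v w, T.Adj v w → ∀ P', Par Ps P' → (∀ x ∈ fst φ v, (SemidirectProduct.inl x : MT φ) ∈ P') →
      ∀ x ∈ fst φ w, (SemidirectProduct.inl x : MT φ) ∈ P' := by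
    intro v w hvw P' hP' hvP
    obtain ⟨P₁, hP₁, hvP₁, g, hgP₁, hgv, hgw, hg⟩ := h1 v w hvw
    obtain ⟨P₂, hP₂, hwP₂, k, hkP₂, hkw, hkv, hk⟩ := h1 w v hvw.symm
    obtain ⟨a, ha, ha1⟩ := hne v
    have e1 : P' = P₁ := hP'.eq hmal hP₁ (hvP a ha) (hvP₁ a ha) (ord_inl ha1)
    have e2 : P₁ = P₂ := by
      by_cases hL : ∃ l ∈ fst φ v, l ∈ fst φ w ∧ l ≠ 1
      · obtain ⟨l, hlv, hlw, hl1⟩ := hL
        exact hP₁.eq hmal hP₂ (hvP₁ l hlv) (hwP₂ l hlw) (ord_inl hl1)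
      · push Not at hL
        have hst : ∀ (y : MT φ) (x : V) (n : ℤ), y • x = x → (y ^ n) • x = x := fun y x n h =>
          (MulAction.stabilizer (MT φ) x).zpow_mem (show y ∈ MulAction.stabilizer (MT φ) x from h) n
        let m := g ^ (chi φ k) * k ^ (-(chi φ g))
        have hmchi : chi φ m = 0 := by
          show chi φ (g ^ (chi φ k) * k ^ (-(chi φ g))) = 0
          rw [chi_mul, chi_zpow, chi_zpow]
          ring
        have hm : m = SemidirectProduct.inl m.left := inl_of_chi φ hmchi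
        have hmv : m • v = v := by
          show (g ^ (chi φ k) * k ^ (-(chi φ g))) • v = v
          rw [mul_smul, hst k v _ hkv, hst g v _ hgv]
        have hmw : m • w = w := by
          show (g ^ (chi φ k) * k ^ (-(chi φ g))) • w = w
          rw [mul_smul, hst k w _ hkw, hst g w _ hgw]
        have hm1 : m.left = 1 := hL _ (by rw [mem_fst, ← hm]; exact hmv)
          (by rw [mem_fst, ← hm]; exact hmw)
        rw [hm1, map_one] at hm
        have e3 : g ^ (chi φ k) = k ^ (chi φ g) := by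
          have : g ^ (chi φ k) * k ^ (-(chi φ g)) = 1 := hm
          rwa [zpow_neg, mul_inv_eq_one] at this
        refine hP₁.eq hmal hP₂ (y := g ^ (chi φ k)) (P₁.zpow_mem hgP₁ _) (by
          rw [e3]; exact P₂.zpow_mem hkP₂ _) (ord_chi ?_)
        rw [chi_zpow]
        exact mul_ne_zero hk hg
    rw [e1, e2]
    exact hwP₂
  obtain ⟨P', hP', hP₀, -⟩ := h1 v₀ w₀ h₀
  have h3 : ∀ v : V, ∀ x ∈ fst φ v, (SemidirectProduct.inl x : MT φ) ∈ P' := by
    intro v
    obtain ⟨p⟩ := hT.connected v₀ v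
    clear h₀ w₀
    induction p with
    | nil => exact hP₀
    | cons h p ih => exact ih (h2 _ _ h P' hP' hP₀)
  obtain ⟨a, ha, ha1⟩ := hne v₀
  have h4 : ∀ γ : MT φ, γ ∈ P' := by
    intro γ
    apply hP'.mem hmal (hP₀ a ha) _ (ord_inl ha1)
    rw [cj_spec]
    apply h3 (γ • v₀)
    rw [mem_fst, ← cj_spec, smul_smul, inv_mul_cancel_right, mul_smul]
    have h5 : (SemidirectProduct.inl a : MT φ) • v₀ = v₀ := ha
    rw [h5]
  obtain ⟨P, hP, g, hg⟩ := hP'
  apply hprop P hP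
  rw [Subgroup.eq_top_iff']
  intro x
  have h5 := (hg (g⁻¹ * x * g)).mp (h4 _)
  have e : g * (g⁻¹ * x * g) * g⁻¹ = x := by group
  rwa [e] at h5

end

end Run7.h574
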