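import Pool.Agent.Run7.h574.TreeLemmas
import Pool.Agent.Run7.h574.Tree

/-!
# LERF free-by-cyclic groups acting on trees with cyclic edge stabilizers in the fibre, general case
-/

set_option autoImplicit false
set_option linter.unusedSectionVars false
set_option linter.dupNamespace false

namespace Run7.h574

section

variable {α : Type} {φ : MulAut (FreeGroup α)} {V : Type} [MulAction (MT φ) V]
  {T : SimpleGraph V}

/-- the standing assumptions -/
structure CT (φ : MulAut (FreeGroup α)) [MulAction (MT φ) V] (T : SimpleGraph V) : Prop where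
  tree : T.IsTree
  act : ∀ (g : MT φ) (x y : V), T.Adj x y → T.Adj (g • x) (g • y)
  cyc : ∀ x y : V, T.Adj x y → IsCyclic (fst φ x ⊓ fst φ y : Subgroup (FreeGroup α))
  edge : ∀ x y : V, T.Adj x y → ∃ u : MT φ, u • x = x ∧ u • y = y ∧ chi φ u ≠ 0
  fg : ∀ x : V, (fst φ x).FG
  nofix : ∀ x : V, fst φ x ≠ ⊤

/-- the vertex has a good partner property -/
def Good (φ : MulAut (FreeGroup α)) [MulAction (MT φ) V] (v : V) : Prop :=
  ∀ C : Subgroup (FreeGroup α), C.FG → ∀ u : MT φ, u • v = v → chi φ u ≠ 0 →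
    (∀ x, cj φ u x ∈ C ↔ x ∈ C) → IsAmalgam (fst φ v) C →
    IsCyclic (fst φ v ⊓ C : Subgroup (FreeGroup α)) → (fst φ v ⊓ C).relIndex C = 0 →
    ∃ g : MT φ, g • v = v ∧ chi φ g ≠ 0 ∧ ∀ y ∈ fst φ v, Commute g (SemidirectProduct.inl y)

lemma stab_zpow {g : MT φ} {x : V} (h : g • x = x) (n : ℤ) : (g ^ n) • x = x :=
  (MulAction.stabilizer (MT φ) x).zpow_mem (show g ∈ MulAction.stabilizer (MT φ) x from h) n

lemma diff_mem {g k : MT φ} {x : V} (hg : g • x = x) (hk : k • x = x) :
    ∃ m ∈ fst φ x, g ^ (chi φ k) = SemidirectProduct.inl m * k ^ (chi φ g) := by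
  let m := g ^ (chi φ k) * k ^ (-(chi φ g))
  have hmchi : chi φ m = 0 := by
    show chi φ (g ^ (chi φ k) * k ^ (-(chi φ g))) = 0
    rw [chi_mul, chi_zpow, chi_zpow]
    ring
  have hm : m = SemidirectProduct.inl m.left := inl_of_chi φ hmchi
  refine ⟨m.left, ?_, ?_⟩
  · rw [mem_fst, ← hm]
    show (g ^ (chi φ k) * k ^ (-(chi φ g))) • x = x
    rw [mul_smul, stab_zpow hk, stab_zpow hg]
  · rw [← hm]
    show g ^ (chi φ k) = g ^ (chi φ k) * k ^ (-(chi φ g)) * k ^ (chi φ g)
    rw [zpow_neg, inv_mul_cancel_right]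

lemma fst_smul (γ : FreeGroup α) (v : V) (a : FreeGroup α) :
    a ∈ fst φ ((SemidirectProduct.inl γ : MT φ) • v) ↔ γ⁻¹ * a * γ ∈ fst φ v := by
  rw [mem_fst, mem_fst, map_mul, map_mul, map_inv, mul_smul, mul_smul, inv_smul_eq_iff]

lemma exists_partner (h : CT φ T) {v : V} (hv : ¬ IsCyclic (fst φ v)) :
    ∃ p q, T.Adj p q ∧ T.dist v p < T.dist v q ∧ fst φ p ≤ fst φ v ∧ ¬ (fst φ q ≤ fst φ v) ∧
      ∃ u : MT φ, u • v = v ∧ u • p = p ∧ u • q = q ∧ chi φ u ≠ 0 := by
  by_contra hcon
  push Not at hcon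
  obtain ⟨γ, hγ⟩ : ∃ γ, γ ∉ fst φ v := by
    by_contra hall
    push Not at hall
    exact h.nofix v ((Subgroup.eq_top_iff' _).mpr hall)
  have hne : (SemidirectProduct.inl γ : MT φ) • v ≠ v := hγ
  obtain ⟨r₀, hr₀, hr₀'⟩ := exists_closer h.tree hne
  have key : ∀ k : ℕ, ∀ x, T.dist v x = k → fst φ x ≤ fst φ v ∧
      ∃ u : MT φ, u • v = v ∧ u • x = x ∧ chi φ u ≠ 0 := by
    intro k
    induction k with
    | zero =>
      intro x hx
      have hx' : v = x := (h.tree.connected.dist_eq_zero_iff).mp hx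
      subst hx'
      obtain ⟨u, hu1, -, hu2⟩ := h.edge v r₀ hr₀
      exact ⟨le_refl _, u, hu1, hu1, hu2⟩
    | succ k ih =>
      intro x hx
      obtain ⟨p, hp, hp'⟩ := exists_closer h.tree (v := v) (x := x) (by
        rintro rfl
        rw [SimpleGraph.dist_self] at hx
        omega)
      obtain ⟨hle, u, huv, hup, hu⟩ := ih p (by omega)
      obtain ⟨k', hkp, hkx, hk⟩ := h.edge p x hp.symm
      obtain ⟨m, hm, hmk⟩ := diff_mem hkp hup
      have h1 : (k' ^ (chi φ u)) • v = v := by
        rw [hmk, mul_smul, stab_zpow huv]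
        exact hle hm
      have h2 : chi φ (k' ^ (chi φ u)) ≠ 0 := by
        rw [chi_zpow]
        exact mul_ne_zero hu hk
      refine ⟨?_, k' ^ (chi φ u), h1, stab_zpow hkx _, h2⟩
      by_contra hnot
      exact h2 (hcon p x hp.symm (by omega) hle hnot _ h1 (stab_zpow hkp _) (stab_zpow hkx _))
  apply hv
  set x : V := (SemidirectProduct.inl γ : MT φ) • v with hx
  have hle := (key _ x rfl).1
  have hle2 : fst φ x ≤ fst φ v ⊓ fst φ r₀ := by
    intro a ha
    refine ⟨hle ha, ?_⟩
    exact fix_closer (a := (SemidirectProduct.inl a : MT φ)) h.tree h.act hr₀ (by omega) ha (hle ha)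
  have hcx : IsCyclic (fst φ x) := cyclic_le (h.cyc v r₀ hr₀) hle2
  let f : fst φ v →* fst φ x :=
    { toFun := fun a => ⟨γ * a * γ⁻¹, by
        rw [hx, fst_smul]
        have : γ⁻¹ * (γ * (a : FreeGroup α) * γ⁻¹) * γ = a := by group
        rw [this]
        exact a.2⟩
      map_one' := Subtype.ext (by simp)
      map_mul' := fun a b => Subtype.ext (by simp) }
  refine isCyclic_of_injective f ?_
  intro a b hab
  have h1 := congrArg Subtype.val hab
  have h2 : γ * (a : FreeGroup α) * γ⁻¹ = γ * (b : FreeGroup α) * γ⁻¹ := h1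
  apply Subtype.ext
  exact mul_left_cancel (mul_right_cancel h2)

/-- an element which normalizes a cyclic subgroup of the fibre; its square centralizes it -/
lemma sq_comm {u : MT φ} {c : FreeGroup α}
    (h : ∀ x, cj φ u x ∈ Subgroup.zpowers c ↔ x ∈ Subgroup.zpowers c) :
    (cj φ u ^ 2) c = c := by
  by_cases hc : c = 1
  · rw [hc, map_one]
  have h1 : cj φ u c ∈ Subgroup.zpowers c := (h c).mpr (Subgroup.mem_zpowers c)
  have h2 : (cj φ u)⁻¹ c ∈ Subgroup.zpowers c := by
    rw [← h, show cj φ u ((cj φ u)⁻¹ c) = c from MulAut.apply_inv_self _ _ c]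
    exact Subgroup.mem_zpowers c
  obtain ⟨k, hk⟩ := h1
  obtain ⟨l, hl⟩ := h2
  have hk' : c ^ k = cj φ u c := hk
  have hl' : c ^ l = (cj φ u)⁻¹ c := hl
  have h3 : c ^ (k * l) = c := by
    have e1 : cj φ u (c ^ l) = c := by rw [hl']; exact MulAut.apply_inv_self _ _ c
    rw [map_zpow, ← hk', ← zpow_mul] at e1
    exact e1
  have h4 : k * l = 1 := by
    by_contra hne
    have h5 : c ^ (k * l - 1) = 1 ^ (k * l - 1) := by
      rw [one_zpow, zpow_sub_one, h3, mul_inv_cancel]
    exact hc (zpow_inj (by omega) h5)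
  have h5 : k * k = 1 := by
    rcases Int.eq_one_or_neg_one_of_mul_eq_one h4 with rfl | rfl <;> norm_num
  rw [pow_two, MulAut.mul_apply, ← hk', map_zpow, ← hk', ← zpow_mul, h5, zpow_one]

/-- **The local theorem.** -/
theorem centralize (h : CT φ T) {v : V} (hv : ¬ IsCyclic (fst φ v)) (hgood : Good φ v) :
    ∃ g : MT φ, g • v = v ∧ chi φ g ≠ 0 ∧ ∀ y ∈ fst φ v, Commute g (SemidirectProduct.inl y) := by
  let _ : MulAction (FreeGroup α) V := MulAction.compHom V (SemidirectProduct.inl : _ →* MT φ)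
  have hact : ∀ (g : FreeGroup α) (x y : V), T.Adj x y → T.Adj (g • x) (g • y) :=
    fun g x y hxy => h.act _ x y hxy
  obtain ⟨p, q, hpq, hd, hle, hnle, u, huv, hup, huq, hu⟩ := exists_partner h hv
  have hLp : fst φ v ⊓ fst φ q ≤ fst φ p ⊓ fst φ q := by
    intro a ha
    refine ⟨?_, ha.2⟩
    exact fix_closer (a := (SemidirectProduct.inl a : MT φ)) h.tree h.act hpq.symm hd ha.1 ha.2
  have hcyc := cyclic_le (h.cyc p q hpq) hLp
  by_cases hidx : (fst φ v ⊓ fst φ q).relIndex (fst φ q) = 0
  · refine hgood (fst φ q) (h.fg q) u huv hu (cj_fst huq) ?_ hcyc hidx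
    exact amalgam_of_edge (F := FreeGroup α) h.tree hact hpq hd (by
      rw [SimpleGraph.dist_self, SimpleGraph.dist_eq_one_iff_adj.mpr hpq.symm]; exact one_pos)
      (fun a _ h => h) (fun a _ h => hle h)
  · have hcq := cyclic_of_fi hcyc hidx
    obtain ⟨c, hc⟩ := (Subgroup.isCyclic_iff_exists_zpowers_eq_top (fst φ q)).mp hcq
    have hcmem : c ∈ fst φ q := by rw [← hc]; exact Subgroup.mem_zpowers c
    have hcv : c ∉ fst φ v := by
      intro hcon
      apply hnle
      rw [← hc, Subgroup.zpowers_le]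
      exact hcon
    set x : V := (SemidirectProduct.inl c : MT φ) • v with hx
    have hcq' : (SemidirectProduct.inl c : MT φ) • q = q := hcmem
    -- everything in the stabilizer of q commutes with c
    have hcomm : ∀ a ∈ fst φ q, a * c = c * a := by
      intro a ha
      rw [← hc] at ha
      obtain ⟨k, hk⟩ := ha
      have hk' : c ^ k = a := hk
      rw [← hk', ← zpow_add_one, ← zpow_one_add, add_comm]
    have hqx : T.dist x q < T.dist x p := by
      have e1 : T.dist x q = T.dist v q := by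
        have := dist_smul h.act h.tree (SemidirectProduct.inl c : MT φ) v q
        rwa [hcq'] at this
      have e2 : T.dist x p = T.dist v ((SemidirectProduct.inl c : MT φ)⁻¹ • p) := by
        have := dist_smul h.act h.tree (SemidirectProduct.inl c : MT φ) v
          ((SemidirectProduct.inl c : MT φ)⁻¹ • p)
        rwa [smul_inv_smul] at this
      have hadj : T.Adj q ((SemidirectProduct.inl c : MT φ)⁻¹ • p) := by
        have h1 := h.act (SemidirectProduct.inl c : MT φ)⁻¹ q p hpq.symm
        have h2 : (SemidirectProduct.inl c : MT φ)⁻¹ • q = q := by rw [inv_smul_eq_iff, hcq']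
        rwa [h2] at h1
      have hne : (SemidirectProduct.inl c : MT φ)⁻¹ • p ≠ p := by
        intro hcon
        apply hcv
        apply hle
        rw [inv_smul_eq_iff] at hcon
        exact hcon.symm
      rw [e1, e2]
      rcases h.tree.dist_eq_dist_add_one_of_adj v hadj with h3 | h3
      · exfalso
        exact hne (near_unique h.tree hadj hpq.symm (by omega) hd)
      · omega
    have hsep : ∀ a : FreeGroup α, a ∈ fst φ v → a ∈ fst φ q → a ∈ fst φ x := by
      intro a hav haq
      rw [hx, fst_smul]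
      have : c⁻¹ * a * c = a := by
        rw [mul_assoc, hcomm a haq, inv_mul_cancel_left]
      rw [this]
      exact hav
    have hxv : ∀ a : FreeGroup α, a ∈ fst φ v ⊓ fst φ x → a ∈ fst φ v ⊓ fst φ q := by
      rintro a ⟨hav, hax⟩
      refine ⟨hav, ?_⟩
      -- q lies between v and x
      have h1 := through_edge h.tree hpq hqx _ v rfl hd
      have h2 : T.dist v ((SemidirectProduct.inl a : MT φ) • q) = T.dist v q := by
        have := dist_smul h.act h.tree (SemidirectProduct.inl a : MT φ) v q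
        rwa [show (SemidirectProduct.inl a : MT φ) • v = v from hav] at this
      have h3 : T.dist ((SemidirectProduct.inl a : MT φ) • q) x = T.dist q x := by
        have := dist_smul h.act h.tree (SemidirectProduct.inl a : MT φ) q x
        rwa [show (SemidirectProduct.inl a : MT φ) • x = x from hax] at this
      have h4 := h.tree.dist_eq_dist_add_one_of_adj v hpq
      exact geod_unique h.tree x v _ _ q h2 rfl (by omega) (by omega)
    have hcycx : IsCyclic (fst φ v ⊓ fst φ x : Subgroup (FreeGroup α)) := cyclic_le hcyc hxv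
    have hcx : ¬ IsCyclic (fst φ x) := by
      intro hcon
      apply hv
      let f : fst φ v →* fst φ x :=
        { toFun := fun a => ⟨c * a * c⁻¹, by
            rw [hx, fst_smul]
            have : c⁻¹ * (c * (a : FreeGroup α) * c⁻¹) * c = a := by group
            rw [this]
            exact a.2⟩
          map_one' := Subtype.ext (by simp)
          map_mul' := fun a b => Subtype.ext (by simp) }
      refine isCyclic_of_injective f ?_
      intro a b hab
      have h1 := congrArg Subtype.val hab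
      have h2 : c * (a : FreeGroup α) * c⁻¹ = c * (b : FreeGroup α) * c⁻¹ := h1
      apply Subtype.ext
      exact mul_left_cancel (mul_right_cancel h2)
    -- the square of u
    have hu2 : (u ^ (2 : ℤ)) • x = x := by
      have h1 := sq_comm (φ := φ) (u := u) (c := c) (by rw [hc]; exact cj_fst huq)
      have h2 := cj_zpow φ u 2 c
      rw [zpow_ofNat (cj φ u), h1, mul_inv_eq_iff_eq_mul] at h2
      rw [hx, smul_smul, h2, mul_smul, stab_zpow huv]
    refine hgood (fst φ x) (h.fg x) (u ^ (2 : ℤ)) (stab_zpow huv _) (by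
      rw [chi_zpow]; exact mul_ne_zero (by norm_num) hu) (cj_fst hu2) ?_ hcycx
      (relIndex_of_not_cyclic hcycx hcx)
    exact amalgam_of_edge (F := FreeGroup α) h.tree hact hpq hd hqx
      (fun a h1 h2 => hsep a h1 h2) (fun a _ h => hle h)

/-- virtually special vertex groups are good -/
theorem good_of_hsep (hG : LERF (MT φ)) {v : V} (hfg : (fst φ v).FG)
    (hS : HSep (MulAction.stabilizer (MT φ) v)) : Good φ v := by
  intro C hC u huv hu hCu ham hcyc hidx
  obtain ⟨z, hz⟩ := (Subgroup.isCyclic_iff_exists_zpowers_eq_top (fst φ v ⊓ C)).mp hcyc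
  have hzv : z ∈ fst φ v ⊓ C := by rw [← hz]; exact Subgroup.mem_zpowers z
  let D : Subgroup (MT φ) := Subgroup.closure
    (insert u (SemidirectProduct.inl '' ((fst φ v : Subgroup (FreeGroup α)) : Set (FreeGroup α))) : Set (MT φ))
  have hD : D ≤ MulAction.stabilizer (MT φ) v := by
    rw [Subgroup.closure_le]
    rintro g (rfl | ⟨x, hx, rfl⟩)
    · exact huv
    · exact hx
  obtain ⟨J, c, hJ, hJx, hJz⟩ := piece φ hG (fst φ v) C hfg hC u hu (cj_fst huv)
    hCu z hz.symm hidx ham (hsep_inj hS (Subgroup.inclusion hD)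
      (Subgroup.inclusion_injective hD))
  refine ⟨SemidirectProduct.inl (z ^ c) * u ^ J, ?_, ?_, ?_⟩
  · rw [mul_smul, stab_zpow huv]
    exact (fst φ v).zpow_mem hzv.1 c
  · rw [chi_mul, chi_inl, chi_zpow, zero_add]
    exact mul_ne_zero hJ.ne' hu
  · intro x hx
    have h1 := hJx x hx
    show SemidirectProduct.inl (z ^ c) * u ^ J * SemidirectProduct.inl x =
      SemidirectProduct.inl x * (SemidirectProduct.inl (z ^ c) * u ^ J)
    rw [mul_inv_eq_iff_eq_mul] at h1
    rw [mul_assoc, h1, ← mul_assoc, ← map_mul, ← mul_assoc (SemidirectProduct.inl x), ← map_mul]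
    congr 2
    rw [zpow_neg]
    group

end

end Run7.h574
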