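import Pool.Agent.Run7.h574.BigPow
import Pool.Agent.Run7.h574.Tree2

/-!
# Elements with large centralizers in the fibre of a LERF group are commensurable
-/

set_option autoImplicit false
set_option linter.unusedSectionVars false
set_option linter.dupNamespace false

namespace Run7.h574

open FreeGroup (of)
open Pool.Agent.Helper180.FreeMetric

abbrev F3 : Type := FreeGroup (Fin 3)

lemma hom3_ext {M : Type} [Group M] {f g : F3 →* M} (h0 : f (of 0) = g (of 0))
    (h1 : f (of 1) = g (of 1)) (h2 : f (of 2) = g (of 2)) : f = g := by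
  apply FreeGroup.ext_hom
  intro j
  fin_cases j
  · exact h0
  · exact h1
  · exact h2

lemma hom2_ext {M : Type} [Group M] {f g : F2 →* M} (h0 : f (of 0) = g (of 0))
    (h1 : f (of 1) = g (of 1)) : f = g := by
  apply FreeGroup.ext_hom
  intro j
  fin_cases j
  · exact h0
  · exact h1

/-- four elements of a free group of rank three -/
def dd : F4 →* F3 :=
  FreeGroup.lift ![of 0, of 1, of 2 * of 1 * (of 2)⁻¹, of 2 * of 0 * (of 2)⁻¹]

lemma dd0 : dd (of 0) = of 0 := by
  unfold dd; rw [FreeGroup.lift_apply_of]; rfl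
lemma dd1 : dd (of 1) = of 1 := by
  unfold dd; rw [FreeGroup.lift_apply_of]; rfl
lemma dd2 : dd (of 2) = of 2 * of 1 * (of 2)⁻¹ := by
  unfold dd; rw [FreeGroup.lift_apply_of]; rfl
lemma dd3 : dd (of 3) = of 2 * of 0 * (of 2)⁻¹ := by
  unfold dd; rw [FreeGroup.lift_apply_of]; rfl

/-- the shift -/
def shft2 : MulAut (FreeGroup (ℤ × Fin 2)) :=
  FreeGroup.freeGroupCongr ((Equiv.addRight (1 : ℤ)).prodCongr (Equiv.refl (Fin 2)))

lemma shft2_of (k : ℤ) (i : Fin 2) : shft2 (of (k, i)) = of (k + 1, i) := by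
  unfold shft2
  rw [FreeGroup.freeGroupCongr_apply, FreeGroup.map.of]
  rfl

lemma dd_inj : Function.Injective dd := by
  let κ : F3 →* MT shft2 := FreeGroup.lift ![SemidirectProduct.inl (of (0, 0)),
    SemidirectProduct.inl (of (0, 1)), tt shft2]
  have k0 : κ (of 0) = SemidirectProduct.inl (of (0, 0)) := by
    simp only [κ]; rw [FreeGroup.lift_apply_of]; rfl
  have k1 : κ (of 1) = SemidirectProduct.inl (of (0, 1)) := by
    simp only [κ]; rw [FreeGroup.lift_apply_of]; rfl
  have k2 : κ (of 2) = tt shft2 := by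
    simp only [κ]; rw [FreeGroup.lift_apply_of]; rfl
  have hstep : ∀ (k : ℤ) (i : Fin 2), tt shft2 * SemidirectProduct.inl (of (k, i)) *
      (tt shft2)⁻¹ = SemidirectProduct.inl (of (k + 1, i)) := by
    intro k i
    have h1 := tt_conj shft2 1 (of (k, i))
    rwa [zpow_one, zpow_one, shft2_of] at h1
  let e : Fin 4 → ℤ × Fin 2 := ![(0, 0), (0, 1), (1, 1), (1, 0)]
  have he : Function.Injective e := by
    intro a b hab
    fin_cases a <;> fin_cases b <;> simp [e] at hab ⊢
  have hcomp : κ.comp dd = (SemidirectProduct.inl : FreeGroup (ℤ × Fin 2) →* MT shft2).comp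
      (FreeGroup.map e) := by
    apply hom4_ext
    · show κ (dd (of 0)) = SemidirectProduct.inl (FreeGroup.map e (of 0))
      rw [dd0, k0, FreeGroup.map.of]
      rfl
    · show κ (dd (of 1)) = SemidirectProduct.inl (FreeGroup.map e (of 1))
      rw [dd1, k1, FreeGroup.map.of]
      rfl
    · show κ (dd (of 2)) = SemidirectProduct.inl (FreeGroup.map e (of 2))
      rw [dd2, FreeGroup.map.of, map_mul, map_mul, map_inv, k1, k2, hstep]
      rfl
    · show κ (dd (of 3)) = SemidirectProduct.inl (FreeGroup.map e (of 3))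
      rw [dd3, FreeGroup.map.of, map_mul, map_mul, map_inv, k0, k2, hstep]
      rfl
  have hinj : Function.Injective (κ.comp dd) := by
    rw [hcomp]
    exact SemidirectProduct.inl_injective.comp (FreeGroup.map_injective he)
  exact Function.Injective.of_comp hinj

section

variable {α : Type} {φ : MulAut (FreeGroup α)}

lemma comm_iff {s : MT φ} {x : FreeGroup α} : Commute s (SemidirectProduct.inl x) ↔ cj φ s x = x := by
  constructor
  · intro h
    apply SemidirectProduct.inl_injective (φ := zpowersHom (MulAut (FreeGroup α)) φ)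
    rw [← cj_spec, h.eq, mul_inv_cancel_right]
  · intro h
    have h1 := cj_spec φ s x
    rw [h, mul_inv_eq_iff_eq_mul] at h1
    exact h1

lemma cj_mul_inl (m : FreeGroup α) (s : MT φ) (x : FreeGroup α) :
    cj φ (SemidirectProduct.inl m * s) x = m * cj φ s x * m⁻¹ := by
  apply SemidirectProduct.inl_injective (φ := zpowersHom (MulAut (FreeGroup α)) φ)
  rw [← cj_spec, map_mul, map_mul, map_inv, ← cj_spec]
  group

/-- the case of a free pair on both sides -/
lemma p4_core [Finite α] (hG : LERF (MT φ)) {S R : MT φ} (hR : chi φ R ≠ 0)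
    {c x y : FreeGroup α} {j : ℤ} (hj : j ≠ 0) (hSR : S = SemidirectProduct.inl (c ^ j) * R)
    (hSc : Commute S (SemidirectProduct.inl c)) (hRc : Commute R (SemidirectProduct.inl c))
    (hSx : Commute S (SemidirectProduct.inl x)) (hRy : Commute R (SemidirectProduct.inl y))
    (hA : Function.Injective (FreeGroup.lift ![x, c]))
    (hC : Function.Injective (FreeGroup.lift ![y, c])) : False := by
  have a0 : FreeGroup.lift ![x, c] (of 0) = x := by rw [FreeGroup.lift_apply_of]; rfl
  have a1 : FreeGroup.lift ![x, c] (of 1) = c := by rw [FreeGroup.lift_apply_of]; rfl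
  have c0 : FreeGroup.lift ![y, c] (of 0) = y := by rw [FreeGroup.lift_apply_of]; rfl
  have c1 : FreeGroup.lift ![y, c] (of 1) = c := by rw [FreeGroup.lift_apply_of]; rfl
  rw [comm_iff] at hSc hRc hSx hRy
  have hc1 : c ≠ 1 := by
    intro h
    have h1 : FreeGroup.lift ![x, c] (of 1) = FreeGroup.lift ![x, c] 1 := by
      rw [a1, map_one, h]
    have h2 : (of 1 : F2) = 1 := hA h1
    exact absurd h2 (by decide)
  set A := (FreeGroup.lift ![x, c]).range with hAdef
  set C := (FreeGroup.lift ![y, c]).range with hCdef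
  -- centralizers of c
  have hin : ∀ (z : FreeGroup α) (f : F2 →* FreeGroup α), Function.Injective f → f (of 1) = c →
      z ∈ f.range → z * c = c * z → z ∈ Subgroup.zpowers c := by
    rintro _ f hf hf1 ⟨w, rfl⟩ h
    rw [← hf1, ← map_mul, ← map_mul] at h
    obtain ⟨k, hk⟩ := central_of1 (hf h)
    rw [hk, map_zpow, hf1]
    exact ⟨k, rfl⟩
  have D : Dyn (cj φ S) A C c j :=
    { hA := by
        rintro _ ⟨w, rfl⟩
        have h1 : (cj φ S).toMonoidHom.comp (FreeGroup.lift ![x, c]) = FreeGroup.lift ![x, c] := by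
          apply hom2_ext
          · show cj φ S (FreeGroup.lift ![x, c] (of 0)) = FreeGroup.lift ![x, c] (of 0)
            rw [a0, hSx]
          · show cj φ S (FreeGroup.lift ![x, c] (of 1)) = FreeGroup.lift ![x, c] (of 1)
            rw [a1, hSc]
        exact DFunLike.congr_fun h1 w
      hC := by
        rintro _ ⟨w, rfl⟩
        have h1 : (cj φ S).toMonoidHom.comp (FreeGroup.lift ![y, c]) =
            (MulAut.conj (c ^ j)).toMonoidHom.comp (FreeGroup.lift ![y, c]) := by
          apply hom2_ext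
          · show cj φ S (FreeGroup.lift ![y, c] (of 0)) =
              c ^ j * (FreeGroup.lift ![y, c] (of 0)) * (c ^ j)⁻¹
            rw [c0, hSR, cj_mul_inl, hRy]
          · show cj φ S (FreeGroup.lift ![y, c] (of 1)) =
              c ^ j * (FreeGroup.lift ![y, c] (of 1)) * (c ^ j)⁻¹
            rw [c1, hSc]
            group
        have h2 := DFunLike.congr_fun h1 w
        rw [zpow_neg]
        exact h2
      c1 := hc1
      j0 := hj
      cA := ⟨of 1, a1⟩
      cC := ⟨of 1, c1⟩
      inA := fun z hz h => hin z _ hA a1 hz h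
      inC := fun z hz h => hin z _ hC c1 hz h }
  -- the free group of rank three
  let eA := MonoidHom.ofInjective hA
  let eC := MonoidHom.ofInjective hC
  let gA : F2 →* F3 := FreeGroup.lift ![of 0, of 1]
  let gC : F2 →* F3 := FreeGroup.lift ![of 2, of 1]
  have gA0 : gA (of 0) = of 0 := by simp only [gA]; rw [FreeGroup.lift_apply_of]; rfl
  have gA1 : gA (of 1) = of 1 := by simp only [gA]; rw [FreeGroup.lift_apply_of]; rfl
  have gC0 : gC (of 0) = of 2 := by simp only [gC]; rw [FreeGroup.lift_apply_of]; rfl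
  have gC1 : gC (of 1) = of 1 := by simp only [gC]; rw [FreeGroup.lift_apply_of]; rfl
  let iA : A →* F3 := gA.comp eA.symm.toMonoidHom
  let iC : C →* F3 := gC.comp eC.symm.toMonoidHom
  let π : F3 →* FreeGroup α := FreeGroup.lift ![x, c, y]
  have p0 : π (of 0) = x := by simp only [π]; rw [FreeGroup.lift_apply_of]; rfl
  have p1 : π (of 1) = c := by simp only [π]; rw [FreeGroup.lift_apply_of]; rfl
  have p2 : π (of 2) = y := by simp only [π]; rw [FreeGroup.lift_apply_of]; rfl
  have hπA' : π.comp gA = FreeGroup.lift ![x, c] := by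
    apply hom2_ext
    · show π (gA (of 0)) = _
      rw [gA0, p0, a0]
    · show π (gA (of 1)) = _
      rw [gA1, p1, a1]
  have hπC' : π.comp gC = FreeGroup.lift ![y, c] := by
    apply hom2_ext
    · show π (gC (of 0)) = _
      rw [gC0, p2, c0]
    · show π (gC (of 1)) = _
      rw [gC1, p1, c1]
  have iA_mk : ∀ w : F2, iA (eA w) = gA w := by
    intro w
    show gA (eA.symm (eA w)) = gA w
    rw [MulEquiv.symm_apply_apply]
  have iC_mk : ∀ w : F2, iC (eC w) = gC w := by
    intro w
    show gC (eC.symm (eC w)) = gC w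
    rw [MulEquiv.symm_apply_apply]
  have hπA : ∀ a : A, π (iA a) = a := by
    intro a
    obtain ⟨w, rfl⟩ := eA.surjective a
    rw [iA_mk]
    have := DFunLike.congr_fun hπA' w
    exact this
  have hπC : ∀ a : C, π (iC a) = a := by
    intro a
    obtain ⟨w, rfl⟩ := eC.surjective a
    rw [iC_mk]
    have := DFunLike.congr_fun hπC' w
    exact this
  have hπ : Function.Injective π := by
    apply D.inj iA iC π hπA hπC
    · intro l hlA hlC
      have h1 := D.hA l hlA
      rw [D.hC l hlC, zpow_neg, mul_inv_eq_iff_eq_mul] at h1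
      have h2 : c * l = l * c := comm_of_zpow hj h1
      obtain ⟨k, hk⟩ := D.inA l hlA h2.symm
      have hk' : c ^ k = l := hk
      have e1 : (⟨l, hlA⟩ : A) = eA ((of 1) ^ k) := by
        apply Subtype.ext
        show l = FreeGroup.lift ![x, c] ((of 1) ^ k)
        rw [map_zpow, a1, hk']
      have e2 : (⟨l, hlC⟩ : C) = eC ((of 1) ^ k) := by
        apply Subtype.ext
        show l = FreeGroup.lift ![y, c] ((of 1) ^ k)
        rw [map_zpow, c1, hk']
      rw [e1, e2, iA_mk, iC_mk, map_zpow, map_zpow, gA1, gC1]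
    · rw [eq_comm, eq_top_iff, ← FreeGroup.closure_range_of, Subgroup.closure_le]
      rintro _ ⟨i, rfl⟩
      fin_cases i
      · exact Subgroup.mem_sup_left ⟨eA (of 0), by rw [iA_mk]; exact gA0⟩
      · exact Subgroup.mem_sup_left ⟨eA (of 1), by rw [iA_mk]; exact gA1⟩
      · exact Subgroup.mem_sup_right ⟨eC (of 0), by rw [iC_mk]; exact gC0⟩
  -- the embedding
  have hRx : cj φ R x = c ^ (-j) * x * c ^ j := by
    have h1 := cj_mul_inl (φ := φ) (c ^ j) R x
    rw [← hSR, hSx] at h1
    conv_rhs => rw [h1]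
    rw [zpow_neg]
    group
  let f : F4 →* MT φ := (SemidirectProduct.inl : FreeGroup α →* MT φ).comp (π.comp dd)
  have hs : ∀ z, R * f z * R⁻¹ = f (th j (-j) z) := by
    have h1 : ((cj φ R).toMonoidHom.comp (π.comp dd)) = (π.comp dd).comp (thf j (-j)) := by
      apply hom4_ext
      · show cj φ R (π (dd (of 0))) = π (dd (thf j (-j) (of 0)))
        rw [thf0]
        simp only [map_mul, map_zpow, dd0, dd1, p0, p1]
        exact hRx
      · show cj φ R (π (dd (of 1))) = π (dd (thf j (-j) (of 1)))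
        rw [thf1, dd1, p1, hRc]
      · show cj φ R (π (dd (of 2))) = π (dd (thf j (-j) (of 2)))
        rw [thf2]
        simp only [map_mul, map_inv, dd2, p1, p2, hRc, hRy]
      · show cj φ R (π (dd (of 3))) = π (dd (thf j (-j) (of 3)))
        rw [thf3]
        simp only [map_mul, map_inv, map_zpow, dd2, dd3, p0, p1, p2, hRy, hRx]
        rw [conj_zpow, conj_zpow]
        group
    intro z
    show R * SemidirectProduct.inl ((π.comp dd) z) * R⁻¹ =
      SemidirectProduct.inl ((π.comp dd) (th j (-j) z))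
    rw [cj_spec]
    congr 1
    exact DFunLike.congr_fun h1 z
  apply not_lerf_th (k := -j) hj
  apply lerf_inj hG (mtmap f R hs)
  apply mtmap_inj f R hs
  · exact SemidirectProduct.inl_injective.comp (hπ.comp dd_inj)
  · intro z; rfl
  · exact hR

/-- **Commensurability.** -/
theorem p4 [Finite α] (hG : LERF (MT φ)) {s r : MT φ} (hs : chi φ s ≠ 0) (hr : chi φ r ≠ 0)
    {c x y : FreeGroup α} (hc : c ≠ 1)
    (hsc : Commute s (SemidirectProduct.inl c)) (hrc : Commute r (SemidirectProduct.inl c))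
    (hsx : Commute s (SemidirectProduct.inl x)) (hry : Commute r (SemidirectProduct.inl y))
    (hx : x * c ≠ c * x) (hy : y * c ≠ c * y) : ∃ a b : ℤ, a ≠ 0 ∧ b ≠ 0 ∧ s ^ a = r ^ b := by
  -- equal exponents
  set s₁ := s ^ (chi φ r) with hs₁
  set r₁ := r ^ (chi φ s) with hr₁
  have hchi : chi φ (s₁ * r₁⁻¹) = 0 := by
    rw [chi_mul, chi_inv, hs₁, hr₁, chi_zpow, chi_zpow]
    ring
  have hr₁0 : chi φ r₁ ≠ 0 := by
    rw [hr₁, chi_zpow]; exact mul_ne_zero hs hr
  set m : FreeGroup α := (s₁ * r₁⁻¹).left with hm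
  have hmeq : s₁ * r₁⁻¹ = SemidirectProduct.inl m := inl_of_chi φ hchi
  have hs₁c : Commute s₁ (SemidirectProduct.inl c) := hsc.zpow_left _
  have hr₁c : Commute r₁ (SemidirectProduct.inl c) := hrc.zpow_left _
  have hmc : m * c = c * m := by
    have h1 : Commute (s₁ * r₁⁻¹) (SemidirectProduct.inl c) := hs₁c.mul_left hr₁c.inv_left
    rw [hmeq] at h1
    have h2 : (SemidirectProduct.inl (m * c) : MT φ) = SemidirectProduct.inl (c * m) := by
      rw [map_mul, map_mul]; exact h1.eq
    exact SemidirectProduct.inl_injective h2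
  obtain ⟨ρ, -, hρ⟩ := centralizer_cyclic c hc
  obtain ⟨i, hi⟩ := hρ c rfl
  obtain ⟨j, hj⟩ := hρ m hmc
  have hi0 : i ≠ 0 := by
    rintro rfl
    rw [zpow_zero] at hi
    exact hc hi
  have hr₁ρ : Commute r₁ (SemidirectProduct.inl ρ) := by
    rw [comm_iff] at hr₁c ⊢
    apply zpow_inj hi0
    rw [← map_zpow, ← hi, hr₁c]
  have hkey : s₁ ^ i = SemidirectProduct.inl (c ^ j) * r₁ ^ i := by
    have h1 : s₁ = SemidirectProduct.inl (ρ ^ j) * r₁ := by
      rw [← hj, ← hmeq, inv_mul_cancel_right]
    have h2 : Commute (SemidirectProduct.inl (ρ ^ j) : MT φ) r₁ := by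
      rw [map_zpow]
      exact (hr₁ρ.symm).zpow_left j
    rw [h1, h2.mul_zpow, ← map_zpow]
    congr 2
    conv_rhs => rw [hi]
    rw [← zpow_mul, ← zpow_mul, mul_comm]
  by_cases hj0 : j = 0
  · rw [hj0, zpow_zero, map_one, one_mul, hs₁, hr₁, ← zpow_mul, ← zpow_mul] at hkey
    exact ⟨_, _, mul_ne_zero hr hi0, mul_ne_zero hs hi0, hkey⟩
  · exfalso
    obtain ⟨p₁, q₁, hp₁, hq₁, h1⟩ := free_pair hx
    obtain ⟨p₂, q₂, hp₂, hq₂, h2⟩ := free_pair hy
    have hsx' : Commute (s₁ ^ i) (SemidirectProduct.inl x) := (hsx.zpow_left _).zpow_left _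
    have hry' : Commute (r₁ ^ i) (SemidirectProduct.inl y) := (hry.zpow_left _).zpow_left _
    have hsc' : Commute (s₁ ^ i) (SemidirectProduct.inl c) := hs₁c.zpow_left _
    have hrc' : Commute (r₁ ^ i) (SemidirectProduct.inl c) := hr₁c.zpow_left _
    generalize hS0 : s₁ ^ i = S at hkey hsx' hsc'
    have hR0 : chi φ (r₁ ^ i) ≠ 0 := by rw [chi_zpow]; exact mul_ne_zero hi0 hr₁0
    generalize hR0' : r₁ ^ i = R at hkey hry' hrc' hR0
    set Q : ℕ := q₁ * q₂ with hQ
    have hQ0 : 0 < Q := Nat.mul_pos hq₁ hq₂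
    have hpow : ∀ (g : MT φ) (z : FreeGroup α) (n : ℕ) (k : ℕ),
        Commute g (SemidirectProduct.inl z) → Commute (g ^ n) (SemidirectProduct.inl (z ^ k)) := by
      intro g z n k h
      rw [map_pow]
      exact h.pow_pow n k
    apply p4_core hG (S := S ^ Q) (R := R ^ Q) (c := c ^ Q) (x := x ^ (p₁ * 1))
      (y := y ^ (p₂ * 1)) (j := j) _ hj0
    · rw [hkey]
      have h3 : Commute (SemidirectProduct.inl (c ^ j) : MT φ) R := by
        rw [map_zpow]
        exact (hrc'.symm).zpow_left j
      rw [h3.mul_pow, ← map_pow]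
      congr 2
      rw [← zpow_natCast, ← zpow_natCast, ← zpow_mul, ← zpow_mul, mul_comm]
    · exact hpow _ _ _ _ hsc'
    · exact hpow _ _ _ _ hrc'
    · exact hpow _ _ _ _ hsx'
    · exact hpow _ _ _ _ hry'
    · exact h1 1 q₂ one_pos hq₂
    · have := h2 1 q₁ one_pos hq₁
      rwa [mul_comm q₂ q₁] at this
    · have h3 := chi_zpow R (Q : ℤ)
      rw [zpow_natCast] at h3
      rw [h3]
      exact mul_ne_zero (by exact_mod_cast hQ0.ne') hR0

end

end Run7.h574
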