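import Pool.Agent.Run7.h574.RankTwoG
import Pool.Agent.Run7.h574.P4

/-!
# The strong form of the local theorem
-/

set_option autoImplicit false
set_option linter.unusedSectionVars false
set_option linter.dupNamespace false

namespace Run7.h574

section

variable {A B : Type} [Group A] [Group B]

lemma hsep_prod (hA : HSep A) (hB : HSep B) : HSep (A × B) := by
  intro t y h
  by_cases h1 : ∀ N : ℤ, 0 < N → t.1 ^ N ≠ y.1 ^ N
  · exact hsep_pull hA (MonoidHom.fst A B) t y h1
  · push Not at h1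
    obtain ⟨N₁, hN₁, e₁⟩ := h1
    apply hsep_pull hB (MonoidHom.snd A B) t y
    intro N hN e₂
    apply h (N₁ * N) (mul_pos hN₁ hN)
    apply Prod.ext
    · show t.1 ^ (N₁ * N) = y.1 ^ (N₁ * N)
      rw [zpow_mul, zpow_mul, e₁]
    · show t.2 ^ (N₁ * N) = y.2 ^ (N₁ * N)
      have e₂' : t.2 ^ N = y.2 ^ N := e₂
      rw [mul_comm, zpow_mul, zpow_mul, e₂']

lemma hsep_int : HSep (Multiplicative ℤ) := by
  intro t y h
  have hty : t ≠ y := by
    have := h 1 one_pos
    rwa [zpow_one, zpow_one] at this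
  refine ⟨⊤, fun g => Multiplicative.toAdd g, 1, inferInstance, fun _ _ _ _ => rfl, one_pos,
    trivial, trivial, ?_⟩
  rw [zpow_one, zpow_one]
  exact fun h => hty (Multiplicative.toAdd.injective h)

variable {P : Type} [Group P]

lemma hsep_mt_inner (hP : HSep P) (ψ : MulAut P) {k : ℤ} (hk : k ≠ 0) (h : P)
    (hin : ∀ x, (ψ ^ k) x = h * x * h⁻¹) : HSep (MT ψ) := by
  have hcj : ∀ (j : ℤ) (x : P), (ψ ^ (k * j)) x = h ^ j * x * (h ^ j)⁻¹ := by
    intro j x
    have e : ψ ^ k = MulAut.conj h := by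
      ext x
      exact hin x
    rw [zpow_mul, e, ← map_zpow]
    rfl
  let S : Subgroup (MT ψ) :=
    (Subgroup.zpowers (Multiplicative.ofAdd k)).comap SemidirectProduct.rightHom
  have hS : ∀ g : MT ψ, g ∈ S → ∃ j, chi ψ g = k * j := by
    intro g hg
    obtain ⟨j, hj⟩ := hg
    refine ⟨j, ?_⟩
    have := congrArg Multiplicative.toAdd hj
    have h2 : Multiplicative.toAdd ((Multiplicative.ofAdd k) ^ j) = chi ψ g := this
    rw [← h2, toAdd_zpow, toAdd_ofAdd, smul_eq_mul, mul_comm]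
  have hSfi : S.FiniteIndex := by
    have h1 : (Subgroup.zpowers (Multiplicative.ofAdd k)).FiniteIndex := by
      have h2 : (AddSubgroup.zmultiples k).index ≠ 0 := by
        rw [Int.index_zmultiples]
        simpa using hk
      constructor
      exact h2
    exact fi_comap h1 _
  have hdiv : ∀ g : S, chi ψ (g : MT ψ) = k * (chi ψ (g : MT ψ) / k) := by
    intro g
    obtain ⟨j, hj⟩ := hS g g.2
    rw [hj, Int.mul_ediv_cancel_left _ hk]
  let f : S →* P × Multiplicative ℤ :=
    { toFun := fun g => ((g : MT ψ).left * h ^ (chi ψ (g : MT ψ) / k),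
        Multiplicative.ofAdd (chi ψ (g : MT ψ) / k))
      map_one' := by
        have : chi ψ ((1 : S) : MT ψ) = 0 := rfl
        rw [this, Int.zero_ediv, zpow_zero, mul_one]
        rfl
      map_mul' := by
        intro g g'
        have e1 : chi ψ ((g * g' : S) : MT ψ) / k = chi ψ (g : MT ψ) / k + chi ψ (g' : MT ψ) / k := by
          have e2 : chi ψ ((g * g' : S) : MT ψ) = chi ψ (g : MT ψ) + chi ψ (g' : MT ψ) := rfl
          obtain ⟨j, hj⟩ := hS g g.2
          obtain ⟨j', hj'⟩ := hS g' g'.2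
          rw [e2, hj, hj', ← mul_add, Int.mul_ediv_cancel_left _ hk, Int.mul_ediv_cancel_left _ hk,
            Int.mul_ediv_cancel_left _ hk]
        apply Prod.ext
        · show ((g * g' : S) : MT ψ).left * h ^ (chi ψ ((g * g' : S) : MT ψ) / k) =
            ((g : MT ψ).left * h ^ (chi ψ (g : MT ψ) / k)) *
              ((g' : MT ψ).left * h ^ (chi ψ (g' : MT ψ) / k))
          rw [e1]
          have e3 : ((g * g' : S) : MT ψ).left = (g : MT ψ).left *
            (ψ ^ (chi ψ (g : MT ψ))) (g' : MT ψ).left := rfl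
          rw [e3, hdiv g, hcj, zpow_add, ← hdiv g]
          group
        · show Multiplicative.ofAdd (chi ψ ((g * g' : S) : MT ψ) / k) = _
          rw [e1]
          rfl }
  have hf : Function.Injective f := by
    rw [injective_iff_map_eq_one]
    intro g hg
    have e1 : Multiplicative.ofAdd (chi ψ (g : MT ψ) / k) = 1 := congrArg Prod.snd hg
    have e2 : (g : MT ψ).left * h ^ (chi ψ (g : MT ψ) / k) = 1 := congrArg Prod.fst hg
    have e3 : chi ψ (g : MT ψ) / k = 0 := congrArg Multiplicative.toAdd e1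
    rw [e3, zpow_zero, mul_one] at e2
    have e4 := hdiv g
    rw [e3, mul_zero] at e4
    apply Subtype.ext
    rw [inl_of_chi ψ e4, e2, map_one]
    rfl
  exact hsep_fi S hSfi (hsep_inj (hsep_prod hP hsep_int) f hf)

end

section

variable {α : Type} {φ : MulAut (FreeGroup α)} {V : Type} [MulAction (MT φ) V]
  {T : SimpleGraph V}

/-- strong form -/
def Good2 (φ : MulAut (FreeGroup α)) [MulAction (MT φ) V] (v : V) : Prop :=
  ∀ C : Subgroup (FreeGroup α), C.FG → ∀ u : MT φ, u • v = v → chi φ u ≠ 0 →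
    (∀ x, cj φ u x ∈ C ↔ x ∈ C) → IsAmalgam (fst φ v) C →
    IsCyclic (fst φ v ⊓ C : Subgroup (FreeGroup α)) → (fst φ v ⊓ C).relIndex C = 0 →
    ∃ (J : ℤ) (z : FreeGroup α), J ≠ 0 ∧ z ∈ fst φ v ⊓ C ∧
      ∀ y ∈ fst φ v, Commute (SemidirectProduct.inl z * u ^ J) (SemidirectProduct.inl y)

lemma good_of_good2 {v : V} (h : Good2 φ v) : Good φ v := by
  intro C hC u huv hu hCu ham hcyc hidx
  obtain ⟨J, z, hJ, hz, hcom⟩ := h C hC u huv hu hCu ham hcyc hidx
  refine ⟨_, ?_, ?_, hcom⟩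
  · rw [mul_smul, stab_zpow huv]
    exact hz.1
  · rw [chi_mul, chi_inl, chi_zpow, zero_add]
    exact mul_ne_zero hJ hu

lemma good2_aux (hG : LERF (MT φ)) {v : V} (hfg : (fst φ v).FG) {C : Subgroup (FreeGroup α)}
    (hC : C.FG) {u : MT φ} (huv : u • v = v) (hu : chi φ u ≠ 0)
    (hCu : ∀ x, cj φ u x ∈ C ↔ x ∈ C) (ham : IsAmalgam (fst φ v) C)
    (hcyc : IsCyclic (fst φ v ⊓ C : Subgroup (FreeGroup α)))
    (hidx : (fst φ v ⊓ C).relIndex C = 0)
    (hS : HSep (Subgroup.closure (insert u (SemidirectProduct.inl ''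
      ((fst φ v : Subgroup (FreeGroup α)) : Set (FreeGroup α))) : Set (MT φ)))) :
    ∃ (J : ℤ) (z : FreeGroup α), J ≠ 0 ∧ z ∈ fst φ v ⊓ C ∧
      ∀ y ∈ fst φ v, Commute (SemidirectProduct.inl z * u ^ J) (SemidirectProduct.inl y) := by
  obtain ⟨z, hz⟩ := (Subgroup.isCyclic_iff_exists_zpowers_eq_top (fst φ v ⊓ C)).mp hcyc
  have hzv : z ∈ fst φ v ⊓ C := by rw [← hz]; exact Subgroup.mem_zpowers z
  obtain ⟨J, c, hJ, hJx, hJz⟩ := piece φ hG (fst φ v) C hfg hC u hu (cj_fst huv)
    hCu z hz.symm hidx ham hS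
  refine ⟨J, z ^ c, hJ.ne', (fst φ v ⊓ C).zpow_mem hzv c, ?_⟩
  intro x hx
  have h1 := hJx x hx
  show SemidirectProduct.inl (z ^ c) * u ^ J * SemidirectProduct.inl x =
    SemidirectProduct.inl x * (SemidirectProduct.inl (z ^ c) * u ^ J)
  rw [mul_inv_eq_iff_eq_mul] at h1
  rw [mul_assoc, h1, ← mul_assoc, ← map_mul, ← mul_assoc (SemidirectProduct.inl x), ← map_mul]
  congr 2
  rw [zpow_neg]
  group

theorem good2_of_hsep (hG : LERF (MT φ)) {v : V} (hfg : (fst φ v).FG)
    (hS : HSep (MulAction.stabilizer (MT φ) v)) : Good2 φ v := by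
  intro C hC u huv hu hCu ham hcyc hidx
  let D : Subgroup (MT φ) := Subgroup.closure
    (insert u (SemidirectProduct.inl '' ((fst φ v : Subgroup (FreeGroup α)) : Set (FreeGroup α))) : Set (MT φ))
  have hD : D ≤ MulAction.stabilizer (MT φ) v := by
    rw [Subgroup.closure_le]
    rintro g (rfl | ⟨x, hx, rfl⟩)
    · exact huv
    · exact hx
  exact good2_aux hG hfg hC huv hu hCu ham hcyc hidx
    (hsep_inj hS (Subgroup.inclusion hD) (Subgroup.inclusion_injective hD))

theorem good2_of_rank2 (hG : LERF (MT φ)) {v : V} (e : fst φ v ≃* F2) : Good2 φ v := by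
  intro C hC u huv hu hCu ham hcyc hidx
  obtain ⟨g, hgv, hg, hcom⟩ := good_of_rank2 hG e C hC u huv hu hCu ham hcyc hidx
  have hA : ∀ x, cj φ u x ∈ fst φ v ↔ x ∈ fst φ v := cj_fst huv
  have hAfg : (fst φ v).FG := by
    have h1 : Group.FG (fst φ v) :=
      Group.fg_of_surjective (f := e.symm.toMonoidHom) e.symm.surjective
    exact (Group.fg_iff_subgroup_fg _).mp h1
  obtain ⟨m, hm, hmk⟩ := diff_mem huv hgv
  -- the action of a power of u is inner
  have hin : ∀ x : fst φ v, ((restr (cj φ u) (fst φ v) hA) ^ (chi φ g)) x =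
      (⟨m, hm⟩ : fst φ v) * x * (⟨m, hm⟩ : fst φ v)⁻¹ := by
    rintro ⟨x, hx⟩
    apply Subtype.ext
    rw [restr_zpow]
    show (cj φ u ^ chi φ g) x = m * x * m⁻¹
    apply SemidirectProduct.inl_injective (φ := zpowersHom (MulAut (FreeGroup α)) φ)
    rw [← cj_zpow, hmk, map_mul, map_mul, map_inv]
    have h1 : Commute (g ^ (chi φ u)) (SemidirectProduct.inl x) := (hcom x hx).zpow_left _
    calc SemidirectProduct.inl m * g ^ (chi φ u) * SemidirectProduct.inl x *
          (SemidirectProduct.inl m * g ^ (chi φ u))⁻¹ =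
          SemidirectProduct.inl m * ((g ^ (chi φ u) * SemidirectProduct.inl x) *
            (g ^ (chi φ u))⁻¹) * (SemidirectProduct.inl m)⁻¹ := by group
      _ = _ := by rw [h1.eq, mul_inv_cancel_right]
  have hsepA : HSep (fst φ v) := hsep_inj (hsep_free (Fin 2)) e.toMonoidHom e.injective
  have hsepMT := hsep_mt_inner hsepA (restr (cj φ u) (fst φ v) hA) hg ⟨m, hm⟩ hin
  -- the subgroup generated by u and the vertex group
  have hinj := emb_inj φ u hu (fst φ v) hA
  let D : Subgroup (MT φ) := Subgroup.closure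
    (insert u (SemidirectProduct.inl '' ((fst φ v : Subgroup (FreeGroup α)) : Set (FreeGroup α))) : Set (MT φ))
  have hD : D ≤ (emb φ u (fst φ v) hA).range := by
    rw [Subgroup.closure_le]
    rintro g (rfl | ⟨x, hx, rfl⟩)
    · refine ⟨tt _, ?_⟩
      rw [emb_apply, chi_tt, zpow_one]
      show SemidirectProduct.inl ((1 : fst φ v) : FreeGroup α) * g = g
      rw [OneMemClass.coe_one, map_one, one_mul]
    · refine ⟨SemidirectProduct.inl ⟨x, hx⟩, ?_⟩
      rw [emb_apply, chi_inl, zpow_zero, mul_one]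
      rfl
  have hSD : HSep D := hsep_inj hsepMT
    (((MonoidHom.ofInjective hinj).symm.toMonoidHom).comp (Subgroup.inclusion hD))
    ((MonoidHom.ofInjective hinj).symm.injective.comp (Subgroup.inclusion_injective hD))
  exact good2_aux hG hAfg hC huv hu hCu ham hcyc hidx hSD

end

end Run7.h574
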