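import Pool.Agent.Run7.h574.Comb
import Pool.Agent.Run7.h574.Strong

/-!
# Two subgroups of the fibre normalized by the same element
-/

set_option autoImplicit false
set_option linter.unusedSectionVars false
set_option linter.dupNamespace false

namespace Run7.h574

open Pool.Agent.Helper180.FreeMetric

lemma lerf_finite {Γ : Type} [Group Γ] (hΓ : LERF Γ) {H : Subgroup Γ} (hH : H.FG) {E : Set Γ}
    (hE : E.Finite) : ∃ K : Subgroup Γ, K.FiniteIndex ∧ H ≤ K ∧ ∀ g ∈ E, g ∈ K → g ∈ H := by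
  induction E, hE using Set.Finite.induction_on with
  | empty => exact ⟨⊤, inferInstance, le_top, fun g hg => absurd hg (Set.notMem_empty g)⟩
  | @insert a E _ _ ih =>
    obtain ⟨K, hK, hHK, h⟩ := ih
    by_cases ha : a ∈ H
    · refine ⟨K, hK, hHK, ?_⟩
      rintro g (rfl | hg) hgK
      · exact ha
      · exact h g hg hgK
    · obtain ⟨K', hK', hHK', h'⟩ := hΓ H hH a ha
      refine ⟨K ⊓ K', inferInstance, le_inf hHK hHK', ?_⟩
      rintro g (rfl | hg) hgK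
      · exact absurd hgK.2 h'
      · exact h g hg hgK.1

section

variable {α : Type} {φ : MulAut (FreeGroup α)}

/-- deep subgroups which generate an amalgam -/
lemma deep [Finite α] (hG : LERF (MT φ)) {A C : Subgroup (FreeGroup α)} (hA : A.FG) (hC : C.FG)
    (hL : (A ⊓ C).FG) (u : MT φ) (hAu : ∀ x, cj φ u x ∈ A ↔ x ∈ A)
    (hCu : ∀ x, cj φ u x ∈ C ↔ x ∈ C) :
    ∃ (K : Subgroup (FreeGroup α)) (k : ℤ), K.FiniteIndex ∧ 0 < k ∧ A ⊓ C ≤ K ∧
      IsAmalgam (A ⊓ K) (C ⊓ K) ∧ (∀ x, cj φ (u ^ k) x ∈ A ↔ x ∈ A) ∧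
      (∀ x, cj φ (u ^ k) x ∈ C ↔ x ∈ C) ∧ (∀ x, cj φ (u ^ k) x ∈ K ↔ x ∈ K) := by
  classical
  obtain ⟨E, hE, hE'⟩ := comb hA hC
  have hLfg : ((A ⊓ C).map (SemidirectProduct.inl : FreeGroup α →* MT φ)).FG := fg_map _ hL
  obtain ⟨K, hK, hLK, h⟩ := lerf_finite hG hLfg (hE.image (SemidirectProduct.inl : FreeGroup α →* MT φ))
  obtain ⟨k, hk, hkK⟩ := exists_pow_mem K u
  have hn : ∀ (B : Subgroup (FreeGroup α)), (∀ x, cj φ u x ∈ B ↔ x ∈ B) →
      ∀ x, cj φ (u ^ k) x ∈ B ↔ x ∈ B := by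
    intro B hB x
    have e : cj φ (u ^ k) x = (cj φ u ^ k) x := by
      apply SemidirectProduct.inl_injective (φ := zpowersHom (MulAut (FreeGroup α)) φ)
      rw [← cj_spec, ← cj_zpow]
    rw [e]
    exact inv_zpow_mem hB k x
  refine ⟨K.comap SemidirectProduct.inl, k, fi_comap hK _, hk, ?_, ?_, hn A hAu, hn C hCu, ?_⟩
  · intro x hx
    exact hLK ⟨x, hx, rfl⟩
  · apply hE'
    · intro x hx
      exact hLK ⟨x, hx, rfl⟩
    · intro g hg hgK
      obtain ⟨x, hx, hxg⟩ := h _ ⟨g, hg, rfl⟩ hgK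
      rw [← SemidirectProduct.inl_injective hxg]
      exact hx
  · intro x
    show (SemidirectProduct.inl (cj φ (u ^ k) x) : MT φ) ∈ K ↔ (SemidirectProduct.inl x : MT φ) ∈ K
    rw [← cj_spec]
    constructor
    · intro h1
      have e : (SemidirectProduct.inl x : MT φ) = (u ^ k)⁻¹ * (u ^ k * SemidirectProduct.inl x *
        (u ^ k)⁻¹) * u ^ k := by group
      rw [e]
      exact K.mul_mem (K.mul_mem (K.inv_mem hkK) h1) hkK
    · intro h1
      exact K.mul_mem (K.mul_mem hkK h1) (K.inv_mem hkK)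

lemma comm_extend {A K : Subgroup (FreeGroup α)} (hK : K.FiniteIndex) {g : MT φ}
    (h : ∀ y ∈ A ⊓ K, Commute g (SemidirectProduct.inl y)) :
    ∀ y ∈ A, Commute g (SemidirectProduct.inl y) := by
  intro y hy
  obtain ⟨n, hn, hn'⟩ := exists_pow_mem K y
  have h1 := h (y ^ n) ⟨A.zpow_mem hy n, hn'⟩
  rw [comm_iff] at h1 ⊢
  rw [map_zpow] at h1
  exact zpow_inj hn.ne' h1

lemma relIndex_deep {C K L : Subgroup (FreeGroup α)} (hK : K.FiniteIndex) (hLC : L ≤ C)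
    (hLK : L ≤ K) (hidx : L.relIndex C = 0) : L.relIndex (C ⊓ K) = 0 := by
  have h1 := Subgroup.relIndex_mul_relIndex L (C ⊓ K) C (le_inf hLC hLK) inf_le_left
  rw [hidx] at h1
  rcases mul_eq_zero.mp h1 with h2 | h2
  · exact h2
  · exfalso
    rw [Subgroup.inf_relIndex_left] at h2
    exact (inferInstance : (K.subgroupOf C).FiniteIndex).index_ne_zero h2

lemma fg_inf' {A K : Subgroup (FreeGroup α)} (hA : A.FG) (hK : K.FiniteIndex) : (A ⊓ K).FG :=
  fg_inf hA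

lemma fg_of_cyclic {L : Subgroup (FreeGroup α)} (h : IsCyclic L) : L.FG := by
  obtain ⟨z, hz⟩ := (Subgroup.isCyclic_iff_exists_zpowers_eq_top L).mp h
  rw [← hz, Subgroup.zpowers_eq_closure]
  exact ⟨{z}, by simp⟩

/-- **Pairs of invariant subgroups**, separable case. -/
theorem pair_hsep [Finite α] (hG : LERF (MT φ)) {A C : Subgroup (FreeGroup α)} (hA : A.FG)
    (hC : C.FG) {u : MT φ} (hu : chi φ u ≠ 0) (hAu : ∀ x, cj φ u x ∈ A ↔ x ∈ A)
    (hCu : ∀ x, cj φ u x ∈ C ↔ x ∈ C) (hcyc : IsCyclic (A ⊓ C : Subgroup (FreeGroup α)))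
    (hidx : (A ⊓ C).relIndex C = 0)
    (hS : HSep (Subgroup.closure (insert u (SemidirectProduct.inl ''
      (A : Set (FreeGroup α))) : Set (MT φ)))) :
    ∃ (J : ℤ) (z : FreeGroup α), J ≠ 0 ∧ z ∈ A ⊓ C ∧
      ∀ y ∈ A, Commute (SemidirectProduct.inl z * u ^ J) (SemidirectProduct.inl y) := by
  obtain ⟨K, k, hK, hk, hLK, ham, hAk, hCk, hKk⟩ := deep hG hA hC (fg_of_cyclic hcyc) u hAu hCu
  have hinf : (A ⊓ K) ⊓ (C ⊓ K) = A ⊓ C := by
    apply le_antisymm
    · intro x hx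
      exact ⟨hx.1.1, hx.2.1⟩
    · intro x hx
      exact ⟨⟨hx.1, hLK hx⟩, ⟨hx.2, hLK hx⟩⟩
  obtain ⟨z, hz⟩ := (Subgroup.isCyclic_iff_exists_zpowers_eq_top (A ⊓ C)).mp hcyc
  have hzv : z ∈ A ⊓ C := by rw [← hz]; exact Subgroup.mem_zpowers z
  have huk : chi φ (u ^ k) ≠ 0 := by rw [chi_zpow]; exact mul_ne_zero hk.ne' hu
  have hle : Subgroup.closure (insert (u ^ k) (SemidirectProduct.inl ''
      ((A ⊓ K : Subgroup (FreeGroup α)) : Set (FreeGroup α))) : Set (MT φ)) ≤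
      Subgroup.closure (insert u (SemidirectProduct.inl '' (A : Set (FreeGroup α))) : Set (MT φ)) := by
    rw [Subgroup.closure_le]
    rintro g (rfl | ⟨x, hx, rfl⟩)
    · have h1 : u ∈ Subgroup.closure (insert u (SemidirectProduct.inl ''
        (A : Set (FreeGroup α))) : Set (MT φ)) := Subgroup.subset_closure (Or.inl rfl)
      exact Subgroup.zpow_mem _ h1 k
    · exact Subgroup.subset_closure (Or.inr ⟨x, hx.1, rfl⟩)
  obtain ⟨J, c, hJ, hJx, hJz⟩ := piece φ hG (A ⊓ K) (C ⊓ K) (fg_inf' hA hK) (fg_inf' hC hK) (u ^ k)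
    huk (fun x => by
      rw [Subgroup.mem_inf, Subgroup.mem_inf, hAk, hKk]) (fun x => by
      rw [Subgroup.mem_inf, Subgroup.mem_inf, hCk, hKk])
    z (by rw [hinf]; exact hz.symm) (by
      rw [hinf]
      exact relIndex_deep hK inf_le_right hLK hidx) ham
    (hsep_inj hS (Subgroup.inclusion hle) (Subgroup.inclusion_injective hle))
  refine ⟨k * J, z ^ c, mul_ne_zero hk.ne' hJ.ne', (A ⊓ C).zpow_mem hzv c, ?_⟩
  apply comm_extend hK
  intro x hx
  have h1 := hJx x hx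
  rw [zpow_mul]
  show SemidirectProduct.inl (z ^ c) * (u ^ k) ^ J * SemidirectProduct.inl x =
    SemidirectProduct.inl x * (SemidirectProduct.inl (z ^ c) * (u ^ k) ^ J)
  rw [mul_inv_eq_iff_eq_mul] at h1
  rw [mul_assoc, h1, ← mul_assoc, ← map_mul, ← mul_assoc (SemidirectProduct.inl x), ← map_mul]
  congr 2
  rw [zpow_neg]
  group

end

end Run7.h574
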