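import Pool.Agent.Run7.h574.RankTwoH
import Pool.Agent.Run7.h574.Classify2
import Pool.Agent.Run7.h574.AbstractG

/-!
# Two subgroups of the fibre normalized by the same element have a common centralizing element
-/

set_option autoImplicit false
set_option linter.unusedSectionVars false
set_option linter.dupNamespace false

namespace Run7.h574

open Pool.Agent.Helper180.FreeMetric

section

variable {α : Type} {φ : MulAut (FreeGroup α)}

/-- a subgroup of infinite index of a cyclic group is trivial -/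
lemma bot_of_cyclic {L A : Subgroup (FreeGroup α)} (hLA : L ≤ A) (hA : IsCyclic A)
    (hidx : L.relIndex A = 0) : L = ⊥ := by
  obtain ⟨a, ha⟩ := (Subgroup.isCyclic_iff_exists_zpowers_eq_top A).mp hA
  have haA : a ∈ A := by rw [← ha]; exact Subgroup.mem_zpowers a
  by_contra hne
  obtain ⟨⟨l, hl⟩, hl1⟩ := (Subgroup.ne_bot_iff_exists_ne_one (H := L)).mp hne
  have hl1' : l ≠ 1 := fun h => hl1 (Subtype.ext h)
  have hlA := hLA hl
  rw [← ha] at hlA
  obtain ⟨i, hi⟩ := hlA
  have hi' : a ^ i = l := hi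
  have hi0 : i ≠ 0 := by
    rintro rfl
    rw [zpow_zero] at hi'
    exact hl1' hi'.symm
  let f : Multiplicative ℤ →* A := zpowersHom A ⟨a, haA⟩
  have hf : ∀ n : ℤ, f (Multiplicative.ofAdd n) = (⟨a, haA⟩ : A) ^ n := fun n => rfl
  have hfs : Function.Surjective f := by
    rintro ⟨x, hx⟩
    have hx' := hx
    rw [← ha] at hx'
    obtain ⟨n, hn⟩ := hx'
    refine ⟨Multiplicative.ofAdd n, ?_⟩
    rw [hf]
    exact Subtype.ext hn
  have h1 : (Subgroup.zpowers (Multiplicative.ofAdd i)).FiniteIndex := by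
    have h2 : (AddSubgroup.zmultiples i).index ≠ 0 := by
      rw [Int.index_zmultiples]
      simpa using hi0
    constructor
    exact h2
  have h2 : Subgroup.zpowers (Multiplicative.ofAdd i) ≤ (L.subgroupOf A).comap f := by
    rw [Subgroup.zpowers_le]
    show ((f (Multiplicative.ofAdd i) : A) : FreeGroup α) ∈ L
    rw [hf, SubgroupClass.coe_zpow]
    show a ^ i ∈ L
    rw [hi']
    exact hl
  have h3 := Subgroup.finiteIndex_of_le h2
  apply h3.index_ne_zero
  rw [Subgroup.index_comap_of_surjective _ hfs]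
  exact hidx

/-- the tameness condition -/
def TamePair (φ : MulAut (FreeGroup α)) (A : Subgroup (FreeGroup α)) (u : MT φ) : Prop :=
  IsCyclic A ∨ HSep (Subgroup.closure (insert u (SemidirectProduct.inl ''
      (A : Set (FreeGroup α))) : Set (MT φ))) ∨ Nonempty (A ≃* F2)

theorem pair_one [Finite α] (hG : LERF (MT φ)) {A C : Subgroup (FreeGroup α)} (hA : A.FG)
    (hC : C.FG) {u : MT φ} (hu : chi φ u ≠ 0) (hAu : ∀ x, cj φ u x ∈ A ↔ x ∈ A)
    (hCu : ∀ x, cj φ u x ∈ C ↔ x ∈ C) (hcyc : IsCyclic (A ⊓ C : Subgroup (FreeGroup α)))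
    (hidx : (A ⊓ C).relIndex C = 0) (hT : TamePair φ A u) :
    ∃ (J : ℤ) (z : FreeGroup α), J ≠ 0 ∧ z ∈ A ⊓ C ∧
      ∀ y ∈ A, Commute (SemidirectProduct.inl z * u ^ J) (SemidirectProduct.inl y) := by
  rcases hT with hcA | hS | hr
  · obtain ⟨c, hc⟩ := (Subgroup.isCyclic_iff_exists_zpowers_eq_top A).mp hcA
    have h1 := sq_comm (φ := φ) (u := u) (c := c) (by rw [hc]; exact hAu)
    refine ⟨2, 1, two_ne_zero, (A ⊓ C).one_mem, ?_⟩
    intro y hy
    rw [map_one, one_mul]
    have h2 := cj_zpow φ u 2 c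
    rw [zpow_ofNat (cj φ u), h1, mul_inv_eq_iff_eq_mul] at h2
    rw [← hc] at hy
    obtain ⟨k, hk⟩ := hy
    have hk' : c ^ k = y := hk
    rw [← hk', map_zpow]
    have h4 : Commute (u ^ (2 : ℤ)) (SemidirectProduct.inl c) := h2
    exact h4.zpow_right k
  · exact pair_hsep hG hA hC hu hAu hCu hcyc hidx hS
  · obtain ⟨e⟩ := hr
    obtain ⟨n, h, hn, hh, hinn⟩ := pair_rank2 hG e hC hu hAu hCu hcyc hidx
    have hin : ∀ x : A, ((restr (cj φ u) A hAu) ^ n) x = (⟨h, hh⟩ : A) * x * (⟨h, hh⟩ : A)⁻¹ := by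
      rintro ⟨x, hx⟩
      apply Subtype.ext
      rw [restr_zpow]
      show (cj φ u ^ n) x = h * x * h⁻¹
      apply SemidirectProduct.inl_injective (φ := zpowersHom (MulAut (FreeGroup α)) φ)
      rw [← cj_zpow, hinn x hx]
    have hsepA : HSep A := hsep_inj (hsep_free (Fin 2)) e.toMonoidHom e.injective
    have hsepMT := hsep_mt_inner hsepA (restr (cj φ u) A hAu) hn ⟨h, hh⟩ hin
    have hinj := emb_inj φ u hu A hAu
    let D : Subgroup (MT φ) := Subgroup.closure
      (insert u (SemidirectProduct.inl '' (A : Set (FreeGroup α))) : Set (MT φ))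
    have hD : D ≤ (emb φ u A hAu).range := by
      rw [Subgroup.closure_le]
      rintro g (rfl | ⟨x, hx, rfl⟩)
      · refine ⟨tt _, ?_⟩
        rw [emb_apply, chi_tt, zpow_one]
        show SemidirectProduct.inl ((1 : A) : FreeGroup α) * g = g
        rw [OneMemClass.coe_one, map_one, one_mul]
      · refine ⟨SemidirectProduct.inl ⟨x, hx⟩, ?_⟩
        rw [emb_apply, chi_inl, zpow_zero, mul_one]
        rfl
    have hSD : HSep D := hsep_inj hsepMT
      (((MonoidHom.ofInjective hinj).symm.toMonoidHom).comp (Subgroup.inclusion hD))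
      ((MonoidHom.ofInjective hinj).symm.injective.comp (Subgroup.inclusion_injective hD))
    exact pair_hsep hG hA hC hu hAu hCu hcyc hidx hSD

/-- **Two invariant subgroups.** -/
theorem pair_both [Finite α] (hG : LERF (MT φ)) {A C : Subgroup (FreeGroup α)} (hA : A.FG)
    (hC : C.FG) {u : MT φ} (hu : chi φ u ≠ 0) (hAu : ∀ x, cj φ u x ∈ A ↔ x ∈ A)
    (hCu : ∀ x, cj φ u x ∈ C ↔ x ∈ C) (hcyc : IsCyclic (A ⊓ C : Subgroup (FreeGroup α)))
    (hidxA : (A ⊓ C).relIndex A = 0) (hidxC : (A ⊓ C).relIndex C = 0) (hTA : TamePair φ A u)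
    (hTC : TamePair φ C u) :
    ∃ (J : ℤ) (z : FreeGroup α), J ≠ 0 ∧ z ∈ A ⊓ C ∧
      (∀ y ∈ A, Commute (SemidirectProduct.inl z * u ^ J) (SemidirectProduct.inl y)) ∧
      ∀ y ∈ C, Commute (SemidirectProduct.inl z * u ^ J) (SemidirectProduct.inl y) := by
  obtain ⟨J, z, hJ, hz, h1⟩ := pair_one hG hA hC hu hAu hCu hcyc hidxC hTA
  obtain ⟨J', z', hJ', hz', h1'⟩ := pair_one hG hC hA hu hCu hAu (by rw [inf_comm]; exact hcyc)
    (by rw [inf_comm]; exact hidxA) hTC
  rw [inf_comm] at hz'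
  by_cases hbot : A ⊓ C = ⊥
  · rw [hbot, Subgroup.mem_bot] at hz hz'
    rw [hz, map_one, one_mul] at h1
    rw [hz', map_one, one_mul] at h1'
    refine ⟨J * J', 1, mul_ne_zero hJ hJ', (A ⊓ C).one_mem, ?_, ?_⟩
    · intro y hy
      rw [map_one, one_mul, zpow_mul]
      exact (h1 y hy).zpow_left _
    · intro y hy
      rw [map_one, one_mul, mul_comm, zpow_mul]
      exact (h1' y hy).zpow_left _
  · obtain ⟨c, hc⟩ := (Subgroup.isCyclic_iff_exists_zpowers_eq_top (A ⊓ C)).mp hcyc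
    have hcAC : c ∈ A ⊓ C := by rw [← hc]; exact Subgroup.mem_zpowers c
    have hc1 : c ≠ 1 := by
      rintro rfl
      apply hbot
      rw [← hc, Subgroup.zpowers_one_eq_bot]
    have hex : ∀ B : Subgroup (FreeGroup α), A ⊓ C ≤ B → (A ⊓ C).relIndex B = 0 →
        ∃ x ∈ B, x * c ≠ c * x := by
      intro B hB hidx
      by_contra hcon
      push Not at hcon
      apply hbot
      apply bot_of_cyclic hB _ hidx
      apply cyclic_of_comm
      intro x hx y hy
      exact comm_trans hc1 (hcon x hx) (hcon y hy)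
    obtain ⟨x, hx, hxc⟩ := hex A inf_le_left hidxA
    obtain ⟨y, hy, hyc⟩ := hex C inf_le_right hidxC
    have hchi : ∀ (J : ℤ) (z : FreeGroup α), J ≠ 0 →
        chi φ (SemidirectProduct.inl z * u ^ J) ≠ 0 := by
      intro J z hJ
      rw [chi_mul, chi_inl, chi_zpow, zero_add]
      exact mul_ne_zero hJ hu
    obtain ⟨a, b, ha, hb, hab⟩ := p4 hG (hchi J z hJ) (hchi J' z' hJ') hc1 (h1 c hcAC.1)
      (h1' c hcAC.2) (h1 x hx) (h1' y hy) hxc hyc
    -- the power
    have hzz : Commute (SemidirectProduct.inl z : MT φ) (u ^ J) := by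
      have h2 := h1 z hz.1
      have h3 : u ^ J = (SemidirectProduct.inl z)⁻¹ * (SemidirectProduct.inl z * u ^ J) := by group
      rw [h3]
      exact ((Commute.refl _).inv_right).mul_right h2.symm
    have hpow : (SemidirectProduct.inl z * u ^ J) ^ a = SemidirectProduct.inl (z ^ a) * u ^ (J * a) := by
      rw [hzz.mul_zpow, map_zpow, zpow_mul]
    refine ⟨J * a, z ^ a, mul_ne_zero hJ ha, (A ⊓ C).zpow_mem hz a, ?_, ?_⟩
    · intro y hy
      rw [← hpow]
      exact (h1 y hy).zpow_left _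
    · intro y hy
      rw [← hpow, hab]
      exact (h1' y hy).zpow_left _

end

end Run7.h574
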