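import Pool.Agent.Run7.h574.Tree2

/-!
# Trees with large centralizers of the vertex groups obstruct relative hyperbolicity
-/

set_option autoImplicit false
set_option linter.unusedSectionVars false
set_option linter.dupNamespace false

namespace Run7.h574

section

variable {α : Type} {φ : MulAut (FreeGroup α)} {V : Type} [MulAction (MT φ) V]
  {T : SimpleGraph V}

/-- a parabolic subgroup contains the vertex group of the fibre and virtually the vertex group -/
def DD (φ : MulAut (FreeGroup α)) [MulAction (MT φ) V] (v : V) (P' : Subgroup (MT φ)) : Prop :=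
  (∀ x ∈ fst φ v, (SemidirectProduct.inl x : MT φ) ∈ P') ∧
    ∀ h : MT φ, h • v = v → chi φ h ≠ 0 → ∃ N : ℤ, N ≠ 0 ∧ h ^ N ∈ P'

theorem no_peripherals2 (hT : T.IsTree)
    (hedge : ∀ x y : V, T.Adj x y → ∃ u : MT φ, u • x = x ∧ u • y = y ∧ chi φ u ≠ 0)
    {v₀ w₀ : V} (h₀ : T.Adj v₀ w₀) (hF : ∃ f : FreeGroup α, f ≠ 1)
    (hcent : ∀ v : V, fst φ v ≠ ⊥ → ∃ g : MT φ, g • v = v ∧ chi φ g ≠ 0 ∧
      ∀ x ∈ fst φ v, Commute g (SemidirectProduct.inl x)) : ¬ HasPeripherals (MT φ) := by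
  rintro ⟨Ps, hprop, hmal, hab⟩
  have hpar : ∀ a b : MT φ, Commute a b → (∀ m n : ℤ, a ^ m * b ^ n = 1 → m = 0 ∧ n = 0) →
      ∃ P', Par Ps P' ∧ a ∈ P' ∧ b ∈ P' := by
    intro a b h1 h2
    obtain ⟨P, hP, k, hk1, hk2⟩ := hab a b h1 h2
    exact ⟨P.comap (MulAut.conj k).toMonoidHom, ⟨P, hP, k, fun x => Iff.rfl⟩, hk1, hk2⟩
  have hind : ∀ (a : FreeGroup α) (g : MT φ), a ≠ 1 → chi φ g ≠ 0 → ∀ m n : ℤ,
      (SemidirectProduct.inl a : MT φ) ^ m * g ^ n = 1 → m = 0 ∧ n = 0 := by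
    intro a g ha hg m n hmn
    have h3 : chi φ ((SemidirectProduct.inl a : MT φ) ^ m * g ^ n) = 0 := by rw [hmn]; rfl
    rw [chi_mul, chi_zpow, chi_zpow, chi_inl, mul_zero, zero_add] at h3
    have hn : n = 0 := (mul_eq_zero.mp h3).resolve_right hg
    rw [hn, zpow_zero, mul_one] at hmn
    exact ⟨ord_inl ha m hmn, hn⟩
  -- nontrivial vertex groups
  have h1 : ∀ v : V, fst φ v ≠ ⊥ → ∃ P', Par Ps P' ∧ DD φ v P' := by
    intro v hv
    obtain ⟨g, hgv, hg, hcom⟩ := hcent v hv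
    have h2 : ∀ a ∈ fst φ v, a ≠ 1 → ∃ P', Par Ps P' ∧ (SemidirectProduct.inl a : MT φ) ∈ P' ∧
        g ∈ P' := fun a ha ha1 => hpar _ _ (hcom a ha).symm (hind a g ha1 hg)
    obtain ⟨a, ha, ha1⟩ := (Subgroup.ne_bot_iff_exists_ne_one (H := fst φ v)).mp hv |>.elim
      (fun a ha => (⟨a, a.2, fun h => ha (Subtype.ext h)⟩ : ∃ a ∈ fst φ v, a ≠ 1))
    obtain ⟨P', hP', haP, hgP⟩ := h2 a ha ha1
    have hin : ∀ x ∈ fst φ v, (SemidirectProduct.inl x : MT φ) ∈ P' := by
      intro x hx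
      by_cases hx1 : x = 1
      · rw [hx1, map_one]; exact P'.one_mem
      · obtain ⟨Q', hQ', hxQ, hgQ⟩ := h2 x hx hx1
        rw [hP'.eq hmal hQ' hgP hgQ (ord_chi hg)]
        exact hxQ
    refine ⟨P', hP', hin, ?_⟩
    intro k hkv hk
    obtain ⟨m, hm, hmk⟩ := diff_mem hkv hgv
    exact ⟨chi φ g, hg, by rw [hmk]; exact P'.mul_mem (hin m hm) (P'.zpow_mem hgP _)⟩
  -- propagation along the edges
  have h2 : ∀ v w, T.Adj v w → ∀ P', Par Ps P' → DD φ v P' → DD φ w P' := by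
    intro v w hvw P' hP' hD
    obtain ⟨u, huv, huw, hu⟩ := hedge v w hvw
    obtain ⟨N, hN, huN⟩ := hD.2 u huv hu
    by_cases hw : fst φ w = ⊥
    · refine ⟨?_, ?_⟩
      · intro x hx
        rw [hw, Subgroup.mem_bot] at hx
        rw [hx, map_one]
        exact P'.one_mem
      · intro k hkw hk
        obtain ⟨m, hm, hmk⟩ := diff_mem hkw huw
        rw [hw, Subgroup.mem_bot] at hm
        rw [hm, map_one, one_mul] at hmk
        refine ⟨chi φ u * N, mul_ne_zero hu hN, ?_⟩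
        rw [zpow_mul, hmk, ← zpow_mul, mul_comm, zpow_mul]
        exact P'.zpow_mem huN _
    · obtain ⟨P₂, hP₂, hD₂⟩ := h1 w hw
      obtain ⟨M, hM, huM⟩ := hD₂.2 u huw hu
      have e : P' = P₂ := by
        apply hP'.eq hmal hP₂ (y := u ^ (N * M))
        · rw [zpow_mul]; exact P'.zpow_mem huN _
        · rw [mul_comm, zpow_mul]; exact P₂.zpow_mem huM _
        · apply ord_chi
          rw [chi_zpow]
          exact mul_ne_zero (mul_ne_zero hN hM) hu
      rw [e]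
      exact hD₂
  obtain ⟨u₀, hu₀v, -, hu₀⟩ := hedge v₀ w₀ h₀
  -- the start
  obtain ⟨v₁, P', hP', hD⟩ : ∃ (v₁ : V) (P' : Subgroup (MT φ)), Par Ps P' ∧ DD φ v₁ P' := by
    by_cases hall : ∃ v : V, fst φ v ≠ ⊥
    · obtain ⟨v, hv⟩ := hall
      obtain ⟨P', h3, h4⟩ := h1 v hv
      exact ⟨v, P', h3, h4⟩
    · push Not at hall
      obtain ⟨f, hf⟩ := hF
      have h3 : ∀ v, ∀ (w : V), T.Reachable v w → ∀ u : MT φ, u • v = v → chi φ u ≠ 0 →
          ∃ N : ℤ, N ≠ 0 ∧ (u ^ N) • w = w := by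
        intro v w hvw
        obtain ⟨p⟩ := hvw
        induction p with
        | nil => exact fun u hu _ => ⟨1, one_ne_zero, by rw [zpow_one]; exact hu⟩
        | cons hadj p ih =>
          intro u huv hu
          obtain ⟨k, hk1, hk2, hk⟩ := hedge _ _ hadj
          obtain ⟨m, hm, hmk⟩ := diff_mem huv hk1
          rw [hall, Subgroup.mem_bot] at hm
          rw [hm, map_one, one_mul] at hmk
          obtain ⟨N, hN, hN'⟩ := ih (u ^ (chi φ k)) (by rw [hmk]; exact stab_zpow hk2 _) (by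
            rw [chi_zpow]; exact mul_ne_zero hk hu)
          refine ⟨chi φ k * N, mul_ne_zero hk hN, ?_⟩
          rw [zpow_mul]
          exact hN'
      obtain ⟨N, hN, hN'⟩ := h3 v₀ ((SemidirectProduct.inl f : MT φ) • v₀)
        (hT.connected _ _) u₀ hu₀v hu₀
      have hcomm : Commute (SemidirectProduct.inl f : MT φ) (u₀ ^ N) := by
        let c : MT φ := (SemidirectProduct.inl f : MT φ)⁻¹ * u₀ ^ N * SemidirectProduct.inl f
        have hcv : c • v₀ = v₀ := by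
          show ((SemidirectProduct.inl f : MT φ)⁻¹ * u₀ ^ N * SemidirectProduct.inl f) • v₀ = v₀
          rw [mul_smul, mul_smul, hN', inv_smul_smul]
        have hcc : chi φ (c * (u₀ ^ N)⁻¹) = 0 := by
          show chi φ ((SemidirectProduct.inl f : MT φ)⁻¹ * u₀ ^ N * SemidirectProduct.inl f *
            (u₀ ^ N)⁻¹) = 0
          rw [chi_mul, chi_mul, chi_mul, chi_inv, chi_inv, chi_inl]
          ring
        have h4 := inl_of_chi φ hcc
        have h5 : (c * (u₀ ^ N)⁻¹).left ∈ fst φ v₀ := by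
          rw [mem_fst, ← h4, mul_smul]
          have : (u₀ ^ N)⁻¹ • v₀ = v₀ := by rw [inv_smul_eq_iff, stab_zpow hu₀v]
          rw [this, hcv]
        rw [hall, Subgroup.mem_bot] at h5
        rw [h5, map_one, mul_inv_eq_one] at h4
        have h6 : (SemidirectProduct.inl f : MT φ)⁻¹ * u₀ ^ N * SemidirectProduct.inl f = u₀ ^ N := h4
        show (SemidirectProduct.inl f : MT φ) * u₀ ^ N = u₀ ^ N * SemidirectProduct.inl f
        conv_lhs => rw [← h6]
        group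
      have hchN : chi φ (u₀ ^ N) ≠ 0 := by rw [chi_zpow]; exact mul_ne_zero hN hu₀
      obtain ⟨P', hP', -, huP⟩ := hpar _ _ hcomm (hind f _ hf hchN)
      refine ⟨v₀, P', hP', ?_, ?_⟩
      · intro x hx
        rw [hall, Subgroup.mem_bot] at hx
        rw [hx, map_one]
        exact P'.one_mem
      · intro k hkv hk
        obtain ⟨m, hm, hmk⟩ := diff_mem hkv (stab_zpow hu₀v N)
        rw [hall, Subgroup.mem_bot] at hm
        rw [hm, map_one, one_mul] at hmk
        exact ⟨chi φ (u₀ ^ N), hchN, by rw [hmk]; exact P'.zpow_mem huP _⟩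
  have h3 : ∀ v : V, DD φ v P' := by
    intro v
    obtain ⟨p⟩ := hT.connected v₁ v
    clear h₀ w₀
    induction p with
    | nil => exact hD
    | cons h p ih => exact ih (h2 _ _ h P' hP' hD)
  have h4 : ∀ γ : MT φ, γ ∈ P' := by
    intro γ
    obtain ⟨N, hN, hN'⟩ := (h3 v₀).2 u₀ hu₀v hu₀
    obtain ⟨M, hM, hM'⟩ := (h3 (γ • v₀)).2 (γ * u₀ * γ⁻¹) (by
      rw [mul_smul, inv_smul_smul, mul_smul, hu₀v]) (by
      rw [chi_mul, chi_mul, chi_inv]
      have : chi φ γ + chi φ u₀ + -chi φ γ = chi φ u₀ := by ring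
      rw [this]
      exact hu₀)
    apply hP'.mem hmal (y := u₀ ^ (N * M))
    · rw [zpow_mul]; exact P'.zpow_mem hN' _
    · rw [← conj_zpow, mul_comm, zpow_mul]; exact P'.zpow_mem hM' _
    · apply ord_chi
      rw [chi_zpow]
      exact mul_ne_zero (mul_ne_zero hN hM) hu₀
  obtain ⟨P, hP, g, hg⟩ := hP'
  apply hprop P hP
  rw [Subgroup.eq_top_iff']
  intro x
  have h5 := (hg (g⁻¹ * x * g)).mp (h4 _)
  have e : g * (g⁻¹ * x * g) * g⁻¹ = x := by group
  rwa [e] at h5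

end

end Run7.h574
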