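import Pool.Agent.Run7.h574.Transfer

/-!
# Ping-pong for two vertex stabilizers of a tree
-/

set_option autoImplicit false
set_option linter.unusedSectionVars false
set_option linter.dupNamespace false

namespace Run7.h574

section

variable {F M : Type} [Group F] [Group M] {A C : Subgroup F} (iA : A →* M) (iC : C →* M)

/-- reduced products -/
inductive Red : Bool → M → Prop
  | baseA (a : A) (h : (a : F) ∉ C) : Red true (iA a)
  | baseC (c : C) (h : (c : F) ∉ A) : Red false (iC c)
  | consA (a : A) (h : (a : F) ∉ C) (m : M) (hm : Red false m) : Red true (iA a * m)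
  | consC (c : C) (h : (c : F) ∉ A) (m : M) (hm : Red true m) : Red false (iC c * m)

variable (hac : ∀ l (hA : l ∈ A) (hC : l ∈ C), iA ⟨l, hA⟩ = iC ⟨l, hC⟩)

include hac in
lemma Red.absorb {b : Bool} {m : M} (hm : Red iA iC b m) (l : F) (hA : l ∈ A) (hC : l ∈ C) :
    Red iA iC b (iA ⟨l, hA⟩ * m) := by
  cases hm with
  | baseA a h =>
    rw [← map_mul]
    exact Red.baseA _ (fun h' => h ((Subgroup.mul_mem_cancel_left C hC).mp h'))
  | baseC c h =>
    rw [hac l hA hC, ← map_mul]
    exact Red.baseC _ (fun h' => h ((Subgroup.mul_mem_cancel_left A hA).mp h'))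
  | consA a h m' hm' =>
    rw [← mul_assoc, ← map_mul]
    exact Red.consA _ (fun h' => h ((Subgroup.mul_mem_cancel_left C hC).mp h')) m' hm'
  | consC c h m' hm' =>
    rw [hac l hA hC, ← mul_assoc, ← map_mul]
    exact Red.consC _ (fun h' => h ((Subgroup.mul_mem_cancel_left A hA).mp h')) m' hm'

/-- the elements of the base or given by reduced products -/
def NF (m : M) : Prop :=
  (∃ (l : F) (hA : l ∈ A) (_ : l ∈ C), m = iA ⟨l, hA⟩) ∨ ∃ b, Red iA iC b m

include hac in
lemma NF.mulA {m : M} (hm : NF iA iC m) (a : A) : NF iA iC (iA a * m) := by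
  have base : ∀ a' : A, NF iA iC (iA a') := by
    intro a'
    by_cases h : (a' : F) ∈ C
    · exact Or.inl ⟨a', a'.2, h, rfl⟩
    · exact Or.inr ⟨true, Red.baseA a' h⟩
  rcases hm with ⟨l, hA, hC, rfl⟩ | ⟨b, hm⟩
  · rw [← map_mul]
    exact base _
  · cases hm with
    | baseA a' h =>
      rw [← map_mul]
      exact base _
    | baseC c h =>
      by_cases h' : (a : F) ∈ C
      · exact Or.inr ⟨false, Red.absorb iA iC hac (Red.baseC c h) a a.2 h'⟩
      · exact Or.inr ⟨true, Red.consA a h' _ (Red.baseC c h)⟩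
    | consA a' h m' hm' =>
      rw [← mul_assoc, ← map_mul]
      by_cases h' : ((a * a' : A) : F) ∈ C
      · exact Or.inr ⟨false, Red.absorb iA iC hac hm' _ (a * a').2 h'⟩
      · exact Or.inr ⟨true, Red.consA _ h' _ hm'⟩
    | consC c h m' hm' =>
      by_cases h' : (a : F) ∈ C
      · exact Or.inr ⟨false, Red.absorb iA iC hac (Red.consC c h m' hm') a a.2 h'⟩
      · exact Or.inr ⟨true, Red.consA a h' _ (Red.consC c h m' hm')⟩

include hac in
lemma NF.mulC {m : M} (hm : NF iA iC m) (c : C) : NF iA iC (iC c * m) := by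
  have base : ∀ c' : C, NF iA iC (iC c') := by
    intro c'
    by_cases h : (c' : F) ∈ A
    · exact Or.inl ⟨c', h, c'.2, (hac c' h c'.2).symm⟩
    · exact Or.inr ⟨false, Red.baseC c' h⟩
  rcases hm with ⟨l, hA, hC, rfl⟩ | ⟨b, hm⟩
  · rw [hac l hA hC, ← map_mul]
    exact base _
  · cases hm with
    | baseC a' h =>
      rw [← map_mul]
      exact base _
    | baseA a h =>
      by_cases h' : (c : F) ∈ A
      · have h1 := Red.absorb iA iC hac (Red.baseA a h) c h' c.2
        rw [hac c h' c.2] at h1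
        exact Or.inr ⟨true, h1⟩
      · exact Or.inr ⟨false, Red.consC c h' _ (Red.baseA a h)⟩
    | consC c' h m' hm' =>
      rw [← mul_assoc, ← map_mul]
      by_cases h' : ((c * c' : C) : F) ∈ A
      · have h1 := Red.absorb iA iC hac hm' _ h' (c * c').2
        rw [hac _ h' (c * c').2] at h1
        exact Or.inr ⟨true, h1⟩
      · exact Or.inr ⟨false, Red.consC _ h' _ hm'⟩
    | consA a h m' hm' =>
      by_cases h' : (c : F) ∈ A
      · have h1 := Red.absorb iA iC hac (Red.consA a h m' hm') c h' c.2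
        rw [hac c h' c.2] at h1
        exact Or.inr ⟨true, h1⟩
      · exact Or.inr ⟨false, Red.consC c h' _ (Red.consA a h m' hm')⟩

include hac in
lemma NF.all (hgen : (⊤ : Subgroup M) = iA.range ⊔ iC.range) (m : M) : NF iA iC m := by
  have h1 : ∀ g : M, ∀ m, NF iA iC m → NF iA iC (g * m) := by
    intro g
    have hg : g ∈ iA.range ⊔ iC.range := hgen ▸ Subgroup.mem_top g
    rw [Subgroup.sup_eq_closure] at hg
    induction hg using Subgroup.closure_induction with
    | mem x hx =>
      rcases hx with ⟨a, rfl⟩ | ⟨c, rfl⟩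
      · exact fun m hm => hm.mulA iA iC hac a
      · exact fun m hm => hm.mulC iA iC hac c
    | one => intro m hm; rwa [one_mul]
    | mul x y _ _ hx hy => intro m hm; rw [mul_assoc]; exact hx _ (hy _ hm)
    | inv x hx' hx =>
      -- use generation by the inverses
      intro m hm
      have h2 : x⁻¹ ∈ Subgroup.closure ((iA.range : Set M) ∪ iC.range) := Subgroup.inv_mem _ hx'
      have h3 : ∀ y ∈ Submonoid.closure ((iA.range : Set M) ∪ iC.range), ∀ m, NF iA iC m →
          NF iA iC (y * m) := by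
        intro y hy
        induction hy using Submonoid.closure_induction with
        | mem x hx =>
          rcases hx with ⟨a, rfl⟩ | ⟨c, rfl⟩
          · exact fun m hm => hm.mulA iA iC hac a
          · exact fun m hm => hm.mulC iA iC hac c
        | one => intro m hm; rwa [one_mul]
        | mul x y _ _ hx hy => intro m hm; rw [mul_assoc]; exact hx _ (hy _ hm)
      have h4 : (((iA.range : Set M) ∪ iC.range) : Set M)⁻¹ = (iA.range : Set M) ∪ iC.range := by
        rw [Set.union_inv, inv_coe_set, inv_coe_set]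
      have h5 : x⁻¹ ∈ Submonoid.closure ((iA.range : Set M) ∪ iC.range) := by
        rw [← Subgroup.mem_toSubmonoid, Subgroup.closure_toSubmonoid, h4, Set.union_self] at h2
        exact h2
      exact h3 _ h5 m hm
  have h2 := h1 m 1 (Or.inl ⟨1, A.one_mem, C.one_mem, (map_one iA).symm⟩)
  rwa [mul_one] at h2

variable {X : Type} [MulAction F X] (π : M →* F) (hπA : ∀ a : A, π (iA a) = a)
  (hπC : ∀ c : C, π (iC c) = c) (U W : Set X) (v w : X)
  (hA : ∀ a ∈ A, a ∉ C → ∀ y ∈ W, a • y ∈ U) (hC : ∀ c ∈ C, c ∉ A → ∀ y ∈ U, c • y ∈ W)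
  (hAv : ∀ a ∈ A, a • v = v) (hCw : ∀ c ∈ C, c • w = w)

include hπA hπC hA hC hAv hCw in
lemma Red.act (hv : v ∈ U) (hw : w ∈ W) {b : Bool} {m : M} (hm : Red iA iC b m) :
    (π m • v ∈ (if b then U else W)) ∧ (π m • w ∈ (if b then U else W)) := by
  induction hm with
  | baseA a h =>
    rw [hπA, hAv a a.2]
    exact ⟨hv, hA a a.2 h w hw⟩
  | baseC c h =>
    rw [hπC, hCw c c.2]
    exact ⟨hC c c.2 h v hv, hw⟩
  | consA a h m' _ ih =>
    rw [map_mul, hπA, mul_smul, mul_smul]
    exact ⟨hA a a.2 h _ ih.1, hA a a.2 h _ ih.2⟩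
  | consC c h m' _ ih =>
    rw [map_mul, hπC, mul_smul, mul_smul]
    exact ⟨hC c c.2 h _ ih.1, hC c c.2 h _ ih.2⟩

include hac hπA hπC hA hC hAv hCw in
/-- **Ping-pong.** -/
theorem inj_of_pingpong (hgen : (⊤ : Subgroup M) = iA.range ⊔ iC.range) (hv : v ∈ U) (hw : w ∈ W)
    (hUW : Disjoint U W) : Function.Injective π := by
  rw [injective_iff_map_eq_one]
  intro m hm
  rcases NF.all iA iC hac hgen m with ⟨l, hlA, hlC, rfl⟩ | ⟨b, hb⟩
  · rw [hπA] at hm
    have : (⟨l, hlA⟩ : A) = 1 := Subtype.ext hm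
    rw [this, map_one]
  · exfalso
    have h1 := Red.act iA iC π hπA hπC U W v w hA hC hAv hCw hv hw hb
    rw [hm, one_smul, one_smul] at h1
    cases b with
    | true => exact Set.disjoint_left.mp hUW h1.2 hw
    | false => exact Set.disjoint_left.mp hUW hv h1.1

end

/-- ping-pong criterion for an amalgam -/
theorem amalgam_of_pingpong {F X : Type} [Group F] [MulAction F X] (A C : Subgroup F)
    (U W : Set X) (v w : X)
    (hA : ∀ a ∈ A, a ∉ C → ∀ y ∈ W, a • y ∈ U) (hC : ∀ c ∈ C, c ∉ A → ∀ y ∈ U, c • y ∈ W)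
    (hAv : ∀ a ∈ A, a • v = v) (hCw : ∀ c ∈ C, c • w = w) (hv : v ∈ U) (hw : w ∈ W)
    (hUW : Disjoint U W) : IsAmalgam A C := by
  let N : Subgroup (Monoid.Coprod A C) := Subgroup.normalClosure (amalgRel A C)
  let q : Monoid.Coprod A C →* Monoid.Coprod A C ⧸ N := QuotientGroup.mk' N
  let lf : Monoid.Coprod A C →* F := Monoid.Coprod.lift A.subtype C.subtype
  have hle : N ≤ lf.ker := by
    apply Subgroup.normalClosure_le_normal
    rintro _ ⟨l, hlA, hlC, rfl⟩
    rw [SetLike.mem_coe, MonoidHom.mem_ker, map_mul, map_inv, mul_inv_eq_one]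
    simp only [lf, Monoid.Coprod.lift_apply_inl, Monoid.Coprod.lift_apply_inr]
    rfl
  let π : Monoid.Coprod A C ⧸ N →* F := QuotientGroup.lift N lf hle
  have hinj : Function.Injective π := by
    apply inj_of_pingpong (q.comp Monoid.Coprod.inl) (q.comp Monoid.Coprod.inr) (A := A) (C := C)
      (π := π) (U := U) (W := W) (v := v) (w := w) _ _ _ hA hC hAv hCw _ hv hw hUW
    · intro l hlA hlC
      show q _ = q _
      rw [← mul_inv_eq_one, ← map_inv, ← map_mul]
      exact (QuotientGroup.eq_one_iff _).mpr (Subgroup.subset_normalClosure ⟨l, hlA, hlC, rfl⟩)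
    · intro a
      show lf (Monoid.Coprod.inl a) = a
      simp only [lf, Monoid.Coprod.lift_apply_inl]
      rfl
    · intro a
      show lf (Monoid.Coprod.inr a) = a
      simp only [lf, Monoid.Coprod.lift_apply_inr]
      rfl
    · rw [MonoidHom.range_comp, MonoidHom.range_comp, ← Subgroup.map_sup,
        Monoid.Coprod.range_inl_sup_range_inr, ← MonoidHom.range_eq_map]
      exact (MonoidHom.range_eq_top.mpr (QuotientGroup.mk'_surjective N)).symm
  apply le_antisymm
  · intro z hz
    have h1 : π (q z) = 1 := hz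
    have h2 : q z = 1 := hinj (h1.trans (map_one π).symm)
    exact (QuotientGroup.eq_one_iff _).mp h2
  · exact hle

section tree

variable {V : Type} {T : SimpleGraph V} (hT : T.IsTree)

include hT in
lemma near_unique {v w w' y : V} (h1 : T.Adj v w) (h2 : T.Adj v w') (h3 : T.dist y w < T.dist y v)
    (h4 : T.dist y w' < T.dist y v) : w = w' := by
  have key : ∀ w : V, T.Adj v w → T.dist y w < T.dist y v → ∃ p : T.Walk v y, p.IsPath ∧
      p.snd = w := by
    intro w h1 h3
    obtain ⟨q, hq⟩ := hT.connected.exists_walk_length_eq_dist w y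
    refine ⟨SimpleGraph.Walk.cons h1 q, ?_, by simp⟩
    apply SimpleGraph.Walk.isPath_of_length_eq_dist
    rw [SimpleGraph.Walk.length_cons, hq]
    have h5 := hT.dist_eq_dist_add_one_of_adj y h1
    rw [SimpleGraph.dist_comm (u := w), SimpleGraph.dist_comm (u := v)]
    omega
  obtain ⟨p, hp, hpw⟩ := key w h1 h3
  obtain ⟨q, hq, hqw⟩ := key w' h2 h4
  obtain ⟨r, -, hr⟩ := hT.existsUnique_path v y
  rw [← hpw, ← hqw, hr p hp, hr q hq]

variable {F : Type} [Group F] [MulAction F V]
  (hact : ∀ (g : F) (x y : V), T.Adj x y → T.Adj (g • x) (g • y))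

include hact in
lemma dist_smul_le (hT : T.IsTree) (g : F) (x y : V) : T.dist (g • x) (g • y) ≤ T.dist x y := by
  obtain ⟨q, hq⟩ := hT.connected.exists_walk_length_eq_dist x y
  let f : T →g T := ⟨fun z => g • z, fun {a b} h => hact g a b h⟩
  rw [← hq, ← SimpleGraph.Walk.length_map f q]
  exact SimpleGraph.dist_le _

include hact in
lemma dist_smul (hT : T.IsTree) (g : F) (x y : V) : T.dist (g • x) (g • y) = T.dist x y := by
  apply le_antisymm (dist_smul_le hact hT g x y)
  have h := dist_smul_le hact hT g⁻¹ (g • x) (g • y)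
  rwa [inv_smul_smul, inv_smul_smul] at h

include hact in
/-- the stabilizers of two adjacent vertices generate their amalgam -/
theorem amalgam_of_tree (hT : T.IsTree) {v w : V} (hvw : T.Adj v w) :
    IsAmalgam (MulAction.stabilizer F v) (MulAction.stabilizer F w) := by
  have key : ∀ v w : V, T.Adj v w → ∀ a : F, a • v = v → a • w ≠ w → ∀ y,
      T.dist y w < T.dist y v → T.dist (a • y) v < T.dist (a • y) w := by
    intro v w hvw a hav haw y hy
    have h1 : T.dist (a • y) (a • w) < T.dist (a • y) v := by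
      have e : T.dist (a • y) v = T.dist (a • y) (a • v) := by rw [hav]
      rw [e, dist_smul hact hT, dist_smul hact hT]
      exact hy
    have h2 : T.Adj v (a • w) := by
      have := hact a v w hvw
      rwa [hav] at this
    rcases hT.dist_eq_dist_add_one_of_adj (a • y) hvw with h | h
    · exfalso
      exact haw (near_unique hT h2 hvw h1 (by omega))
    · omega
  apply amalgam_of_pingpong (X := V) _ _ {y | T.dist y v < T.dist y w} {y | T.dist y w < T.dist y v}
    v w
  · intro a ha hac y hy
    exact key v w hvw a ha hac y hy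
  · intro a ha hac y hy
    exact key w v hvw.symm a ha hac y hy
  · intro a ha; exact ha
  · intro a ha; exact ha
  · show T.dist v v < T.dist v w
    rw [SimpleGraph.dist_self, SimpleGraph.dist_eq_one_iff_adj.mpr hvw]
    exact one_pos
  · show T.dist w w < T.dist w v
    rw [SimpleGraph.dist_self, SimpleGraph.dist_eq_one_iff_adj.mpr hvw.symm]
    exact one_pos
  · rw [Set.disjoint_left]
    intro y h1 h2
    rw [Set.mem_setOf_eq] at h1 h2
    omega

end tree

end Run7.h574
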