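import Pool.Agent.Run7.h574.Count

/-!
# Automorphisms of a free group of rank two acting on the homology of abelian covers
-/

set_option autoImplicit false
set_option linter.unusedSectionVars false
set_option linter.dupNamespace false

namespace Run7.h574

/-- An automorphism `θ` which acts trivially modulo `K` and moves `c` by conjugation by an element
of `K` preserves the homomorphisms `β - β ∘ conj v` on `K`, if all commutators are products of
conjugates of `c`. -/
theorem theta_inv {F : Type} [Group F] (K : Subgroup F) [K.Normal] (θ : MulAut F) (c g₀ : F)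
    (hc : c ∈ K) (hg₀ : g₀ ∈ K) (hθc : θ c = g₀ * c * g₀⁻¹) (hθ : ∀ x, θ x * x⁻¹ ∈ K)
    (hcomm : ∀ x y : F, x * y * x⁻¹ * y⁻¹ ∈ Subgroup.normalClosure ({c} : Set F))
    (β : F → ℤ) (hβ : HomOn K β) (g : F) (hg : g ∈ K) (v : F) :
    β (θ g) - β (v * θ g * v⁻¹) = β g - β (v * g * v⁻¹) := by
  have hK : ∀ g h : F, g ∈ K → h * g * h⁻¹ ∈ K := fun g h hg =>
    Subgroup.Normal.conj_mem inferInstance g hg h
  have hθK : ∀ g ∈ K, θ g ∈ K := by
    intro g hg
    have := K.mul_mem (hθ g) hg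
    rwa [inv_mul_cancel_right] at this
  -- invariance on the normal closure of `c`
  have key : ∀ z ∈ Subgroup.normalClosure ({c} : Set F), z ∈ K ∧ β (θ z) = β z := by
    intro z hz
    induction hz using Subgroup.closure_induction with
    | mem z hz =>
      rw [Group.mem_conjugatesOfSet_iff] at hz
      obtain ⟨c', hc', hz⟩ := hz
      have hc'' : c' = c := hc'
      subst hc''
      obtain ⟨y, hy⟩ := isConj_iff.mp hz
      refine ⟨hy ▸ hK _ _ hc, ?_⟩
      have h1 : θ y * g₀ * y⁻¹ ∈ K := by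
        have h2 := K.mul_mem (hθ y) (hK g₀ y hg₀)
        have h3 : θ y * y⁻¹ * (y * g₀ * y⁻¹) = θ y * g₀ * y⁻¹ := by group
        rwa [h3] at h2
      have h2 : θ z = (θ y * g₀ * y⁻¹) * z * (θ y * g₀ * y⁻¹)⁻¹ := by
        rw [← hy, map_mul, map_mul, map_inv, hθc]
        group
      rw [h2]
      exact hβ.conj h1 (hy ▸ hK _ _ hc)
    | one => exact ⟨K.one_mem, by rw [map_one]⟩
    | mul a b _ _ iha ihb =>
      refine ⟨K.mul_mem iha.1 ihb.1, ?_⟩
      rw [map_mul, hβ _ (hθK _ iha.1) _ (hθK _ ihb.1), hβ _ iha.1 _ ihb.1, iha.2, ihb.2]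
    | inv a _ iha =>
      refine ⟨K.inv_mem iha.1, ?_⟩
      rw [map_inv, hβ.inv (hθK _ iha.1), hβ.inv iha.1, iha.2]
  have h1 : ∀ h ∈ K, ∀ v, β (h * v * h⁻¹ * v⁻¹) = β h - β (v * h * v⁻¹) := by
    intro h hh v
    have e : h * v * h⁻¹ * v⁻¹ = h * (v * h * v⁻¹)⁻¹ := by group
    rw [e, hβ _ hh _ (K.inv_mem (hK _ _ hh)), hβ.inv (hK _ _ hh)]
    ring
  have h2 := (key _ (hcomm g v)).2
  rw [h1 g hg v, map_mul, map_mul, map_mul, map_inv, map_inv, h1 (θ g) (hθK g hg) (θ v)] at h2
  have h3 : θ v * θ g * (θ v)⁻¹ = (θ v * v⁻¹) * (v * θ g * v⁻¹) * (θ v * v⁻¹)⁻¹ := by group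
  have h4 : β (θ v * θ g * (θ v)⁻¹) = β (v * θ g * v⁻¹) := by
    rw [h3]
    exact hβ.conj (hθ v) (hK _ _ (hθK g hg))
  rw [h4] at h2
  exact h2

/-- the commutator of the basis -/
def cab : FreeGroup (Fin 2) :=
  FreeGroup.of 0 * FreeGroup.of 1 * (FreeGroup.of 0)⁻¹ * (FreeGroup.of 1)⁻¹

theorem comm_mem (x y : FreeGroup (Fin 2)) :
    x * y * x⁻¹ * y⁻¹ ∈ Subgroup.normalClosure ({cab} : Set (FreeGroup (Fin 2))) := by
  let N := Subgroup.normalClosure ({cab} : Set (FreeGroup (Fin 2)))
  let q : FreeGroup (Fin 2) →* FreeGroup (Fin 2) ⧸ N := QuotientGroup.mk' N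
  have h01 : Commute (q (FreeGroup.of 0)) (q (FreeGroup.of 1)) := by
    have h1 : q cab = 1 := (QuotientGroup.eq_one_iff _).mpr
      (Subgroup.subset_normalClosure rfl)
    unfold cab at h1
    rw [map_mul, map_mul, map_mul, map_inv, map_inv, mul_inv_eq_one, mul_inv_eq_iff_eq_mul] at h1
    exact h1
  have hgen : ∀ j k : Fin 2, Commute (q (FreeGroup.of j)) (q (FreeGroup.of k)) := by
    intro j k
    fin_cases j <;> fin_cases k
    · exact Commute.refl _
    · exact h01
    · exact h01.symm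
    · exact Commute.refl _
  have h1 : ∀ (j : Fin 2) (y : FreeGroup (Fin 2)), Commute (q (FreeGroup.of j)) (q y) := by
    intro j y
    induction y using FreeGroup.induction_on with
    | C1 => rw [map_one]; exact Commute.one_right _
    | of k => exact hgen j k
    | inv_of k ih => rw [map_inv]; exact ih.inv_right
    | mul a b ha hb => rw [map_mul]; exact ha.mul_right hb
  have h2 : ∀ x : FreeGroup (Fin 2), Commute (q x) (q y) := by
    intro x
    induction x using FreeGroup.induction_on with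
    | C1 => rw [map_one]; exact Commute.one_left _
    | of k => exact h1 k y
    | inv_of k ih => rw [map_inv]; exact ih.inv_left
    | mul a b ha hb => rw [map_mul]; exact ha.mul_left hb
  have h3 : q (x * y * x⁻¹ * y⁻¹) = 1 := by
    rw [map_mul, map_mul, map_mul, map_inv, map_inv, (h2 x).eq]
    group
  exact (QuotientGroup.eq_one_iff _).mp h3

/-- the abelianization -/
def ab : FreeGroup (Fin 2) →* Multiplicative (Fin 2 → ℤ) :=
  FreeGroup.lift (fun j => Multiplicative.ofAdd (Pi.single j 1))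

/-- the abelianization as a vector -/
def av (x : FreeGroup (Fin 2)) : Fin 2 → ℤ := Multiplicative.toAdd (ab x)

lemma av_mul (x y : FreeGroup (Fin 2)) : av (x * y) = av x + av y := by
  unfold av; rw [map_mul]; rfl

lemma av_one : av 1 = 0 := by unfold av; rw [map_one]; rfl

lemma av_inv (x : FreeGroup (Fin 2)) : av x⁻¹ = - av x := by
  unfold av; rw [map_inv]; rfl

lemma av_of (j : Fin 2) : av (FreeGroup.of j) = Pi.single j 1 := by
  unfold av ab; rw [FreeGroup.lift_apply_of]; rfl

lemma av_expo (i : Fin 2) (x : FreeGroup (Fin 2)) : Multiplicative.toAdd (expo i x) = av x i := by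
  let p : Multiplicative (Fin 2 → ℤ) →* Multiplicative ℤ :=
    AddMonoidHom.toMultiplicative (Pi.evalAddMonoidHom (fun _ : Fin 2 => ℤ) i)
  have h : expo i = p.comp ab := by
    ext j
    show Multiplicative.toAdd (expo i (FreeGroup.of j)) =
      (Multiplicative.toAdd (ab (FreeGroup.of j)) : Fin 2 → ℤ) i
    unfold expo ab
    rw [FreeGroup.lift_apply_of, FreeGroup.lift_apply_of]
    show _ = (Pi.single j (1 : ℤ) : Fin 2 → ℤ) i
    by_cases h : j = i
    · subst h
      rw [if_pos rfl, Pi.single_eq_same]; rfl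
    · rw [if_neg h, Pi.single_eq_of_ne (fun h' => h h'.symm)]; rfl
  rw [h]
  rfl

/-- the matrix of an automorphism -/
def mat (ψ : MulAut (FreeGroup (Fin 2))) : Matrix (Fin 2) (Fin 2) ℤ :=
  Matrix.of (fun i j => av (ψ (FreeGroup.of j)) i)

lemma av_apply (ψ : MulAut (FreeGroup (Fin 2))) (x : FreeGroup (Fin 2)) :
    av (ψ x) = (mat ψ).mulVec (av x) := by
  let f : FreeGroup (Fin 2) →* Multiplicative (Fin 2 → ℤ) := ab.comp ψ.toMonoidHom
  let g : FreeGroup (Fin 2) →* Multiplicative (Fin 2 → ℤ) :=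
    (AddMonoidHom.toMultiplicative (Matrix.mulVecLin (mat ψ)).toAddMonoidHom).comp ab
  have h : f = g := by
    apply FreeGroup.ext_hom
    intro j
    show Multiplicative.ofAdd (av (ψ (FreeGroup.of j))) =
      Multiplicative.ofAdd ((mat ψ).mulVec (av (FreeGroup.of j)))
    congr 1
    rw [av_of, Matrix.mulVec_single_one]
    rfl
  have h1 := DFunLike.congr_fun h x
  exact congrArg Multiplicative.toAdd h1

lemma mat_mul (ψ ψ' : MulAut (FreeGroup (Fin 2))) : mat (ψ * ψ') = mat ψ * mat ψ' := by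
  ext i j
  show av ((ψ * ψ') (FreeGroup.of j)) i = _
  rw [MulAut.mul_apply, av_apply]
  rfl

lemma mat_one : mat 1 = 1 := by
  ext i j
  show av (FreeGroup.of j) i = _
  rw [av_of, Matrix.one_apply, Pi.single_apply]

lemma mat_pow (ψ : MulAut (FreeGroup (Fin 2))) (k : ℕ) : mat (ψ ^ k) = (mat ψ) ^ k := by
  induction k with
  | zero => rw [pow_zero, pow_zero, mat_one]
  | succ k ih => rw [pow_succ, pow_succ, mat_mul, ih]

lemma mat_det (ψ : MulAut (FreeGroup (Fin 2))) : (mat ψ).det * (mat ψ).det = 1 := by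
  have h1 : mat ψ * mat ψ⁻¹ = 1 := by rw [← mat_mul, mul_inv_cancel, mat_one]
  have h2 := congrArg Matrix.det h1
  rw [Matrix.det_mul, Matrix.det_one] at h2
  rcases Int.eq_one_or_neg_one_of_mul_eq_one h2 with h | h <;> rw [h] <;> norm_num

end Run7.h574
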