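import Pool.Agent.Run7.h574.RankTwoA
import Pool.Agent.Run7.h574.Amalg
import Pool.Agent.H528.MCG.Nielsen

/-!
# Congruences for a matrix of infinite order, and the commutator of the basis
-/

set_option autoImplicit false
set_option linter.unusedSectionVars false
set_option linter.dupNamespace false

namespace Run7.h574

/-- **Nielsen.** An automorphism maps the commutator of the basis to a conjugate of the commutator
or its inverse. -/
theorem cab_conj (ψ : MulAut (FreeGroup (Fin 2))) :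
    ∃ g : FreeGroup (Fin 2), ψ cab = g * cab * g⁻¹ ∨ ψ cab = g * cab⁻¹ * g⁻¹ := by
  let N : Subgroup (MulAut (FreeGroup (Fin 2))) :=
    { carrier := {ψ | ∃ g : FreeGroup (Fin 2), ψ cab = g * cab * g⁻¹ ∨ ψ cab = g * cab⁻¹ * g⁻¹}
      mul_mem' := by
        rintro ψ ψ' ⟨g, hg⟩ ⟨g', hg'⟩
        refine ⟨ψ g' * g, ?_⟩
        rw [MulAut.mul_apply]
        rcases hg with hg | hg <;> rcases hg' with hg' | hg' <;>
          rw [hg', map_mul, map_mul, map_inv]
        · left; rw [hg]; group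
        · right; rw [map_inv, hg]; group
        · right; rw [hg]; group
        · left; rw [map_inv, hg]; group
      one_mem' := ⟨1, Or.inl (by simp)⟩
      inv_mem' := by
        rintro ψ ⟨g, hg⟩
        refine ⟨(ψ⁻¹ g)⁻¹, ?_⟩
        rcases hg with hg | hg
        · left
          have h1 : cab = ψ⁻¹ g * ψ⁻¹ cab * (ψ⁻¹ g)⁻¹ := by
            have : ψ⁻¹ (ψ cab) = cab := MulAut.inv_apply_self _ _ _
            rw [hg, map_mul, map_mul, map_inv] at this
            exact this.symm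
          conv_rhs => rw [h1]
          group
        · right
          have h1 : cab = ψ⁻¹ g * (ψ⁻¹ cab)⁻¹ * (ψ⁻¹ g)⁻¹ := by
            have : ψ⁻¹ (ψ cab) = cab := MulAut.inv_apply_self _ _ _
            rw [hg, map_mul, map_mul, map_inv, map_inv] at this
            exact this.symm
          conv_rhs => rw [h1]
          group }
  -- the elementary automorphisms
  let mk : ∀ (f g : FreeGroup (Fin 2) →* FreeGroup (Fin 2)), f.comp g = MonoidHom.id _ →
      g.comp f = MonoidHom.id _ → MulAut (FreeGroup (Fin 2)) :=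
    fun f g h1 h2 => MonoidHom.toMulEquiv f g h2 h1
  let s : FreeGroup (Fin 2) →* FreeGroup (Fin 2) := FreeGroup.lift ![FreeGroup.of 1, FreeGroup.of 0]
  let ε : FreeGroup (Fin 2) →* FreeGroup (Fin 2) := FreeGroup.lift ![(FreeGroup.of 0)⁻¹, FreeGroup.of 1]
  let μ : FreeGroup (Fin 2) →* FreeGroup (Fin 2) := FreeGroup.lift ![FreeGroup.of 0 * FreeGroup.of 1, FreeGroup.of 1]
  let μ' : FreeGroup (Fin 2) →* FreeGroup (Fin 2) := FreeGroup.lift ![FreeGroup.of 0 * (FreeGroup.of 1)⁻¹, FreeGroup.of 1]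
  have hs : s.comp s = MonoidHom.id _ := by
    ext j; fin_cases j <;> simp [s]
  have hε : ε.comp ε = MonoidHom.id _ := by
    ext j; fin_cases j <;> simp [ε]
  have hμ : μ.comp μ' = MonoidHom.id _ := by
    ext j; fin_cases j <;> simp [μ, μ']
  have hμ' : μ'.comp μ = MonoidHom.id _ := by
    ext j; fin_cases j <;> simp [μ, μ']
  have hN : N = ⊤ := by
    apply Pool.Agent.H528.Nielsen.nielsen N (σ := mk s s hs hs) (ε := mk ε ε hε hε)
      (μ := mk μ μ' hμ hμ')
    · refine ⟨1, Or.inr ?_⟩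
      show s cab = _
      simp only [cab, s, map_mul, map_inv, FreeGroup.lift_apply_of]
      show FreeGroup.of 1 * FreeGroup.of 0 * (FreeGroup.of 1)⁻¹ * (FreeGroup.of 0)⁻¹ = _
      group
    · refine ⟨(FreeGroup.of 0)⁻¹, Or.inr ?_⟩
      show ε cab = _
      simp only [cab, ε, map_mul, map_inv, FreeGroup.lift_apply_of]
      show (FreeGroup.of 0)⁻¹ * FreeGroup.of 1 * ((FreeGroup.of 0)⁻¹)⁻¹ * (FreeGroup.of 1)⁻¹ = _
      group
    · refine ⟨1, Or.inl ?_⟩
      show μ cab = _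
      simp only [cab, μ, map_mul, map_inv, FreeGroup.lift_apply_of]
      show FreeGroup.of 0 * FreeGroup.of 1 * FreeGroup.of 1 * (FreeGroup.of 0 * FreeGroup.of 1)⁻¹ * (FreeGroup.of 1)⁻¹ = _
      group
    · intro g
      exact ⟨g, Or.inl (MulAut.conj_apply _ _)⟩
    · show s (FreeGroup.of 0) = FreeGroup.of 1; simp [s]
    · show s (FreeGroup.of 1) = FreeGroup.of 0; simp [s]
    · show ε (FreeGroup.of 0) = (FreeGroup.of 0)⁻¹; simp [ε]
    · show ε (FreeGroup.of 1) = FreeGroup.of 1; simp [ε]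
    · show μ (FreeGroup.of 0) = FreeGroup.of 0 * FreeGroup.of 1; simp [μ]
    · show μ (FreeGroup.of 1) = FreeGroup.of 1; simp [μ]
  have h : ψ ∈ N := by rw [hN]; trivial
  exact h

theorem cab_conj_sq (ψ : MulAut (FreeGroup (Fin 2))) :
    ∃ g : FreeGroup (Fin 2), (ψ ^ 2) cab = g * cab * g⁻¹ := by
  obtain ⟨g, hg | hg⟩ := cab_conj ψ
  · refine ⟨ψ g * g, ?_⟩
    rw [pow_two, MulAut.mul_apply, hg, map_mul, map_mul, map_inv, hg]
    group
  · refine ⟨ψ g * g, ?_⟩
    rw [pow_two, MulAut.mul_apply, hg, map_mul, map_mul, map_inv, map_inv, hg]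
    group

section matrices

open Matrix

lemma det_sub_one (N : Matrix (Fin 2) (Fin 2) ℤ) (hN : N.det = 1) (h : (N - 1) ^ 2 ≠ 0) :
    (N - 1).det ≠ 0 := by
  intro h0
  apply h
  rw [Matrix.det_fin_two] at hN h0
  simp only [Matrix.sub_apply, Matrix.one_apply_eq, ne_eq, Fin.isValue, zero_ne_one,
    not_false_eq_true, Matrix.one_apply_ne, one_ne_zero, sub_zero] at h0
  have ht : N 0 0 + N 1 1 = 2 := by linarith
  ext i j
  rw [pow_two, Matrix.mul_apply, Fin.sum_univ_two]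
  fin_cases i <;> fin_cases j <;>
    simp only [Matrix.sub_apply, Matrix.one_apply_eq, ne_eq, Fin.isValue, zero_ne_one,
      not_false_eq_true, Matrix.one_apply_ne, one_ne_zero, sub_zero, Matrix.zero_apply,
      Fin.zero_eta, Fin.mk_one]
  · linear_combination (N 0 0) * ht - hN
  · linear_combination (N 0 1) * ht
  · linear_combination (N 1 0) * ht
  · linear_combination (N 1 1) * ht - hN

/-- congruence levels -/
theorem exists_level (N : Matrix (Fin 2) (Fin 2) ℤ) (hN : N.det = 1)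
    (h : ∀ k : ℕ, 0 < k → (N ^ k - 1) ^ 2 ≠ 0) (B : ℕ) :
    ∃ p e k : ℕ, p.Prime ∧ B < p ∧ 0 < e ∧ 0 < k ∧ ¬ ((p : ℤ) ∣ (N - 1).det) ∧
      (∀ i j, ((p : ℤ) ^ e) ∣ (N ^ k - 1) i j) ∧
      ¬ (∀ i j, ((p : ℤ) ^ (e + 1)) ∣ (N ^ k - 1) i j) := by
  classical
  have hD : (N - 1).det ≠ 0 := det_sub_one N hN (by simpa using h 1 one_pos)
  obtain ⟨p, hpB, hp⟩ := Nat.exists_infinite_primes (B + (N - 1).det.natAbs + 1)
  have : Fact p.Prime := ⟨hp⟩
  -- the order modulo p
  let r : ℤ →+* ZMod p := Int.castRingHom (ZMod p)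
  obtain ⟨k, hk, hk'⟩ : ∃ k : ℕ, 0 < k ∧ (r.mapMatrix N) ^ k = 1 := by
    have hu : IsUnit (r.mapMatrix N) := by
      rw [Matrix.isUnit_iff_isUnit_det, ← RingHom.map_det, hN, map_one]
      exact isUnit_one
    obtain ⟨u, hu⟩ := hu
    have hfin : Finite (Matrix (Fin 2) (Fin 2) (ZMod p))ˣ := inferInstance
    obtain ⟨k, hk, hk'⟩ := (isOfFinOrder_of_finite u).exists_pow_eq_one
    refine ⟨k, hk, ?_⟩
    rw [← hu]
    have := congrArg Units.val hk'
    simpa using this
  have hdiv : ∀ i j, (p : ℤ) ∣ (N ^ k - 1) i j := by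
    intro i j
    have h1 : r.mapMatrix (N ^ k - 1) = 0 := by rw [map_sub, map_pow, hk', map_one, sub_self]
    have h2 := congrFun (congrFun h1 i) j
    have h3 : (((N ^ k - 1) i j : ℤ) : ZMod p) = 0 := h2
    rwa [ZMod.intCast_zmod_eq_zero_iff_dvd] at h3
  -- a nonzero entry
  obtain ⟨i₀, j₀, h₀⟩ : ∃ i j, (N ^ k - 1) i j ≠ 0 := by
    by_contra hcon
    push Not at hcon
    apply h k hk
    have : N ^ k - 1 = 0 := by ext i j; exact hcon i j
    rw [this]
    simp
  have hbig : ∃ E : ℕ, ¬ (∀ i j, ((p : ℤ) ^ E) ∣ (N ^ k - 1) i j) := by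
    refine ⟨((N ^ k - 1) i₀ j₀).natAbs, fun hall => ?_⟩
    have h1 := hall i₀ j₀
    have h2 : p ^ ((N ^ k - 1) i₀ j₀).natAbs ∣ ((N ^ k - 1) i₀ j₀).natAbs := by
      have h3 := Int.natAbs_dvd_natAbs.mpr h1
      rwa [Int.natAbs_pow, Int.natAbs_natCast] at h3
    have h3 := Nat.le_of_dvd (Int.natAbs_pos.mpr h₀) h2
    have h4 : ((N ^ k - 1) i₀ j₀).natAbs < p ^ ((N ^ k - 1) i₀ j₀).natAbs :=
      Nat.lt_pow_self hp.one_lt
    omega
  let E := Nat.find hbig
  have hE : ¬ (∀ i j, ((p : ℤ) ^ E) ∣ (N ^ k - 1) i j) := Nat.find_spec hbig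
  have hE2 : 2 ≤ E := by
    by_contra hlt
    have : E = 0 ∨ E = 1 := by omega
    apply hE
    intro i j
    rcases this with h | h
    · rw [h, pow_zero]; exact one_dvd _
    · rw [h, pow_one]; exact hdiv i j
  refine ⟨p, E - 1, k, hp, by omega, by omega, hk, ?_, ?_, ?_⟩
  · intro hpd
    have h1 : p ∣ (N - 1).det.natAbs := Int.natCast_dvd.mp hpd
    have h2 := Nat.le_of_dvd (Int.natAbs_pos.mpr hD) h1
    omega
  · have := Nat.find_min hbig (m := E - 1) (by omega)
    exact not_not.mp this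
  · have : E - 1 + 1 = E := by omega
    rw [this]
    exact hE

end matrices

end Run7.h574
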