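import Pool.Agent.Run7.h574.RankTwoB

/-!
# Mapping tori of automorphisms of a free group of rank two have enough virtual homomorphisms
-/

set_option autoImplicit false
set_option linter.unusedSectionVars false
set_option linter.dupNamespace false

namespace Run7.h574

/-- the free group of rank two -/
abbrev F2 : Type := FreeGroup (Fin 2)

/-- reduction of the abelianization -/
def rd (m : ℕ) : F2 →* Multiplicative (Fin 2 → ZMod m) where
  toFun x := Multiplicative.ofAdd (fun i => ((av x i : ℤ) : ZMod m))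
  map_one' := by
    rw [av_one]
    show Multiplicative.ofAdd (fun i : Fin 2 => (((0 : Fin 2 → ℤ) i : ℤ) : ZMod m)) = 1
    simp
    rfl
  map_mul' x y := by
    rw [av_mul]
    show Multiplicative.ofAdd (fun i : Fin 2 => (((av x + av y) i : ℤ) : ZMod m)) = _
    rw [← ofAdd_add]
    congr 1
    funext i
    simp

lemma rd_eq_one {m : ℕ} {x : F2} : rd m x = 1 ↔ ∀ i, (m : ℤ) ∣ av x i := by
  have h1 : rd m x = 1 ↔ ∀ i, ((av x i : ℤ) : ZMod m) = 0 := by
    constructor
    · intro h i
      exact congrFun (congrArg Multiplicative.toAdd h) i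
    · intro h
      apply Multiplicative.toAdd.injective
      funext i
      exact h i
  rw [h1]
  exact forall_congr' fun i => ZMod.intCast_zmod_eq_zero_iff_dvd _ _

lemma rd_eq {m : ℕ} {x y : F2} (h : rd m (x * y⁻¹) = 1) : rd m x = rd m y := by
  rwa [map_mul, map_inv, mul_inv_eq_one] at h

lemma rd_surj (m : ℕ) : Function.Surjective (rd m) := by
  intro q
  choose z hz using fun i : Fin 2 => ZMod.intCast_surjective ((Multiplicative.toAdd q) i)
  refine ⟨FreeGroup.of 0 ^ (z 0) * FreeGroup.of 1 ^ (z 1), ?_⟩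
  apply Multiplicative.toAdd.injective
  funext i
  have h1 : av (FreeGroup.of 0 ^ (z 0) * FreeGroup.of 1 ^ (z 1)) = z := by
    have hzp : ∀ (g : F2) (n : ℤ), av (g ^ n) = n • av g := by
      intro g n
      unfold av
      rw [map_zpow, toAdd_zpow]
    rw [av_mul, hzp, hzp, av_of, av_of]
    funext i
    fin_cases i <;> simp
  show ((av (FreeGroup.of 0 ^ (z 0) * FreeGroup.of 1 ^ (z 1)) i : ℤ) : ZMod m) = _
  rw [h1, hz]

/-- the setting: a level and a power of the automorphism which acts trivially modulo the level -/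
structure Level (ψ : MulAut F2) where
  m : ℕ
  hm : NeZero m
  l : ℕ
  hl : 0 < l
  triv : ∀ x, rd m ((ψ ^ l) x * x⁻¹) = 1
  g : F2
  hg : rd m g = 1
  hcab : (ψ ^ l) cab = g * cab * g⁻¹

attribute [instance] Level.hm

section

variable {ψ : MulAut F2} (D : Level ψ)

instance : DecidableEq (Multiplicative (Fin 2 → ZMod D.m)) :=
  inferInstanceAs (DecidableEq (Fin 2 → ZMod D.m))

instance : Fintype (Multiplicative (Fin 2 → ZMod D.m)) :=
  inferInstanceAs (Fintype (Fin 2 → ZMod D.m))

/-- the kernel -/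
abbrev Level.K : Subgroup F2 := (rd D.m).ker

lemma Level.homOn (i : Fin 2) : HomOn D.K (fun x => cnt (rd D.m) i x 1) := by
  intro a ha b _
  exact cnt_ker (rd D.m) i ha 1

/-- the difference of two counts -/
def Level.bt (i : Fin 2) (q : Multiplicative (Fin 2 → ZMod D.m)) (x : F2) : ℤ :=
  cnt (rd D.m) i x 1 - cnt (rd D.m) i x q

lemma Level.bt_hom (i : Fin 2) (q) : HomOn D.K (D.bt i q) := by
  intro a ha b _
  unfold Level.bt
  rw [cnt_ker (rd D.m) i ha, cnt_ker (rd D.m) i ha]
  ring

lemma Level.bt_inv (i : Fin 2) (q) (x : F2) (hx : x ∈ D.K) :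
    D.bt i q ((ψ ^ D.l) x) = D.bt i q x := by
  obtain ⟨v, rfl⟩ := rd_surj D.m q
  have hcabK : cab ∈ D.K := by
    show rd D.m cab = 1
    unfold cab
    rw [map_mul, map_mul, map_mul, map_inv, map_inv, mul_comm (rd D.m (FreeGroup.of 0))]
    group
  have h1 := theta_inv D.K (ψ ^ D.l) cab D.g hcabK D.hg D.hcab D.triv comm_mem
    (fun x => cnt (rd D.m) i x 1) (D.homOn i) x hx v
  have hx' : rd D.m ((ψ ^ D.l) x) = 1 := by
    rw [rd_eq (D.triv x)]
    exact hx
  beta_reduce at h1
  rw [cnt_conj (rd D.m) i hx', cnt_conj (rd D.m) i hx, one_mul] at h1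
  exact h1

lemma Level.rd_zpow (n : ℤ) (x : F2) : rd D.m (((ψ ^ D.l) ^ n) x) = rd D.m x := by
  revert x
  induction n using Int.induction_on with
  | zero => intro x; rfl
  | succ k ih =>
    intro x
    rw [zpow_add_one, MulAut.mul_apply, ih, rd_eq (D.triv x)]
  | pred k ih =>
    intro x
    rw [zpow_sub_one, MulAut.mul_apply, ih]
    have h1 := rd_eq (D.triv ((ψ ^ D.l)⁻¹ x))
    rw [MulAut.apply_inv_self] at h1
    exact h1.symm

lemma Level.bt_zpow (i : Fin 2) (q) (n : ℤ) (x : F2) (hx : x ∈ D.K) :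
    D.bt i q (((ψ ^ D.l) ^ n) x) = D.bt i q x := by
  revert x
  induction n using Int.induction_on with
  | zero => intro x _; rfl
  | succ k ih =>
    intro x hx
    rw [zpow_add_one, MulAut.mul_apply, ih _ (by
      show rd D.m ((ψ ^ D.l) x) = 1
      rw [rd_eq (D.triv x)]; exact hx), D.bt_inv i q x hx]
  | pred k ih =>
    intro x hx
    have hx' : (ψ ^ D.l)⁻¹ x ∈ D.K := by
      show rd D.m ((ψ ^ D.l)⁻¹ x) = 1
      have h1 := rd_eq (D.triv ((ψ ^ D.l)⁻¹ x))
      rw [MulAut.apply_inv_self] at h1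
      rw [← h1]; exact hx
    rw [zpow_sub_one, MulAut.mul_apply, ih _ hx']
    have h1 := D.bt_inv i q _ hx'
    rw [MulAut.apply_inv_self] at h1
    exact h1.symm

/-- the elements with exponent divisible by `l` -/
def Level.S : Subgroup (MT ψ) :=
  (Subgroup.zpowers (Multiplicative.ofAdd (D.l : ℤ))).comap SemidirectProduct.rightHom

lemma Level.mem_S (g : MT ψ) : g ∈ D.S ↔ (D.l : ℤ) ∣ chi ψ g := by
  unfold Level.S
  rw [Subgroup.mem_comap, Subgroup.mem_zpowers_iff]
  constructor
  · rintro ⟨k, hk⟩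
    refine ⟨k, ?_⟩
    have := congrArg Multiplicative.toAdd hk
    rw [toAdd_zpow, toAdd_ofAdd, smul_eq_mul] at this
    show Multiplicative.toAdd g.right = _
    rw [mul_comm]
    exact this.symm
  · rintro ⟨k, hk⟩
    refine ⟨k, ?_⟩
    apply Multiplicative.toAdd.injective
    rw [toAdd_zpow, toAdd_ofAdd, smul_eq_mul, mul_comm]
    exact hk.symm

lemma Level.S_fi : D.S.FiniteIndex := by
  have h1 : (Subgroup.zpowers (Multiplicative.ofAdd (D.l : ℤ))).FiniteIndex := by
    have hl := D.hl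
    have h2 : (AddSubgroup.zmultiples (D.l : ℤ)).index ≠ 0 := by
      rw [Int.index_zmultiples]
      simpa using hl.ne'
    constructor
    exact h2
  constructor
  unfold Level.S
  rw [Subgroup.index_comap]
  exact (inferInstance : ((Subgroup.zpowers (Multiplicative.ofAdd (D.l : ℤ))).subgroupOf
    (SemidirectProduct.rightHom : MT ψ →* Multiplicative ℤ).range).FiniteIndex).index_ne_zero

lemma Level.left_mul {g : MT ψ} (hg : g ∈ D.S) (h : MT ψ) :
    ∃ n : ℤ, (g * h).left = g.left * ((ψ ^ D.l) ^ n) h.left := by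
  obtain ⟨k, hk⟩ := (D.mem_S g).mp hg
  refine ⟨k, ?_⟩
  show g.left * (ψ ^ (chi ψ g)) h.left = _
  rw [hk, zpow_mul, zpow_natCast]

/-- reduction of the fibre coordinate -/
def Level.red : D.S →* Multiplicative (Fin 2 → ZMod D.m) where
  toFun g := rd D.m (g : MT ψ).left
  map_one' := by
    show rd D.m (1 : F2) = 1
    rw [map_one]
  map_mul' g h := by
    obtain ⟨n, hn⟩ := D.left_mul g.2 h
    show rd D.m ((g : MT ψ) * h).left = _
    rw [hn, map_mul, D.rd_zpow]

/-- the subgroup of finite index -/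
def Level.U : Subgroup (MT ψ) := D.red.ker.map D.S.subtype

lemma Level.mem_U (g : MT ψ) : g ∈ D.U ↔ (D.l : ℤ) ∣ chi ψ g ∧ rd D.m g.left = 1 := by
  unfold Level.U
  constructor
  · rintro ⟨⟨g', hg'⟩, h, rfl⟩
    exact ⟨(D.mem_S _).mp hg', h⟩
  · rintro ⟨h1, h2⟩
    exact ⟨⟨g, (D.mem_S _).mpr h1⟩, h2, rfl⟩

lemma Level.U_fi : D.U.FiniteIndex := by
  have h1 : D.red.ker.FiniteIndex := by
    have : Finite (Multiplicative (Fin 2 → ZMod D.m)) := Finite.of_fintype _
    infer_instance
  constructor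
  unfold Level.U
  rw [Subgroup.index_map_subtype]
  exact mul_ne_zero h1.index_ne_zero D.S_fi.index_ne_zero

lemma Level.U_hom (i : Fin 2) (q) : HomOn D.U (fun g => D.bt i q g.left) := by
  intro g hg h hh
  rw [D.mem_U] at hg hh
  obtain ⟨n, hn⟩ := D.left_mul ((D.mem_S g).mpr hg.1) h
  have h1 : rd D.m (((ψ ^ D.l) ^ n) h.left) = 1 := by rw [D.rd_zpow]; exact hh.2
  show D.bt i q (g * h).left = _
  rw [hn, D.bt_hom i q _ hg.2 _ h1, D.bt_zpow i q n _ hh.2]

/-- The relation between virtual homomorphisms implied by homological rigidity gives a congruence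
for the action on the abelianization. -/
theorem Level.congr (w x : F2) (hw : av w = 0) (hcard : 2 * w.toWord.length < D.m * D.m)
    (c₀ c₁ : ℚ)
    (H : ∀ f ∈ VF (MT ψ), c₀ * f (SemidirectProduct.inl w) + c₁ * f (SemidirectProduct.inl x *
      SemidirectProduct.inl w * (SemidirectProduct.inl x)⁻¹) =
      f (tt ψ) - f (SemidirectProduct.inl x * tt ψ * (SemidirectProduct.inl x)⁻¹)) (i : Fin 2) :
    ((D.m : ℤ) * D.m) ∣ av ((ψ ^ D.l) x * x⁻¹) i := by
  classical
  set π := rd D.m with hπ
  set δ : F2 := x * ((ψ ^ D.l) x)⁻¹ with hδ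
  have hδK : π δ = 1 := by
    have h1 : δ = ((ψ ^ D.l) x * x⁻¹)⁻¹ := by rw [hδ]; group
    rw [h1, map_inv, D.triv x, inv_one]
  have hwK : π w = 1 := by
    rw [hπ, rd_eq_one]
    intro i
    rw [hw]
    exact dvd_zero _
  have hl : (D.l : ℚ) ≠ 0 := by
    have := D.hl
    exact_mod_cast this.ne'
  -- the key identity
  have key : ∀ q, (cnt π i δ 1 : ℚ) + D.l * (c₀ * cnt π i w 1 + c₁ * cnt π i w (π x)) =
      cnt π i δ q + D.l * (c₀ * cnt π i w q + c₁ * cnt π i w (q * π x)) := by
    intro q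
    obtain ⟨f, hf, hf'⟩ := exists_vf D.U_fi (D.U_hom i q)
    have e1 : f (tt ψ) = 0 := by
      have h1 := hf' (tt ψ) (D.l : ℤ) (by
        rw [D.mem_U]
        rw [tt_zpow]
        exact ⟨dvd_refl _, map_one _⟩)
      have h2 : ((tt ψ) ^ (D.l : ℤ)).left = 1 := by rw [tt_zpow]; rfl
      rw [h2] at h1
      have h3 : D.bt i q 1 = 0 := (D.bt_hom i q).one
      rw [h3] at h1
      have h4 : ((D.l : ℤ) : ℚ) * f (tt ψ) = 0 := by rw [← h1]; norm_num
      exact (mul_eq_zero.mp h4).resolve_left (by exact_mod_cast hl)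
    have e2 : f (SemidirectProduct.inl w) = D.bt i q w := by
      have h1 := hf' (SemidirectProduct.inl w) 1 (by
        rw [zpow_one, D.mem_U]
        exact ⟨dvd_zero _, hwK⟩)
      rw [zpow_one] at h1
      rw [SemidirectProduct.left_inl] at h1
      rw [h1]
      norm_num
    have e3 : f (SemidirectProduct.inl x * SemidirectProduct.inl w *
        (SemidirectProduct.inl x)⁻¹) = D.bt i q (x * w * x⁻¹) := by
      have h0 : (SemidirectProduct.inl x * SemidirectProduct.inl w *
        (SemidirectProduct.inl x)⁻¹ : MT ψ) = SemidirectProduct.inl (x * w * x⁻¹) := by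
        rw [map_mul, map_mul, map_inv]
      rw [h0]
      have h1 := hf' (SemidirectProduct.inl (x * w * x⁻¹)) 1 (by
        rw [zpow_one, D.mem_U]
        refine ⟨dvd_zero _, ?_⟩
        show π (x * w * x⁻¹) = 1
        rw [map_mul, map_mul, hwK, map_inv]
        group)
      rw [zpow_one, SemidirectProduct.left_inl] at h1
      rw [h1]
      norm_num
    have e4 : (D.l : ℚ) * f (SemidirectProduct.inl x * tt ψ * (SemidirectProduct.inl x)⁻¹) =
        D.bt i q δ := by
      have h0 : (SemidirectProduct.inl x * tt ψ * (SemidirectProduct.inl x)⁻¹) ^ (D.l : ℤ) =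
          SemidirectProduct.inl δ * (tt ψ) ^ (D.l : ℤ) := by
        have h2 := tt_conj ψ (D.l : ℤ) x
        rw [zpow_natCast ψ] at h2
        rw [conj_zpow, hδ, map_mul, map_inv, ← h2]
        group
      have hleft : (SemidirectProduct.inl δ * (tt ψ) ^ (D.l : ℤ)).left = δ := by
        rw [tt_zpow]
        simp
      have h1 := hf' (SemidirectProduct.inl x * tt ψ * (SemidirectProduct.inl x)⁻¹) (D.l : ℤ) (by
        rw [h0, D.mem_U]
        refine ⟨?_, ?_⟩
        · rw [tt_zpow]
          exact dvd_of_eq (by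
            show (D.l : ℤ) = Multiplicative.toAdd ((1 : Multiplicative ℤ) *
              Multiplicative.ofAdd (D.l : ℤ))
            rw [one_mul, toAdd_ofAdd])
        · rw [hleft]; exact hδK)
      rw [h0, hleft] at h1
      rw [h1]
      norm_num
    have h5 := H f hf
    rw [e1, e2, e3] at h5
    have h6 : (D.l : ℚ) * (c₀ * D.bt i q w + c₁ * D.bt i q (x * w * x⁻¹)) = - D.bt i q δ := by
      rw [h5, ← e4]; ring
    unfold Level.bt at h6
    rw [← hπ, cnt_conj π i hwK, cnt_conj π i hwK, one_mul] at h6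
    push_cast at h6
    linarith
  -- a point outside of the supports
  obtain ⟨q₀, hq1, hq2⟩ : ∃ q₀, cnt π i w q₀ = 0 ∧ cnt π i w (q₀ * π x) = 0 := by
    by_contra hcon
    push Not at hcon
    let A := Finset.univ.filter (fun q => cnt π i w q ≠ 0)
    have hA : A.card ≤ w.toWord.length := by
      have := supp_cnt π i w.toWord
      rw [FreeGroup.mk_toWord] at this
      exact this
    have hcov : (Finset.univ : Finset (Multiplicative (Fin 2 → ZMod D.m))) ⊆
        A ∪ A.image (fun q => q * (π x)⁻¹) := by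
      intro q _
      rw [Finset.mem_union, Finset.mem_image]
      by_cases h : cnt π i w q = 0
      · right
        exact ⟨q * π x, Finset.mem_filter.mpr ⟨Finset.mem_univ _, hcon q h⟩,
          mul_inv_cancel_right _ _⟩
      · exact Or.inl (Finset.mem_filter.mpr ⟨Finset.mem_univ _, h⟩)
    have h1 := (Finset.card_le_card hcov).trans (Finset.card_union_le _ _)
    have h2 : (A.image (fun q => q * (π x)⁻¹)).card ≤ A.card := Finset.card_image_le
    have h3 : (Finset.univ : Finset (Multiplicative (Fin 2 → ZMod D.m))).card = D.m * D.m := by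
      rw [Finset.card_univ]
      have : Fintype.card (Multiplicative (Fin 2 → ZMod D.m)) = Fintype.card (Fin 2 → ZMod D.m) :=
        Fintype.card_congr Multiplicative.toAdd
      rw [this, Fintype.card_fun, ZMod.card, Fintype.card_fin, pow_two]
    omega
  have hI : ∀ q, (cnt π i δ q : ℚ) + D.l * (c₀ * cnt π i w q + c₁ * cnt π i w (q * π x)) =
      cnt π i δ q₀ := by
    intro q
    rw [← key q, key q₀, hq1, hq2]
    norm_num
  -- the sum
  have hsum : (∑ q, (cnt π i δ q : ℚ)) + D.l * (c₀ * (∑ q, (cnt π i w q : ℚ)) +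
      c₁ * ∑ q, (cnt π i w (q * π x) : ℚ)) = (D.m * D.m : ℕ) * (cnt π i δ q₀ : ℚ) := by
    have h1 : ∑ q : Multiplicative (Fin 2 → ZMod D.m), ((cnt π i δ q : ℚ) +
        D.l * (c₀ * cnt π i w q + c₁ * cnt π i w (q * π x))) =
        ∑ _q : Multiplicative (Fin 2 → ZMod D.m), (cnt π i δ q₀ : ℚ) :=
      Finset.sum_congr rfl (fun q _ => hI q)
    have h3 : (Finset.univ : Finset (Multiplicative (Fin 2 → ZMod D.m))).card = D.m * D.m := by
      rw [Finset.card_univ]
      have : Fintype.card (Multiplicative (Fin 2 → ZMod D.m)) = Fintype.card (Fin 2 → ZMod D.m) :=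
        Fintype.card_congr Multiplicative.toAdd
      rw [this, Fintype.card_fun, ZMod.card, Fintype.card_fin, pow_two]
    rw [Finset.sum_const, h3, nsmul_eq_mul] at h1
    rw [← h1, Finset.sum_add_distrib, ← Finset.mul_sum, Finset.sum_add_distrib, ← Finset.mul_sum,
      ← Finset.mul_sum]
  have hs1 : ∑ q, (cnt π i w q : ℚ) = 0 := by
    have := sum_cnt π i w
    rw [av_expo, hw] at this
    have h2 : ((∑ q, cnt π i w q : ℤ) : ℚ) = 0 := by rw [this]; rfl
    push_cast at h2
    exact h2
  have hs2 : ∑ q, (cnt π i w (q * π x) : ℚ) = 0 := by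
    rw [← hs1]
    exact Fintype.sum_equiv (Equiv.mulRight (π x)) _ _ (fun q => rfl)
  have hs3 : ∑ q, (cnt π i δ q : ℚ) = av δ i := by
    have := sum_cnt π i δ
    rw [av_expo] at this
    rw [← this]
    push_cast
    rfl
  rw [hs1, hs2, hs3] at hsum
  have h7 : (av δ i : ℚ) = (D.m * D.m : ℕ) * (cnt π i δ q₀ : ℚ) := by
    rw [← hsum]; ring
  have h8 : av δ i = (D.m : ℤ) * D.m * cnt π i δ q₀ := by
    have : ((av δ i : ℤ) : ℚ) = (((D.m : ℤ) * D.m * cnt π i δ q₀ : ℤ) : ℚ) := by
      rw [h7]; push_cast; ring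
    exact_mod_cast this
  have h9 : av ((ψ ^ D.l) x * x⁻¹) i = - av δ i := by
    have : (ψ ^ D.l) x * x⁻¹ = δ⁻¹ := by rw [hδ]; group
    rw [this, av_inv]
    rfl
  rw [h9, h8]
  exact (dvd_neg.mpr (dvd_mul_right _ _))

end

end Run7.h574
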