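import Pool.Agent.Run7.h574.Amalg

/-!
# Passing to the mapping torus of an invariant amalgam inside a free-by-cyclic group
-/

set_option autoImplicit false
set_option linter.unusedSectionVars false
set_option linter.dupNamespace false

namespace Run7.h574

lemma lerf_inj {G H : Type} [Group G] [Group H] (hG : LERF G) (f : H →* G)
    (hf : Function.Injective f) : LERF H := by
  intro S hS g hg
  obtain ⟨K, hK, hSK, hgK⟩ := hG (S.map f) (fg_map f hS) (f g) (by
    rintro ⟨s, hs, hsg⟩
    exact hg (hf hsg ▸ hs))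
  refine ⟨K.comap f, ?_, ?_, hgK⟩
  · constructor
    rw [Subgroup.index_comap]
    exact (inferInstance : (K.subgroupOf f.range).FiniteIndex).index_ne_zero
  · intro s hs
    exact hSK ⟨s, hs, rfl⟩

/-- the relations of an amalgam of two subgroups -/
def amalgRel {F : Type} [Group F] (A C : Subgroup F) : Set (Monoid.Coprod A C) :=
  {z | ∃ (l : F) (hA : l ∈ A) (hC : l ∈ C),
    z = Monoid.Coprod.inl ⟨l, hA⟩ * (Monoid.Coprod.inr ⟨l, hC⟩)⁻¹}

/-- the subgroup generated by `A` and `C` is their amalgam over the intersection -/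
def IsAmalgam {F : Type} [Group F] (A C : Subgroup F) : Prop :=
  (Monoid.Coprod.lift A.subtype C.subtype).ker = Subgroup.normalClosure (amalgRel A C)

section

variable {F : Type} [Group F]

/-- the universal property -/
theorem up_of_amalgam {A C : Subgroup F} (h : IsAmalgam A C) :
    UP (A.subgroupOf (A ⊔ C)) (C.subgroupOf (A ⊔ C)) := by
  intro Ω f₁ f₂ hf
  let P : Subgroup F := A ⊔ C
  have hAP : A ≤ P := le_sup_left
  have hCP : C ≤ P := le_sup_right
  let eA : A →* A.subgroupOf P :=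
    { toFun := fun a => ⟨⟨a, hAP a.2⟩, a.2⟩
      map_one' := rfl
      map_mul' := fun _ _ => rfl }
  let eC : C →* C.subgroupOf P :=
    { toFun := fun a => ⟨⟨a, hCP a.2⟩, a.2⟩
      map_one' := rfl
      map_mul' := fun _ _ => rfl }
  let π : Monoid.Coprod A C →* P := Monoid.Coprod.lift (Subgroup.inclusion hAP)
    (Subgroup.inclusion hCP)
  let L : Monoid.Coprod A C →* Equiv.Perm Ω := Monoid.Coprod.lift (f₁.comp eA) (f₂.comp eC)
  have hπL : P.subtype.comp π = Monoid.Coprod.lift A.subtype C.subtype := by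
    ext x <;> simp [π]
  have hker : ∀ z, π z = 1 → L z = 1 := by
    intro z hz
    have h1 : z ∈ (Monoid.Coprod.lift A.subtype C.subtype).ker := by
      rw [MonoidHom.mem_ker, ← hπL, MonoidHom.comp_apply, hz, map_one]
    rw [h] at h1
    have h2 : Subgroup.normalClosure (amalgRel A C) ≤ L.ker := by
      apply Subgroup.normalClosure_le_normal
      rintro _ ⟨l, hA, hC, rfl⟩
      rw [SetLike.mem_coe, MonoidHom.mem_ker, map_mul, map_inv, mul_inv_eq_one]
      show L (Monoid.Coprod.inl ⟨l, hA⟩) = L (Monoid.Coprod.inr ⟨l, hC⟩)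
      simp only [L, Monoid.Coprod.lift_apply_inl, Monoid.Coprod.lift_apply_inr]
      exact hf ⟨l, hAP hA⟩ hA hC
    exact h2 h1
  have hsurj : Function.Surjective π := by
    have h1 : π.range = ⊤ := by
      have h2 : (π.range).map P.subtype = P := by
        rw [← MonoidHom.range_comp, hπL, Monoid.Coprod.range_lift, Subgroup.range_subtype,
          Subgroup.range_subtype]
      apply Subgroup.map_injective P.subtype_injective
      rw [h2, ← MonoidHom.range_eq_map, Subgroup.range_subtype]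
    exact MonoidHom.range_eq_top.mp h1
  choose s hs using hsurj
  have hL : ∀ z, L (s (π z)) = L z := by
    intro z
    have h1 : L (s (π z) * z⁻¹) = 1 := hker _ (by rw [map_mul, map_inv, hs, mul_inv_cancel])
    rw [map_mul, map_inv, mul_inv_eq_one] at h1
    exact h1
  refine ⟨⟨⟨fun p => L (s p), ?_⟩, ?_⟩, ?_, ?_⟩
  · have := hL 1
    rw [map_one, map_one] at this
    exact this
  · intro p q
    show L (s (p * q)) = L (s p) * L (s q)
    rw [← map_mul, ← hL (s p * s q), map_mul, hs, hs]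
  · rintro ⟨⟨a, ha⟩, ha'⟩
    have ha'' : a ∈ A := ha'
    show L (s ⟨a, ha⟩) = f₁ ⟨⟨a, ha⟩, ha'⟩
    have h1 : π (Monoid.Coprod.inl ⟨a, ha''⟩) = (⟨a, ha⟩ : P) := by
      simp only [π, Monoid.Coprod.lift_apply_inl]
      rfl
    have h2 := hL (Monoid.Coprod.inl ⟨a, ha''⟩)
    rw [h1] at h2
    refine h2.trans ?_
    simp only [L, Monoid.Coprod.lift_apply_inl]
    rfl
  · rintro ⟨⟨a, ha⟩, ha'⟩
    have ha'' : a ∈ C := ha'
    show L (s ⟨a, ha⟩) = f₂ ⟨⟨a, ha⟩, ha'⟩
    have h1 : π (Monoid.Coprod.inr ⟨a, ha''⟩) = (⟨a, ha⟩ : P) := by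
      simp only [π, Monoid.Coprod.lift_apply_inr]
      rfl
    have h2 := hL (Monoid.Coprod.inr ⟨a, ha''⟩)
    rw [h1] at h2
    refine h2.trans ?_
    simp only [L, Monoid.Coprod.lift_apply_inr]
    rfl

/-- the restriction of an automorphism to an invariant subgroup -/
def restr (Ψ : MulAut F) (P : Subgroup F) (hP : ∀ x, Ψ x ∈ P ↔ x ∈ P) : MulAut P where
  toFun := fun (x : P) => ⟨Ψ (x : F), (hP x).mpr x.2⟩
  invFun := fun (x : P) => ⟨Ψ⁻¹ (x : F), (hP _).mp (by
    rw [show Ψ (Ψ⁻¹ (x : F)) = x from MulAut.apply_inv_self _ Ψ x]; exact x.2)⟩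
  left_inv := fun (x : P) => Subtype.ext (MulAut.inv_apply_self _ Ψ (x : F))
  right_inv := fun (x : P) => Subtype.ext (MulAut.apply_inv_self _ Ψ (x : F))
  map_mul' := fun (x y : P) => Subtype.ext (map_mul Ψ (x : F) (y : F))

lemma restr_apply (Ψ : MulAut F) (P : Subgroup F) (hP : ∀ x, Ψ x ∈ P ↔ x ∈ P) (x : P) :
    ((restr Ψ P hP x : P) : F) = Ψ x := rfl

lemma restr_zpow (Ψ : MulAut F) (P : Subgroup F) (hP : ∀ x, Ψ x ∈ P ↔ x ∈ P) (n : ℤ) :
    ∀ x : P, (((restr Ψ P hP ^ n) x : P) : F) = (Ψ ^ n) x := by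
  induction n using Int.induction_on with
  | zero => intro x; rfl
  | succ k ih =>
    intro x
    rw [zpow_add_one, zpow_add_one, MulAut.mul_apply, MulAut.mul_apply, ih, restr_apply]
  | pred k ih =>
    intro x
    rw [zpow_sub_one, zpow_sub_one, MulAut.mul_apply, MulAut.mul_apply, ih]
    rfl

variable (φ : MulAut F)

/-- the automorphism of the fibre given by conjugation by an element -/
def cj (u : MT φ) : MulAut F := MulAut.conj u.left * φ ^ (chi φ u)

lemma cj_spec (u : MT φ) (x : F) : u * SemidirectProduct.inl x * u⁻¹ =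
    SemidirectProduct.inl (cj φ u x) := by
  have h1 := tt_conj φ (chi φ u) x
  have h2 := decomp φ u
  calc u * SemidirectProduct.inl x * u⁻¹ = SemidirectProduct.inl u.left *
        ((tt φ) ^ (chi φ u) * SemidirectProduct.inl x * ((tt φ) ^ (chi φ u))⁻¹) *
        (SemidirectProduct.inl u.left)⁻¹ := by
        conv_lhs => rw [h2]
        group
    _ = SemidirectProduct.inl (cj φ u x) := by
        rw [h1, ← map_inv, ← map_mul, ← map_mul]
        rfl

lemma cj_zpow (u : MT φ) (n : ℤ) (x : F) : u ^ n * SemidirectProduct.inl x * (u ^ n)⁻¹ =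
    SemidirectProduct.inl (((cj φ u) ^ n) x) := by
  revert x
  induction n using Int.induction_on with
  | zero => intro x; simp
  | succ k ih =>
    intro x
    rw [zpow_add_one, zpow_add_one, MulAut.mul_apply, ← ih, ← cj_spec]
    group
  | pred k ih =>
    intro x
    rw [zpow_sub_one, zpow_sub_one, MulAut.mul_apply, ← ih]
    have h1 := cj_spec φ u ((cj φ u)⁻¹ x)
    rw [MulAut.apply_inv_self] at h1
    rw [← h1]
    group

/-- the map from the mapping torus of an invariant subgroup -/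
def emb (u : MT φ) (P : Subgroup F) (hP : ∀ x, cj φ u x ∈ P ↔ x ∈ P) :
    MT (restr (cj φ u) P hP) →* MT φ :=
  SemidirectProduct.lift (SemidirectProduct.inl.comp P.subtype) (zpowersHom (MT φ) u) (by
    intro n
    ext1 x
    show SemidirectProduct.inl (((restr (cj φ u) P hP ^ (Multiplicative.toAdd n)) x : P) : F) =
      u ^ (Multiplicative.toAdd n) * SemidirectProduct.inl (x : F) *
        (u ^ (Multiplicative.toAdd n))⁻¹
    rw [restr_zpow, ← cj_zpow])

lemma emb_apply (u : MT φ) (P : Subgroup F) (hP : ∀ x, cj φ u x ∈ P ↔ x ∈ P)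
    (g : MT (restr (cj φ u) P hP)) :
    emb φ u P hP g = SemidirectProduct.inl (g.left : F) * u ^ (chi _ g) := rfl

lemma emb_inj (u : MT φ) (hu : chi φ u ≠ 0) (P : Subgroup F) (hP : ∀ x, cj φ u x ∈ P ↔ x ∈ P) :
    Function.Injective (emb φ u P hP) := by
  rw [injective_iff_map_eq_one]
  intro g hg
  rw [emb_apply] at hg
  have h1 : chi φ (SemidirectProduct.inl (g.left : F) * u ^ (chi _ g)) = 0 := by rw [hg]; rfl
  have hm : ∀ a b : MT φ, chi φ (a * b) = chi φ a + chi φ b := fun a b => rfl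
  have hz : chi φ (u ^ (chi _ g)) = chi _ g * chi φ u := (chi_hom φ).zpow trivial _
  rw [hm, hz, chi_inl, zero_add] at h1
  have h2 : chi _ g = 0 := (mul_eq_zero.mp h1).resolve_right hu
  rw [h2, zpow_zero, mul_one] at hg
  have h3 : (g.left : F) = 1 := SemidirectProduct.inl_injective (hg.trans (map_one _).symm)
  have h4 : g.left = 1 := Subtype.ext h3
  rw [inl_of_chi _ h2, h4, map_one]

end

end Run7.h574
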