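import Pool.Agent.Run7.h574.RankTwoC
import Pool.Agent.Run7.h574.Transfer

/-!
# Rank two: the relation forces the action on the abelianization to be quasi-unipotent
-/

set_option autoImplicit false
set_option linter.unusedSectionVars false
set_option linter.dupNamespace false

namespace Run7.h574

section

variable {R : Type} [Group R]

/-- linear duality, coefficients -/
theorem dual_coeff {t w x : R}
    (H : ∀ f ∈ VF R, f w = 0 → f (x * w * x⁻¹) = 0 → f t = f (x * t * x⁻¹)) :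
    ∃ c₀ c₁ : ℚ, ∀ f ∈ VF R, c₀ * f w + c₁ * f (x * w * x⁻¹) = f t - f (x * t * x⁻¹) := by
  let ev : R → (VF R →ₗ[ℚ] ℚ) := fun g => (LinearMap.proj g).comp (VF R).subtype
  have hev : ∀ g (f : VF R), ev g f = (f : R → ℚ) g := fun g f => rfl
  have h1 : ev t - ev (x * t * x⁻¹) ∈ Submodule.span ℚ (Set.range ![ev w, ev (x * w * x⁻¹)]) := by
    apply mem_span_of_iInf_ker_le_ker
    intro f hf
    rw [Submodule.mem_iInf] at hf
    have e0 : ev w f = 0 := hf 0
    have e1 : ev (x * w * x⁻¹) f = 0 := hf 1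
    show (ev t - ev (x * t * x⁻¹)) f = 0
    rw [LinearMap.sub_apply, hev, hev, H f f.2 e0 e1, sub_self]
  rw [Submodule.mem_span_range_iff_exists_fun] at h1
  obtain ⟨c, hc⟩ := h1
  rw [Fin.sum_univ_two] at hc
  refine ⟨c 0, c 1, ?_⟩
  intro f hf
  have := LinearMap.congr_fun hc ⟨f, hf⟩
  simpa [hev] using this

/-- pulling back virtual homomorphisms -/
lemma vf_comp {S : Type} [Group S] (e : R →* S) {f : S → ℚ} (hf : f ∈ VF S) :
    (fun r => f (e r)) ∈ VF R := by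
  obtain ⟨K, β, m, hK, hβ, hm, h⟩ := hf
  refine ⟨K.comap e, fun r => β (e r), m, ?_, ?_, hm, ?_⟩
  · constructor
    rw [Subgroup.index_comap]
    exact (inferInstance : (K.subgroupOf e.range).FiniteIndex).index_ne_zero
  · intro a ha b hb
    show β (e (a * b)) = _
    rw [map_mul]
    exact hβ _ ha _ hb
  · intro g n hg
    have hg' : (e g) ^ n ∈ K := by
      rw [← map_zpow]; exact hg
    have := h (e g) n hg'
    show (β (e (g ^ n)) : ℚ) = _
    rw [map_zpow]
    exact this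

end

lemma dvd_of_adj (p : ℕ) (hp : p.Prime) (e : ℕ) (M : Matrix (Fin 2) (Fin 2) ℤ)
    (hM : ¬ ((p : ℤ) ∣ M.det)) (v : Fin 2 → ℤ) (h : ∀ i, ((p : ℤ) ^ e) ∣ (M.mulVec v) i) :
    ∀ i, ((p : ℤ) ^ e) ∣ v i := by
  intro i
  have h1 : (M.adjugate.mulVec (M.mulVec v)) = M.det • v := by
    rw [Matrix.mulVec_mulVec, Matrix.adjugate_mul, Matrix.smul_mulVec, Matrix.one_mulVec]
  have h2 : ((p : ℤ) ^ e) ∣ M.det * v i := by
    have h3 := congrFun h1 i
    have h4 : (M.det • v) i = M.det * v i := rfl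
    have h5 : (M.adjugate.mulVec (M.mulVec v)) i = ∑ j, M.adjugate i j * (M.mulVec v) j := rfl
    rw [← h4, ← h3, h5]
    exact Finset.dvd_sum (fun j _ => Dvd.dvd.mul_left (h j) _)
  have hco : IsCoprime ((p : ℤ) ^ e) M.det := by
    apply IsCoprime.pow_left
    exact (Nat.prime_iff_prime_int.mp hp).coprime_iff_not_dvd.mpr hM
  exact hco.dvd_of_dvd_mul_left h2

/-- **Rank two.** -/
theorem rank_two (ψ : MulAut F2) (w : F2) (hw : (ψ ^ 2) w = w)
    (H : ∀ x : F2, ∃ c₀ c₁ : ℚ, ∀ f ∈ VF (MT ψ), c₀ * f (SemidirectProduct.inl w) +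
      c₁ * f (SemidirectProduct.inl x * SemidirectProduct.inl w * (SemidirectProduct.inl x)⁻¹) =
      f (tt ψ) - f (SemidirectProduct.inl x * tt ψ * (SemidirectProduct.inl x)⁻¹)) :
    ∃ k : ℕ, 0 < k ∧ ((mat ψ) ^ k - 1) ^ 2 = 0 := by
  by_contra hcon
  push Not at hcon
  set N : Matrix (Fin 2) (Fin 2) ℤ := mat (ψ ^ 2) with hN
  have hN2 : N = (mat ψ) ^ 2 := mat_pow ψ 2
  have hdet : N.det = 1 := by
    rw [hN2, pow_two, Matrix.det_mul]
    exact mat_det ψ
  have hNk : ∀ k : ℕ, 0 < k → (N ^ k - 1) ^ 2 ≠ 0 := by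
    intro k hk
    rw [hN2, ← pow_mul]
    exact hcon (2 * k) (by omega)
  have hD : (N - 1).det ≠ 0 := det_sub_one N hdet (by simpa using hNk 1 one_pos)
  have hw0 : av w = 0 := by
    apply Matrix.eq_zero_of_mulVec_eq_zero hD
    rw [Matrix.sub_mulVec, Matrix.one_mulVec, hN, ← av_apply, hw, sub_self]
  obtain ⟨p, e, k, hp, hpB, he, hk, hpD, hdiv, hndiv⟩ := exists_level N hdet hNk
    (2 * w.toWord.length)
  -- conjugators
  obtain ⟨g₁, hg₁⟩ := cab_conj_sq ψ
  have hg : ∀ j : ℕ, ∃ g : F2, ((ψ ^ 2) ^ j) cab = g * cab * g⁻¹ ∧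
      (N - 1).mulVec (av g) = (N ^ j - 1).mulVec (av g₁) := by
    intro j
    induction j with
    | zero =>
      refine ⟨1, by simp, ?_⟩
      rw [av_one, Matrix.mulVec_zero, pow_zero, sub_self, Matrix.zero_mulVec]
    | succ j ih =>
      obtain ⟨g, hg, hg'⟩ := ih
      refine ⟨(ψ ^ 2) g * g₁, ?_, ?_⟩
      · rw [pow_succ', MulAut.mul_apply, hg, map_mul, map_mul, map_inv, hg₁]
        group
      · have h1 : av ((ψ ^ 2) g * g₁) = N.mulVec (av g) + av g₁ := by
          rw [av_mul, av_apply]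
        rw [h1, Matrix.mulVec_add, Matrix.mulVec_mulVec]
        have h2 : (N - 1) * N = N * (N - 1) := by noncomm_ring
        rw [h2, ← Matrix.mulVec_mulVec, hg', Matrix.mulVec_mulVec, ← Matrix.add_mulVec]
        congr 1
        rw [pow_succ']
        noncomm_ring
  obtain ⟨g, hgc, hgv⟩ := hg k
  have hm0 : p ^ e ≠ 0 := pow_ne_zero _ hp.ne_zero
  have hmcast : ((p ^ e : ℕ) : ℤ) = (p : ℤ) ^ e := by push_cast; rfl
  have hpow : ψ ^ (2 * k) = (ψ ^ 2) ^ k := pow_mul _ _ _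
  have hav : ∀ x : F2, av ((ψ ^ (2 * k)) x * x⁻¹) = (N ^ k - 1).mulVec (av x) := by
    intro x
    rw [av_mul, av_inv, av_apply, hpow, mat_pow, Matrix.sub_mulVec, Matrix.one_mulVec]
    rw [sub_eq_add_neg]
  have hdv : ∀ (v : Fin 2 → ℤ) i, ((p : ℤ) ^ e) ∣ ((N ^ k - 1).mulVec v) i := by
    intro v i
    have h5 : ((N ^ k - 1).mulVec v) i = ∑ j, (N ^ k - 1) i j * v j := rfl
    rw [h5]
    exact Finset.dvd_sum (fun j _ => Dvd.dvd.mul_right (hdiv i j) _)
  let D : Level ψ :=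
    { m := p ^ e
      hm := ⟨hm0⟩
      l := 2 * k
      hl := by omega
      triv := by
        intro x
        rw [rd_eq_one]
        intro i
        rw [hav, hmcast]
        exact hdv _ i
      g := g
      hg := by
        rw [rd_eq_one, hmcast]
        apply dvd_of_adj p hp e (N - 1) hpD
        intro i
        rw [hgv]
        exact hdv _ i
      hcab := by
        rw [hpow, hgc] }
  have hcard : 2 * w.toWord.length < D.m * D.m := by
    show 2 * w.toWord.length < p ^ e * p ^ e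
    have h1 : p ≤ p ^ e := Nat.le_self_pow (by omega) p
    have h2 : 1 ≤ p ^ e := Nat.one_le_iff_ne_zero.mpr hm0
    nlinarith
  apply hndiv
  intro i j
  obtain ⟨c₀, c₁, hc⟩ := H (FreeGroup.of j)
  have h1 := D.congr w (FreeGroup.of j) hw0 hcard c₀ c₁ hc i
  have h2 : av ((ψ ^ D.l) (FreeGroup.of j) * (FreeGroup.of j)⁻¹) i = (N ^ k - 1) i j := by
    show av ((ψ ^ (2 * k)) (FreeGroup.of j) * (FreeGroup.of j)⁻¹) i = _
    rw [hav, av_of, Matrix.mulVec_single_one]
    rfl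
  rw [h2] at h1
  have h3 : ((p : ℤ) ^ (e + 1)) ∣ ((D.m : ℤ) * D.m) := by
    show ((p : ℤ) ^ (e + 1)) ∣ (((p ^ e : ℕ) : ℤ) * ((p ^ e : ℕ) : ℤ))
    rw [hmcast, ← pow_add]
    exact pow_dvd_pow _ (by omega)
  exact h3.trans h1

end Run7.h574
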