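import Pool.Agent.Run7.h574.RankTwoE
import Mathlib.LinearAlgebra.Matrix.FixedDetMatrices

/-!
# Normal form of unipotent outer automorphisms of a free group of rank two
-/

set_option autoImplicit false
set_option linter.unusedSectionVars false
set_option linter.dupNamespace false

namespace Run7.h574

open FreeGroup (of)

lemma mat_mul_inv (ψ : MulAut F2) : mat ψ * mat ψ⁻¹ = 1 := by
  rw [← mat_mul, mul_inv_cancel, mat_one]

lemma mat_sg_ep : mat (ep * sg) = !![0, -1; 1, 0] := by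
  ext i j
  show av ((ep * sg) (of j)) i = _
  have h0 : (ep * sg) (of 0) = of 1 := by rw [MulAut.mul_apply, sg0, ep1]
  have h1 : (ep * sg) (of 1) = (of 0)⁻¹ := by rw [MulAut.mul_apply, sg1, ep0]
  fin_cases j
  · show av ((ep * sg) (of 0)) i = _
    rw [h0, av_of]
    fin_cases i <;> simp
  · show av ((ep * sg) (of 1)) i = _
    rw [h1, av_inv, av_of]
    fin_cases i <;> simp

lemma mat_la : mat la = !![1, 1; 0, 1] := by
  ext i j
  show av (la (of j)) i = _
  fin_cases j
  · show av (la (of 0)) i = _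
    rw [la0, av_of]
    fin_cases i <;> simp
  · show av (la (of 1)) i = _
    rw [la1, av_mul, av_of, av_of]
    fin_cases i <;> simp

open Matrix in
theorem exists_aut (P : Matrix.SpecialLinearGroup (Fin 2) ℤ) :
    ∃ ρ : MulAut F2, mat ρ = (P : Matrix (Fin 2) (Fin 2) ℤ) := by
  let N : Subgroup (Matrix.SpecialLinearGroup (Fin 2) ℤ) :=
    { carrier := {P | ∃ ρ : MulAut F2, mat ρ = (P : Matrix (Fin 2) (Fin 2) ℤ)}
      mul_mem' := by
        rintro P Q ⟨ρ, hρ⟩ ⟨ρ', hρ'⟩
        exact ⟨ρ * ρ', by rw [mat_mul, hρ, hρ', Matrix.SpecialLinearGroup.coe_mul]⟩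
      one_mem' := ⟨1, by rw [mat_one, Matrix.SpecialLinearGroup.coe_one]⟩
      inv_mem' := by
        rintro P ⟨ρ, hρ⟩
        refine ⟨ρ⁻¹, ?_⟩
        have h1 : (P : Matrix (Fin 2) (Fin 2) ℤ) * ((P⁻¹ : Matrix.SpecialLinearGroup (Fin 2) ℤ) :
            Matrix (Fin 2) (Fin 2) ℤ) = 1 := by
          rw [← Matrix.SpecialLinearGroup.coe_mul, mul_inv_cancel,
            Matrix.SpecialLinearGroup.coe_one]
        calc mat ρ⁻¹ = mat ρ⁻¹ * ((P : Matrix (Fin 2) (Fin 2) ℤ) *
              ((P⁻¹ : Matrix.SpecialLinearGroup (Fin 2) ℤ) : Matrix (Fin 2) (Fin 2) ℤ)) := by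
              rw [h1, mul_one]
          _ = (mat ρ⁻¹ * mat ρ) * ((P⁻¹ : Matrix.SpecialLinearGroup (Fin 2) ℤ) :
              Matrix (Fin 2) (Fin 2) ℤ) := by rw [hρ, mul_assoc]
          _ = _ := by rw [mat_inv_mul, one_mul] }
  have hN : N = ⊤ := by
    rw [eq_top_iff, ← SpecialLinearGroup.SL2Z_generators, Subgroup.closure_le]
    rintro x (rfl | rfl)
    · exact ⟨ep * sg, mat_sg_ep⟩
    · exact ⟨la, mat_la⟩
  have h : P ∈ N := by rw [hN]; trivial
  exact h

lemma la_zpow0 (m : ℤ) : (la ^ m) (of 0) = of 0 := by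
  have hinv : la⁻¹ (of 0) = of 0 := by
    have h := congrArg (fun x => la⁻¹ x) la0
    simp only [MulAut.inv_apply_self] at h
    exact h.symm
  induction m using Int.induction_on with
  | zero => rfl
  | succ k ih => rw [zpow_add_one, MulAut.mul_apply, la0, ih]
  | pred k ih => rw [zpow_sub_one, MulAut.mul_apply, hinv, ih]

lemma la_zpow1 (m : ℤ) : (la ^ m) (of 1) = of 1 * (of 0) ^ m := by
  have hinv : la⁻¹ (of 1) = of 1 * (of 0)⁻¹ := by
    have h0 : la⁻¹ (of 0) = of 0 := by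
      have := la_zpow0 (-1)
      rwa [zpow_neg_one] at this
    have h := congrArg (fun x => la⁻¹ x) la1
    simp only [MulAut.inv_apply_self, map_mul] at h
    rw [h0] at h
    rw [eq_mul_inv_iff_mul_eq]
    exact h.symm
  induction m using Int.induction_on with
  | zero => rw [zpow_zero, zpow_zero, mul_one]; rfl
  | succ k ih =>
    rw [zpow_add_one, MulAut.mul_apply, la1, map_mul, ih, la_zpow0, mul_assoc, ← zpow_add_one]
  | pred k ih =>
    rw [zpow_sub_one, MulAut.mul_apply, hinv, map_mul, map_inv, ih, la_zpow0, mul_assoc,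
      ← zpow_sub_one]

lemma mat_la_zpow (m : ℤ) : mat (la ^ m) = !![1, m; 0, 1] := by
  have hzp : ∀ (g : F2) (n : ℤ), av (g ^ n) = n • av g := by
    intro g n
    unfold av
    rw [map_zpow, toAdd_zpow]
  ext i j
  show av ((la ^ m) (of j)) i = _
  fin_cases j
  · show av ((la ^ m) (of 0)) i = _
    rw [la_zpow0, av_of]
    fin_cases i <;> simp
  · show av ((la ^ m) (of 1)) i = _
    rw [la_zpow1, av_mul, av_of, hzp, av_of]
    fin_cases i <;> simp

/-- primitive fixed vector -/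
lemma exists_fixed (N : Matrix (Fin 2) (Fin 2) ℤ) (hdet : N.det = 1) (h : (N - 1) ^ 2 = 0) :
    ∃ v : Fin 2 → ℤ, IsCoprime (v 0) (v 1) ∧ N.mulVec v = v := by
  by_cases hM : N - 1 = 0
  · refine ⟨![1, 0], ?_, ?_⟩
    · show IsCoprime (1 : ℤ) 0
      exact isCoprime_one_left
    · rw [sub_eq_zero] at hM
      rw [hM, Matrix.one_mulVec]
  · -- a nonzero column
    obtain ⟨i₀, j₀, h₀⟩ : ∃ i j, (N - 1) i j ≠ 0 := by
      by_contra hcon
      push Not at hcon
      exact hM (by ext i j; exact hcon i j)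
    set c : Fin 2 → ℤ := fun i => (N - 1) i j₀ with hc
    have hMc : (N - 1).mulVec c = 0 := by
      funext i
      have h1 := congrFun (congrFun h i) j₀
      rw [pow_two, Matrix.mul_apply] at h1
      exact h1
    have hg : 0 < Int.gcd (c 0) (c 1) := by
      rw [Nat.pos_iff_ne_zero]
      intro h1
      rw [Int.gcd_eq_zero_iff] at h1
      apply h₀
      fin_cases i₀
      · exact h1.1
      · exact h1.2
    obtain ⟨a, b, hab, ha, hb⟩ := Int.exists_gcd_one hg
    refine ⟨![a, b], ?_, ?_⟩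
    · show IsCoprime a b
      exact Int.isCoprime_iff_gcd_eq_one.mpr hab
    · have hcv : c = (Int.gcd (c 0) (c 1) : ℤ) • ![a, b] := by
        funext i
        fin_cases i
        · show c 0 = (Int.gcd (c 0) (c 1) : ℤ) * a
          conv_lhs => rw [ha]
          ring
        · show c 1 = (Int.gcd (c 0) (c 1) : ℤ) * b
          conv_lhs => rw [hb]
          ring
      rw [hcv, Matrix.mulVec_smul] at hMc
      have hg' : (Int.gcd (c 0) (c 1) : ℤ) ≠ 0 := by exact_mod_cast hg.ne'
      have h2 := (smul_eq_zero.mp hMc).resolve_left hg'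
      rw [Matrix.sub_mulVec, Matrix.one_mulVec, sub_eq_zero] at h2
      exact h2

/-- **Normal form.** -/
theorem unipotent_form (θ : MulAut F2) (hdet : (mat θ).det = 1) (h : (mat θ - 1) ^ 2 = 0) :
    ∃ (ρ : MulAut F2) (g : F2) (m : ℤ), θ = ρ * (MulAut.conj g * la ^ m) * ρ⁻¹ := by
  obtain ⟨v, ⟨r, s, hrs⟩, hv⟩ := exists_fixed (mat θ) hdet h
  let P : Matrix.SpecialLinearGroup (Fin 2) ℤ := ⟨!![v 0, -s; v 1, r], by
    rw [Matrix.det_fin_two_of]
    linarith⟩
  obtain ⟨ρ, hρ⟩ := exists_aut P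
  have hρ' : mat ρ = !![v 0, -s; v 1, r] := hρ
  set θ' : MulAut F2 := ρ⁻¹ * θ * ρ with hθ'
  have hPe : (mat ρ).mulVec (Pi.single 0 1) = v := by
    rw [Matrix.mulVec_single_one, hρ']
    funext i
    fin_cases i <;> rfl
  have hcol : (mat θ').mulVec (Pi.single 0 1) = Pi.single 0 1 := by
    have h2 : (mat ρ⁻¹).mulVec v = Pi.single 0 1 := by
      conv_lhs => rw [← hPe]
      rw [Matrix.mulVec_mulVec, mat_inv_mul, Matrix.one_mulVec]
    rw [hθ', mat_mul, mat_mul, ← Matrix.mulVec_mulVec, hPe, ← Matrix.mulVec_mulVec, hv, h2]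
  have h00 : (mat θ') 0 0 = 1 := by
    have := congrFun hcol 0
    rw [Matrix.mulVec_single_one] at this
    simpa using this
  have h10 : (mat θ') 1 0 = 0 := by
    have := congrFun hcol 1
    rw [Matrix.mulVec_single_one] at this
    simpa using this
  have hdet' : (mat θ').det = 1 := by
    have h3 : (mat ρ⁻¹).det * (mat ρ).det = 1 := by
      rw [← Matrix.det_mul, mat_inv_mul, Matrix.det_one]
    rw [hθ', mat_mul, mat_mul, Matrix.det_mul, Matrix.det_mul, hdet, mul_one, h3]
  have h11 : (mat θ') 1 1 = 1 := by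
    rw [Matrix.det_fin_two, h00, h10] at hdet'
    linarith
  have hform : mat θ' = mat (la ^ ((mat θ') 0 1)) := by
    rw [mat_la_zpow]
    ext i j
    fin_cases i <;> fin_cases j
    · exact h00
    · rfl
    · exact h10
    · exact h11
  have hone : mat (θ' * (la ^ ((mat θ') 0 1))⁻¹) = 1 := by
    have h5 : mat (la ^ ((mat θ') 0 1)) * mat (la ^ ((mat θ') 0 1))⁻¹ = 1 := mat_mul_inv _
    rw [← hform] at h5
    rw [mat_mul, h5]
  obtain ⟨g, hg⟩ := inner_of_mat hone
  refine ⟨ρ, g, (mat θ') 0 1, ?_⟩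
  rw [← hg, inv_mul_cancel_right, hθ']
  group

end Run7.h574
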