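import Pool.Agent.Run7.h574.Dehn
import Pool.Agent.Run7.h574.Tree2

/-!
# Vertex groups of rank two
-/

set_option autoImplicit false
set_option linter.unusedSectionVars false
set_option linter.dupNamespace false

namespace Run7.h574

section

variable {α : Type} {φ : MulAut (FreeGroup α)} {V : Type} [MulAction (MT φ) V]
  {T : SimpleGraph V}

/-- the automorphism of a free group of rank two -/
def psi2 (A : Subgroup (FreeGroup α)) (e : A ≃* F2) (Ψ : MulAut (FreeGroup α))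
    (hA : ∀ x, Ψ x ∈ A ↔ x ∈ A) : MulAut F2 := MulAut.congr e (restr Ψ A hA)

lemma psi2_zpow (A : Subgroup (FreeGroup α)) (e : A ≃* F2) (Ψ : MulAut (FreeGroup α))
    (hA : ∀ x, Ψ x ∈ A ↔ x ∈ A) (n : ℤ) (x : FreeGroup α) (hx : x ∈ A) (hx' : (Ψ ^ n) x ∈ A) :
    (psi2 A e Ψ hA ^ n) (e ⟨x, hx⟩) = e ⟨(Ψ ^ n) x, hx'⟩ := by
  unfold psi2
  rw [← map_zpow]
  show e ((restr Ψ A hA ^ n) (e.symm (e ⟨x, hx⟩))) = _
  rw [MulEquiv.symm_apply_apply]
  congr 1
  apply Subtype.ext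
  exact restr_zpow Ψ A hA n ⟨x, hx⟩

/-- **Vertex groups of rank two are good.** -/
theorem good_of_rank2 (hG : LERF (MT φ)) {v : V} (e : fst φ v ≃* F2) : Good φ v := by
  intro C hCfg u huv hu hC ham hcyc hidx
  set A := fst φ v with hAdef
  have hA : ∀ x, cj φ u x ∈ A ↔ x ∈ A := cj_fst huv
  obtain ⟨z, hz⟩ := (Subgroup.isCyclic_iff_exists_zpowers_eq_top (A ⊓ C)).mp hcyc
  have hzAC : z ∈ A ⊓ C := by rw [← hz]; exact Subgroup.mem_zpowers z
  have hzA : z ∈ A := hzAC.1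
  have hAfg : A.FG := by
    have h1 : Group.FG A := Group.fg_of_surjective (f := e.symm.toMonoidHom) e.symm.surjective
    exact (Group.fg_iff_subgroup_fg _).mp h1
  have hAC : ∀ x, cj φ u x ∈ A ⊓ C ↔ x ∈ A ⊓ C := fun x =>
    ⟨fun h => ⟨(hA x).mp h.1, (hC x).mp h.2⟩, fun h => ⟨(hA x).mpr h.1, (hC x).mpr h.2⟩⟩
  have hz2 : (cj φ u ^ 2) z = z := sq_comm (by rw [hz]; exact hAC)
  -- powers of the automorphism preserve A
  have hAn : ∀ (n : ℤ) x, x ∈ A → (cj φ u ^ n) x ∈ A := fun n x hx => (inv_zpow_mem hA n x).mpr hx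
  let ψ₂ : MulAut F2 := psi2 A e (cj φ u) hA
  have hψ₂ : ∀ (n : ℤ) (x : FreeGroup α) (hx : x ∈ A),
      (ψ₂ ^ n) (e ⟨x, hx⟩) = e ⟨(cj φ u ^ n) x, hAn n x hx⟩ := fun n x hx =>
    psi2_zpow A e (cj φ u) hA n x hx (hAn n x hx)
  let w₂ : F2 := e ⟨z, hzA⟩
  have hw₂ : (ψ₂ ^ 2) w₂ = w₂ := by
    have h1 := hψ₂ 2 z hzA
    rw [zpow_ofNat ψ₂] at h1
    rw [h1]
    congr 1
    apply Subtype.ext
    show (cj φ u ^ (2 : ℤ)) z = z
    rw [zpow_ofNat]
    exact hz2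
  -- the amalgam
  let P : Subgroup (FreeGroup α) := A ⊔ C
  have hAP : A ≤ P := le_sup_left
  have hCP : C ≤ P := le_sup_right
  have hP := sup_inv hA hC
  let ψ := restr (cj φ u) P hP
  have hA' : ∀ x, ψ x ∈ A.subgroupOf P ↔ x ∈ A.subgroupOf P := fun x => hA x
  have hC' : ∀ x, ψ x ∈ C.subgroupOf P ↔ x ∈ C.subgroupOf P := fun x => hC x
  have hinj := emb_inj φ u hu P hP
  have hfg : ∀ B : Subgroup (FreeGroup α), B ≤ P → B.FG → (B.subgroupOf P).FG := by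
    intro B hB hBfg
    apply fg_of_map P.subtype P.subtype_injective
    rw [Subgroup.subgroupOf_map_subtype, inf_eq_left.mpr hB]
    exact hBfg
  have hinfP : A.subgroupOf P ⊓ C.subgroupOf P = (A ⊓ C).subgroupOf P := rfl
  -- the homomorphism to the mapping torus of rank two
  let E : HH (A.subgroupOf P) hA' →* MT ψ₂ :=
    { toFun := fun g => ⟨e ⟨((g : MT ψ).left : FreeGroup α), g.2⟩, (g : MT ψ).right⟩
      map_one' := by
        apply SemidirectProduct.ext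
        · show e ⟨1, _⟩ = 1
          exact map_one e
        · rfl
      map_mul' := by
        intro g h
        apply SemidirectProduct.ext
        · show e ⟨(((g : MT ψ) * (h : MT ψ)).left : FreeGroup α), _⟩ =
            e ⟨((g : MT ψ).left : FreeGroup α), g.2⟩ *
              (ψ₂ ^ (chi ψ (g : MT ψ))) (e ⟨((h : MT ψ).left : FreeGroup α), h.2⟩)
          rw [hψ₂, ← map_mul]
          congr 1
          apply Subtype.ext
          show (((g : MT ψ).left * (ψ ^ (chi ψ (g : MT ψ))) (h : MT ψ).left : P) : FreeGroup α) =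
            ((g : MT ψ).left : FreeGroup α) *
              (cj φ u ^ (chi ψ (g : MT ψ))) ((h : MT ψ).left : FreeGroup α)
          rw [← restr_zpow (cj φ u) P hP]
          rfl
        · rfl }
  have hE_inl : ∀ (x : FreeGroup α) (hx : x ∈ A), E ⟨SemidirectProduct.inl ⟨x, hAP hx⟩, hx⟩ =
      SemidirectProduct.inl (e ⟨x, hx⟩) := fun x hx => rfl
  have hE_tt : E ⟨tt ψ, tt_mem _ hA'⟩ = tt ψ₂ := by
    apply SemidirectProduct.ext
    · show e ⟨1, _⟩ = 1
      exact map_one e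
    · rfl
  have hrel : ∀ x : F2, ∃ c₀ c₁ : ℚ, ∀ f ∈ VF (MT ψ₂), c₀ * f (SemidirectProduct.inl w₂) +
      c₁ * f (SemidirectProduct.inl x * SemidirectProduct.inl w₂ * (SemidirectProduct.inl x)⁻¹) =
      f (tt ψ₂) - f (SemidirectProduct.inl x * tt ψ₂ * (SemidirectProduct.inl x)⁻¹) := by
    intro x
    apply dual_coeff
    intro f hf h1 h2
    obtain ⟨⟨y, hy⟩, rfl⟩ := e.surjective x
    have h3 := rigid_mt hA' hC' (lerf_inj hG _ hinj) (by
      rw [← Subgroup.subgroupOf_sup hAP hCP]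
      show P.subgroupOf P = ⊤
      simp) (up_of_amalgam ham) (hfg A hAP hAfg) (hfg C hCP hCfg)
      (by
        rw [hinfP]
        apply hfg _ (inf_le_left.trans hAP)
        rw [← hz, Subgroup.zpowers_eq_closure]
        exact ⟨{z}, by simp⟩)
      (by
        rw [hinfP, Subgroup.relIndex_subgroupOf hCP]
        exact hidx) ⟨y, hAP hy⟩ hy (fun g => f (E g)) (vf_comp E hf)
      (by
        rintro ⟨l, hlP⟩ hl hl'
        have hl'' : l ∈ A ⊓ C := ⟨hl, hl'⟩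
        rw [← hz] at hl''
        obtain ⟨n, hn⟩ := hl''
        have hn' : z ^ n = l := hn
        subst hn'
        show f (SemidirectProduct.inl (e ⟨z ^ n, hl⟩)) = 0
        have e1 : e ⟨z ^ n, hl⟩ = w₂ ^ n := by
          rw [← map_zpow]
          rfl
        rw [e1, map_zpow, vf_zpow hf, h1, mul_zero])
      (by
        rintro ⟨l, hlP⟩ hl hl'
        have hl'' : l ∈ A ⊓ C := ⟨hl, hl'⟩
        rw [← hz] at hl''
        obtain ⟨n, hn⟩ := hl''
        have hn' : z ^ n = l := hn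
        subst hn'
        show f (E (_ * _ * _⁻¹)) = 0
        rw [map_mul, map_mul, map_inv]
        show f (SemidirectProduct.inl (e ⟨y, hy⟩) * SemidirectProduct.inl (e ⟨z ^ n, hl⟩) *
          (SemidirectProduct.inl (e ⟨y, hy⟩))⁻¹) = 0
        have e1 : e ⟨z ^ n, hl⟩ = w₂ ^ n := by
          rw [← map_zpow]
          rfl
        rw [e1, map_zpow, ← conj_zpow, vf_zpow hf, h2, mul_zero])
    have h4 : f (E ⟨tt ψ, tt_mem _ hA'⟩) = f (E (⟨SemidirectProduct.inl ⟨y, hAP hy⟩, hy⟩ *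
      ⟨tt ψ, tt_mem _ hA'⟩ * (⟨SemidirectProduct.inl ⟨y, hAP hy⟩, hy⟩ : HH (A.subgroupOf P) hA')⁻¹)) := h3
    rw [map_mul, map_mul, map_inv, hE_inl, hE_tt] at h4
    exact h4
  obtain ⟨k, hk, hk2⟩ := rank_two ψ₂ w₂ hw₂ hrel
  -- the unipotent power
  have hpow : ψ₂ ^ (2 * k) = (ψ₂ ^ k) * (ψ₂ ^ k) := by rw [two_mul, pow_add]
  have hdet : (mat (ψ₂ ^ (2 * k))).det = 1 := by
    rw [hpow, mat_mul, Matrix.det_mul]
    exact mat_det _
  have huni : (mat (ψ₂ ^ (2 * k)) - 1) ^ 2 = 0 := by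
    rw [hpow, mat_mul, mat_pow]
    set N := (mat ψ₂) ^ k with hN
    have h1 : N * N - 1 = (N - 1) * (N + 1) := by noncomm_ring
    have h2 : (N - 1) * (N + 1) = (N + 1) * (N - 1) := by noncomm_ring
    rw [h1, pow_two]
    calc (N - 1) * (N + 1) * ((N - 1) * (N + 1)) = (N - 1) * ((N + 1) * (N - 1)) * (N + 1) := by
          noncomm_ring
      _ = (N - 1) ^ 2 * (N + 1) * (N + 1) := by rw [← h2]; noncomm_ring
      _ = 0 := by rw [hk2, zero_mul, zero_mul]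
  obtain ⟨ρ, g, m, hθ⟩ := unipotent_form (ψ₂ ^ (2 * k)) hdet huni
  -- the embedding of the mapping torus of rank two
  have hemb2 : ∀ x : F2, u * ((SemidirectProduct.inl : FreeGroup α →* MT φ).comp
      (A.subtype.comp e.symm.toMonoidHom)) x * u⁻¹ =
      ((SemidirectProduct.inl : FreeGroup α →* MT φ).comp (A.subtype.comp e.symm.toMonoidHom))
        (ψ₂ x) := by
    intro x
    obtain ⟨⟨y, hy⟩, rfl⟩ := e.surjective x
    have h1 := hψ₂ 1 y hy
    rw [zpow_one] at h1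
    rw [h1]
    show u * SemidirectProduct.inl ((e.symm (e ⟨y, hy⟩) : A) : FreeGroup α) * u⁻¹ =
      SemidirectProduct.inl ((e.symm (e ⟨(cj φ u ^ (1 : ℤ)) y, hAn 1 y hy⟩) : A) : FreeGroup α)
    rw [MulEquiv.symm_apply_apply, MulEquiv.symm_apply_apply]
    show u * SemidirectProduct.inl y * u⁻¹ = SemidirectProduct.inl ((cj φ u ^ (1 : ℤ)) y)
    rw [zpow_one, cj_spec]
  have hLERF2 : LERF (MT ψ₂) := by
    apply lerf_inj hG (mtmap _ u hemb2)
    apply mtmap_inj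
    · exact SemidirectProduct.inl_injective.comp (A.subtype_injective.comp e.symm.injective)
    · intro x; rfl
    · exact hu
  have hm0 : m = 0 := by
    by_contra hm
    apply not_lerf_la hm
    let s : MT ψ₂ := (SemidirectProduct.inl (ρ g))⁻¹ * (tt ψ₂) ^ ((2 * k : ℕ) : ℤ)
    have hs : ∀ x, s * ((SemidirectProduct.inl : F2 →* MT ψ₂).comp ρ.toMonoidHom) x * s⁻¹ =
        ((SemidirectProduct.inl : F2 →* MT ψ₂).comp ρ.toMonoidHom) ((la ^ m) x) := by
      intro x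
      show s * SemidirectProduct.inl (ρ x) * s⁻¹ = SemidirectProduct.inl (ρ ((la ^ m) x))
      have h1 := tt_conj ψ₂ ((2 * k : ℕ) : ℤ) (ρ x)
      rw [zpow_natCast ψ₂, hθ] at h1
      have h2 : (ρ * (MulAut.conj g * la ^ m) * ρ⁻¹) (ρ x) = ρ g * ρ ((la ^ m) x) * (ρ g)⁻¹ := by
        show ρ (g * (la ^ m) (ρ⁻¹ (ρ x)) * g⁻¹) = _
        rw [show ρ⁻¹ (ρ x) = x from MulAut.inv_apply_self _ ρ x, map_mul, map_mul, map_inv]
      rw [h2, map_mul, map_mul, map_inv] at h1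
      show (SemidirectProduct.inl (ρ g))⁻¹ * (tt ψ₂) ^ ((2 * k : ℕ) : ℤ) *
        SemidirectProduct.inl (ρ x) *
        ((SemidirectProduct.inl (ρ g))⁻¹ * (tt ψ₂) ^ ((2 * k : ℕ) : ℤ))⁻¹ = _
      calc _ = (SemidirectProduct.inl (ρ g))⁻¹ * ((tt ψ₂) ^ ((2 * k : ℕ) : ℤ) *
          SemidirectProduct.inl (ρ x) * ((tt ψ₂) ^ ((2 * k : ℕ) : ℤ))⁻¹) *
            SemidirectProduct.inl (ρ g) := by group
        _ = _ := by rw [h1]; group
    apply lerf_inj hLERF2 (mtmap _ s hs)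
    apply mtmap_inj
    · exact SemidirectProduct.inl_injective.comp ρ.injective
    · intro x; rfl
    · have h1 : chi ψ₂ s = 0 + ((2 * k : ℕ) : ℤ) * 1 := by
        show chi ψ₂ (SemidirectProduct.inl (ρ g))⁻¹ + chi ψ₂ ((tt ψ₂) ^ ((2 * k : ℕ) : ℤ)) = _
        have h2 : chi ψ₂ (SemidirectProduct.inl (ρ g))⁻¹ = 0 := by
          rw [← map_inv]; rfl
        have h3 : chi ψ₂ ((tt ψ₂) ^ ((2 * k : ℕ) : ℤ)) = ((2 * k : ℕ) : ℤ) * chi ψ₂ (tt ψ₂) :=
          (chi_hom ψ₂).zpow trivial _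
        rw [h2, h3, chi_tt]
      rw [h1]
      push_cast
      omega
  -- the centralizing element
  let h : FreeGroup α := ((e.symm (ρ g) : A) : FreeGroup α)
  have hhA : h ∈ A := (e.symm (ρ g)).2
  refine ⟨(SemidirectProduct.inl h)⁻¹ * u ^ ((2 * k : ℕ) : ℤ), ?_, ?_, ?_⟩
  · rw [mul_smul, stab_zpow huv, inv_smul_eq_iff]
    exact hhA.symm
  · rw [chi_mul, chi_inv, chi_inl, chi_zpow]
    have : ((2 * k : ℕ) : ℤ) ≠ 0 := by
      push_cast
      omega
    rw [neg_zero, zero_add]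
    exact mul_ne_zero this hu
  · intro y hy
    have h1 := cj_zpow φ u ((2 * k : ℕ) : ℤ) y
    have h2 : (cj φ u ^ ((2 * k : ℕ) : ℤ)) y = h * y * h⁻¹ := by
      have h3 := hψ₂ ((2 * k : ℕ) : ℤ) y hy
      rw [zpow_natCast ψ₂, hθ, hm0, zpow_zero, mul_one] at h3
      have h4 : (ρ * MulAut.conj g * ρ⁻¹) (e ⟨y, hy⟩) = ρ g * e ⟨y, hy⟩ * (ρ g)⁻¹ := by
        show ρ (g * (ρ⁻¹ (e ⟨y, hy⟩)) * g⁻¹) = _
        rw [map_mul, map_mul, map_inv,
          show ρ (ρ⁻¹ (e ⟨y, hy⟩)) = e ⟨y, hy⟩ from MulAut.apply_inv_self _ ρ _]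
      rw [h4] at h3
      have h5 : ρ g = e (e.symm (ρ g)) := (e.apply_symm_apply _).symm
      rw [h5, ← map_mul, ← map_inv, ← map_mul] at h3
      have h6 := congrArg Subtype.val (e.injective h3)
      exact h6.symm
    rw [h2, map_mul, map_mul, map_inv, mul_inv_eq_iff_eq_mul] at h1
    show (SemidirectProduct.inl h)⁻¹ * u ^ ((2 * k : ℕ) : ℤ) * SemidirectProduct.inl y =
      SemidirectProduct.inl y * ((SemidirectProduct.inl h)⁻¹ * u ^ ((2 * k : ℕ) : ℤ))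
    rw [mul_assoc, h1]
    group

end

end Run7.h574
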