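import Pool.Agent.Run7.h574.Pair
import Pool.Agent.Run7.h574.RankTwoG

/-!
# Pairs of invariant subgroups, rank two
-/

set_option autoImplicit false
set_option linter.unusedSectionVars false
set_option linter.dupNamespace false

namespace Run7.h574

/-- **Rank two**, a relation for powers of the generators suffices. -/
theorem rank_two' (ψ : MulAut F2) (w : F2) (hw : (ψ ^ 2) w = w) (r : ℤ) (hr : r ≠ 0)
    (H : ∀ j : Fin 2, ∃ c₀ c₁ : ℚ, ∀ f ∈ VF (MT ψ), c₀ * f (SemidirectProduct.inl w) +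
      c₁ * f (SemidirectProduct.inl (FreeGroup.of j ^ r) * SemidirectProduct.inl w *
        (SemidirectProduct.inl (FreeGroup.of j ^ r))⁻¹) =
      f (tt ψ) - f (SemidirectProduct.inl (FreeGroup.of j ^ r) * tt ψ *
        (SemidirectProduct.inl (FreeGroup.of j ^ r))⁻¹)) :
    ∃ k : ℕ, 0 < k ∧ ((mat ψ) ^ k - 1) ^ 2 = 0 := by
  by_contra hcon
  push Not at hcon
  set N : Matrix (Fin 2) (Fin 2) ℤ := mat (ψ ^ 2) with hN
  have hN2 : N = (mat ψ) ^ 2 := mat_pow ψ 2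
  have hdet : N.det = 1 := by
    rw [hN2, pow_two, Matrix.det_mul]
    exact mat_det ψ
  have hNk : ∀ k : ℕ, 0 < k → (N ^ k - 1) ^ 2 ≠ 0 := by
    intro k hk
    rw [hN2, ← pow_mul]
    exact hcon (2 * k) (by omega)
  have hD : (N - 1).det ≠ 0 := det_sub_one N hdet (by simpa using hNk 1 one_pos)
  have hw0 : av w = 0 := by
    apply Matrix.eq_zero_of_mulVec_eq_zero hD
    rw [Matrix.sub_mulVec, Matrix.one_mulVec, hN, ← av_apply, hw, sub_self]
  obtain ⟨p, e, k, hp, hpB, he, hk, hpD, hdiv, hndiv⟩ := exists_level N hdet hNk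
    (max (2 * w.toWord.length) r.natAbs)
  -- conjugators
  obtain ⟨g₁, hg₁⟩ := cab_conj_sq ψ
  have hg : ∀ j : ℕ, ∃ g : F2, ((ψ ^ 2) ^ j) cab = g * cab * g⁻¹ ∧
      (N - 1).mulVec (av g) = (N ^ j - 1).mulVec (av g₁) := by
    intro j
    induction j with
    | zero =>
      refine ⟨1, by simp, ?_⟩
      rw [av_one, Matrix.mulVec_zero, pow_zero, sub_self, Matrix.zero_mulVec]
    | succ j ih =>
      obtain ⟨g, hg, hg'⟩ := ih
      refine ⟨(ψ ^ 2) g * g₁, ?_, ?_⟩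
      · rw [pow_succ', MulAut.mul_apply, hg, map_mul, map_mul, map_inv, hg₁]
        group
      · have h1 : av ((ψ ^ 2) g * g₁) = N.mulVec (av g) + av g₁ := by
          rw [av_mul, av_apply]
        rw [h1, Matrix.mulVec_add, Matrix.mulVec_mulVec]
        have h2 : (N - 1) * N = N * (N - 1) := by noncomm_ring
        rw [h2, ← Matrix.mulVec_mulVec, hg', Matrix.mulVec_mulVec, ← Matrix.add_mulVec]
        congr 1
        rw [pow_succ']
        noncomm_ring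
  obtain ⟨g, hgc, hgv⟩ := hg k
  have hm0 : p ^ e ≠ 0 := pow_ne_zero _ hp.ne_zero
  have hmcast : ((p ^ e : ℕ) : ℤ) = (p : ℤ) ^ e := by push_cast; rfl
  have hpow : ψ ^ (2 * k) = (ψ ^ 2) ^ k := pow_mul _ _ _
  have hav : ∀ x : F2, av ((ψ ^ (2 * k)) x * x⁻¹) = (N ^ k - 1).mulVec (av x) := by
    intro x
    rw [av_mul, av_inv, av_apply, hpow, mat_pow, Matrix.sub_mulVec, Matrix.one_mulVec]
    rw [sub_eq_add_neg]
  have hdv : ∀ (v : Fin 2 → ℤ) i, ((p : ℤ) ^ e) ∣ ((N ^ k - 1).mulVec v) i := by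
    intro v i
    have h5 : ((N ^ k - 1).mulVec v) i = ∑ j, (N ^ k - 1) i j * v j := rfl
    rw [h5]
    exact Finset.dvd_sum (fun j _ => Dvd.dvd.mul_right (hdiv i j) _)
  let D : Level ψ :=
    { m := p ^ e
      hm := ⟨hm0⟩
      l := 2 * k
      hl := by omega
      triv := by
        intro x
        rw [rd_eq_one]
        intro i
        rw [hav, hmcast]
        exact hdv _ i
      g := g
      hg := by
        rw [rd_eq_one, hmcast]
        apply dvd_of_adj p hp e (N - 1) hpD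
        intro i
        rw [hgv]
        exact hdv _ i
      hcab := by
        rw [hpow, hgc] }
  have hcard : 2 * w.toWord.length < D.m * D.m := by
    show 2 * w.toWord.length < p ^ e * p ^ e
    have h1 : p ≤ p ^ e := Nat.le_self_pow (by omega) p
    have h2 : 1 ≤ p ^ e := Nat.one_le_iff_ne_zero.mpr hm0
    have h3 : 2 * w.toWord.length < p := lt_of_le_of_lt (le_max_left _ _) hpB
    nlinarith
  apply hndiv
  intro i j
  obtain ⟨c₀, c₁, hc⟩ := H j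
  have h1 := D.congr w (FreeGroup.of j ^ r) hw0 hcard c₀ c₁ hc i
  have hzp : av (FreeGroup.of j ^ r) = r • av (FreeGroup.of j) := by
    unfold av
    rw [map_zpow, toAdd_zpow]
  have h2 : av ((ψ ^ D.l) (FreeGroup.of j ^ r) * (FreeGroup.of j ^ r)⁻¹) i =
      r * (N ^ k - 1) i j := by
    show av ((ψ ^ (2 * k)) (FreeGroup.of j ^ r) * (FreeGroup.of j ^ r)⁻¹) i = _
    rw [hav, hzp, av_of, Matrix.mulVec_smul, Matrix.mulVec_single_one]
    rfl
  rw [h2] at h1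
  have h3 : ((p : ℤ) ^ (e + 1)) ∣ ((D.m : ℤ) * D.m) := by
    show ((p : ℤ) ^ (e + 1)) ∣ (((p ^ e : ℕ) : ℤ) * ((p ^ e : ℕ) : ℤ))
    rw [hmcast, ← pow_add]
    exact pow_dvd_pow _ (by omega)
  have h4 := h3.trans h1
  have hpr : ¬ ((p : ℤ) ∣ r) := by
    intro hcon
    have h5 : p ∣ r.natAbs := Int.natCast_dvd.mp hcon
    have h6 := Nat.le_of_dvd (Int.natAbs_pos.mpr hr) h5
    have h7 := le_max_right (2 * w.toWord.length) r.natAbs
    omega
  have hco : IsCoprime ((p : ℤ) ^ (e + 1)) r := by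
    apply IsCoprime.pow_left
    exact (Nat.prime_iff_prime_int.mp hp).coprime_iff_not_dvd.mpr hpr
  exact hco.dvd_of_dvd_mul_left h4

section

variable {α : Type} {φ : MulAut (FreeGroup α)}

/-- **Pairs of invariant subgroups**, the first one free of rank two. -/
theorem pair_rank2 [Finite α] (hG : LERF (MT φ)) {A C : Subgroup (FreeGroup α)} (e : A ≃* F2)
    (hCfg : C.FG) {u₀ : MT φ} (hu₀ : chi φ u₀ ≠ 0) (hAu : ∀ x, cj φ u₀ x ∈ A ↔ x ∈ A)
    (hCu : ∀ x, cj φ u₀ x ∈ C ↔ x ∈ C) (hcyc : IsCyclic (A ⊓ C : Subgroup (FreeGroup α)))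
    (hidx : (A ⊓ C).relIndex C = 0) :
    ∃ (n : ℤ) (h : FreeGroup α), n ≠ 0 ∧ h ∈ A ∧ ∀ y ∈ A,
      u₀ ^ n * SemidirectProduct.inl y * (u₀ ^ n)⁻¹ = SemidirectProduct.inl (h * y * h⁻¹) := by
  have hAfg : A.FG := by
    have h1 : Group.FG A := Group.fg_of_surjective (f := e.symm.toMonoidHom) e.symm.surjective
    exact (Group.fg_iff_subgroup_fg _).mp h1
  obtain ⟨K, k₀, hK, hk₀, hLK, ham, hA, hC, hKk⟩ :=
    deep hG hAfg hCfg (fg_of_cyclic hcyc) u₀ hAu hCu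
  set u : MT φ := u₀ ^ k₀ with huu
  have hu : chi φ u ≠ 0 := by rw [huu, chi_zpow]; exact mul_ne_zero hk₀.ne' hu₀
  obtain ⟨z, hz⟩ := (Subgroup.isCyclic_iff_exists_zpowers_eq_top (A ⊓ C)).mp hcyc
  have hzAC : z ∈ A ⊓ C := by rw [← hz]; exact Subgroup.mem_zpowers z
  have hzA : z ∈ A := hzAC.1
  have hAC : ∀ x, cj φ u x ∈ A ⊓ C ↔ x ∈ A ⊓ C := fun x =>
    ⟨fun h => ⟨(hA x).mp h.1, (hC x).mp h.2⟩, fun h => ⟨(hA x).mpr h.1, (hC x).mpr h.2⟩⟩
  have hz2 : (cj φ u ^ 2) z = z := sq_comm (by rw [hz]; exact hAC)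
  have hinf : (A ⊓ K) ⊓ (C ⊓ K) = A ⊓ C := by
    apply le_antisymm
    · intro x hx
      exact ⟨hx.1.1, hx.2.1⟩
    · intro x hx
      exact ⟨⟨hx.1, hLK hx⟩, ⟨hx.2, hLK hx⟩⟩
  have hAK : ∀ x, cj φ u x ∈ A ⊓ K ↔ x ∈ A ⊓ K := fun x => by
    rw [Subgroup.mem_inf, Subgroup.mem_inf, hA, hKk]
  have hCK : ∀ x, cj φ u x ∈ C ⊓ K ↔ x ∈ C ⊓ K := fun x => by
    rw [Subgroup.mem_inf, Subgroup.mem_inf, hC, hKk]
  -- powers of the automorphism preserve A
  have hAn : ∀ (n : ℤ) x, x ∈ A → (cj φ u ^ n) x ∈ A := fun n x hx => (inv_zpow_mem hA n x).mpr hx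
  let ψ₂ : MulAut F2 := psi2 A e (cj φ u) hA
  have hψ₂ : ∀ (n : ℤ) (x : FreeGroup α) (hx : x ∈ A),
      (ψ₂ ^ n) (e ⟨x, hx⟩) = e ⟨(cj φ u ^ n) x, hAn n x hx⟩ := fun n x hx =>
    psi2_zpow A e (cj φ u) hA n x hx (hAn n x hx)
  let w₂ : F2 := e ⟨z, hzA⟩
  have hw₂ : (ψ₂ ^ 2) w₂ = w₂ := by
    have h1 := hψ₂ 2 z hzA
    rw [zpow_ofNat ψ₂] at h1
    rw [h1]
    congr 1
    apply Subtype.ext
    show (cj φ u ^ (2 : ℤ)) z = z
    rw [zpow_ofNat]
    exact hz2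
  -- the amalgam
  let P : Subgroup (FreeGroup α) := (A ⊓ K) ⊔ (C ⊓ K)
  have hAP : A ⊓ K ≤ P := le_sup_left
  have hCP : C ⊓ K ≤ P := le_sup_right
  have hP := sup_inv hAK hCK
  let ψ := restr (cj φ u) P hP
  have hA' : ∀ x, ψ x ∈ (A ⊓ K).subgroupOf P ↔ x ∈ (A ⊓ K).subgroupOf P := fun x => hAK x
  have hC' : ∀ x, ψ x ∈ (C ⊓ K).subgroupOf P ↔ x ∈ (C ⊓ K).subgroupOf P := fun x => hCK x
  have hinj := emb_inj φ u hu P hP
  have hfg : ∀ B : Subgroup (FreeGroup α), B ≤ P → B.FG → (B.subgroupOf P).FG := by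
    intro B hB hBfg
    apply fg_of_map P.subtype P.subtype_injective
    rw [Subgroup.subgroupOf_map_subtype, inf_eq_left.mpr hB]
    exact hBfg
  have hinfP : (A ⊓ K).subgroupOf P ⊓ (C ⊓ K).subgroupOf P = ((A ⊓ K) ⊓ (C ⊓ K)).subgroupOf P := rfl
  -- the homomorphism to the mapping torus of rank two
  let E : HH ((A ⊓ K).subgroupOf P) hA' →* MT ψ₂ :=
    { toFun := fun g => ⟨e ⟨((g : MT ψ).left : FreeGroup α), g.2.1⟩, (g : MT ψ).right⟩
      map_one' := by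
        apply SemidirectProduct.ext
        · show e ⟨1, _⟩ = 1
          exact map_one e
        · rfl
      map_mul' := by
        intro g h
        apply SemidirectProduct.ext
        · show e ⟨(((g : MT ψ) * (h : MT ψ)).left : FreeGroup α), _⟩ =
            e ⟨((g : MT ψ).left : FreeGroup α), g.2.1⟩ *
              (ψ₂ ^ (chi ψ (g : MT ψ))) (e ⟨((h : MT ψ).left : FreeGroup α), h.2.1⟩)
          rw [hψ₂, ← map_mul]
          congr 1
          apply Subtype.ext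
          show (((g : MT ψ).left * (ψ ^ (chi ψ (g : MT ψ))) (h : MT ψ).left : P) : FreeGroup α) =
            ((g : MT ψ).left : FreeGroup α) *
              (cj φ u ^ (chi ψ (g : MT ψ))) ((h : MT ψ).left : FreeGroup α)
          rw [← restr_zpow (cj φ u) P hP]
          rfl
        · rfl }
  have hE_inl : ∀ (x : FreeGroup α) (hx : x ∈ A ⊓ K), E ⟨SemidirectProduct.inl ⟨x, hAP hx⟩, hx⟩ =
      SemidirectProduct.inl (e ⟨x, hx.1⟩) := fun x hx => rfl
  have hE_tt : E ⟨tt ψ, tt_mem _ hA'⟩ = tt ψ₂ := by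
    apply SemidirectProduct.ext
    · show e ⟨1, _⟩ = 1
      exact map_one e
    · rfl
  -- powers of the generators in the deep subgroup
  obtain ⟨n₀, hn₀, hn₀'⟩ := exists_pow_mem K ((e.symm (FreeGroup.of 0) : A) : FreeGroup α)
  obtain ⟨n₁, hn₁, hn₁'⟩ := exists_pow_mem K ((e.symm (FreeGroup.of 1) : A) : FreeGroup α)
  have hrj : ∀ j : Fin 2, ((e.symm (FreeGroup.of j) : A) : FreeGroup α) ^ (n₀ * n₁) ∈ A ⊓ K := by
    intro j
    refine ⟨A.zpow_mem (e.symm (FreeGroup.of j)).2 _, ?_⟩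
    fin_cases j
    · rw [zpow_mul]; exact K.zpow_mem hn₀' _
    · rw [mul_comm, zpow_mul]; exact K.zpow_mem hn₁' _
  have hrel : ∀ j : Fin 2, ∃ c₀ c₁ : ℚ, ∀ f ∈ VF (MT ψ₂), c₀ * f (SemidirectProduct.inl w₂) +
      c₁ * f (SemidirectProduct.inl (FreeGroup.of j ^ (n₀ * n₁)) * SemidirectProduct.inl w₂ *
        (SemidirectProduct.inl (FreeGroup.of j ^ (n₀ * n₁)))⁻¹) =
      f (tt ψ₂) - f (SemidirectProduct.inl (FreeGroup.of j ^ (n₀ * n₁)) * tt ψ₂ *
        (SemidirectProduct.inl (FreeGroup.of j ^ (n₀ * n₁)))⁻¹) := by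
    intro j
    apply dual_coeff
    intro f hf h1 h2
    set y : FreeGroup α := ((e.symm (FreeGroup.of j) : A) : FreeGroup α) ^ (n₀ * n₁) with hyy
    have hy : y ∈ A ⊓ K := hrj j
    have hey : FreeGroup.of j ^ (n₀ * n₁) = e ⟨y, hy.1⟩ := by
      have h3 : (⟨y, hy.1⟩ : A) = (e.symm (FreeGroup.of j)) ^ (n₀ * n₁) := Subtype.ext (by
        rw [SubgroupClass.coe_zpow])
      rw [h3, map_zpow, MulEquiv.apply_symm_apply]
    rw [hey] at h2 ⊢
    have h3 := rigid_mt hA' hC' (lerf_inj hG _ hinj) (by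
      rw [← Subgroup.subgroupOf_sup hAP hCP]
      show P.subgroupOf P = ⊤
      simp) (up_of_amalgam ham) (hfg (A ⊓ K) hAP (fg_inf' hAfg hK)) (hfg (C ⊓ K) hCP (fg_inf' hCfg hK))
      (by
        rw [hinfP, hinf]
        apply hfg _ (by rw [← hinf]; exact inf_le_left.trans hAP)
        exact fg_of_cyclic hcyc)
      (by
        rw [hinfP, Subgroup.relIndex_subgroupOf hCP, hinf]
        exact relIndex_deep hK inf_le_right hLK hidx) ⟨y, hAP hy⟩ hy (fun g => f (E g)) (vf_comp E hf)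
      (by
        rintro ⟨l, hlP⟩ hl hl'
        have hl'' : l ∈ A ⊓ C := by rw [← hinf]; exact ⟨hl, hl'⟩
        rw [← hz] at hl''
        obtain ⟨n, hn⟩ := hl''
        have hn' : z ^ n = l := hn
        subst hn'
        show f (SemidirectProduct.inl (e ⟨z ^ n, hl.1⟩)) = 0
        have e1 : e ⟨z ^ n, hl.1⟩ = w₂ ^ n := by
          rw [← map_zpow]
          rfl
        rw [e1, map_zpow, vf_zpow hf, h1, mul_zero])
      (by
        rintro ⟨l, hlP⟩ hl hl'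
        have hl'' : l ∈ A ⊓ C := by rw [← hinf]; exact ⟨hl, hl'⟩
        rw [← hz] at hl''
        obtain ⟨n, hn⟩ := hl''
        have hn' : z ^ n = l := hn
        subst hn'
        show f (E (_ * _ * _⁻¹)) = 0
        rw [map_mul, map_mul, map_inv]
        show f (SemidirectProduct.inl (e ⟨y, hy.1⟩) * SemidirectProduct.inl (e ⟨z ^ n, hl.1⟩) *
          (SemidirectProduct.inl (e ⟨y, hy.1⟩))⁻¹) = 0
        have e1 : e ⟨z ^ n, hl.1⟩ = w₂ ^ n := by
          rw [← map_zpow]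
          rfl
        rw [e1, map_zpow, ← conj_zpow, vf_zpow hf, h2, mul_zero])
    have h4 : f (E ⟨tt ψ, tt_mem _ hA'⟩) = f (E (⟨SemidirectProduct.inl ⟨y, hAP hy⟩, hy⟩ *
      ⟨tt ψ, tt_mem _ hA'⟩ *
        (⟨SemidirectProduct.inl ⟨y, hAP hy⟩, hy⟩ : HH ((A ⊓ K).subgroupOf P) hA')⁻¹)) := h3
    rw [map_mul, map_mul, map_inv, hE_inl, hE_tt] at h4
    exact h4
  obtain ⟨k, hk, hk2⟩ := rank_two' ψ₂ w₂ hw₂ (n₀ * n₁) (mul_ne_zero hn₀.ne' hn₁.ne') hrel
  -- the unipotent power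
  have hpow : ψ₂ ^ (2 * k) = (ψ₂ ^ k) * (ψ₂ ^ k) := by rw [two_mul, pow_add]
  have hdet : (mat (ψ₂ ^ (2 * k))).det = 1 := by
    rw [hpow, mat_mul, Matrix.det_mul]
    exact mat_det _
  have huni : (mat (ψ₂ ^ (2 * k)) - 1) ^ 2 = 0 := by
    rw [hpow, mat_mul, mat_pow]
    set N := (mat ψ₂) ^ k with hN
    have h1 : N * N - 1 = (N - 1) * (N + 1) := by noncomm_ring
    have h2 : (N - 1) * (N + 1) = (N + 1) * (N - 1) := by noncomm_ring
    rw [h1, pow_two]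
    calc (N - 1) * (N + 1) * ((N - 1) * (N + 1)) = (N - 1) * ((N + 1) * (N - 1)) * (N + 1) := by
          noncomm_ring
      _ = (N - 1) ^ 2 * (N + 1) * (N + 1) := by rw [← h2]; noncomm_ring
      _ = 0 := by rw [hk2, zero_mul, zero_mul]
  obtain ⟨ρ, g, m, hθ⟩ := unipotent_form (ψ₂ ^ (2 * k)) hdet huni
  -- the embedding of the mapping torus of rank two
  have hemb2 : ∀ x : F2, u * ((SemidirectProduct.inl : FreeGroup α →* MT φ).comp
      (A.subtype.comp e.symm.toMonoidHom)) x * u⁻¹ =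
      ((SemidirectProduct.inl : FreeGroup α →* MT φ).comp (A.subtype.comp e.symm.toMonoidHom))
        (ψ₂ x) := by
    intro x
    obtain ⟨⟨y, hy⟩, rfl⟩ := e.surjective x
    have h1 := hψ₂ 1 y hy
    rw [zpow_one] at h1
    rw [h1]
    show u * SemidirectProduct.inl ((e.symm (e ⟨y, hy⟩) : A) : FreeGroup α) * u⁻¹ =
      SemidirectProduct.inl ((e.symm (e ⟨(cj φ u ^ (1 : ℤ)) y, hAn 1 y hy⟩) : A) : FreeGroup α)
    rw [MulEquiv.symm_apply_apply, MulEquiv.symm_apply_apply]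
    show u * SemidirectProduct.inl y * u⁻¹ = SemidirectProduct.inl ((cj φ u ^ (1 : ℤ)) y)
    rw [zpow_one, cj_spec]
  have hLERF2 : LERF (MT ψ₂) := by
    apply lerf_inj hG (mtmap _ u hemb2)
    apply mtmap_inj
    · exact SemidirectProduct.inl_injective.comp (A.subtype_injective.comp e.symm.injective)
    · intro x; rfl
    · exact hu
  have hm0 : m = 0 := by
    by_contra hm
    apply not_lerf_la hm
    let s : MT ψ₂ := (SemidirectProduct.inl (ρ g))⁻¹ * (tt ψ₂) ^ ((2 * k : ℕ) : ℤ)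
    have hs : ∀ x, s * ((SemidirectProduct.inl : F2 →* MT ψ₂).comp ρ.toMonoidHom) x * s⁻¹ =
        ((SemidirectProduct.inl : F2 →* MT ψ₂).comp ρ.toMonoidHom) ((la ^ m) x) := by
      intro x
      show s * SemidirectProduct.inl (ρ x) * s⁻¹ = SemidirectProduct.inl (ρ ((la ^ m) x))
      have h1 := tt_conj ψ₂ ((2 * k : ℕ) : ℤ) (ρ x)
      rw [zpow_natCast ψ₂, hθ] at h1
      have h2 : (ρ * (MulAut.conj g * la ^ m) * ρ⁻¹) (ρ x) = ρ g * ρ ((la ^ m) x) * (ρ g)⁻¹ := by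
        show ρ (g * (la ^ m) (ρ⁻¹ (ρ x)) * g⁻¹) = _
        rw [show ρ⁻¹ (ρ x) = x from MulAut.inv_apply_self _ ρ x, map_mul, map_mul, map_inv]
      rw [h2, map_mul, map_mul, map_inv] at h1
      show (SemidirectProduct.inl (ρ g))⁻¹ * (tt ψ₂) ^ ((2 * k : ℕ) : ℤ) *
        SemidirectProduct.inl (ρ x) *
        ((SemidirectProduct.inl (ρ g))⁻¹ * (tt ψ₂) ^ ((2 * k : ℕ) : ℤ))⁻¹ = _
      calc _ = (SemidirectProduct.inl (ρ g))⁻¹ * ((tt ψ₂) ^ ((2 * k : ℕ) : ℤ) *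
          SemidirectProduct.inl (ρ x) * ((tt ψ₂) ^ ((2 * k : ℕ) : ℤ))⁻¹) *
            SemidirectProduct.inl (ρ g) := by group
        _ = _ := by rw [h1]; group
    apply lerf_inj hLERF2 (mtmap _ s hs)
    apply mtmap_inj
    · exact SemidirectProduct.inl_injective.comp ρ.injective
    · intro x; rfl
    · have h1 : chi ψ₂ s = 0 + ((2 * k : ℕ) : ℤ) * 1 := by
        show chi ψ₂ (SemidirectProduct.inl (ρ g))⁻¹ + chi ψ₂ ((tt ψ₂) ^ ((2 * k : ℕ) : ℤ)) = _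
        have h2 : chi ψ₂ (SemidirectProduct.inl (ρ g))⁻¹ = 0 := by
          rw [← map_inv]; rfl
        have h3 : chi ψ₂ ((tt ψ₂) ^ ((2 * k : ℕ) : ℤ)) = ((2 * k : ℕ) : ℤ) * chi ψ₂ (tt ψ₂) :=
          (chi_hom ψ₂).zpow trivial _
        rw [h2, h3, chi_tt]
      rw [h1]
      push_cast
      omega
  -- the conjugating element
  let h : FreeGroup α := ((e.symm (ρ g) : A) : FreeGroup α)
  have hhA : h ∈ A := (e.symm (ρ g)).2
  refine ⟨k₀ * ((2 * k : ℕ) : ℤ), h, mul_ne_zero hk₀.ne' (by push_cast; omega), hhA, ?_⟩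
  intro y hy
  have h1 := cj_zpow φ u ((2 * k : ℕ) : ℤ) y
  have h2 : (cj φ u ^ ((2 * k : ℕ) : ℤ)) y = h * y * h⁻¹ := by
    have h3 := hψ₂ ((2 * k : ℕ) : ℤ) y hy
    rw [zpow_natCast ψ₂, hθ, hm0, zpow_zero, mul_one] at h3
    have h4 : (ρ * MulAut.conj g * ρ⁻¹) (e ⟨y, hy⟩) = ρ g * e ⟨y, hy⟩ * (ρ g)⁻¹ := by
      show ρ (g * (ρ⁻¹ (e ⟨y, hy⟩)) * g⁻¹) = _
      rw [map_mul, map_mul, map_inv,
        show ρ (ρ⁻¹ (e ⟨y, hy⟩)) = e ⟨y, hy⟩ from MulAut.apply_inv_self _ ρ _]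
    rw [h4] at h3
    have h5 : ρ g = e (e.symm (ρ g)) := (e.apply_symm_apply _).symm
    rw [h5, ← map_mul, ← map_inv, ← map_mul] at h3
    have h6 := congrArg Subtype.val (e.injective h3)
    exact h6.symm
  rw [h2] at h1
  rw [zpow_mul]
  exact h1

end

end Run7.h574
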