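import Pool.Agent.Run7.h574.Vfun

/-!
# Homological rigidity for virtual homomorphisms of the first factor
-/

set_option autoImplicit false
set_option linter.unusedSectionVars false
set_option linter.dupNamespace false

namespace Run7.h574

/-- In a LERF group a finite index subgroup of a finitely generated subgroup contains the
intersection with a normal subgroup of finite index. -/
lemma exists_core {Γ : Type} [Group Γ] (hΓ : LERF Γ) (H : Subgroup Γ) (hH : H.FG)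
    (K : Subgroup H) (hK : K.FiniteIndex) :
    ∃ G₀ : Subgroup Γ, G₀.Normal ∧ G₀.FiniteIndex ∧ ∀ g (h : g ∈ H), g ∈ G₀ → (⟨g, h⟩ : H) ∈ K := by
  classical
  have h1 : Group.FG H := (Group.fg_iff_subgroup_fg _).mpr hH
  have h3 : Group.FG K := inferInstance
  have h4 : K.FG := (Group.fg_iff_subgroup_fg _).mp h3
  have h5 : (K.map H.subtype).FG := fg_map H.subtype h4
  have h6 : ∀ q : H ⧸ K, ∃ G₁ : Subgroup Γ, G₁.FiniteIndex ∧ K.map H.subtype ≤ G₁ ∧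
      ((q.out : H) ∉ K → ((q.out : H) : Γ) ∉ G₁) := by
    intro q
    by_cases hq : (q.out : H) ∈ K
    · exact ⟨⊤, inferInstance, le_top, fun h => absurd hq h⟩
    · obtain ⟨G₁, h7, h8, h9⟩ := hΓ _ h5 ((q.out : H) : Γ) (by
        rintro ⟨k, hk, hk'⟩
        exact hq (Subtype.ext hk' ▸ hk))
      exact ⟨G₁, h7, h8, fun _ => h9⟩
  choose G₁ h7 h8 h9 using h6
  have hfin : Finite (H ⧸ K) := Subgroup.finite_quotient_of_finiteIndex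
  have h10 : (⨅ q, G₁ q).FiniteIndex := Subgroup.finiteIndex_iInf h7
  refine ⟨(⨅ q, G₁ q).normalCore, inferInstance, inferInstance, ?_⟩
  intro g hg hgG
  have h11 : g ∈ ⨅ q, G₁ q := Subgroup.normalCore_le _ hgG
  rw [Subgroup.mem_iInf] at h11
  obtain ⟨k, hk⟩ := QuotientGroup.mk_out_eq_mul K (⟨g, hg⟩ : H)
  have h12 := h11 (QuotientGroup.mk (⟨g, hg⟩ : H))
  by_contra hne
  have h13 : ((QuotientGroup.mk (⟨g, hg⟩ : H) : H ⧸ K).out : H) ∉ K := by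
    rw [hk]
    intro h14
    exact hne ((Subgroup.mul_mem_cancel_right K k.2).mp h14)
  apply h9 _ h13
  rw [hk]
  exact (G₁ _).mul_mem h12 (h8 _ ⟨k, k.2, rfl⟩)

section

variable {Γ : Type} [Group Γ]

lemma fg_of_ker {H : Subgroup Γ} {χ : Γ → ℤ} (hχ : HomOn ⊤ χ) {t : Γ} (ht : t ∈ H)
    (htχ : χ t = 1) (hA : (kerOn H χ (hχ.mono le_top)).FG) : H.FG := by
  have h1 : H = kerOn H χ (hχ.mono le_top) ⊔ Subgroup.zpowers t := by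
    apply le_antisymm
    · intro g hg
      have h2 : g * (t ^ (χ g))⁻¹ ∈ kerOn H χ (hχ.mono le_top) := by
        refine ⟨H.mul_mem hg (H.inv_mem (H.zpow_mem ht _)), ?_⟩
        rw [hχ _ trivial _ trivial, hχ.inv trivial, hχ.zpow trivial, htχ]
        ring
      have h3 : g = g * (t ^ (χ g))⁻¹ * t ^ (χ g) := by group
      rw [h3]
      exact Subgroup.mul_mem _ (Subgroup.mem_sup_left h2)
        (Subgroup.mem_sup_right (Subgroup.zpow_mem _ (Subgroup.mem_zpowers t) _))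
    · rw [sup_le_iff, Subgroup.zpowers_le]
      exact ⟨fun g hg => hg.1, ht⟩
  rw [h1]
  refine hA.sup ?_
  rw [Subgroup.zpowers_eq_closure]
  exact ⟨{t}, by simp⟩

/-- **Homological rigidity**, version for virtual homomorphisms of the first factor. -/
theorem rigid_vf (hΓ : LERF Γ) (H₁ H₂ : Subgroup Γ) (χ : Γ → ℤ) (hχ : HomOn ⊤ χ) (t : Γ)
    (ht₁ : t ∈ H₁) (ht₂ : t ∈ H₂) (htχ : χ t = 1)
    (hA : (kerOn H₁ χ (hχ.mono le_top)).FG) (hC : (kerOn H₂ χ (hχ.mono le_top)).FG)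
    (hL : (kerOn (H₁ ⊓ H₂) χ (hχ.mono le_top)).FG)
    (hidx : ∀ K : Subgroup Γ, K.FiniteIndex → ∃ c ∈ H₂, χ c = 0 ∧ c ∈ K ∧ c ∉ H₁)
    (hUP : ∀ (Ω : Type) (ρ₁ : H₁ →* Equiv.Perm Ω) (ρ₂ : H₂ →* Equiv.Perm Ω),
      (∀ e (h₁ : e ∈ H₁) (h₂ : e ∈ H₂), ρ₁ ⟨e, h₁⟩ = ρ₂ ⟨e, h₂⟩) →
      ∃ ρ : Γ →* Equiv.Perm Ω, (∀ g : H₁, ρ g = ρ₁ g) ∧ ∀ g : H₂, ρ g = ρ₂ g)
    (x : H₁) (hxχ : χ x = 0) (f : H₁ → ℚ) (hf : f ∈ VF H₁)
    (hf1 : ∀ l : H₁, (l : Γ) ∈ H₂ → χ l = 0 → f l = 0)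
    (hf2 : ∀ l : H₁, (l : Γ) ∈ H₂ → χ l = 0 → f (x * l * x⁻¹) = 0) :
    f ⟨t, ht₁⟩ = f (x * ⟨t, ht₁⟩ * x⁻¹) := by
  classical
  obtain ⟨K, β, m, hK, hβ, hm, H⟩ := hf
  obtain ⟨G₀, hn, hfi, hG₀⟩ := exists_core hΓ H₁ (fg_of_ker hχ ht₁ htχ hA) K hK
  let β' : Γ → ℤ := fun g => if h : g ∈ H₁ then β ⟨g, h⟩ else 0
  have hβ' : ∀ g : H₁, β' g = β g := fun g => dif_pos g.2
  have hβ'h : HomOn (H₁ ⊓ G₀) β' := by
    intro a ha b hb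
    have e1 := hβ' (⟨a, ha.1⟩ * ⟨b, hb.1⟩)
    have e2 := hβ' ⟨a, ha.1⟩
    have e3 := hβ' ⟨b, hb.1⟩
    rw [hβ _ (hG₀ a ha.1 ha.2) _ (hG₀ b hb.1 hb.2), ← e2, ← e3] at e1
    exact e1
  obtain ⟨k, hk, hkG⟩ := exists_pow_mem G₀ t
  have hz : ∀ (g : H₁), (g : Γ) ∈ G₀ → (β g : ℚ) = m * f g := by
    intro g hg
    have h1 := H g 1 (by rw [zpow_one]; exact hG₀ g g.2 hg)
    rw [zpow_one] at h1
    rw [h1]
    push_cast
    ring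
  have hm' : (m : ℚ) ≠ 0 := by exact_mod_cast hm.ne'
  have hk' : (k : ℚ) ≠ 0 := by exact_mod_cast hk.ne'
  have h1 := rigid hΓ H₁ H₂ χ hχ t ht₁ ht₂ htχ hA hC hL hidx hUP G₀ β' hβ'h k hk hkG x x.2 hxχ
    (fun l h₁ h₂ h₃ h₄ => by
      rw [hβ' ⟨l, h₁⟩]
      have e1 := hz ⟨l, h₁⟩ h₄
      rw [hf1 ⟨l, h₁⟩ h₂ h₃, mul_zero] at e1
      exact_mod_cast e1)
    (fun l h₁ h₂ h₃ h₄ => by
      have e1 := hz (x * ⟨l, h₁⟩ * x⁻¹) (Subgroup.Normal.conj_mem hn l h₄ x)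
      rw [hf2 ⟨l, h₁⟩ h₂ h₃, mul_zero] at e1
      have e2 := hβ' (x * ⟨l, h₁⟩ * x⁻¹)
      rw [show ((x * ⟨l, h₁⟩ * x⁻¹ : H₁) : Γ) = (x : Γ) * l * (x : Γ)⁻¹ from rfl] at e2
      rw [e2]
      exact_mod_cast e1)
  have e1 := hβ' (⟨t, ht₁⟩ ^ k)
  have e2 := hβ' (x * ⟨t, ht₁⟩ ^ k * x⁻¹)
  have e3 : β (⟨t, ht₁⟩ ^ k) = β (x * ⟨t, ht₁⟩ ^ k * x⁻¹) := by
    rw [← e1, ← e2]
    exact h1
  have e4 := H ⟨t, ht₁⟩ k (hG₀ _ (H₁.zpow_mem ht₁ k) hkG)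
  have e5 := H (x * ⟨t, ht₁⟩ * x⁻¹) k (by
    rw [conj_zpow]
    exact hG₀ _ (x * ⟨t, ht₁⟩ ^ k * x⁻¹ : H₁).2 (Subgroup.Normal.conj_mem hn _ hkG x))
  rw [conj_zpow, ← e3, e4] at e5
  exact mul_left_cancel₀ (mul_ne_zero hm' hk') e5

end

end Run7.h574
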