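import Mathlib

/-!
# Definitions for the statements about LERF free-by-cyclic groups
-/

set_option autoImplicit false

namespace Run7.h574.Spec

/-- `G` is locally extended residually finite: every finitely generated subgroup is the
intersection of the subgroups of finite index which contain it. -/
def LERF (G : Type) [Group G] : Prop :=
  ∀ H : Subgroup G, H.FG → ∀ g : G, g ∉ H → ∃ K : Subgroup G, K.FiniteIndex ∧ H ≤ K ∧ g ∉ K

/-- The right-angled Artin group of a graph: one generator for each vertex, and the generators of
two adjacent vertices commute. -/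
abbrev ArtinGroup {V : Type} (Γ : SimpleGraph V) : Type :=
  PresentedGroup {r : FreeGroup V | ∃ s t, Γ.Adj s t ∧
    r = FreeGroup.of s * FreeGroup.of t * (FreeGroup.of s)⁻¹ * (FreeGroup.of t)⁻¹}

/-- A subgroup of finite index of `G` embeds into the right-angled Artin group of a finite graph. -/
def VirtuallySpecial (G : Type) [Group G] : Prop :=
  ∃ (K : Subgroup G) (V : Type) (_ : Finite V) (Γ : SimpleGraph V) (f : K →* ArtinGroup Γ),
    K.FiniteIndex ∧ Function.Injective f

/-- The action of `G` on the tree `T`; the fibre is the kernel of `χ`. Every edge has a cyclic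
pointwise stabilizer in the fibre, and its ends are fixed by an element outside the fibre, the
stabilizers in the fibre of the vertices are finitely generated and none of them is the fibre. -/
structure CyclicAction {G : Type} [Group G] (χ : G →* Multiplicative ℤ) {V : Type}
    [MulAction G V] (T : SimpleGraph V) : Prop where
  tree : T.IsTree
  adj : ∀ (g : G) (x y : V), T.Adj x y → T.Adj (g • x) (g • y)
  cyclic : ∀ x y : V, T.Adj x y →
    IsCyclic (χ.ker ⊓ MulAction.stabilizer G x ⊓ MulAction.stabilizer G y : Subgroup G)
  transverse : ∀ x y : V, T.Adj x y → ∃ u : G, u • x = x ∧ u • y = y ∧ χ u ≠ 1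
  fg : ∀ x : V, (χ.ker ⊓ MulAction.stabilizer G x).FG
  noFixed : ∀ x : V, ∃ g ∈ χ.ker, g • x ≠ x

/-- The smallest class of groups with a homomorphism `χ` to the integers which contains the
virtually special groups and the groups for which the kernel of `χ` is free of rank two, which
contains a group if it contains one of its subgroups of finite index, and which contains a group if
it acts on a tree as above and the stabilizers of all vertices with a noncyclic intersection with
the kernel of `χ` are in the class. -/
inductive Hierarchy : (G : Type) → [Group G] → (G →* Multiplicative ℤ) → Prop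
  | special {G : Type} [Group G] (χ : G →* Multiplicative ℤ) :
      VirtuallySpecial G → Hierarchy G χ
  | rankTwo {G : Type} [Group G] (χ : G →* Multiplicative ℤ) :
      Nonempty (χ.ker ≃* FreeGroup (Fin 2)) → Hierarchy G χ
  | finiteIndex {G : Type} [Group G] (χ : G →* Multiplicative ℤ) (K : Subgroup G) :
      K.FiniteIndex → Hierarchy K (χ.comp K.subtype) → Hierarchy G χ
  | split {G : Type} [Group G] (χ : G →* Multiplicative ℤ) {V : Type} [MulAction G V]
      (T : SimpleGraph V) : CyclicAction χ T →
      (∀ v : V, ¬ IsCyclic (χ.ker ⊓ MulAction.stabilizer G v : Subgroup G) →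
        Hierarchy (MulAction.stabilizer G v) (χ.comp (MulAction.stabilizer G v).subtype)) →
      Hierarchy G χ

/-- Properties which all torsion-free groups hyperbolic relative to a family of proper subgroups
have: the peripheral subgroups are proper and almost malnormal, and every free abelian subgroup of
rank two is conjugate into one of them. -/
def PeripheralStructure (G : Type) [Group G] : Prop :=
  ∃ Ps : Set (Subgroup G), (∀ P ∈ Ps, P ≠ ⊤) ∧
    (∀ P ∈ Ps, ∀ Q ∈ Ps, ∀ g : G,
      ((P ⊓ Q.map (MulAut.conj g).toMonoidHom : Subgroup G) : Set G).Infinite → P = Q ∧ g ∈ P) ∧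
    ∀ a b : G, Commute a b → (∀ m n : ℤ, a ^ m * b ^ n = 1 → m = 0 ∧ n = 0) →
      ∃ P ∈ Ps, ∃ g : G, g * a * g⁻¹ ∈ P ∧ g * b * g⁻¹ ∈ P

end Run7.h574.Spec
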