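import Pool.Agent.Run7.h574.Core

/-!
# Virtual homomorphisms to the integers
-/

set_option autoImplicit false
set_option linter.unusedSectionVars false
set_option linter.dupNamespace false

namespace Run7.h574

/-- Two elements without a common positive power are separated by a homomorphism to the integers on
a subgroup of finite index. -/
def HSep (R : Type) [Group R] : Prop :=
  ∀ t y : R, (∀ N : ℤ, 0 < N → t ^ N ≠ y ^ N) →
    ∃ (K : Subgroup R) (β : R → ℤ) (N : ℤ), K.FiniteIndex ∧ HomOn K β ∧ 0 < N ∧ t ^ N ∈ K ∧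
      y ^ N ∈ K ∧ β (t ^ N) ≠ β (y ^ N)

section

variable {R : Type} [Group R]

variable (R) in
/-- the homogeneous functions given by virtual homomorphisms -/
def VF : Submodule ℚ (R → ℚ) where
  carrier := {f | ∃ (K : Subgroup R) (β : R → ℤ) (m : ℤ), K.FiniteIndex ∧ HomOn K β ∧ 0 < m ∧
    ∀ (g : R) (n : ℤ), g ^ n ∈ K → (β (g ^ n) : ℚ) = m * n * f g}
  add_mem' := by
    rintro f f' ⟨K, β, m, hK, hβ, hm, h⟩ ⟨K', β', m', hK', hβ', hm', h'⟩
    refine ⟨K ⊓ K', fun g => m' * β g + m * β' g, m * m', inferInstance, ?_, mul_pos hm hm', ?_⟩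
    · intro a ha b hb
      simp only [hβ a ha.1 b hb.1, hβ' a ha.2 b hb.2]
      ring
    · intro g n hg
      have h1 := h g n hg.1
      have h2 := h' g n hg.2
      push_cast
      rw [h1, h2]
      show _ = (m : ℚ) * m' * n * (f g + f' g)
      ring
  zero_mem' := ⟨⊤, fun _ => 0, 1, inferInstance, fun _ _ _ _ => rfl, one_pos, fun g n _ => by simp⟩
  smul_mem' := by
    rintro c f ⟨K, β, m, hK, hβ, hm, h⟩
    refine ⟨K, fun g => c.num * β g, m * c.den, hK, ?_, mul_pos hm (by exact_mod_cast c.den_pos), ?_⟩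
    · intro a ha b hb
      simp only [hβ a ha b hb]
      ring
    · intro g n hg
      have h1 := h g n hg
      have h2 : (c.den : ℚ) * c = c.num := by
        have := Rat.den_mul_eq_num c
        exact_mod_cast this
      push_cast
      rw [h1, ← h2]
      show _ = (m : ℚ) * c.den * n * (c * f g)
      ring

lemma exists_vf {K : Subgroup R} (hK : K.FiniteIndex) {β : R → ℤ} (hβ : HomOn K β) :
    ∃ f ∈ VF R, ∀ (g : R) (n : ℤ), g ^ n ∈ K → (β (g ^ n) : ℚ) = n * f g := by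
  choose e he he' using exists_pow_mem K
  have key : ∀ (g : R) (n : ℤ), g ^ n ∈ K →
      (β (g ^ n) : ℚ) = n * ((β (g ^ (e g)) : ℚ) / (e g)) := by
    intro g n hg
    have h1 : β (g ^ (n * e g)) = e g * β (g ^ n) := by rw [zpow_mul, hβ.zpow hg]
    have h2 : β (g ^ (n * e g)) = n * β (g ^ (e g)) := by rw [mul_comm, zpow_mul, hβ.zpow (he' g)]
    have h3 : (e g : ℚ) ≠ 0 := by
      have := he g
      exact_mod_cast this.ne'
    rw [mul_div_assoc', eq_div_iff h3]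
    have h4 : e g * β (g ^ n) = n * β (g ^ (e g)) := by rw [← h1, h2]
    have h5 : ((e g * β (g ^ n) : ℤ) : ℚ) = ((n * β (g ^ (e g)) : ℤ) : ℚ) := by rw [h4]
    push_cast at h5
    linarith
  refine ⟨fun g => (β (g ^ (e g)) : ℚ) / (e g), ⟨K, β, 1, hK, hβ, one_pos, ?_⟩, key⟩
  intro g n hg
  rw [key g n hg]
  push_cast
  ring

lemma vf_zpow {f : R → ℚ} (hf : f ∈ VF R) (g : R) (j : ℤ) : f (g ^ j) = j * f g := by
  obtain ⟨K, β, m, hK, hβ, hm, h⟩ := hf
  obtain ⟨n, hn, hnK⟩ := exists_pow_mem K g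
  have h1 : (g ^ j) ^ n ∈ K := by
    rw [← zpow_mul, mul_comm, zpow_mul]
    exact K.zpow_mem hnK j
  have h2 := h (g ^ j) n h1
  have h3 := h g n hnK
  have h4 : β ((g ^ j) ^ n) = j * β (g ^ n) := by
    rw [← zpow_mul, mul_comm, zpow_mul, hβ.zpow hnK]
  rw [h4] at h2
  push_cast at h2
  rw [h3] at h2
  have hm' : (m : ℚ) ≠ 0 := by exact_mod_cast hm.ne'
  have hn' : (n : ℚ) ≠ 0 := by exact_mod_cast hn.ne'
  have h5 : (m : ℚ) * n * f (g ^ j) = m * n * (j * f g) := by rw [← h2]; ring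
  exact mul_left_cancel₀ (mul_ne_zero hm' hn') h5

lemma vf_mul {f : R → ℚ} (hf : f ∈ VF R) {g h : R} (hgh : g * h = h * g) :
    f (g * h) = f g + f h := by
  obtain ⟨K, β, m, hK, hβ, hm, H⟩ := hf
  obtain ⟨n, hn, hnK⟩ := exists_pow_mem K g
  obtain ⟨n', hn', hnK'⟩ := exists_pow_mem K h
  have h1 : g ^ (n * n') ∈ K := by rw [zpow_mul]; exact K.zpow_mem hnK _
  have h2 : h ^ (n * n') ∈ K := by rw [mul_comm, zpow_mul]; exact K.zpow_mem hnK' _
  have hc : Commute g h := hgh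
  have h3 : (g * h) ^ (n * n') = g ^ (n * n') * h ^ (n * n') := hc.mul_zpow _
  have h4 := H (g * h) (n * n') (by rw [h3]; exact K.mul_mem h1 h2)
  rw [h3, hβ _ h1 _ h2] at h4
  push_cast at h4
  rw [H g (n * n') h1, H h (n * n') h2] at h4
  have hm' : (m : ℚ) ≠ 0 := by exact_mod_cast hm.ne'
  have hn1 : (n : ℚ) ≠ 0 := by exact_mod_cast hn.ne'
  have hn2 : (n' : ℚ) ≠ 0 := by exact_mod_cast hn'.ne'
  have h5 : (m : ℚ) * (n * n') * f (g * h) = m * (n * n') * (f g + f h) := by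
    rw [← h4]; push_cast; ring
  exact mul_left_cancel₀ (mul_ne_zero hm' (mul_ne_zero hn1 hn2)) h5

lemma HSep.eq (hR : HSep R) {t y : R} (h : ∀ f ∈ VF R, f t = f y) : ∃ N : ℤ, 0 < N ∧ t ^ N = y ^ N := by
  by_contra hne
  push Not at hne
  obtain ⟨K, β, N, hK, hβ, hN, ht, hy, hty⟩ := hR t y hne
  obtain ⟨f, hf, hf'⟩ := exists_vf hK hβ
  apply hty
  have h1 := hf' t N ht
  have h2 := hf' y N hy
  rw [h f hf, ← h2] at h1
  exact_mod_cast h1

/-- Linear duality. -/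
theorem duality (hR : HSep R) {t w x : R} (htw : t * w = w * t)
    (H : ∀ f ∈ VF R, f w = 0 → f (x * w * x⁻¹) = 0 → f t = f (x * t * x⁻¹)) :
    ∃ j a b : ℤ, 0 < j ∧ t ^ j * w ^ a = x * (t ^ j * w ^ b) * x⁻¹ := by
  let ev : R → (VF R →ₗ[ℚ] ℚ) := fun g => (LinearMap.proj g).comp (VF R).subtype
  have hev : ∀ g (f : VF R), ev g f = (f : R → ℚ) g := fun g f => rfl
  have h1 : ev t - ev (x * t * x⁻¹) ∈ Submodule.span ℚ (Set.range ![ev w, ev (x * w * x⁻¹)]) := by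
    apply mem_span_of_iInf_ker_le_ker
    intro f hf
    rw [Submodule.mem_iInf] at hf
    have e0 : ev w f = 0 := hf 0
    have e1 : ev (x * w * x⁻¹) f = 0 := hf 1
    show (ev t - ev (x * t * x⁻¹)) f = 0
    rw [LinearMap.sub_apply, hev, hev, H f f.2 e0 e1, sub_self]
  rw [Submodule.mem_span_range_iff_exists_fun] at h1
  obtain ⟨c, hc⟩ := h1
  rw [Fin.sum_univ_two] at hc
  have h2 : ∀ f ∈ VF R, c 0 * f w + c 1 * f (x * w * x⁻¹) = f t - f (x * t * x⁻¹) := by
    intro f hf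
    have := LinearMap.congr_fun hc ⟨f, hf⟩
    simpa [hev] using this
  -- common denominator
  let D : ℤ := (c 0).den * (c 1).den
  have hD : 0 < D := mul_pos (by exact_mod_cast (c 0).den_pos) (by exact_mod_cast (c 1).den_pos)
  let p0 : ℤ := (c 0).num * (c 1).den
  let p1 : ℤ := (c 1).num * (c 0).den
  have hp0 : (p0 : ℚ) = D * c 0 := by
    have : ((c 0).den : ℚ) * c 0 = (c 0).num := by
      have := Rat.den_mul_eq_num (c 0)
      exact_mod_cast this
    show (((c 0).num * (c 1).den : ℤ) : ℚ) = (((c 0).den * (c 1).den : ℤ) : ℚ) * c 0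
    push_cast
    rw [← this]; ring
  have hp1 : (p1 : ℚ) = D * c 1 := by
    have : ((c 1).den : ℚ) * c 1 = (c 1).num := by
      have := Rat.den_mul_eq_num (c 1)
      exact_mod_cast this
    show (((c 1).num * (c 0).den : ℤ) : ℚ) = (((c 0).den * (c 1).den : ℤ) : ℚ) * c 1
    push_cast
    rw [← this]; ring
  have hcm : Commute t w := htw
  clear_value D p0 p1
  obtain ⟨N, hN, hN'⟩ := hR.eq (t := t ^ D * w ^ (-p0)) (y := x * (t ^ D * w ^ p1) * x⁻¹) (by
    intro f hf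
    have e1 : x * (t ^ D * w ^ p1) * x⁻¹ = (x * t * x⁻¹) ^ D * (x * w * x⁻¹) ^ p1 := by
      rw [conj_zpow, conj_zpow]; group
    have e2 : (x * t * x⁻¹) ^ D * (x * w * x⁻¹) ^ p1 = (x * w * x⁻¹) ^ p1 * (x * t * x⁻¹) ^ D := by
      rw [conj_zpow, conj_zpow]
      have := (hcm.zpow_zpow D p1).eq
      calc x * t ^ D * x⁻¹ * (x * w ^ p1 * x⁻¹) = x * (t ^ D * w ^ p1) * x⁻¹ := by group
        _ = x * (w ^ p1 * t ^ D) * x⁻¹ := by rw [this]
        _ = _ := by group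
    rw [e1, vf_mul hf e2, vf_mul hf (hcm.zpow_zpow D (-p0)).eq, vf_zpow hf, vf_zpow hf,
      vf_zpow hf, vf_zpow hf]
    have h3 := h2 f hf
    have h4 : (D : ℚ) * (c 0 * f w + c 1 * f (x * w * x⁻¹)) = D * (f t - f (x * t * x⁻¹)) := by
      rw [h3]
    push_cast
    rw [hp0, hp1]
    linarith)
  refine ⟨D * N, -p0 * N, p1 * N, mul_pos hD hN, ?_⟩
  have e1 : (t ^ D * w ^ (-p0)) ^ N = t ^ (D * N) * w ^ (-p0 * N) := by
    rw [(hcm.zpow_zpow D (-p0)).mul_zpow, zpow_mul t D N, zpow_mul w (-p0) N]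
  have e2 : (x * (t ^ D * w ^ p1) * x⁻¹) ^ N = x * (t ^ (D * N) * w ^ (p1 * N)) * x⁻¹ := by
    rw [conj_zpow, (hcm.zpow_zpow D p1).mul_zpow, zpow_mul t D N, zpow_mul w p1 N]
  rw [← e1, ← e2, hN']

end

end Run7.h574
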